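import Mathlib

/-!
# Iterated exponentials

`EB f`: the function `f : ℕ → ℕ` is bounded by an iterated exponential `tw c`.  This class is
closed under all the operations used in the bounds of the algorithm.
-/

set_option autoImplicit false

namespace Pool.Agent.MDF

/-- The iterated exponential: `tw 0 n = n + 2`, `tw (c + 1) n = 2 ^ tw c n`. -/
def tw : ℕ → ℕ → ℕ
  | 0, n => n + 2
  | c + 1, n => 2 ^ tw c n

@[simp] theorem tw_zero (n : ℕ) : tw 0 n = n + 2 := rfl
@[simp] theorem tw_succ (c n : ℕ) : tw (c + 1) n = 2 ^ tw c n := rfl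

theorem two_le_tw (c n : ℕ) : 2 ≤ tw c n := by
  induction c with
  | zero => simp
  | succ c ih =>
    rw [tw_succ]
    calc 2 ≤ tw c n := ih
      _ ≤ 2 ^ tw c n := Nat.lt_two_pow_self.le

theorem tw_pos (c n : ℕ) : 0 < tw c n := lt_of_lt_of_le (by norm_num) (two_le_tw c n)

theorem tw_le_succ (c n : ℕ) : tw c n ≤ tw (c + 1) n := Nat.lt_two_pow_self.le

theorem tw_mono_left {c c' : ℕ} (h : c ≤ c') (n : ℕ) : tw c n ≤ tw c' n :=
  monotone_nat_of_le_succ (f := fun c => tw c n) (fun c => tw_le_succ c n) h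

theorem tw_mono_right (c : ℕ) {n n' : ℕ} (h : n ≤ n') : tw c n ≤ tw c n' := by
  induction c with
  | zero => simpa using h
  | succ c ih => exact Nat.pow_le_pow_right (by norm_num) ih

theorem self_le_tw (c n : ℕ) : n ≤ tw c n := by
  calc n ≤ tw 0 n := by simp
    _ ≤ tw c n := tw_mono_left (Nat.zero_le c) n

theorem tw_add_self (c n : ℕ) : tw c n + tw c n ≤ tw (c + 1) n := by
  have h := two_le_tw c n
  rw [tw_succ]
  generalize tw c n = x at *
  induction x with
  | zero => omega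
  | succ x ih =>
    rcases Nat.lt_or_ge x 2 with h1 | h1
    · interval_cases x <;> simp_all
    · have := ih h1
      rw [pow_succ]
      omega

theorem tw_mul_self (c n : ℕ) : tw c n * tw c n ≤ tw (c + 2) n := by
  calc tw c n * tw c n ≤ 2 ^ tw c n * 2 ^ tw c n :=
        Nat.mul_le_mul Nat.lt_two_pow_self.le Nat.lt_two_pow_self.le
    _ = 2 ^ (tw c n + tw c n) := by rw [pow_add]
    _ ≤ 2 ^ tw (c + 1) n := Nat.pow_le_pow_right (by norm_num) (tw_add_self c n)

theorem tw_pow_self (c n : ℕ) : tw c n ^ tw c n ≤ tw (c + 3) n := by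
  calc tw c n ^ tw c n ≤ (2 ^ tw c n) ^ tw c n := Nat.pow_le_pow_left Nat.lt_two_pow_self.le _
    _ = 2 ^ (tw c n * tw c n) := by rw [pow_mul]
    _ ≤ 2 ^ tw (c + 2) n := Nat.pow_le_pow_right (by norm_num) (tw_mul_self c n)

theorem tw_tw (c c' n : ℕ) : tw c (tw c' n) ≤ tw (c + c' + 1) n := by
  induction c with
  | zero =>
    rw [tw_zero, Nat.zero_add]
    have h1 := two_le_tw c' n
    have h2 := tw_add_self c' n
    omega
  | succ c ih =>
    rw [tw_succ, show c + 1 + c' + 1 = (c + c' + 1) + 1 by ring, tw_succ]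
    exact Nat.pow_le_pow_right (by norm_num) ih

/-- Bounded by an iterated exponential. -/
@[fun_prop]
def EB (f : ℕ → ℕ) : Prop := ∃ c, ∀ n, f n ≤ tw c n

theorem EB.mono {f g : ℕ → ℕ} (hg : EB g) (h : ∀ n, f n ≤ g n) : EB f := by
  obtain ⟨c, hc⟩ := hg
  exact ⟨c, fun n => (h n).trans (hc n)⟩

@[fun_prop] theorem EB.tw (c : ℕ) : EB (MDF.tw c) := ⟨c, fun _ => le_rfl⟩

@[fun_prop] theorem EB.id : EB fun n => n := ⟨0, fun n => by simp⟩

@[fun_prop] theorem EB.const (k : ℕ) : EB fun _ => k := by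
  refine ⟨k, fun n => ?_⟩
  change k ≤ MDF.tw k n
  induction k with
  | zero => exact Nat.zero_le _
  | succ k ih =>
    have h1 := tw_add_self k n
    have h2 := two_le_tw k n
    omega

/-- Two functions with a common bound. -/
theorem EB.common {f g : ℕ → ℕ} (hf : EB f) (hg : EB g) :
    ∃ c, ∀ n, f n ≤ MDF.tw c n ∧ g n ≤ MDF.tw c n := by
  obtain ⟨c, hc⟩ := hf
  obtain ⟨c', hc'⟩ := hg
  exact ⟨max c c', fun n => ⟨(hc n).trans (tw_mono_left (le_max_left _ _) n),
    (hc' n).trans (tw_mono_left (le_max_right _ _) n)⟩⟩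

@[fun_prop] theorem EB.add {f g : ℕ → ℕ} (hf : EB f) (hg : EB g) : EB fun n => f n + g n := by
  obtain ⟨c, hc⟩ := hf.common hg
  exact ⟨c + 1, fun n => (Nat.add_le_add (hc n).1 (hc n).2).trans (tw_add_self c n)⟩

@[fun_prop] theorem EB.mul {f g : ℕ → ℕ} (hf : EB f) (hg : EB g) : EB fun n => f n * g n := by
  obtain ⟨c, hc⟩ := hf.common hg
  exact ⟨c + 2, fun n => (Nat.mul_le_mul (hc n).1 (hc n).2).trans (tw_mul_self c n)⟩

@[fun_prop] theorem EB.pow {f g : ℕ → ℕ} (hf : EB f) (hg : EB g) : EB fun n => f n ^ g n := by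
  obtain ⟨c, hc⟩ := hf.common hg
  refine ⟨c + 3, fun n => le_trans ?_ (tw_pow_self c n)⟩
  calc f n ^ g n ≤ MDF.tw c n ^ g n := Nat.pow_le_pow_left (hc n).1 _
    _ ≤ MDF.tw c n ^ MDF.tw c n := Nat.pow_le_pow_right (tw_pos c n) (hc n).2

@[fun_prop] theorem EB.comp {f g : ℕ → ℕ} (hf : EB f) (hg : EB g) : EB fun n => f (g n) := by
  obtain ⟨c, hc⟩ := hf
  obtain ⟨c', hc'⟩ := hg
  exact ⟨c + c' + 1, fun n => (hc _).trans ((tw_mono_right c (hc' n)).trans (tw_tw c c' n))⟩

theorem EB.sub {f g : ℕ → ℕ} (hf : EB f) : EB fun n => f n - g n :=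
  hf.mono fun _ => Nat.sub_le _ _

theorem EB.div {f g : ℕ → ℕ} (hf : EB f) : EB fun n => f n / g n :=
  hf.mono fun _ => Nat.div_le_self _ _

theorem EB.min_left {f g : ℕ → ℕ} (hf : EB f) : EB fun n => min (f n) (g n) :=
  hf.mono fun _ => min_le_left _ _

theorem EB.min_right {f g : ℕ → ℕ} (hg : EB g) : EB fun n => min (f n) (g n) :=
  hg.mono fun _ => min_le_right _ _

@[fun_prop] theorem EB.max {f g : ℕ → ℕ} (hf : EB f) (hg : EB g) : EB fun n => max (f n) (g n) :=
  (hf.add hg).mono fun n => by omega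

@[fun_prop] theorem EB.factorial {f : ℕ → ℕ} (hf : EB f) : EB fun n => (f n).factorial :=
  (hf.pow hf).mono fun n => Nat.factorial_le_pow (f n)

/-- Every function bounded by an iterated exponential is bounded by a monotone one. -/
theorem EB.exists_mono {f : ℕ → ℕ} (hf : EB f) :
    ∃ g, EB g ∧ Monotone g ∧ (∀ n, f n ≤ g n) ∧ ∀ n, 1 ≤ g n := by
  obtain ⟨c, hc⟩ := hf
  exact ⟨MDF.tw c, EB.tw c, fun _ _ h => tw_mono_right c h, hc, fun n => tw_pos c n⟩

/-- Linear recursion. -/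
theorem lin_rec {x : ℕ → ℕ} {K T : ℕ} (h : ∀ i < T, x (i + 1) ≤ K * (x i + 1)) :
    x T + 1 ≤ (K + 1) ^ T * (x 0 + 1) := by
  induction T with
  | zero => simp
  | succ T ih =>
    have h1 := ih fun i hi => h i (by omega)
    have h2 := h T (by omega)
    calc x (T + 1) + 1 ≤ K * (x T + 1) + 1 := by omega
      _ ≤ (K + 1) * (x T + 1) := by
        rw [Nat.add_mul, Nat.one_mul]; omega
      _ ≤ (K + 1) * ((K + 1) ^ T * (x 0 + 1)) := Nat.mul_le_mul_left _ h1
      _ = (K + 1) ^ (T + 1) * (x 0 + 1) := by rw [pow_succ]; ring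

example (f g : ℕ → ℕ) (hf : EB f) (hg : EB g) :
    EB fun n => (f n + 2 * g n + 1) ^ (n * n) * (f (g n + 1)).factorial + 7 := by fun_prop

end Pool.Agent.MDF
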