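import Pool.Agent.MDF.LLL

/-!
# The algorithm for the monoid decomposition problem

All loops are run `fu` times, `fu` being a large unary number, the fuel.
-/

set_option autoImplicit false

namespace Pool.Agent.MDF

open Pool.Agent.PF

/-! ### The basic search: a point or a flat direction -/

/-- A result: `(0, ..)` nothing yet, `(1, x, ..)` the point `x`, `(2, _, U, W, v)` flat in the
direction of the first row of the unimodular matrix `U` with inverse `W`, `(3, ..)` empty. -/
abbrev Res := ℕ × ZV × ZM × ZM × ℤ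

/-- Oracles: `none` means accepted, `some h` is a separating vector. -/
abbrev Orc := ZV → Option ZV

/-- The denominator constant. -/
def R0c (n : ℕ) : ℤ := 256 * (n * n * n * n * n)

/-- The new vertices (over the new denominator, which is `R0c n` times the old one). -/
def cutV (n : ℕ) (V : ZM) (g : ZV) : ZM :=
  let k := ((findN (n + 1) fun i => (tab (n + 1) fun j => decide (g1 g i ≤ g1 g j)).all id)).getD 0
  let a := 16 * (n * n * n * n : ℤ) * - g1 g k
  tabM (n + 1) n fun i l => if i = k then R0c n * g2 V k l else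
    R0c n * g2 V k l + cdiv (R0c n * a) (a + g1 g i) * (g2 V i l - g2 V k l)

/-- One step of the search: state (denominator, vertices, result). -/
def flatStep (fu n : ℕ) (G : ℤ) (orc : Orc) (p : ℤ × ZM × Res) : ℤ × ZM × Res :=
  if p.2.2.1 = 0 then
    let q := p.1
    let V := p.2.1
    let L := lll fu n (tabM n n fun l i => g2 V (i + 1) l - g2 V 0 l)
    if dot n (row L.1 0) (row L.1 0) < (G * q) * (G * q) then
      (q, V, 2, [], L.2.1, L.2.2, dot n (row L.2.1 0) (row V 0) / q)
    else
      let s := tab n fun l => sumz (n + 1) fun i => g2 V i l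
      let y := tab n fun i => rdiv (dot n (row L.2.1 i) s) ((n + 1) * q)
      let x := tab n fun l => dot n (row L.2.2 l) y
      oc (orc x) (q, V, 1, x, [], [], 0) fun h =>
        let g := tab (n + 1) fun i => dot n h (row V i) - q * dot n h x
        if (tab (n + 1) fun i => decide (0 ≤ g1 g i)).all id then (q, V, 3, [], [], [], 0)
        else (R0c n * q, cutV n V g, 0, [], [], [], 0)
  else p

/-- The first simplex, containing the box of radius `2 ^ r`. -/
def simp0 (n r : ℕ) : ZM :=
  tabM (n + 1) n fun i l => if i = l + 1 then - pow2 r + n * pow2 (r + 1) else - pow2 r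

/-- The basic search in the box of radius `2 ^ r`. -/
def flat (fu n : ℕ) (G : ℤ) (r : ℕ) (orc : Orc) : Res :=
  if n = 0 then oc (orc []) (1, [], [], [], 0) fun _ => (3, [], [], [], 0)
  else (bIter fu fu (flatStep fu n G orc) (1, simp0 n r, 0, [], [], [], 0)).2.2

/-! ### Search for an integer point -/

/-- An affine map `ℤ^m → ℤ^n`. -/
def aff (n m : ℕ) (F : ZM) (f0 x : ZV) : ZV := tab n fun a => dot m (row F a) x + g1 f0 a

/-- Pull back of a linear form. -/
def pull (n m : ℕ) (F : ZM) (h : ZV) : ZV := tab m fun j => sumz n fun a => g1 h a * g2 F a j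

/-- Restriction of an affine map to a slice. -/
def sliceF (n m : ℕ) (F W : ZM) : ZM :=
  tabM n (m - 1) fun a j => sumz m fun i => g2 F a i * g2 W i (j + 1)

/-- The new origin. -/
def sliceO (n m : ℕ) (F W : ZM) (f0 : ZV) (c : ℤ) : ZV :=
  tab n fun a => g1 f0 a + (sumz m fun i => g2 F a i * g2 W i 0) * c

/-- Digit `t` of `g` in base `b`. -/
def dig (fu b g t : ℕ) : ℕ := (g / tpow fu b t) % b

/-- State of a search path: step, status (0 running, 1 found, 2 failed), point, dimension, affine
map, radius. -/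
abbrev SS := ℕ × ℕ × ZV × ℕ × ZM × ZV × ℕ

/-- One step of a search path. -/
def pathStep (fu n : ℕ) (G : ℤ) (Gb : ℕ) (orc : Orc) (g : ℕ) (p : SS) : SS :=
  let t := p.1
  let st := p.2.1
  let m := p.2.2.2.1
  let F := p.2.2.2.2.1
  let f0 := p.2.2.2.2.2.1
  let r := p.2.2.2.2.2.2
  if st = 0 then
    let o := flat fu m G r fun x => (orc (aff n m F f0 x)).map (pull n m F)
    if o.1 = 1 then (t + 1, 1, aff n m F f0 o.2.1, m, F, f0, r)
    else if o.1 = 2 then
      let U := o.2.2.1
      let W := o.2.2.2.1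
      let c := o.2.2.2.2 - (G + 1) + dig fu Gb g t
      (t + 1, 0, [], m - 1, sliceF n m F W, sliceO n m F W f0 c, r + blM U + m)
    else (t + 1, 2, [], m, F, f0, r)
  else p

/-- A search path. -/
def path (fu n : ℕ) (G : ℤ) (Gb r : ℕ) (orc : Orc) (g : ℕ) : Option ZV :=
  let p := bIter fu (n + 1) (pathStep fu n G Gb orc g) (0, 0, [], n, idM n, tab n fun _ => 0, r)
  if p.2.1 = 1 then some p.2.2.1 else none

/-- Flatness constant `12 n³ (n + 1) 3ⁿ`. -/
def Gc (fu n : ℕ) : ℕ := min (12 * (n * n * n) * (n + 1) * tpow fu 3 n) fu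

/-- Search for an integer point. -/
def search (fu n r : ℕ) (orc : Orc) : Option ZV :=
  firstSome (tab fu fun g => path fu n (Gc fu n) (2 * Gc fu n + 3) r orc g)

/-! ### Systems of inequalities and cones -/

/-- Inequalities `u · x ≤ β`. -/
abbrev Rows := List (ZV × ℤ)

/-- The first violated inequality. -/
def orcRows (n : ℕ) (rows : Rows) : Orc := fun x =>
  (rows.find? fun p => decide (p.2 < dot n p.1 x)).map Prod.fst

/-- Integer feasibility in the box of radius `2 ^ r`. -/
def ilp (fu n r : ℕ) (rows : Rows) : Option ZV := search fu n r (orcRows n rows)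

/-- A family of columns: dimension `e`, radius, inequalities, column map `x ↦ C x + c`. -/
abbrev CP := ℕ × ℕ × Rows × ZM × ZV

/-- The oracle of the dual problem: `w · t ≤ -1`, `0 ≤ w · c` for all the columns `c`. -/
def orcCone (fu D : ℕ) (ps : List CP) (t : ZV) : Orc := fun w =>
  if 0 ≤ dot D w t then some t
  else firstSome (ps.map fun p =>
    (ilp fu p.1 p.2.1 ((pull D p.1 p.2.2.2.1 w, -1 - dot D w p.2.2.2.2) :: p.2.2.1)).map fun x =>
      tab D fun l => - (dot p.1 (row p.2.2.2.1 l) x + g1 p.2.2.2.2 l))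

/-- Bound for the bit lengths of the columns and the target. -/
def coneB (ps : List CP) (t : ZV) : ℕ :=
  (ps.map fun p => blM p.2.2.2.1 + blV p.2.2.2.2 + p.2.1 + p.1 + 1).sum + blV t

/-- Either a vector separating `t` from the cone generated by the columns, or `none` if `t` is in
the cone. -/
def cone (fu D : ℕ) (ps : List CP) (t : ZV) : Option ZV :=
  search fu D (4 * ((D + 1) * (D + 1)) * (coneB ps t + 1)) (orcCone fu D ps t)

/-! ### The main algorithm -/

/-- A piece: dimension `e`, affine map `ℤ^e → ℤ^d`, radius. -/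
abbrev Piece := ℕ × ZM × ZV × ℕ

/-- The inequalities of a piece. -/
def prow (d : ℕ) (rz : Rows) (P : Piece) : Rows :=
  rz.map fun p => (pull d P.1 P.2.1 p.1, p.2 - dot d p.1 P.2.2.1)

/-- State of the main path: step, status (0 running, 1 accepted, 2 rejected), pieces, number of
equations, unimodular matrix, its inverse, right hand sides. -/
abbrev MS := ℕ × ℕ × List Piece × ℕ × ZM × ZM × ZV

/-- Offset of the block of piece `j`. -/
def off (J : List Piece) (j : ℕ) : ℕ := ((J.take j).map fun P => P.1 + 1).sum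

/-- The constants: `κ`, `k`, `τ`, `G`. -/
def kap (fu d : ℕ) : ℕ := tpow fu 2 d
/-- The modulus `k`. -/
def kkc (fu d : ℕ) : ℕ := tfac fu d
/-- The multiplier `τ`. -/
def tauc (fu d : ℕ) : ℕ := min (2 * kap fu d * ((d + 1) * (d + 1)) * tpow fu (kkc fu d) d) fu

/-- Matrix of the column map of piece `j`. -/
def colM (d : ℕ) (J : List Piece) (k : ℕ) (WM : ZM) (j : ℕ) (P : Piece) : ZM :=
  tabM (d + k) P.1 fun l a => if l < d then g2 P.2.1 l a else g2 WM (l - d) (off J j + a)

/-- Constant term of the column map of piece `j`. -/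
def colO (d : ℕ) (J : List Piece) (k : ℕ) (WM : ZM) (j : ℕ) (P : Piece) : ZV :=
  tab (d + k) fun l => if l < d then g1 P.2.2.1 l else g2 WM (l - d) (off J j + P.1)

/-- The default piece. -/
def pc (J : List Piece) (j : ℕ) : Piece := J.getD j (0, [], [], 0)

/-- The families of columns. -/
def cps (d : ℕ) (rz : Rows) (J : List Piece) (k : ℕ) (WM : ZM) : List CP :=
  tab J.length fun j => let P := pc J j
    (P.1, P.2.2.2, prow d rz P, colM d J k WM j P, colO d J k WM j P)

/-- The target. -/
def tgt (d : ℕ) (a γ : ZV) (k : ℕ) : ZV := tab (d + k) fun l => if l < d then g1 a l else g1 γ (l - d)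

/-- The residue vector with number `σ`. -/
def res (fu kk σ : ℕ) (i : ℕ) : ℕ := dig fu kk σ i

/-- The point `τ s + τ k x'`. -/
def ptE (fu kk τ e σ : ℕ) (x : ZV) : ZV := tab e fun i => τ * res fu kk σ i + τ * kk * g1 x i

/-- The oracle for the usable points of piece `j` in a residue class. -/
def orcE (fu d : ℕ) (rz : Rows) (a : ZV) (s : MS) (j σ : ℕ) : Orc := fun x' =>
  let J := s.2.2.1
  let k := s.2.2.2.1
  let WM := s.2.2.2.2.1
  let γ := s.2.2.2.2.2.2
  let P := pc J j
  let x := ptE fu (kkc fu d) (tauc fu d) P.1 σ x'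
  let C := colM d J k WM j P
  let c0 := colO d J k WM j P
  oc (orcRows P.1 (prow d rz P) x)
    ((cone fu (d + k) (cps d rz J k WM)
      (tab (d + k) fun l => g1 (tgt d a γ k) l - (dot P.1 (row C l) x + g1 c0 l))).map
      (pull (d + k) P.1 C))
    fun h => some h

/-- Flatness constant for pieces. -/
def Gd (fu d : ℕ) : ℕ := Gc fu d

/-- Basic search for a usable point of piece `j` in the residue class `σ`. -/
def flatE (fu d : ℕ) (rz : Rows) (a : ZV) (s : MS) (j σ : ℕ) : Res :=
  let P := pc s.2.2.1 j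
  flat fu P.1 (Gd fu d) (P.2.2.2 + 1) (orcE fu d rz a s j σ)

/-- The total dimension. -/
def totN (J : List Piece) : ℕ := off J J.length

/-- The family of columns of a single piece with counting coordinate. -/
def cp1 (d : ℕ) (rz : Rows) (P : Piece) : CP :=
  (P.1, P.2.2.2, prow d rz P, tabM (P.1 + 1) P.1 fun l a => if l = a then 1 else 0,
    tab (P.1 + 1) fun l => if l = P.1 then 1 else 0)

/-- The point `y` of the block of all the pieces from the free coordinates. -/
def yD (N k : ℕ) (WI : ZM) (γ x : ZV) : ZV :=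
  tab N fun b => (sumz k fun i => g2 WI b i * g1 γ i) + sumz (N - k) fun i => g2 WI b (k + i) * g1 x i

/-- The linear form `l < d` on the blocks. -/
def eqRow (J : List Piece) (l : ℕ) : ZV :=
  (tab J.length fun j => let P := pc J j
    tab (P.1 + 1) fun a => if a < P.1 then g2 P.2.1 l a else g1 P.2.2.1 l).flatten

/-- Restriction of a linear form on the blocks to the free coordinates. -/
def pullD (N k : ℕ) (WI : ZM) (h : ZV) : ZV :=
  tab (N - k) fun i => sumz N fun b => g1 h b * g2 WI b (k + i)

/-- The oracle of the deep region, part of piece `j`. -/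
def orcDj (fu d : ℕ) (rz : Rows) (J : List Piece) (k : ℕ) (WI : ZM) (pts : List (List ZV))
    (y : ZV) (j : ℕ) : Option ZV :=
  let P := pc J j
  let M := (pts.getD j []).length
  (cone fu (P.1 + 1) [cp1 d rz P] (tab (P.1 + 1) fun l =>
    2 * kap fu d * M * g1 y (off J j + l) -
      if l < P.1 then sumz M fun σ => g1 ((pts.getD j []).getD σ []) l else M)).map fun w =>
  pullD (totN J) k WI (tab (totN J) fun b =>
    if off J j ≤ b then (if b ≤ off J j + P.1 then - g1 w (b - off J j) else 0) else 0)

/-- The oracle of the deep region; `pts j` are the certificate points of piece `j`. -/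
def orcD (fu d : ℕ) (rz : Rows) (a : ZV) (s : MS) (pts : List (List ZV)) : Orc := fun x =>
  let J := s.2.2.1
  let k := s.2.2.2.1
  let WI := s.2.2.2.2.2.1
  let γ := s.2.2.2.2.2.2
  let N := totN J
  let y := yD N k WI γ x
  oc (findN d fun l => decide (dot N (eqRow J l) y ≠ g1 a l))
    (firstSome (tab J.length fun j => orcDj fu d rz J k WI pts y j))
    fun l =>
      let h := pullD N k WI (eqRow J l)
      if g1 a l < dot N (eqRow J l) y then some h else some (h.map fun z => -z)

/-- Radius for the deep region. -/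
def radD (d : ℕ) (a : ZV) (s : MS) : ℕ :=
  blV a + d + ((s.2.2.1.map fun P => P.2.2.2).sum) + blM s.2.2.2.2.1 + totN s.2.2.1

/-- The slice `u · x = δ` of a piece. -/
def slice (d : ℕ) (P : Piece) (U W : ZM) (δ : ℤ) : Piece :=
  (P.1 - 1, sliceF d P.1 P.2.1 W, sliceO d P.1 P.2.1 W P.2.2.1 δ, P.2.2.2 + blM U + P.1)

/-- Block diagonal action of `U` on the rows from `k` on. -/
def actU (N k : ℕ) (WM U : ZM) : ZM :=
  tabM N N fun i c => if i < k then g2 WM i c else sumz (N - k) fun j => g2 U (i - k) j * g2 WM (k + j) c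

/-- Block diagonal action of `W` on the columns from `k` on. -/
def actW (N k : ℕ) (WI W : ZM) : ZM :=
  tabM N N fun b c => if c < k then g2 WI b c else sumz (N - k) fun j => g2 WI b (k + j) * g2 W j (c - k)

/-- The guesses. -/
def gss (fu Γ κ g t i : ℕ) : ℕ := dig fu Γ g (t * κ + i)

/-- The base of the guesses. -/
def baseG (fu d N : ℕ) : ℕ :=
  2 * tauc fu d * kkc fu d * (Gd fu d + 1) + 6 * Gc fu N + 10

/-- The default result. -/
def res0 : Res := (0, [], [], [], 0)

/-- Rejection. -/
def rej (t : ℕ) : MS := (t + 1, 2, [], 0, [], [], [])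

/-- The searches in the pieces. -/
def tabE (fu d : ℕ) (rz : Rows) (a : ZV) (s : MS) : List (List Res) :=
  tab s.2.2.1.length fun j => tab (tpow fu (kkc fu d) (pc s.2.2.1 j).1) fun σ =>
    flatE fu d rz a s j σ

/-- The new pieces. -/
def newP (fu d : ℕ) (J : List Piece) (Γ g t j σ : ℕ) (o : Res) : List Piece :=
  let P := pc J j
  let b : ℤ := tauc fu d * (sumz P.1 fun i => g2 o.2.2.1 0 i * res fu (kkc fu d) σ i) +
    tauc fu d * kkc fu d * (o.2.2.2.2 - (Gd fu d + 1))
  J.take j ++ J.drop (j + 1) ++
    ((tab (kap fu d) fun i => gss fu Γ (kap fu d) g t i).filter fun c => decide (c ≠ 0)).map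
      fun (c : ℕ) => slice d P o.2.2.1 o.2.2.2.1 (b + (c : ℤ) - 1)

/-- Splitting piece `j`. -/
def splitJ (fu d : ℕ) (J : List Piece) (Γ g t j σ : ℕ) (o : Res) : MS :=
  let J' := newP fu d J Γ g t j σ o
  if o.1 = 2 then
    if J'.length ≤ kap fu d then (t + 1, 0, J', 0, idM (totN J'), idM (totN J'), []) else rej t
  else rej t

/-- The certificate points. -/
def ptsJ (fu d : ℕ) (J : List Piece) (T : List (List Res)) : List (List ZV) :=
  tab J.length fun j => tab (T.getD j []).length fun σ =>
    ptE fu (kkc fu d) (tauc fu d) (pc J j).1 σ ((T.getD j []).getD σ res0).2.1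

/-- The search in the deep region and the new equation. -/
def deepStep (fu d : ℕ) (rz : Rows) (a : ZV) (Γ g : ℕ) (s : MS) (T : List (List Res)) : MS :=
  let J := s.2.2.1
  let k := s.2.2.2.1
  let N := totN J
  let o := flat fu (N - k) (Gc fu N) (radD d a s) (orcD fu d rz a s (ptsJ fu d J T))
  if o.1 = 1 then (s.1 + 1, 1, s.2.2)
  else if o.1 = 2 then
    (s.1 + 1, 0, J, k + 1, actU N k s.2.2.2.2.1 o.2.2.1, actW N k s.2.2.2.2.2.1 o.2.2.2.1,
      s.2.2.2.2.2.2 ++ [o.2.2.2.2 - (3 * Gc fu N + 3) + gss fu Γ (kap fu d) g s.1 0])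
  else rej s.1

/-- One step of the main path; `Γ` is the base of the guesses, `g` the guesses. -/
def mainStep (fu d : ℕ) (rz : Rows) (a : ZV) (Γ g : ℕ) (s : MS) : MS :=
  if s.2.1 = 0 then
    let T := tabE fu d rz a s
    oc (findN s.2.2.1.length fun j => (T.getD j []).any fun o => decide (o.1 ≠ 1))
      (deepStep fu d rz a Γ g s T)
      fun j => oc (findN (T.getD j []).length fun σ =>
          decide (((T.getD j []).getD σ res0).1 ≠ 1))
        (rej s.1)
        fun σ => splitJ fu d s.2.2.1 Γ g s.1 j σ ((T.getD j []).getD σ res0)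
  else s

/-- The length of the main paths. -/
def lenM (fu d : ℕ) : ℕ := tpow fu (kap fu d + 2) (2 * d + 4)

/-- The inequalities in `ℤ^d`: `A z ≤ b`, `0 ≤ z ≤ a`, `1 ≤ ∑ z`. -/
def rowsZ (d : ℕ) (Ab : Rows) (a : ZV) : Rows :=
  Ab ++ (tab d fun i => (tab d fun l => if l = i then 1 else 0, g1 a i)) ++
    (tab d fun i => (tab d fun l => if l = i then -1 else 0, 0)) ++ [(tab d fun _ => -1, -1)]

/-- The first state. -/
def init (d : ℕ) (a : ZV) : MS :=
  (0, 0, [(d, idM d, tab d fun _ => 0, blV a)], 0, idM (d + 1), idM (d + 1), [])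

/-- The upper bound of the total dimension. -/
def maxN (fu d : ℕ) : ℕ := kap fu d * (d + 1)

/-- The main path with guesses `g`. -/
def mainPath (fu d : ℕ) (Ab : Rows) (a : ZV) (g : ℕ) : Bool :=
  decide ((bIter fu (lenM fu d)
    (mainStep fu d (rowsZ d Ab a) a (baseG fu d (maxN fu d)) g) (init d a)).2.1 = 1)

/-- The algorithm. -/
def decideMD (fu d : ℕ) (Ab : Rows) (a : ZV) : Bool :=
  (tab d fun i => decide (g1 a i = 0)).all id || (tab fu fun g => mainPath fu d Ab a g).any id

end Pool.Agent.MDF
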