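import Pool.Agent.MDF.Alg

/-!
# The algorithm is a polynomial time function
-/

set_option autoImplicit false

namespace Pool.Agent.MDF

open Pool.Agent.PF

variable {α β γ : Type} [VEnc α] [VEnc β] [VEnc γ]

/-! ### The basic search -/

@[fun_prop] theorem pf_R0c {n : α → ℕ} (hn : PF n) : PF (fun x => R0c (n x)) := by
  unfold R0c; fun_prop

@[fun_prop] theorem pf_cutV {n : α → ℕ} {V : α → ZM} {g : α → ZV} (hn : PF n) (hV : PF V)
    (hg : PF g) : PF (fun x => cutV (n x) (V x) (g x)) := by unfold cutV; fun_prop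

@[fun_prop] theorem pf_flatStep {fu n : α → ℕ} {G : α → ℤ} {orc : α → Orc} {p : α → ℤ × ZM × Res}
    (hfu : PF fu) (hn : PF n) (hG : PF G) (ho : PF (fun q : α × ZV => orc q.1 q.2)) (hp : PF p) :
    PF (fun x => flatStep (fu x) (n x) (G x) (orc x) (p x)) := by
  unfold flatStep; fun_prop

@[fun_prop] theorem pf_simp0 {n r : α → ℕ} (hn : PF n) (hr : PF r) :
    PF (fun x => simp0 (n x) (r x)) := by unfold simp0; fun_prop

@[fun_prop] theorem pf_flat {fu n r : α → ℕ} {G : α → ℤ} {orc : α → Orc}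
    (hfu : PF fu) (hn : PF n) (hG : PF G) (hr : PF r) (ho : PF (fun q : α × ZV => orc q.1 q.2)) :
    PF (fun x => flat (fu x) (n x) (G x) (r x) (orc x)) := by
  unfold flat; fun_prop

/-! ### Search -/

@[fun_prop] theorem pf_aff {n m : α → ℕ} {F : α → ZM} {f0 x : α → ZV} (hn : PF n) (hm : PF m)
    (hF : PF F) (hf : PF f0) (hx : PF x) :
    PF (fun a => aff (n a) (m a) (F a) (f0 a) (x a)) := by unfold aff; fun_prop

@[fun_prop] theorem pf_pull {n m : α → ℕ} {F : α → ZM} {h : α → ZV} (hn : PF n) (hm : PF m)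
    (hF : PF F) (hh : PF h) : PF (fun a => pull (n a) (m a) (F a) (h a)) := by
  unfold pull; fun_prop

@[fun_prop] theorem pf_sliceF {n m : α → ℕ} {F W : α → ZM} (hn : PF n) (hm : PF m)
    (hF : PF F) (hW : PF W) : PF (fun a => sliceF (n a) (m a) (F a) (W a)) := by
  unfold sliceF; fun_prop

@[fun_prop] theorem pf_sliceO {n m : α → ℕ} {F W : α → ZM} {f0 : α → ZV} {c : α → ℤ} (hn : PF n)
    (hm : PF m) (hF : PF F) (hW : PF W) (hf : PF f0) (hc : PF c) :
    PF (fun a => sliceO (n a) (m a) (F a) (W a) (f0 a) (c a)) := by unfold sliceO; fun_prop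

@[fun_prop] theorem pf_dig {fu b g t : α → ℕ} (h1 : PF fu) (h2 : PF b) (h3 : PF g) (h4 : PF t) :
    PF (fun a => dig (fu a) (b a) (g a) (t a)) := by unfold dig; fun_prop

@[fun_prop] theorem pf_pathStep {fu n Gb g : α → ℕ} {G : α → ℤ} {orc : α → Orc} {p : α → SS}
    (hfu : PF fu) (hn : PF n) (hG : PF G) (hGb : PF Gb) (ho : PF (fun q : α × ZV => orc q.1 q.2))
    (hg : PF g) (hp : PF p) :
    PF (fun x => pathStep (fu x) (n x) (G x) (Gb x) (orc x) (g x) (p x)) := by
  unfold pathStep; fun_prop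

@[fun_prop] theorem pf_path {fu n Gb r g : α → ℕ} {G : α → ℤ} {orc : α → Orc}
    (hfu : PF fu) (hn : PF n) (hG : PF G) (hGb : PF Gb) (hr : PF r)
    (ho : PF (fun q : α × ZV => orc q.1 q.2)) (hg : PF g) :
    PF (fun x => path (fu x) (n x) (G x) (Gb x) (r x) (orc x) (g x)) := by
  unfold path; fun_prop

@[fun_prop] theorem pf_Gc {fu n : α → ℕ} (h1 : PF fu) (h2 : PF n) :
    PF (fun a => Gc (fu a) (n a)) := by unfold Gc; fun_prop

@[fun_prop] theorem pf_search {fu n r : α → ℕ} {orc : α → Orc}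
    (hfu : PF fu) (hn : PF n) (hr : PF r) (ho : PF (fun q : α × ZV => orc q.1 q.2)) :
    PF (fun x => search (fu x) (n x) (r x) (orc x)) := by
  unfold search; fun_prop

/-! ### Inequalities and cones -/

@[fun_prop] theorem pf_orcRows {n : α → ℕ} {rows : α → Rows} {x : α → ZV} (hn : PF n)
    (hr : PF rows) (hx : PF x) : PF (fun a => orcRows (n a) (rows a) (x a)) := by
  unfold orcRows; fun_prop

@[fun_prop] theorem pf_ilp {fu n r : α → ℕ} {rows : α → Rows} (hfu : PF fu) (hn : PF n)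
    (hr : PF r) (hrows : PF rows) : PF (fun a => ilp (fu a) (n a) (r a) (rows a)) := by
  unfold ilp; fun_prop

@[fun_prop] theorem pf_orcCone {fu D : α → ℕ} {ps : α → List CP} {t w : α → ZV} (hfu : PF fu)
    (hD : PF D) (hps : PF ps) (ht : PF t) (hw : PF w) :
    PF (fun a => orcCone (fu a) (D a) (ps a) (t a) (w a)) := by
  unfold orcCone; fun_prop

@[fun_prop] theorem pf_coneB {ps : α → List CP} {t : α → ZV} (hps : PF ps) (ht : PF t) :
    PF (fun a => coneB (ps a) (t a)) := by unfold coneB; fun_prop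

@[fun_prop] theorem pf_cone {fu D : α → ℕ} {ps : α → List CP} {t : α → ZV} (hfu : PF fu)
    (hD : PF D) (hps : PF ps) (ht : PF t) :
    PF (fun a => cone (fu a) (D a) (ps a) (t a)) := by
  unfold cone; fun_prop

/-! ### The main algorithm -/

@[fun_prop] theorem pf_prow {d : α → ℕ} {rz : α → Rows} {P : α → Piece} (hd : PF d) (hr : PF rz)
    (hP : PF P) : PF (fun a => prow (d a) (rz a) (P a)) := by unfold prow; fun_prop

@[fun_prop] theorem pf_off {J : α → List Piece} {j : α → ℕ} (hJ : PF J) (hj : PF j) :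
    PF (fun a => off (J a) (j a)) := by unfold off; fun_prop

@[fun_prop] theorem pf_kap {fu d : α → ℕ} (h1 : PF fu) (h2 : PF d) :
    PF (fun a => kap (fu a) (d a)) := by unfold kap; fun_prop

@[fun_prop] theorem pf_kkc {fu d : α → ℕ} (h1 : PF fu) (h2 : PF d) :
    PF (fun a => kkc (fu a) (d a)) := by unfold kkc; fun_prop

@[fun_prop] theorem pf_tauc {fu d : α → ℕ} (h1 : PF fu) (h2 : PF d) :
    PF (fun a => tauc (fu a) (d a)) := by unfold tauc; fun_prop

@[fun_prop] theorem pf_colM {d k j : α → ℕ} {J : α → List Piece} {WM : α → ZM} {P : α → Piece}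
    (hd : PF d) (hJ : PF J) (hk : PF k) (hW : PF WM) (hj : PF j) (hP : PF P) :
    PF (fun a => colM (d a) (J a) (k a) (WM a) (j a) (P a)) := by unfold colM; fun_prop

@[fun_prop] theorem pf_colO {d k j : α → ℕ} {J : α → List Piece} {WM : α → ZM} {P : α → Piece}
    (hd : PF d) (hJ : PF J) (hk : PF k) (hW : PF WM) (hj : PF j) (hP : PF P) :
    PF (fun a => colO (d a) (J a) (k a) (WM a) (j a) (P a)) := by unfold colO; fun_prop

@[fun_prop] theorem pf_pc {J : α → List Piece} {j : α → ℕ} (hJ : PF J) (hj : PF j) :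
    PF (fun a => pc (J a) (j a)) := by unfold pc; fun_prop

@[fun_prop] theorem pf_cps {d k : α → ℕ} {rz : α → Rows} {J : α → List Piece} {WM : α → ZM}
    (hd : PF d) (hr : PF rz) (hJ : PF J) (hk : PF k) (hW : PF WM) :
    PF (fun a => cps (d a) (rz a) (J a) (k a) (WM a)) := by unfold cps; fun_prop

@[fun_prop] theorem pf_tgt {d k : α → ℕ} {a γ : α → ZV} (hd : PF d) (ha : PF a) (hγ : PF γ)
    (hk : PF k) : PF (fun x => tgt (d x) (a x) (γ x) (k x)) := by unfold tgt; fun_prop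

@[fun_prop] theorem pf_res {fu kk σ i : α → ℕ} (h1 : PF fu) (h2 : PF kk) (h3 : PF σ) (h4 : PF i) :
    PF (fun x => res (fu x) (kk x) (σ x) (i x)) := by unfold res; fun_prop

@[fun_prop] theorem pf_ptE {fu kk τ e σ : α → ℕ} {x : α → ZV} (h1 : PF fu) (h2 : PF kk) (h3 : PF τ)
    (h4 : PF e) (h5 : PF σ) (hx : PF x) :
    PF (fun a => ptE (fu a) (kk a) (τ a) (e a) (σ a) (x a)) := by unfold ptE; fun_prop

@[fun_prop] theorem pf_orcE {fu d j σ : α → ℕ} {rz : α → Rows} {a x : α → ZV} {s : α → MS}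
    (h1 : PF fu) (hd : PF d) (hr : PF rz) (ha : PF a) (hs : PF s) (hj : PF j) (hσ : PF σ)
    (hx : PF x) :
    PF (fun y => orcE (fu y) (d y) (rz y) (a y) (s y) (j y) (σ y) (x y)) := by
  unfold orcE; fun_prop

@[fun_prop] theorem pf_Gd {fu d : α → ℕ} (h1 : PF fu) (h2 : PF d) :
    PF (fun a => Gd (fu a) (d a)) := by unfold Gd; fun_prop

@[fun_prop] theorem pf_flatE {fu d j σ : α → ℕ} {rz : α → Rows} {a : α → ZV} {s : α → MS}
    (h1 : PF fu) (hd : PF d) (hr : PF rz) (ha : PF a) (hs : PF s) (hj : PF j) (hσ : PF σ) :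
    PF (fun y => flatE (fu y) (d y) (rz y) (a y) (s y) (j y) (σ y)) := by
  unfold flatE; fun_prop

@[fun_prop] theorem pf_totN {J : α → List Piece} (hJ : PF J) : PF (fun a => totN (J a)) := by
  unfold totN; fun_prop

@[fun_prop] theorem pf_cp1 {d : α → ℕ} {rz : α → Rows} {P : α → Piece} (hd : PF d) (hr : PF rz)
    (hP : PF P) : PF (fun a => cp1 (d a) (rz a) (P a)) := by unfold cp1; fun_prop

@[fun_prop] theorem pf_yD {N k : α → ℕ} {WI : α → ZM} {γ x : α → ZV} (hN : PF N) (hk : PF k)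
    (hW : PF WI) (hγ : PF γ) (hx : PF x) :
    PF (fun a => yD (N a) (k a) (WI a) (γ a) (x a)) := by unfold yD; fun_prop

@[fun_prop] theorem pf_eqRow {J : α → List Piece} {l : α → ℕ} (hJ : PF J) (hl : PF l) :
    PF (fun a => eqRow (J a) (l a)) := by unfold eqRow; fun_prop

@[fun_prop] theorem pf_pullD {N k : α → ℕ} {WI : α → ZM} {h : α → ZV} (hN : PF N) (hk : PF k)
    (hW : PF WI) (hh : PF h) : PF (fun a => pullD (N a) (k a) (WI a) (h a)) := by
  unfold pullD; fun_prop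

@[fun_prop] theorem pf_orcDj {fu d k j : α → ℕ} {rz : α → Rows} {J : α → List Piece}
    {WI : α → ZM} {pts : α → List (List ZV)} {y : α → ZV} (h1 : PF fu) (hd : PF d) (hr : PF rz)
    (hJ : PF J) (hk : PF k) (hW : PF WI) (hp : PF pts) (hy : PF y) (hj : PF j) :
    PF (fun x => orcDj (fu x) (d x) (rz x) (J x) (k x) (WI x) (pts x) (y x) (j x)) := by
  unfold orcDj; fun_prop

@[fun_prop] theorem pf_orcD {fu d : α → ℕ} {rz : α → Rows} {a x : α → ZV} {s : α → MS}
    {pts : α → List (List ZV)} (h1 : PF fu) (hd : PF d) (hr : PF rz) (ha : PF a) (hs : PF s)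
    (hp : PF pts) (hx : PF x) :
    PF (fun y => orcD (fu y) (d y) (rz y) (a y) (s y) (pts y) (x y)) := by
  unfold orcD; fun_prop

@[fun_prop] theorem pf_radD {d : α → ℕ} {a : α → ZV} {s : α → MS} (hd : PF d) (ha : PF a)
    (hs : PF s) : PF (fun y => radD (d y) (a y) (s y)) := by unfold radD; fun_prop

@[fun_prop] theorem pf_slice {d : α → ℕ} {P : α → Piece} {U W : α → ZM} {δ : α → ℤ} (hd : PF d)
    (hP : PF P) (hU : PF U) (hW : PF W) (hδ : PF δ) :
    PF (fun y => slice (d y) (P y) (U y) (W y) (δ y)) := by unfold slice; fun_prop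

@[fun_prop] theorem pf_actU {N k : α → ℕ} {A B : α → ZM} (hN : PF N) (hk : PF k)
    (hA : PF A) (hB : PF B) : PF (fun a => actU (N a) (k a) (A a) (B a)) := by
  unfold actU; fun_prop

@[fun_prop] theorem pf_actW {N k : α → ℕ} {A B : α → ZM} (hN : PF N) (hk : PF k)
    (hA : PF A) (hB : PF B) : PF (fun a => actW (N a) (k a) (A a) (B a)) := by
  unfold actW; fun_prop

@[fun_prop] theorem pf_gss {fu Γ κ g t i : α → ℕ} (h1 : PF fu) (h2 : PF Γ) (h3 : PF κ) (h4 : PF g)
    (h5 : PF t) (h6 : PF i) : PF (fun x => gss (fu x) (Γ x) (κ x) (g x) (t x) (i x)) := by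
  unfold gss; fun_prop

@[fun_prop] theorem pf_baseG {fu d N : α → ℕ} (h1 : PF fu) (h2 : PF d) (h3 : PF N) :
    PF (fun x => baseG (fu x) (d x) (N x)) := by unfold baseG; fun_prop

@[fun_prop] theorem pf_res0 : PF (fun _ : α => res0) := by fun_prop

@[fun_prop] theorem pf_rej {t : α → ℕ} (h : PF t) : PF (fun x => rej (t x)) := by
  unfold rej; fun_prop

@[fun_prop] theorem pf_tabE {fu d : α → ℕ} {rz : α → Rows} {a : α → ZV} {s : α → MS}
    (h1 : PF fu) (hd : PF d) (hr : PF rz) (ha : PF a) (hs : PF s) :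
    PF (fun y => tabE (fu y) (d y) (rz y) (a y) (s y)) := by
  unfold tabE; fun_prop

@[fun_prop] theorem pf_newP {fu d Γ g t j σ : α → ℕ} {J : α → List Piece} {o : α → Res}
    (h1 : PF fu) (h2 : PF d) (h3 : PF J) (h4 : PF Γ) (h5 : PF g) (h6 : PF t) (h7 : PF j)
    (h8 : PF σ) (h9 : PF o) :
    PF (fun x => newP (fu x) (d x) (J x) (Γ x) (g x) (t x) (j x) (σ x) (o x)) := by
  unfold newP; fun_prop

@[fun_prop] theorem pf_splitJ {fu d Γ g t j σ : α → ℕ} {J : α → List Piece} {o : α → Res}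
    (h1 : PF fu) (h2 : PF d) (h3 : PF J) (h4 : PF Γ) (h5 : PF g) (h6 : PF t) (h7 : PF j)
    (h8 : PF σ) (h9 : PF o) :
    PF (fun x => splitJ (fu x) (d x) (J x) (Γ x) (g x) (t x) (j x) (σ x) (o x)) := by
  unfold splitJ; fun_prop

@[fun_prop] theorem pf_ptsJ {fu d : α → ℕ} {J : α → List Piece} {T : α → List (List Res)}
    (h1 : PF fu) (h2 : PF d) (h3 : PF J) (h4 : PF T) :
    PF (fun x => ptsJ (fu x) (d x) (J x) (T x)) := by unfold ptsJ; fun_prop

@[fun_prop] theorem pf_deepStep {fu d Γ g : α → ℕ} {rz : α → Rows} {a : α → ZV} {s : α → MS}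
    {T : α → List (List Res)} (h1 : PF fu) (hd : PF d) (hr : PF rz) (ha : PF a) (h4 : PF Γ)
    (h5 : PF g) (hs : PF s) (hT : PF T) :
    PF (fun y => deepStep (fu y) (d y) (rz y) (a y) (Γ y) (g y) (s y) (T y)) := by
  unfold deepStep; fun_prop

@[fun_prop] theorem pf_mainStep {fu d Γ g : α → ℕ} {rz : α → Rows} {a : α → ZV} {s : α → MS}
    (h1 : PF fu) (hd : PF d) (hr : PF rz) (ha : PF a) (h4 : PF Γ) (h5 : PF g) (hs : PF s) :
    PF (fun y => mainStep (fu y) (d y) (rz y) (a y) (Γ y) (g y) (s y)) := by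
  unfold mainStep; fun_prop

@[fun_prop] theorem pf_lenM {fu d : α → ℕ} (h1 : PF fu) (h2 : PF d) :
    PF (fun a => lenM (fu a) (d a)) := by unfold lenM; fun_prop

@[fun_prop] theorem pf_rowsZ {d : α → ℕ} {Ab : α → Rows} {a : α → ZV} (hd : PF d) (hA : PF Ab)
    (ha : PF a) : PF (fun x => rowsZ (d x) (Ab x) (a x)) := by unfold rowsZ; fun_prop

@[fun_prop] theorem pf_init {d : α → ℕ} {a : α → ZV} (hd : PF d) (ha : PF a) :
    PF (fun x => init (d x) (a x)) := by unfold init; fun_prop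

@[fun_prop] theorem pf_maxN {fu d : α → ℕ} (h1 : PF fu) (h2 : PF d) :
    PF (fun a => maxN (fu a) (d a)) := by unfold maxN; fun_prop

@[fun_prop] theorem pf_mainPath {fu d g : α → ℕ} {Ab : α → Rows} {a : α → ZV} (h1 : PF fu)
    (h2 : PF d) (hA : PF Ab) (ha : PF a) (hg : PF g) :
    PF (fun x => mainPath (fu x) (d x) (Ab x) (a x) (g x)) := by
  unfold mainPath; fun_prop

theorem pf_decideMD {fu d : α → ℕ} {Ab : α → Rows} {a : α → ZV} (h1 : PF fu)
    (h2 : PF d) (hA : PF Ab) (ha : PF a) :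
    PF (fun x => decideMD (fu x) (d x) (Ab x) (a x)) := by
  unfold decideMD; fun_prop

end Pool.Agent.MDF
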