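import Pool.Agent.PF.Int

/-!
# Vectors and matrices as lists, basic polynomial time functions
-/

set_option autoImplicit false

namespace Pool.Agent.MDF

open Pool.Agent.PF

/-- Integer vectors. -/
abbrev ZV := List ℤ
/-- Integer matrices. -/
abbrev ZM := List (List ℤ)

/-- Entry of a vector. -/
def g1 (l : ZV) (i : ℕ) : ℤ := l.getD i 0
/-- Row of a matrix. -/
def row (M : ZM) (i : ℕ) : ZV := M.getD i []
/-- Entry of a matrix. -/
def g2 (M : ZM) (i j : ℕ) : ℤ := g1 (row M i) j
/-- Tabulation of a matrix. -/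
def tabM (n m : ℕ) (f : ℕ → ℕ → ℤ) : ZM := tab n fun i => tab m fun j => f i j
/-- Sums. -/
def sumz (n : ℕ) (f : ℕ → ℤ) : ℤ := (tab n f).sum
/-- Products. -/
def prodz (n : ℕ) (f : ℕ → ℤ) : ℤ := (tab n f).prod
/-- Scalar product. -/
def dot (n : ℕ) (u v : ZV) : ℤ := sumz n fun i => g1 u i * g1 v i
/-- Bit length. -/
def bl (z : ℤ) : ℕ := z.natAbs.bits.length
/-- Total bit length of a vector. -/
def blV (l : ZV) : ℕ := (l.map bl).sum
/-- Total bit length of a matrix. -/
def blM (M : ZM) : ℕ := (M.map blV).sum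
/-- The power `2 ^ r`. -/
def pow2 (r : ℕ) : ℤ := 2 ^ r
/-- Identity matrix. -/
def idM (n : ℕ) : ZM := tabM n n fun i j => if i = j then 1 else 0
/-- Nearest integer to `a / b`, `0 < b`. -/
def rdiv (a b : ℤ) : ℤ := (2 * a + b) / (2 * b)
/-- `⌈a / b⌉`, `0 < b`. -/
def cdiv (a b : ℤ) : ℤ := -((-a) / b)
/-- The power `min (b ^ n) fu`. -/
def tpow (fu b n : ℕ) : ℕ := bIter (3 * fu + 3) n (fun m => min (m * b) fu) (min 1 fu)
/-- The factorial `min ((d+1)!) fu`. -/
def tfac (fu d : ℕ) : ℕ :=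
  (bIter (6 * fu + 6 * d + 20) d (fun p : ℕ × ℕ => (p.1 + 1, min (p.2 * (p.1 + 2)) fu)) (0, min 1 fu)).2
/-- The first element satisfying a condition. -/
def findN (n : ℕ) (p : ℕ → Bool) : Option ℕ := (List.range n).find? p
/-- Case distinction on an optional value. -/
def oc {α β : Type} (o : Option α) (n : β) (f : α → β) : β :=
  match o with
  | none => n
  | some a => f a
/-- The first success. -/
def firstSome {α : Type} (l : List (Option α)) : Option α := (l.find? Option.isSome).join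

/-! ### Polynomial time -/

section

variable {α β γ : Type} [VEnc α] [VEnc β] [VEnc γ]

@[fun_prop] theorem pf_g1 {f : α → ZV} {i : α → ℕ} (hf : PF f) (hi : PF i) :
    PF (fun x => g1 (f x) (i x)) := by unfold g1; fun_prop

@[fun_prop] theorem pf_row {f : α → ZM} {i : α → ℕ} (hf : PF f) (hi : PF i) :
    PF (fun x => row (f x) (i x)) := by unfold row; fun_prop

@[fun_prop] theorem pf_g2 {f : α → ZM} {i j : α → ℕ} (hf : PF f) (hi : PF i) (hj : PF j) :
    PF (fun x => g2 (f x) (i x) (j x)) := by unfold g2; fun_prop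

@[fun_prop] theorem pf_tabM {n m : α → ℕ} {f : α → ℕ → ℕ → ℤ} (hn : PF n) (hm : PF m)
    (hf : PF (fun p : (α × ℕ) × ℕ => f p.1.1 p.1.2 p.2)) :
    PF (fun x => tabM (n x) (m x) (f x)) := by
  unfold tabM
  exact Pool.Agent.PF.PF.tab hn (Pool.Agent.PF.PF.tab (g := fun (p : α × ℕ) j => f p.1 p.2 j) (by fun_prop) hf)

@[fun_prop] theorem pf_sumz {n : α → ℕ} {f : α → ℕ → ℤ} (hn : PF n)
    (hf : PF (fun p : α × ℕ => f p.1 p.2)) :
    PF (fun x => sumz (n x) (f x)) := by unfold sumz; fun_prop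

@[fun_prop] theorem pf_prodz {n : α → ℕ} {f : α → ℕ → ℤ} (hn : PF n)
    (hf : PF (fun p : α × ℕ => f p.1 p.2)) :
    PF (fun x => prodz (n x) (f x)) := by unfold prodz; fun_prop

@[fun_prop] theorem pf_dot {n : α → ℕ} {u v : α → ZV} (hn : PF n) (hu : PF u) (hv : PF v) :
    PF (fun x => dot (n x) (u x) (v x)) := by unfold dot; fun_prop

@[fun_prop] theorem pf_bl {f : α → ℤ} (hf : PF f) : PF (fun x => bl (f x)) := by
  unfold bl; fun_prop

@[fun_prop] theorem pf_blV {f : α → ZV} (hf : PF f) : PF (fun x => blV (f x)) := by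
  unfold blV; fun_prop

@[fun_prop] theorem pf_blM {f : α → ZM} (hf : PF f) : PF (fun x => blM (f x)) := by
  unfold blM; fun_prop

@[fun_prop] theorem pf_pow2 {f : α → ℕ} (hf : PF f) : PF (fun x => pow2 (f x)) := by
  unfold pow2; fun_prop

@[fun_prop] theorem pf_idM {n : α → ℕ} (hn : PF n) : PF (fun x => idM (n x)) := by
  unfold idM; fun_prop

@[fun_prop] theorem pf_rdiv {f g : α → ℤ} (hf : PF f) (hg : PF g) :
    PF (fun x => rdiv (f x) (g x)) := by unfold rdiv; fun_prop

@[fun_prop] theorem pf_cdiv {f g : α → ℤ} (hf : PF f) (hg : PF g) :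
    PF (fun x => cdiv (f x) (g x)) := by unfold cdiv; fun_prop

@[fun_prop] theorem pf_tpow {fu b n : α → ℕ} (h1 : PF fu) (h2 : PF b) (h3 : PF n) :
    PF (fun x => tpow (fu x) (b x) (n x)) := by unfold tpow; fun_prop

@[fun_prop] theorem pf_tfac {fu n : α → ℕ} (h1 : PF fu) (h3 : PF n) :
    PF (fun x => tfac (fu x) (n x)) := by unfold tfac; fun_prop

@[fun_prop] theorem pf_findN {n : α → ℕ} {p : α → ℕ → Bool} (hn : PF n)
    (hp : PF (fun q : α × ℕ => p q.1 q.2)) : PF (fun x => findN (n x) (p x)) := by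
  unfold findN; fun_prop

omit [VEnc β] [VEnc γ] in
theorem oc_eq (o : Option β) (n : γ) (f : β → γ) : oc o n f = o.elim n f := by cases o <;> rfl

@[fun_prop] theorem pf_oc {o : α → Option β} {n : α → γ} {f : α → β → γ} (ho : PF o)
    (hn : PF n) (hf : PF (fun p : α × β => f p.1 p.2)) : PF (fun x => oc (o x) (n x) (f x)) := by
  simp only [oc_eq]; fun_prop

@[fun_prop] theorem pf_firstSome {f : α → List (Option β)} (hf : PF f) :
    PF (fun x => firstSome (f x)) := by unfold firstSome; fun_prop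

end

end Pool.Agent.MDF
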