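import Pool.Agent.MDF.MainDefs

/-!
# The constants of the main algorithm
-/

set_option autoImplicit false

namespace Pool.Agent.MDF

open Pool.Agent.PF Pool.Agent.MonFPT Matrix

lemma tfac_eq {fu d : ℕ} (h : (d + 1).factorial ≤ fu) : tfac fu d = (d + 1).factorial := by
  have key : ∀ k : ℕ, k ≤ d → (fun p : ℕ × ℕ => (p.1 + 1, min (p.2 * (p.1 + 2)) fu))^[k]
      (0, min 1 fu) = (k, (k + 1).factorial) := by
    intro k
    induction k with
    | zero =>
      intro _
      have h1 : 1 ≤ fu := (Nat.factorial_pos _).trans_le h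
      simp [h1]
    | succ k ih =>
      intro hk
      rw [Function.iterate_succ_apply', ih (by omega)]
      have h1 : (k + 1 + 1).factorial ≤ fu :=
        (Nat.factorial_le (by omega)).trans h
      have h2 : (k + 1).factorial * (k + 2) = (k + 1 + 1).factorial := by
        rw [Nat.factorial_succ (k + 1)]; ring
      change (k + 1, min ((k + 1).factorial * (k + 2)) fu) = _
      rw [h2, min_eq_left h1]
  unfold tfac
  rw [bIter_eq, key d le_rfl]
  intro i hi
  rw [key (i + 1) (by omega), sz_prod, sz_nat, sz_nat]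
  have h1 : (i + 1 + 1).factorial ≤ fu := (Nat.factorial_le (by omega)).trans h
  omega

/-- The multiplier. -/
def tauD (d : ℕ) : ℕ := 2 * 2 ^ d * ((d + 1) * (d + 1)) * (d + 1).factorial ^ d

/-- The maximal total dimension. -/
def maxD (d : ℕ) : ℕ := 2 ^ d * (d + 1)

/-- The base of the guesses. -/
def baseD (d : ℕ) : ℕ :=
  2 * tauD d * (d + 1).factorial * (flatG d + 1) + 6 * flatG (maxD d) + 10

/-- The number of steps. -/
def lenD (d : ℕ) : ℕ := (2 ^ d + 2) ^ (2 * d + 4)

/-- A bound for all the constants. -/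
def constD (d : ℕ) : ℕ :=
  2 ^ d + (d + 1).factorial + (d + 1).factorial ^ d + tauD d + 3 ^ maxD d + flatG (maxD d) +
    lenD d + baseD d

/-- The constants of the algorithm have their right values. -/
structure FuOK (fu d : ℕ) : Prop where
  kap : kap fu d = 2 ^ d
  kkc : kkc fu d = (d + 1).factorial
  tauc : tauc fu d = tauD d
  gd : Gd fu d = flatG d
  gc : ∀ N ≤ maxD d, Gc fu N = flatG N
  len : lenM fu d = lenD d
  base : baseG fu d (maxN fu d) = baseD d
  pow : ∀ e ≤ d, tpow fu ((d + 1).factorial) e = (d + 1).factorial ^ e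
  fpow : ∀ e ≤ d, (d + 1).factorial ^ e ≤ fu

lemma le_maxD (d : ℕ) : d ≤ maxD d := by
  unfold maxD
  have h1 : 1 ≤ 2 ^ d := Nat.one_le_two_pow
  nlinarith

theorem FuOK.of_le {fu d : ℕ} (h : constD d ≤ fu) : FuOK fu d := by
  unfold constD at h
  have hf : 1 ≤ (d + 1).factorial := Nat.factorial_pos _
  have h0 : 0 < 3 ^ maxD d := by positivity
  have h1 : MDF.kap fu d = 2 ^ d := tpow_eq (by norm_num) (by omega)
  have h2 : MDF.kkc fu d = (d + 1).factorial := tfac_eq (by omega)
  have h3 : MDF.tauc fu d = tauD d := by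
    unfold MDF.tauc
    rw [h1, h2, tpow_eq hf (by omega)]
    change min (tauD d) fu = _
    rw [min_eq_left (by omega)]
  have hG : ∀ N ≤ maxD d, Gc fu N = flatG N := by
    intro N hN
    refine Gc_eq ?_ ?_
    · have : 3 ^ N ≤ 3 ^ maxD d := Nat.pow_le_pow_right (by norm_num) hN
      omega
    · have := flatG_mono hN
      omega
  have h4 : Gd fu d = flatG d := hG d (le_maxD d)
  have h5 : maxN fu d = maxD d := by unfold maxN maxD; rw [h1]
  have hp : ∀ e ≤ d, (d + 1).factorial ^ e ≤ fu := by
    intro e he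
    have : (d + 1).factorial ^ e ≤ (d + 1).factorial ^ d := Nat.pow_le_pow_right hf he
    omega
  refine ⟨h1, h2, h3, h4, hG, ?_, ?_, fun e he => tpow_eq hf (hp e he), hp⟩
  · unfold lenM
    rw [h1, tpow_eq (by omega)]
    · rfl
    · change lenD d ≤ fu
      omega
  · unfold baseG
    rw [h5, h2, h3, h4, hG _ le_rfl]
    rfl

theorem eb_constD : EB constD := by
  unfold constD baseD lenD tauD maxD flatG
  fun_prop

lemma tauD_pos (d : ℕ) : 0 < tauD d := by
  unfold tauD
  have := Nat.factorial_pos (d + 1)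
  positivity

lemma baseD_pos (d : ℕ) : 0 < baseD d := by unfold baseD; omega

end Pool.Agent.MDF
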