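import Pool.Agent.MDF.DeepFinal
import Pool.Agent.MDF.Consts

/-!
# Step 2 in the form used by the main path
-/

set_option autoImplicit false

namespace Pool.Agent.MDF

open Pool.Agent.PF Pool.Agent.MonFPT Matrix

lemma off_le_dim {J : List Piece} {d : ℕ} (h : ∀ P ∈ J, P.1 ≤ d) {n : ℕ} (hn : n ≤ J.length) :
    off J n ≤ n * (d + 1) := by
  induction n with
  | zero => simp
  | succ n ih =>
    rw [off_succ hn]
    have h1 : (pc J n).1 ≤ d := by
      rw [pc_eq hn]
      exact h _ (List.getElem_mem hn)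
    have h2 := ih (by omega)
    rw [Nat.add_mul, one_mul]
    omega

/-- The parameter of the bounds. -/
def nD (d : ℕ) : ℕ := maxD d + (d + 1).factorial ^ d

lemma StOK.totN_le {d X : ℕ} {rz : Rows} {a : ZV} {J : List Piece} {k : ℕ} {WM WI : ZM}
    {γ : ZV} (h : StOK d X rz a J k WM WI γ) : totN J ≤ maxD d :=
  (off_le_dim (fun P hP => (h.pc P hP).dim) le_rfl).trans (Nat.mul_le_mul_right _ h.len)

lemma StOK.toDHyp {d X : ℕ} {rz : Rows} {a : ZV} {J : List Piece} {k : ℕ} {WM WI : ZM}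
    {γ : ZV} (h : StOK d X rz a J k WM WI γ) : DHyp (nD d) X d rz a J k WM WI γ where
  d_le := (le_maxD d).trans (Nat.le_add_right _ _)
  N_le := h.totN_le.trans (Nat.le_add_right _ _)
  k_le := h.hk
  a_vb := h.va
  g_le := h.vg.le
  uw := h.uw
  rad j hj := by
    rw [pc_eq hj]
    exact (h.pc _ (List.getElem_mem hj)).rad
  box j hj := by
    rw [pc_eq hj]
    exact (h.pc _ (List.getElem_mem hj)).box

/-- **Step 2.** -/
theorem deep_spec : ∃ F : ℕ → ℕ, EB F ∧ Monotone F ∧ DeepHyp F := by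
  obtain ⟨F0, h01, h02, h03⟩ := deep_flat
  have hnD : EB nD := by
    unfold nD maxD
    fun_prop
  have hE : EB fun d => F0 (nD d) + constD d := by
    have := eb_constD
    fun_prop
  obtain ⟨F, hF1, hF2, hF3, _⟩ := hE.exists_mono
  refine ⟨F, hF1, hF2, ?_⟩
  intro fu d X t rz a J k WM WI γ pts o hst hfu hpts hfound ho
  have hle : F d ≤ fu := (Nat.le_mul_of_pos_right _ (Nat.succ_pos _)).trans hfu
  have hcst : FuOK fu d := FuOK.of_le (((Nat.le_add_left _ _).trans (hF3 d)).trans hle)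
  have hkk : 0 < kkc fu d := by
    rw [hcst.kkc]
    exact Nat.factorial_pos _
  have hN := hst.totN_le
  have hp : PHyp (nD d) X J pts := by
    refine ⟨fun j hj => ?_, fun j hj => ?_, fun j hj σ hσ i hi => ?_⟩
    · have := hfound.nonempty hkk ⟨j, hj⟩
      exact Fin.pos_iff_nonempty.2 this
    · refine (hpts j hj).1.trans (Nat.lt_two_pow_self.le.trans ?_)
      exact Nat.pow_le_pow_right (by norm_num) (Nat.le_add_left _ _)
    · refine ((hpts j hj).2 _ ?_).le i hi
      rw [List.getD_eq_getElem _ _ hσ]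
      exact List.getElem_mem hσ
  have hκ : kap fu d ≤ 2 ^ nD d := by
    rw [hcst.kap]
    exact Nat.pow_le_pow_right (by norm_num) ((le_maxD d).trans (Nat.le_add_right _ _))
  have hκ1 : 1 ≤ kap fu d := by
    rw [hcst.kap]
    exact Nat.one_le_two_pow
  have hG : flatG (totN J - k) ≤ Gc fu (totN J) := by
    rw [hcst.gc _ hN]
    exact flatG_mono (Nat.sub_le _ _)
  have hfu0 : F0 (nD d) * (X + 1) ≤ fu :=
    (Nat.mul_le_mul_right _ ((Nat.le_add_right _ _).trans (hF3 d))).trans hfu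
  have hX : F0 (nD d) * (X + 1) ≤ F d * (X + 1) :=
    Nat.mul_le_mul_right _ ((Nat.le_add_right _ _).trans (hF3 d))
  have hmem : ∀ j σ, ptsI J pts j σ ∈ pset (SR d rz) (eJ J) (phiJ d J) j := hfound.mem
  obtain ⟨h1, h2⟩ := h03 fu (nD d) X d (Gc fu (totN J)) rz a J k WM WI γ pts t 0 hfu0
    hst.toDHyp hp hmem hst.pos hκ hκ1 hG
  rw [← ho] at h1 h2
  have hD : DeepP d rz a J k WM γ pts =
      DeepI (SR d rz) (eJ J) (phiJ d J) (psiJ d J k WM) (vec (d + k) (tgt d a γ k))
        (ptsI J pts) (1 / (2 * kap fu d)) := by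
    rw [hcst.kap]
    rfl
  rw [hD]
  rcases h1 with h1 | h1 | h1
  · exact Or.inl ⟨h1.st, _, h2 h1.st⟩
  · refine Or.inr (Or.inl ⟨h1.st, h1.pos, ⟨h1.uw.mU.mono hX, h1.uw.mW.mono hX, h1.uw.UW,
      h1.uw.WU⟩, h1.vle.trans (pow_le_pow_right₀ (by norm_num) hX), fun y hy => ?_⟩)
    have h3 := h1.flat _ (mem_KD hst.uw hst.hk y hy)
    have h4 : dotQ (vec (totN J - k) (row o.2.2.1 0)) (xfree (totN J) k WM y) =
        ∑ i ∈ Finset.range (totN J - k), (g2 o.2.2.1 0 i : ℚ) *
          ∑ b ∈ Finset.range (totN J), (g2 WM (k + i) b : ℚ) * y b := by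
      rw [Finset.sum_range]
      rfl
    rw [← h4]
    exact h3
  · refine Or.inr (Or.inr ⟨h1.st, ?_⟩)
    rw [Set.eq_empty_iff_forall_notMem]
    intro y hy
    rw [← blkN_unblk J y] at hy
    have h3 := mem_KD hst.uw hst.hk _ hy
    rw [h1.emp] at h3
    exact h3

end Pool.Agent.MDF
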