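import Pool.Agent.MDF.Search

/-!
# Iteration of the main step: generic part

Choice of the guesses, bounds for the states, guards.
-/

set_option autoImplicit false

namespace Pool.Agent.MDF

open Pool.Agent.PF

/-! ### The choice of the guesses -/

/-- Numbers with given digits. -/
theorem exists_dig {fu Γ n : ℕ} (hfu : Γ ^ n ≤ fu) (D : ℕ → ℕ) (hD : ∀ p, D p < Γ) :
    ∃ g < Γ ^ n, ∀ p < n, dig fu Γ g p = D p := by
  have hΓ : 1 ≤ Γ := lt_of_le_of_lt (Nat.zero_le _) (hD 0)
  obtain ⟨g, hg, h⟩ := exists_digits Γ n D hD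
  refine ⟨g, hg, fun p hp => ?_⟩
  rw [dig_eq hΓ ((Nat.pow_le_pow_right hΓ hp.le).trans hfu), h p hp]

/-- **The choice of the guesses.**  The step depends only on the digits of the positions
`time s * K + i`, `i < K`. -/
theorem outer_complete {S : Type} (step : ℕ → S → S) (time meas : S → ℕ) (Good Done : S → Prop)
    (fu Γ K T : ℕ) (hfu : Γ ^ (K * T) ≤ fu)
    (hcongr : ∀ g g' s, (∀ i < K, dig fu Γ g (time s * K + i) = dig fu Γ g' (time s * K + i)) →
      step g s = step g' s)
    (hdone : ∀ g s, Done s → step g s = s)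
    (htime : ∀ g s, Good s → time (step g s) = time s + 1)
    (hgood : ∀ s, Good s → time s < T → ∃ c : ℕ → ℕ, (∀ i, c i < Γ) ∧ ∀ g,
      (∀ i < K, dig fu Γ g (time s * K + i) = c i) →
        Done (step g s) ∨ (Good (step g s) ∧ meas (step g s) < meas s))
    (s0 : S) (h0 : Good s0) (ht0 : time s0 = 0) (hm : meas s0 < T) :
    ∃ g < Γ ^ (K * T), Done ((step g)^[T] s0) := by
  have key : ∀ n : ℕ, ∀ s, Good s → meas s ≤ n → time s + n < T →
      ∃ D : ℕ → ℕ, (∀ p, D p < Γ) ∧ ∀ g,
        (∀ p, time s * K ≤ p → p < K * T → dig fu Γ g p = D p) →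
        ∃ j, time s + j ≤ T ∧ Done ((step g)^[j] s) := by
    intro n
    induction n with
    | zero =>
      intro s hs hms ht
      obtain ⟨c, hc, hcg⟩ := hgood s hs (by omega)
      refine ⟨fun p => c (p - time s * K), fun p => hc _, fun g hg => ⟨1, by omega, ?_⟩⟩
      have h1 := hcg g fun i hi => by
        have h2 : time s * K + i < K * T := by
          have h3 : (time s + 1) * K ≤ T * K := Nat.mul_le_mul_right _ (by omega)
          rw [Nat.mul_comm K T]
          rw [Nat.add_mul] at h3
          omega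
        rw [hg _ (Nat.le_add_right _ _) h2]
        exact congrArg c (Nat.add_sub_cancel_left _ _)
      rcases h1 with h1 | ⟨_, h1⟩
      · exact h1
      · omega
    | succ n ih =>
      intro s hs hms ht
      obtain ⟨c, hc, hcg⟩ := hgood s hs (by omega)
      have hpos : ∀ i < K, time s * K + i < K * T := fun i hi => by
        have h3 : (time s + 1) * K ≤ T * K := Nat.mul_le_mul_right _ (by omega)
        rw [Nat.mul_comm K T]
        rw [Nat.add_mul] at h3
        omega
      obtain ⟨g0, _, hg0⟩ := exists_dig hfu (fun p => c (p - time s * K)) fun p => hc _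
      have hg0' : ∀ i < K, dig fu Γ g0 (time s * K + i) = c i := fun i hi => by
        rw [hg0 _ (hpos i hi)]
        exact congrArg c (Nat.add_sub_cancel_left _ _)
      rcases hcg g0 hg0' with h1 | ⟨h1, h2⟩
      · refine ⟨fun p => c (p - time s * K), fun p => hc _, fun g hg => ⟨1, by omega, ?_⟩⟩
        have h3 : step g s = step g0 s := hcongr g g0 s fun i hi => by
          rw [hg0' i hi, hg _ (Nat.le_add_right _ _) (hpos i hi)]
          exact congrArg c (Nat.add_sub_cancel_left _ _)
        change Done (step g s)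
        rw [h3]; exact h1
      · have ht' := htime g0 s hs
        obtain ⟨D, hD, hDg⟩ := ih (step g0 s) h1 (by omega) (by omega)
        refine ⟨fun p => if p < (time s + 1) * K then c (p - time s * K) else D p, fun p => ?_,
          fun g hg => ?_⟩
        · dsimp only
          split_ifs
          · exact hc _
          · exact hD _
        · have h3 : step g s = step g0 s := hcongr g g0 s fun i hi => by
            rw [hg0' i hi, hg _ (Nat.le_add_right _ _) (hpos i hi)]
            have h4 : time s * K + i < (time s + 1) * K := by rw [Nat.add_mul]; omega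
            dsimp only
            rw [if_pos h4]
            exact congrArg c (Nat.add_sub_cancel_left _ _)
          obtain ⟨j, hj, hdj⟩ := hDg g fun p hp hp' => by
            rw [ht'] at hp
            rw [hg p (by rw [Nat.add_mul] at hp; omega) hp']
            dsimp only
            rw [if_neg (by omega)]
          refine ⟨j + 1, by omega, ?_⟩
          rw [Function.iterate_succ_apply, h3]
          exact hdj
  obtain ⟨D, hD, hDg⟩ := key (meas s0) s0 h0 le_rfl (by omega)
  obtain ⟨g, hg, hgD⟩ := exists_dig hfu D hD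
  refine ⟨g, hg, ?_⟩
  obtain ⟨j, hj, hdj⟩ := hDg g fun p _ hp => hgD p hp
  have hfix : ∀ k, (step g)^[k] ((step g)^[j] s0) = (step g)^[j] s0 := by
    intro k
    induction k with
    | zero => rfl
    | succ k ih => rw [Function.iterate_succ_apply, hdone g _ hdj, ih]
  have h5 : (step g)^[T] s0 = (step g)^[j] s0 := by
    have h6 : T = (T - j) + j := by omega
    rw [h6, Function.iterate_add_apply, hfix]
  rw [h5]
  exact hdj

/-! ### Bounds for the states -/

/-- An invariant with a bound which grows linearly at each step. -/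
theorem outer_inv {S : Type} (f : S → S) (Inv : ℕ → S → Prop) (F A X0 T fu : ℕ)
    (hstep : ∀ X s, F * (X + 1) ≤ fu → Inv X s → Inv (A * (X + 1)) (f s))
    (hmono : ∀ X X' s, X ≤ X' → Inv X s → Inv X' s)
    (hfu : F * ((A + 1) ^ T * (X0 + 1)) ≤ fu) (s0 : S) (h0 : Inv X0 s0) :
    ∀ t ≤ T, Inv ((A + 1) ^ t * (X0 + 1)) (f^[t] s0) := by
  have key : ∀ t ≤ T, Inv ((A + 1) ^ t * (X0 + 1) - 1) (f^[t] s0) := by
    intro t
    induction t with
    | zero =>
      intro _
      refine hmono _ _ _ ?_ h0
      rw [pow_zero]; omega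
    | succ t ih =>
      intro ht
      have h1 := ih (by omega)
      rw [Function.iterate_succ_apply']
      have h2 : (A + 1) ^ t ≤ (A + 1) ^ T := Nat.pow_le_pow_right (by omega) (by omega)
      have h4 : 1 ≤ (A + 1) ^ t * (X0 + 1) := Nat.one_le_iff_ne_zero.2 (by positivity)
      have h5 : (A + 1) ^ t * (X0 + 1) - 1 + 1 = (A + 1) ^ t * (X0 + 1) := by omega
      have h3 : F * ((A + 1) ^ t * (X0 + 1) - 1 + 1) ≤ fu := by
        rw [h5]
        exact (Nat.mul_le_mul_left _ (Nat.mul_le_mul_right _ h2)).trans hfu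
      refine hmono _ _ _ ?_ (hstep _ _ h3 h1)
      rw [h5]
      have h6 : (A + 1) ^ (t + 1) * (X0 + 1) =
          A * ((A + 1) ^ t * (X0 + 1)) + (A + 1) ^ t * (X0 + 1) := by
        rw [pow_succ]; ring
      rw [h6]
      omega
  exact fun t ht => hmono _ _ _ (Nat.sub_le _ _) (key t ht)

/-- The guard is never active. -/
theorem outer_guard {S : Type} [VEnc S] (f : S → S) (Inv : ℕ → S → Prop) (F A X0 T fu Z : ℕ)
    (hstep : ∀ X s, F * (X + 1) ≤ fu → Inv X s → Inv (A * (X + 1)) (f s))
    (hmono : ∀ X X' s, X ≤ X' → Inv X s → Inv X' s)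
    (hfu : F * ((A + 1) ^ T * (X0 + 1)) ≤ fu) (s0 : S) (h0 : Inv X0 s0)
    (hsz : ∀ X s, Inv X s → sz s ≤ Z * (X + 1))
    (hZ : Z * ((A + 1) ^ T * (X0 + 1) + 1) ≤ fu) :
    bIter fu T f s0 = f^[T] s0 := by
  refine bIter_eq fun i hi => ?_
  have h1 := outer_inv f Inv F A X0 T fu hstep hmono hfu s0 h0 (i + 1) hi
  refine (hsz _ _ (hmono _ ((A + 1) ^ T * (X0 + 1)) _ ?_ h1)).trans hZ
  exact Nat.mul_le_mul_right _ (Nat.pow_le_pow_right (by omega) (by omega))

/-! ### The main step -/

/-- The main step depends only on the guesses of its time. -/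
theorem mainStep_congr {fu d : ℕ} {rz : Rows} {a : ZV} {Γ g g' : ℕ} {s : MS}
    (hκ : 1 ≤ kap fu d)
    (h : ∀ i < kap fu d, dig fu Γ g (s.1 * kap fu d + i) = dig fu Γ g' (s.1 * kap fu d + i)) :
    mainStep fu d rz a Γ g s = mainStep fu d rz a Γ g' s := by
  have h1 : ∀ J j σ o, splitJ fu d J Γ g s.1 j σ o = splitJ fu d J Γ g' s.1 j σ o := by
    intro J j σ o
    have h2 : newP fu d J Γ g s.1 j σ o = newP fu d J Γ g' s.1 j σ o := by
      unfold newP
      have h3 : (tab (kap fu d) fun i => gss fu Γ (kap fu d) g s.1 i) =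
          tab (kap fu d) fun i => gss fu Γ (kap fu d) g' s.1 i :=
        List.map_congr_left fun i hi => h i (List.mem_range.1 hi)
      rw [h3]
    unfold splitJ
    rw [h2]
  have h4 : ∀ T, deepStep fu d rz a Γ g s T = deepStep fu d rz a Γ g' s T := by
    intro T
    have h5 : gss fu Γ (kap fu d) g s.1 0 = gss fu Γ (kap fu d) g' s.1 0 := h 0 hκ
    unfold deepStep
    rw [h5]
  unfold mainStep
  simp only [h1, h4]

/-- The main step increases the time. -/
theorem mainStep_time {fu d : ℕ} {rz : Rows} {a : ZV} {Γ g : ℕ} {s : MS} (hs : s.2.1 = 0) :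
    (mainStep fu d rz a Γ g s).1 = s.1 + 1 := by
  unfold mainStep
  rw [if_pos hs]
  dsimp only
  generalize (findN s.2.2.1.length fun j => ((tabE fu d rz a s).getD j []).any fun o =>
    decide (o.1 ≠ 1)) = o1
  cases o1 with
  | none =>
    change (deepStep fu d rz a Γ g s (tabE fu d rz a s)).1 = _
    unfold deepStep rej
    dsimp only
    split_ifs <;> rfl
  | some j =>
    change (oc (findN ((tabE fu d rz a s).getD j []).length fun σ =>
      decide ((((tabE fu d rz a s).getD j []).getD σ res0).1 ≠ 1)) (rej s.1) fun σ =>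
        splitJ fu d s.2.2.1 Γ g s.1 j σ (((tabE fu d rz a s).getD j []).getD σ res0)).1 = _
    generalize (findN ((tabE fu d rz a s).getD j []).length fun σ =>
      decide ((((tabE fu d rz a s).getD j []).getD σ res0).1 ≠ 1)) = o2
    cases o2 with
    | none => rfl
    | some σ =>
      change (splitJ fu d s.2.2.1 Γ g s.1 j σ (((tabE fu d rz a s).getD j []).getD σ res0)).1 = _
      unfold splitJ rej
      dsimp only
      split_ifs <;> rfl

/-- Final states are fixed points. -/
theorem mainStep_done {fu d : ℕ} {rz : Rows} {a : ZV} {Γ g : ℕ} {s : MS} (hs : s.2.1 ≠ 0) :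
    mainStep fu d rz a Γ g s = s := by
  unfold mainStep
  rw [if_neg hs]

/-! ### The constants -/

theorem kap_eq {fu d : ℕ} (h : 2 ^ d ≤ fu) : kap fu d = 2 ^ d := tpow_eq (by norm_num) h

theorem lenM_eq {fu d : ℕ} (h : 2 ^ d ≤ fu) (h' : (2 ^ d + 2) ^ (2 * d + 4) ≤ fu) :
    lenM fu d = (2 ^ d + 2) ^ (2 * d + 4) := by
  unfold lenM
  rw [kap_eq h, tpow_eq (Nat.le_add_left 1 _) h']

theorem kkc_eq {fu d : ℕ} (h : (d + 1).factorial ≤ fu) : kkc fu d = (d + 1).factorial := by
  have h0 : 1 ≤ fu := (Nat.succ_le_of_lt (Nat.factorial_pos _)).trans h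
  have hf : ∀ k : ℕ, 1 ≤ (k + 1).factorial := fun k => Nat.succ_le_of_lt (Nat.factorial_pos _)
  have key : ∀ k ≤ d, (fun p : ℕ × ℕ => (p.1 + 1, min (p.2 * (p.1 + 2)) fu))^[k] (0, min 1 fu) =
      (k, (k + 1).factorial) := by
    intro k
    induction k with
    | zero => intro _; simp [h0]
    | succ k ih =>
      intro hk
      rw [Function.iterate_succ_apply', ih (by omega)]
      have h1 : (k + 1).factorial * (k + 2) = (k + 1 + 1).factorial := by
        rw [Nat.factorial_succ (k + 1)]; ring
      have h2 : (k + 1 + 1).factorial ≤ fu := (Nat.factorial_le (by omega)).trans h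
      simp only [h1, min_eq_left h2]
  unfold kkc tfac
  rw [bIter_eq, key d le_rfl]
  intro i hi
  rw [key (i + 1) hi, sz_prod, sz_nat, sz_nat]
  have h2 : (i + 1 + 1).factorial ≤ fu := (Nat.factorial_le (by omega)).trans h
  omega

end Pool.Agent.MDF
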