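import Pool.Agent.MDF.Sound
import Pool.Agent.MDF.DeepE
import Pool.Agent.MDF.Outer
import Pool.Agent.MonFPT.Follow

/-!
# States which carry a solution
-/

set_option autoImplicit false

namespace Pool.Agent.MDF

open Pool.Agent.PF Pool.Agent.MonFPT Matrix

/-- The piece as a chart. -/
def toP (d : ℕ) (P : Piece) : MonFPT.Piece d := ⟨P.1, phiP d P⟩

lemma toP_slice (d m r : ℕ) (F U W : ZM) (f0 : ZV) (δ : ℤ) :
    toP d (slice d (m + 1, F, f0, r) U W δ) =
      MonFPT.Piece.slice (phiP d (m + 1, F, f0, r)) (mtx (m + 1) (m + 1) W) δ := by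
  have h1 := chS_slice d m F W f0 δ
  unfold toP MonFPT.Piece.slice
  congr 1

lemma lin_psi (d : ℕ) (J : List Piece) (k : ℕ) (WM : ZM) (j : Fin J.length)
    (z : (Fin (eJ J j) → ℚ) × ℚ) (l : Fin d) :
    (psiJ d J k WM j).lin z (Fin.castAdd k l) = (phiJ d J j).lin z l := psiJ_lin j z l

/-- The state carries a solution. -/
def Carries (d : ℕ) (rz : Rows) (a : ZV) (J : List Piece) (k : ℕ) (WM : ZM) (γ : ZV) : Prop :=
  ∃ m : ∀ j : Fin J.length, Multiset (Fin (eJ J j) → ℤ), (∀ j, m j ≠ 0) ∧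
    IsSol (SR d rz) (eJ J) (phiJ d J) (psiJ d J k WM) (tgtV d a k γ) m ∧
    ∑ j, (m j).toFinset.card ≤ 2 ^ d

/-- A point of a carried solution is usable. -/
lemma Carries.usable {d : ℕ} {rz : Rows} {a : ZV} {J : List Piece} {k : ℕ} {WM : ZM} {γ : ZV}
    {m : ∀ j : Fin J.length, Multiset (Fin (eJ J j) → ℤ)}
    (h : IsSol (SR d rz) (eJ J) (phiJ d J) (psiJ d J k WM) (tgtV d a k γ) m)
    (j : Fin J.length) {x : Fin (eJ J j) → ℤ} (hx : x ∈ m j) :
    UsableS d rz a J k WM γ j x := ⟨h.mem j x hx, h.usable j hx⟩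

/-- The contribution of a multiset. -/
lemma lin_mval {n e : ℕ} (c : Chart n e) (s : Multiset (Fin e → ℤ)) :
    c.lin (cast2 (mval s)) = toQ (s.map c.pt).sum := by
  rw [Chart.lin_cast2]
  congr 1
  have h : ∀ s : Multiset (Fin e → ℤ), c.linZ (mval s) = (s.map c.pt).sum := by
    intro s
    induction s using Multiset.induction_on with
    | empty =>
      have : mval (0 : Multiset (Fin e → ℤ)) = 0 := rfl
      rw [this, map_zero]; rfl
    | cons a s ih =>
      have h1 : mval (a ::ₘ s) = (a, 1) + mval s := by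
        simp only [mval, Multiset.sum_cons, Multiset.card_cons]
        refine Prod.ext rfl ?_
        simp only [Prod.snd_add]
        push_cast; ring
      rw [h1, map_add, Chart.linZ_one, ih, Multiset.map_cons, Multiset.sum_cons]
  exact h s

/-- A decorated piece. -/
def mkD (d : ℕ) (J : List Piece) (j : Fin J.length) (s : Multiset (Fin (eJ J j) → ℤ)) :
    Deco d := ⟨toP d (pc J j), s⟩

/-- The decorated pieces. -/
def decoL (d : ℕ) (J : List Piece) (m : ∀ j : Fin J.length, Multiset (Fin (eJ J j) → ℤ)) :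
    List (Deco d) := List.ofFn fun j : Fin J.length => mkD d J j (m j)

lemma decoL_getElem (d : ℕ) (J : List Piece)
    (m : ∀ j : Fin J.length, Multiset (Fin (eJ J j) → ℤ)) (j : Fin J.length)
    (h : (j : ℕ) < (decoL d J m).length) : (decoL d J m)[(j : ℕ)] = mkD d J j (m j) :=
  List.getElem_ofFn _

lemma decoL_P (d : ℕ) (J : List Piece)
    (m : ∀ j : Fin J.length, Multiset (Fin (eJ J j) → ℤ)) :
    (decoL d J m).map Deco.P = J.map (toP d) := by
  unfold decoL
  rw [List.map_ofFn]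
  refine List.ext_getElem (by simp) fun i h1 h2 => ?_
  have h3 : i < J.length := by simpa using h2
  rw [List.getElem_map, List.getElem_ofFn, ← pc_eq h3]
  rfl

lemma decoL_sum {M : Type} [AddCommMonoid M] (d : ℕ) (J : List Piece)
    (m : ∀ j : Fin J.length, Multiset (Fin (eJ J j) → ℤ)) (f : Deco d → M) :
    ((decoL d J m).map f).sum = ∑ j : Fin J.length, f (mkD d J j (m j)) := by
  unfold decoL
  rw [List.map_ofFn, List.sum_ofFn]
  rfl

/-- The properties of the decorated list. -/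
lemma Carries.deco {d : ℕ} {rz : Rows} {a : ZV} {J : List Piece} {k : ℕ} {WM : ZM} {γ : ZV}
    {m : ∀ j : Fin J.length, Multiset (Fin (eJ J j) → ℤ)} (h0 : ∀ j, m j ≠ 0)
    (h : IsSol (SR d rz) (eJ J) (phiJ d J) (psiJ d J k WM) (tgtV d a k γ) m)
    (hc : ∑ j, (m j).toFinset.card ≤ 2 ^ d) :
    (∀ D ∈ decoL d J m, D.OK (SR d rz)) ∧ ((decoL d J m).map Deco.val).sum = vec d a ∧
      ((decoL d J m).map Deco.cnt).sum ≤ 2 ^ d := by
  refine ⟨fun D hD => ?_, ?_, ?_⟩
  · unfold decoL at hD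
    rw [List.mem_ofFn] at hD
    obtain ⟨j, rfl⟩ := hD
    exact ⟨h0 j, h.mem j⟩
  · rw [decoL_sum]
    refine toQ_injective ?_
    funext l
    have h5 := congrFun h.total (Fin.castAdd k l)
    rw [Ltot_apply, Finset.sum_apply, toQ_apply, tgtV_castAdd] at h5
    rw [toQ_apply, toQ_apply, ← h5, Finset.sum_apply]
    push_cast
    refine Finset.sum_congr rfl fun j _ => ?_
    rw [lin_psi, lin_mval]
    rfl
  · rw [decoL_sum]
    exact hc

/-- From a decorated list. -/
lemma carries_of_deco {d : ℕ} {rz : Rows} {a : ZV} {J : List Piece} {WM : ZM}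
    (h : Follows (SR d rz) (vec d a) (2 ^ d) (J.map (toP d))) : Carries d rz a J 0 WM [] := by
  obtain ⟨DL, hP, h1, h2, h3⟩ := h
  have hlen : DL.length = J.length := by
    have := congrArg List.length hP
    simpa using this
  have key : ∀ j : Fin J.length, ∃ s : Multiset (Fin (eJ J j) → ℤ),
      mkD d J j s = DL[(j : ℕ)]'(by rw [hlen]; exact j.2) := by
    intro j
    have h4 : (DL[(j : ℕ)]'(by rw [hlen]; exact j.2)).P = toP d (pc J j) := by
      have h5 : (DL.map Deco.P)[(j : ℕ)]'(by rw [List.length_map, hlen]; exact j.2) =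
          (J.map (toP d))[(j : ℕ)]'(by rw [List.length_map]; exact j.2) := by
        simp only [hP]
      rw [List.getElem_map, List.getElem_map] at h5
      rw [h5, pc_eq j.2]
    generalize DL[(j : ℕ)]'(by rw [hlen]; exact j.2) = D at h4 ⊢
    obtain ⟨P, s⟩ := D
    change P = _ at h4
    subst h4
    exact ⟨s, rfl⟩
  choose m hm using key
  have hDL : decoL d J m = DL := by
    unfold decoL
    refine List.ext_getElem (by rw [List.length_ofFn, hlen]) fun i hi1 hi2 => ?_
    rw [List.getElem_ofFn]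
    exact hm _
  have hsum : ∀ (M : Type) [AddCommMonoid M] (f : Deco d → M),
      ∑ j : Fin J.length, f (mkD d J j (m j)) = (DL.map f).sum := by
    intro M _ f
    rw [← decoL_sum, hDL]
  have hmem : ∀ j : Fin J.length, mkD d J j (m j) ∈ DL := fun j => by
    rw [hm j]; exact List.getElem_mem _
  refine ⟨m, fun j => (h1 _ (hmem j)).ne, ⟨fun j => (h1 _ (hmem j)).mem, ?_⟩, ?_⟩
  · funext l
    obtain ⟨l, rfl⟩ : ∃ l' : Fin d, Fin.castAdd 0 l' = l := ⟨l, rfl⟩
    rw [Ltot_apply, Finset.sum_apply, toQ_apply, tgtV_castAdd]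
    have h4 : ((vec d a l : ℤ) : ℚ) = toQ (vec d a) l := rfl
    rw [h4, ← h2, ← hsum _ Deco.val, toQ_apply, Finset.sum_apply]
    push_cast
    refine Finset.sum_congr rfl fun j _ => ?_
    rw [lin_psi, lin_mval]
    rfl
  · refine le_trans (le_of_eq ?_) h3
    exact hsum _ Deco.cnt

/-- The list of the digits which are not zero. -/
lemma filter_tab (κ n : ℕ) (hn : n ≤ κ) (δ : ℕ → ℕ) (h1 : ∀ i < n, δ i ≠ 0)
    (h2 : ∀ i, n ≤ i → δ i = 0) : (tab κ δ).filter (fun c => decide (c ≠ 0)) = tab n δ := by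
  obtain ⟨m, rfl⟩ := Nat.exists_eq_add_of_le hn
  unfold tab
  rw [List.range_add, List.map_append, List.filter_append]
  have e1 : ((List.range n).map δ).filter (fun c => decide (c ≠ 0)) = (List.range n).map δ := by
    rw [List.filter_eq_self]
    intro c hc
    obtain ⟨i, hi, rfl⟩ := List.mem_map.1 hc
    exact decide_eq_true (h1 i (List.mem_range.1 hi))
  have e2 : (((List.range m).map (n + ·)).map δ).filter (fun c => decide (c ≠ 0)) = [] := by
    rw [List.filter_eq_nil_iff]
    intro c hc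
    obtain ⟨i, hi, rfl⟩ := List.mem_map.1 hc
    obtain ⟨i', _, rfl⟩ := List.mem_map.1 hi
    rw [h2 _ (Nat.le_add_right _ _)]
    simp
  rw [e1, e2, List.append_nil]

/-- **Splitting a piece of a state which carries a solution.** -/
lemma Carries.split {fu d X t σ : ℕ} {rz : Rows} {a : ZV} {J : List Piece} {k : ℕ} {WM : ZM}
    {γ : ZV} {Γ : ℕ} (hF : FuOK fu d) {o : Res}
    (hc : Carries d rz a J k WM γ) (j : Fin J.length) (hpos : 0 < eJ J j)
    (ho : o.1 = 2) (hU : UW (eJ J j) X o.2.2.1 o.2.2.2.1)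
    (hflat : ∀ x, UsableS d rz a J k WM γ j x →
        bE fu d (eJ J j) σ o ≤ vec (eJ J j) (row o.2.2.1 0) ⬝ᵥ x ∧
        vec (eJ J j) (row o.2.2.1 0) ⬝ᵥ x ≤
          bE fu d (eJ J j) σ o + 2 * (tauc fu d * kkc fu d * (Gd fu d + 1) : ℕ)) :
    ∃ δ : ℕ → ℕ, (∀ i, δ i < baseD d) ∧ ∀ g,
      (∀ i < 2 ^ d, gss fu Γ (kap fu d) g t i = δ i) → ∃ J' : List Piece,
      splitJ fu d J Γ g t j σ o = (t + 1, 0, J', 0, idM (totN J'), idM (totN J'), []) ∧
      (J'.map fun P : Piece => (2 ^ d + 1) ^ P.1).sum <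
        (J.map fun P : Piece => (2 ^ d + 1) ^ P.1).sum ∧
      Carries d rz a J' 0 (idM (totN J')) [] := by
  obtain ⟨m, hm0, hsol, hcard⟩ := hc
  obtain ⟨hOK, hsum, hcnt⟩ := Carries.deco hm0 hsol hcard
  have hlen : (decoL d J m).length = J.length := by unfold decoL; rw [List.length_ofFn]
  have hj' : (j : ℕ) < (decoL d J m).length := by rw [hlen]; exact j.2
  have hsplit : decoL d J m = (decoL d J m).take j ++ (decoL d J m)[(j : ℕ)] ::
      (decoL d J m).drop (j + 1) := by
    rw [List.cons_getElem_drop_succ, List.take_append_drop]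
  have hget : (decoL d J m)[(j : ℕ)] = mkD d J j (m j) := decoL_getElem d J m j hj'
  -- the piece
  obtain ⟨e, he⟩ : ∃ e, (pc J j).1 = e + 1 := ⟨(pc J j).1 - 1, by
    have : 0 < (pc J j).1 := hpos
    omega⟩
  have hall : ∀ (P : Piece) (s : Multiset (Fin P.1 → ℤ)), P.1 = e + 1 →
      (⟨toP d P, s⟩ : Deco d) = (decoL d J m)[(j : ℕ)] → UW P.1 X o.2.2.1 o.2.2.2.1 →
      (∀ x ∈ s, bE fu d P.1 σ o ≤ vec P.1 (row o.2.2.1 0) ⬝ᵥ x ∧
        vec P.1 (row o.2.2.1 0) ⬝ᵥ x ≤
          bE fu d P.1 σ o + 2 * (tauc fu d * kkc fu d * (Gd fu d + 1) : ℕ)) →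
      ∃ G' : List ℤ, (∀ g ∈ G', bE fu d P.1 σ o ≤ g ∧
        g ≤ bE fu d P.1 σ o + 2 * (tauc fu d * kkc fu d * (Gd fu d + 1) : ℕ)) ∧
      Follows (SR d rz) (vec d a) (2 ^ d) (((decoL d J m).take j).map Deco.P ++
        ((decoL d J m).drop (j + 1)).map Deco.P ++
        G'.map fun g => toP d (slice d P o.2.2.1 o.2.2.2.1 g)) := by
    intro P s hP hD hU hfl
    obtain ⟨n, F, f0, r⟩ := P
    change n = e + 1 at hP
    subst hP
    set b := bE fu d (e + 1) σ o with hb
    set L := 2 * (tauc fu d * kkc fu d * (Gd fu d + 1)) with hL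
    obtain ⟨G', hG', hfol⟩ := slice_follows (phiP d (e + 1, F, f0, r))
      (mtx (e + 1) (e + 1) o.2.2.1) (mtx (e + 1) (e + 1) o.2.2.2.1) s (S := SR d rz)
      (a := vec d a) (κ := 2 ^ d) hU.WU ((decoL d J m).take j) ((decoL d J m).drop (j + 1))
      ((List.range (L + 1)).map fun i : ℕ => b + (i : ℤ))
      (List.Nodup.map (fun x y h => by
        have h' : b + (x : ℤ) = b + (y : ℤ) := h
        omega) List.nodup_range)
      (by
        have h1 : (⟨⟨e + 1, phiP d (e + 1, F, f0, r)⟩, s⟩ : Deco d) =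
          (decoL d J m)[(j : ℕ)] := hD
        rw [h1, ← hsplit]; exact hOK)
      (by
        have h1 : (⟨⟨e + 1, phiP d (e + 1, F, f0, r)⟩, s⟩ : Deco d) =
          (decoL d J m)[(j : ℕ)] := hD
        rw [h1, ← hsplit]; exact hsum)
      (by
        have h1 : (⟨⟨e + 1, phiP d (e + 1, F, f0, r)⟩, s⟩ : Deco d) =
          (decoL d J m)[(j : ℕ)] := hD
        rw [h1, ← hsplit]; exact hcnt)
      (fun x hx => by
        obtain ⟨h1, h2⟩ := hfl x hx
        have h3 : lab (mtx (e + 1) (e + 1) o.2.2.1) x = vec (e + 1) (row o.2.2.1 0) ⬝ᵥ x := rfl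
        rw [h3, List.mem_map]
        change b ≤ _ at h1
        refine ⟨(vec (e + 1) (row o.2.2.1 0) ⬝ᵥ x - b).toNat, ?_, ?_⟩
        · rw [List.mem_range]
          have h4 : vec (e + 1) (row o.2.2.1 0) ⬝ᵥ x - b ≤ (L : ℤ) := by
            rw [hL]; push_cast
            have h5 : vec (e + 1) (row o.2.2.1 0) ⬝ᵥ x ≤
              b + 2 * ((tauc fu d * kkc fu d * (Gd fu d + 1) : ℕ) : ℤ) := h2
            push_cast at h5
            linarith
          omega
        · rw [Int.toNat_of_nonneg (by linarith)]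
          ring)
    refine ⟨G', fun g hg => ?_, ?_⟩
    · have h1 := hG'.subset hg
      rw [List.mem_map] at h1
      obtain ⟨i, hi, rfl⟩ := h1
      rw [List.mem_range] at hi
      have h3 : (i : ℤ) ≤ L := by exact_mod_cast Nat.lt_succ_iff.1 hi
      rw [hL] at h3
      push_cast at h3 ⊢
      constructor
      · linarith [Int.natCast_nonneg i]
      · linarith
    · convert hfol using 2
      refine List.map_congr_left fun g _ => ?_
      exact toP_slice d e r F o.2.2.1 o.2.2.2.1 f0 g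
  obtain ⟨G', hG1, hG2⟩ := hall (pc J j) (m j) he hget.symm hU fun x hx =>
    hflat x (Carries.usable hsol j hx)
  -- the digits
  have hJ1 : ((decoL d J m).take j).map Deco.P = (J.take j).map (toP d) := by
    rw [List.map_take, decoL_P, List.map_take]
  have hJ2 : ((decoL d J m).drop (j + 1)).map Deco.P = (J.drop (j + 1)).map (toP d) := by
    rw [List.map_drop, decoL_P, List.map_drop]
  rw [hJ1, hJ2] at hG2
  have hlen2 := hG2.length_le
  simp only [List.length_append, List.length_map] at hlen2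
  have hGlen : G'.length ≤ 2 ^ d := by omega
  set b := bE fu d (pc J j).1 σ o with hb
  set δ : ℕ → ℕ := fun i => if h : i < G'.length then (G'[i] - b + 1).toNat else 0 with hδ
  have hδ1 : ∀ i (h : i < G'.length), ((δ i : ℕ) : ℤ) = G'[i] - b + 1 := by
    intro i h
    have h1 := (hG1 _ (List.getElem_mem h)).1
    rw [hδ]
    dsimp only
    rw [dif_pos h, Int.toNat_of_nonneg (by linarith)]
  have hδ2 : ∀ i, G'.length ≤ i → δ i = 0 := by
    intro i h
    rw [hδ]
    dsimp only
    rw [dif_neg (by omega)]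
  have hδ0 : ∀ i < G'.length, δ i ≠ 0 := by
    intro i h h0
    have h1 := hδ1 i h
    have h2 := (hG1 _ (List.getElem_mem h)).1
    rw [h0] at h1
    push_cast at h1
    linarith
  refine ⟨δ, fun i => ?_, fun g hg => ?_⟩
  · by_cases h : i < G'.length
    · have h1 := hδ1 i h
      have h2 := (hG1 _ (List.getElem_mem h)).2
      have h3 : ((δ i : ℕ) : ℤ) ≤ ((2 * (tauc fu d * kkc fu d * (Gd fu d + 1)) + 1 : ℕ) : ℤ) := by
        rw [h1]; push_cast at h2 ⊢; linarith
      have h4 : δ i ≤ 2 * (tauc fu d * kkc fu d * (Gd fu d + 1)) + 1 := by exact_mod_cast h3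
      rw [hF.tauc, hF.kkc, hF.gd] at h4
      have h5 : 2 * (tauD d * (d + 1).factorial * (flatG d + 1)) =
        2 * tauD d * (d + 1).factorial * (flatG d + 1) := by ring
      unfold baseD
      omega
    · rw [hδ2 i (by omega)]
      exact baseD_pos d
  have hnew : newP fu d J Γ g t j σ o = J.take j ++ J.drop (j + 1) ++
      G'.map fun g => slice d (pc J j) o.2.2.1 o.2.2.2.1 g := by
    have htab : (tab (kap fu d) fun i => gss fu Γ (kap fu d) g t i) = tab (2 ^ d) δ := by
      rw [hF.kap] at hg ⊢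
      exact tab_congr fun i hi => hg i hi
    have hnew1 : newP fu d J Γ g t j σ o = J.take j ++ J.drop (j + 1) ++
        ((tab (kap fu d) fun i => gss fu Γ (kap fu d) g t i).filter
          fun c => decide (c ≠ 0)).map fun (c : ℕ) =>
            slice d (pc J j) o.2.2.1 o.2.2.2.1 (bE fu d (pc J j).1 σ o + (c : ℤ) - 1) := rfl
    rw [hnew1, htab, filter_tab (2 ^ d) G'.length hGlen δ hδ0 hδ2, map_tab]
    congr 1
    refine List.ext_getElem (by simp) fun i h1 h2 => ?_
    have h3 : i < G'.length := by simpa using h2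
    rw [List.getElem_map]
    have h4 : (tab G'.length fun i => MDF.slice d (pc J j) o.2.2.1 o.2.2.2.1
        (bE fu d (pc J j).1 σ o + ((δ i : ℕ) : ℤ) - 1))[i]'(by rw [length_tab]; exact h3) =
        MDF.slice d (pc J j) o.2.2.1 o.2.2.2.1
        (bE fu d (pc J j).1 σ o + ((δ i : ℕ) : ℤ) - 1) := by
      simp [tab]
    refine h4.trans ?_
    rw [hδ1 i h3]
    congr 1
    rw [hb]
    ring
  have hlen3 : (newP fu d J Γ g t j σ o).length ≤ 2 ^ d := by
    rw [hnew]
    simp only [List.length_append, List.length_map]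
    omega
  refine ⟨newP fu d J Γ g t j σ o, ?_, ?_, ?_⟩
  · unfold splitJ
    dsimp only
    rw [if_pos ho, if_pos (by rw [hF.kap]; exact hlen3)]
  · have hJ : J = J.take j ++ pc J j :: J.drop (j + 1) := by
      rw [pc_eq j.2, List.cons_getElem_drop_succ, List.take_append_drop]
    have hs1 : (J.map fun P : Piece => (2 ^ d + 1) ^ P.1).sum =
        ((J.take j).map fun P : Piece => (2 ^ d + 1) ^ P.1).sum +
          ((2 ^ d + 1) ^ (pc J j).1 +
            ((J.drop (j + 1)).map fun P : Piece => (2 ^ d + 1) ^ P.1).sum) := by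
      conv_lhs => rw [hJ]
      rw [List.map_append, List.sum_append, List.map_cons, List.sum_cons]
    rw [hs1, hnew]
    simp only [List.map_append, List.sum_append, List.map_map]
    have h1 : (G'.map ((fun P : Piece => (2 ^ d + 1) ^ P.1) ∘ fun g =>
        MDF.slice d (pc J j) o.2.2.1 o.2.2.2.1 g)).sum = G'.length * (2 ^ d + 1) ^ e := by
      have h2 : ((fun P : Piece => (2 ^ d + 1) ^ P.1) ∘ fun g =>
          MDF.slice d (pc J j) o.2.2.1 o.2.2.2.1 g) = fun _ => (2 ^ d + 1) ^ e := by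
        funext g
        change (2 ^ d + 1) ^ ((pc J j).1 - 1) = _
        rw [he, Nat.add_sub_cancel]
      rw [h2, List.map_const', List.sum_replicate, smul_eq_mul]
    rw [h1, he, pow_succ]
    have h2 : G'.length * (2 ^ d + 1) ^ e < (2 ^ d + 1) ^ e * (2 ^ d + 1) := by
      rw [mul_comm ((2 ^ d + 1) ^ e)]
      exact Nat.mul_lt_mul_of_pos_right (by omega) (by positivity)
    omega
  · refine carries_of_deco ?_
    rw [hnew]
    simp only [List.map_append, List.map_map]
    exact hG2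

end Pool.Agent.MDF
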