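import Pool.Agent.MDF.Final

/-!
# Instances and their binary codes
-/

set_option autoImplicit false

namespace Pool.Agent.MDF

open Pool.Agent.PF Turing Matrix

/-- Self-delimiting code of a bit: `0` for false, `100` for true. -/
def codeBit : Bool → List Bool
  | false => [false]
  | true => [true, false, false]

/-- Self-delimiting code of a list, given a self-delimiting code `c` of its members: every member
is announced by a `1`, and a `0` marks the end. -/
def codeList {α : Type} (c : α → List Bool) : List α → List Bool
  | [] => [false]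
  | x :: l => true :: (c x ++ codeList c l)

/-- Self-delimiting binary code of an integer: its sign and the list of the binary digits of its
absolute value, the least significant digit first. -/
def codeInt (z : ℤ) : List Bool :=
  true :: (codeBit (decide (z < 0)) ++ codeList codeBit z.natAbs.bits)

/-- Binary code of an integer vector. -/
def codeVec {n : ℕ} (v : Fin n → ℤ) : List Bool := codeList codeInt (List.ofFn v)

/-- Binary code of the instance `(A, b, a)`: the list of the rows of `A`, each with the
corresponding member of `b`, followed by the vector `a`. -/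
def codeInst {m d : ℕ} (A : Matrix (Fin m) (Fin d) ℤ) (b : Fin m → ℤ) (a : Fin d → ℤ) :
    List Bool :=
  true :: (codeList (fun i => true :: (codeVec (A i) ++ codeInt (b i))) (List.finRange m) ++
    codeVec a)

/-! ### Comparison with the codes by trees -/

theorem codeBit_eq (b : Bool) : codeBit b = (enc b : V).code := by cases b <;> rfl

theorem codeList_eq {α β : Type} [VEnc β] (c : α → List Bool) (g : α → β)
    (h : ∀ x, c x = (enc (g x) : V).code) (l : List α) :
    codeList c l = (enc (l.map g) : V).code := by
  induction l with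
  | nil => rfl
  | cons x l ih =>
    change true :: (c x ++ codeList c l) = true :: ((enc (g x) : V).code ++
      (enc (l.map g) : V).code)
    rw [h, ih]

theorem codeInt_eq (z : ℤ) : codeInt z = (enc z : V).code := by
  change true :: (codeBit (decide (z < 0)) ++ codeList codeBit z.natAbs.bits) =
    true :: ((enc (decide (z < 0)) : V).code ++ (enc z.natAbs.bits : V).code)
  rw [codeBit_eq, codeList_eq codeBit id codeBit_eq, List.map_id]

theorem codeVec_eq {n : ℕ} (v : Fin n → ℤ) : codeVec v = (enc (List.ofFn v) : V).code := by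
  unfold codeVec
  rw [codeList_eq codeInt id codeInt_eq, List.map_id]

/-- The instance in the form of lists. -/
def toRows {m d : ℕ} (A : Matrix (Fin m) (Fin d) ℤ) (b : Fin m → ℤ) : Rows :=
  (List.finRange m).map fun i => (List.ofFn (A i), b i)

theorem codeInst_eq {m d : ℕ} (A : Matrix (Fin m) (Fin d) ℤ) (b : Fin m → ℤ)
    (a : Fin d → ℤ) :
    codeInst A b a = (enc ((toRows A b, List.ofFn a) : Rows × ZV) : V).code := by
  change true :: (codeList (fun i => true :: (codeVec (A i) ++ codeInt (b i))) (List.finRange m) ++
    codeVec a) = true :: ((enc (toRows A b) : V).code ++ (enc (List.ofFn a) : V).code)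
  rw [codeVec_eq, codeList_eq (fun i => true :: (codeVec (A i) ++ codeInt (b i)))
    (fun i => ((List.ofFn (A i), b i) : ZV × ℤ))]
  · rfl
  · intro i
    rw [codeVec_eq, codeInt_eq]
    rfl

theorem vec_ofFn {n : ℕ} (v : Fin n → ℤ) : vec n (List.ofFn v) = v := by
  funext i
  rw [vec_apply, g1, List.getD_eq_getElem _ _ (by rw [List.length_ofFn]; exact i.2)]
  simp

theorem setS_toRows {m d : ℕ} (A : Matrix (Fin m) (Fin d) ℤ) (b : Fin m → ℤ) :
    setS d (toRows A b) = {z | 0 ≤ z ∧ A *ᵥ z ≤ b} := by
  ext z
  simp only [setS, InRows, toRows, List.mem_map, List.mem_finRange, true_and,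
    forall_exists_index, forall_apply_eq_imp_iff, Set.mem_ofPred_eq, Pi.le_def, Pi.zero_apply]
  refine and_congr_right fun _ => forall_congr' fun i => ?_
  rw [vec_ofFn]
  rfl

open Classical in
theorem final_inst (hspec : DecideSpec) :
    ∃ (M : FinTM2) (e₀ : M.Γ M.k₀ ≃ Bool) (e₁ : M.Γ M.k₁ ≃ Bool) (f : ℕ → ℕ) (k : ℕ),
      Computable f ∧ ∀ (m d : ℕ) (A : Matrix (Fin m) (Fin d) ℤ) (b : Fin m → ℤ) (a : Fin d → ℤ),
        Nonempty (TM2OutputsInTime M ((codeInst A b a).map e₀.symm)
          (some ([decide (a ∈ AddSubmonoid.closure {z : Fin d → ℤ | 0 ≤ z ∧ A *ᵥ z ≤ b})].map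
            e₁.symm))
          (f d * ((codeInst A b a).length + 1) ^ k)) := by
  obtain ⟨M, e₀, e₁, f, k, hf, h⟩ := final_of_spec hspec
  refine ⟨M, e₀, e₁, f, k, hf, fun m d A b a => ?_⟩
  have hl : (List.ofFn a).length = d := List.length_ofFn
  have h1 := h (toRows A b, List.ofFn a)
    (decide (a ∈ AddSubmonoid.closure {z : Fin d → ℤ | 0 ≤ z ∧ A *ᵥ z ≤ b})) (by
      rw [decide_eq_true_iff]
      simp only
      rw [hl, vec_ofFn, setS_toRows])
  rw [← codeInst_eq] at h1
  simp only at h1
  rw [hl] at h1
  exact h1

end Pool.Agent.MDF
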