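import Pool.Agent.MDF.Sound
import Pool.Agent.MDF.DeepE

/-!
# Completeness: a new equation keeps the solution
-/

set_option autoImplicit false

namespace Pool.Agent.MDF

open Pool.Agent.PF Pool.Agent.MonFPT Matrix

/-- The blocks of a solution as a vector. -/
def solZ (J : List Piece) (s : ∀ j : Fin J.length, Multiset (Fin (eJ J j) → ℤ)) (b : ℕ) : ℤ :=
  unblk J (fun j => mval (s j)) b

lemma blkN_solZ (J : List Piece) (s : ∀ j : Fin J.length, Multiset (Fin (eJ J j) → ℤ)) :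
    blkN J (fun b => (solZ J s b : ℚ)) = fun j => cast2 (mval (s j)) :=
  blkN_unblkZ J fun j => mval (s j)

/-- A solution in terms of integral linear equations. -/
lemma isSol_iff {d : ℕ} {rz : Rows} {a γ : ZV} {J : List Piece} {k : ℕ} {WM : ZM}
    {s : ∀ j : Fin J.length, Multiset (Fin (eJ J j) → ℤ)} :
    IsSol (SR d rz) (eJ J) (phiJ d J) (psiJ d J k WM) (tgtV d a k γ) s ↔
      (∀ j, ∀ x ∈ s j, x ∈ pset (SR d rz) (eJ J) (phiJ d J) j) ∧
      (∀ l < d, ∑ b ∈ Finset.range (totN J), g1 (eqRow J l) b * solZ J s b = g1 a l) ∧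
      ∀ i < k, ∑ b ∈ Finset.range (totN J), g2 WM i b * solZ J s b = g1 γ i := by
  have key : (Ltot (eJ J) (psiJ d J k WM) (fun j => cast2 (mval (s j))) =
      toQ (tgtV d a k γ)) ↔
      (∀ l < d, ∑ b ∈ Finset.range (totN J), g1 (eqRow J l) b * solZ J s b = g1 a l) ∧
      ∀ i < k, ∑ b ∈ Finset.range (totN J), g2 WM i b * solZ J s b = g1 γ i := by
    rw [← blkN_solZ]
    have ht : ∀ l : Fin (d + k), tgtV d a k γ l = if (l : ℕ) < d then g1 a l else g1 γ (l - d) := by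
      intro l
      change g1 (tgt d a γ k) l = _
      unfold tgt
      rw [g1_tab_lt _ l.2]
    constructor
    · intro h
      refine ⟨fun l hl => ?_, fun i hi => ?_⟩
      · have h1 := congrFun h ⟨l, by omega⟩
        rw [Ltot_blk, toQ_apply, ht] at h1
        simp only [if_pos hl] at h1
        exact_mod_cast h1
      · have h1 := congrFun h ⟨d + i, by omega⟩
        rw [Ltot_blk, toQ_apply, ht] at h1
        simp only [if_neg (by omega : ¬ d + i < d), Nat.add_sub_cancel_left] at h1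
        exact_mod_cast h1
    · rintro ⟨h1, h2⟩
      funext l
      rw [Ltot_blk, toQ_apply, ht]
      by_cases hl : (l : ℕ) < d
      · rw [if_pos hl, if_pos hl, ← h1 l hl]
        push_cast
        rfl
      · rw [if_neg hl, if_neg hl, ← h2 ((l : ℕ) - d) (by omega)]
        push_cast
        rfl
  constructor
  · intro h
    exact ⟨h.mem, key.1 h.total⟩
  · rintro ⟨h1, h2⟩
    exact ⟨h1, key.2 h2⟩

/-- The rows of the new matrix. -/
lemma g2_actU_lt {N k : ℕ} {WM U : ZM} {i b : ℕ} (hN : i < N) (hi : i < k) (hb : b < N) :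
    g2 (actU N k WM U) i b = g2 WM i b := by
  unfold actU
  rw [g2_tabM_lt _ hN hb, if_pos hi]

lemma g2_actU_k {N k : ℕ} {WM U : ZM} {b : ℕ} (hN : k < N) (hb : b < N) :
    g2 (actU N k WM U) k b = ∑ i ∈ Finset.range (N - k), g2 U 0 i * g2 WM (k + i) b := by
  unfold actU
  rw [g2_tabM_lt _ hN hb, if_neg (lt_irrefl _), Nat.sub_self, sumz_range]

lemma g1_append_lt {k : ℕ} {γ : ZV} (hγ : γ.length = k) (w : ℤ) {i : ℕ} (hi : i < k) :
    g1 (γ ++ [w]) i = g1 γ i := by
  unfold g1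
  rw [List.getD_append _ _ _ _ (by rw [hγ]; exact hi)]

lemma g1_append_self {k : ℕ} {γ : ZV} (hγ : γ.length = k) (w : ℤ) : g1 (γ ++ [w]) k = w := by
  unfold g1
  rw [List.getD_append_right _ _ _ _ (by rw [hγ]), hγ, Nat.sub_self]
  rfl

/-- **The new equation keeps the solution.** -/
theorem isSol_newEq {d : ℕ} {rz : Rows} {a γ : ZV} {J : List Piece} {k : ℕ} {WM : ZM}
    {s : ∀ j : Fin J.length, Multiset (Fin (eJ J j) → ℤ)}
    (h : IsSol (SR d rz) (eJ J) (phiJ d J) (psiJ d J k WM) (tgtV d a k γ) s)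
    (hk : k < totN J) (hγ : γ.length = k) (U : ZM) {w : ℤ}
    (hw : w = ∑ b ∈ Finset.range (totN J), g2 (actU (totN J) k WM U) k b * solZ J s b) :
    IsSol (SR d rz) (eJ J) (phiJ d J) (psiJ d J (k + 1) (actU (totN J) k WM U))
      (tgtV d a (k + 1) (γ ++ [w])) s := by
  rw [isSol_iff] at h ⊢
  refine ⟨h.1, h.2.1, fun i hi => ?_⟩
  rcases Nat.lt_or_ge i k with h1 | h1
  · rw [g1_append_lt hγ w h1, ← h.2.2 i h1]
    refine Finset.sum_congr rfl fun b hb => ?_
    rw [g2_actU_lt (by omega) h1 (Finset.mem_range.1 hb)]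
  · have h2 : i = k := by omega
    subst h2
    rw [g1_append_self hγ, hw]

/-- **Completeness, the deep case.** -/
theorem deep_complete {Fe Fd : ℕ → ℕ} (hE : StepEHyp Fe) (hD : DeepHyp Fd) {fu d X t : ℕ}
    {rz : Rows} {a : ZV} {J : List Piece} {k : ℕ} {WM WI : ZM} {γ : ZV} (hc : FuOK fu d)
    (hok : StOK d X rz a J k WM WI γ) (hfe : Fe d * (X + 1) ≤ fu)
    (hfd : Fd d * (X + tauD d * (d + 1).factorial + Fe d * (X + 1) + 1 + 1) ≤ fu)
    (hall : ∀ j < J.length, ∀ σ < tpow fu (kkc fu d) (pc J j).1,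
      (flatE fu d rz a (t, 0, J, k, WM, WI, γ) j σ).1 = 1) (hJ : J ≠ [])
    {s : ∀ j : Fin J.length, Multiset (Fin (eJ J j) → ℤ)}
    (hs : IsSol (SR d rz) (eJ J) (phiJ d J) (psiJ d J k WM) (tgtV d a k γ) s) :
    (∀ Γ g, (deepStep fu d rz a Γ g (t, 0, J, k, WM, WI, γ)
      (tabE fu d rz a (t, 0, J, k, WM, WI, γ))).2.1 = 1) ∨
    ∃ c < baseD d, ∀ Γ g, gss fu Γ (kap fu d) g t 0 = c →
      ∃ (WM' WI' : ZM) (γ' : ZV),
        deepStep fu d rz a Γ g (t, 0, J, k, WM, WI, γ)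
          (tabE fu d rz a (t, 0, J, k, WM, WI, γ)) = (t + 1, 0, J, k + 1, WM', WI', γ') ∧
        k < totN J ∧
        IsSol (SR d rz) (eJ J) (phiJ d J) (psiJ d J (k + 1) WM') (tgtV d a (k + 1) γ') s := by
  have hvb := vb_ptsJ hE (t := t) hok hfe hc hall
  have hfo := foundS_ptsJ hE (t := t) hok hfe hc hall
  have hdeep := hD fu d _ t rz a J k WM WI γ _ _
    (hok.mono (by omega : X ≤ X + tauD d * (d + 1).factorial + Fe d * (X + 1) + 1)) hfd
    (fun j hj => ⟨(hvb j hj).1, fun p hp => ((hvb j hj).2 p hp).mono (by omega)⟩) hfo rfl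
  have hne : Nonempty (Fin J.length) := by
    have : 0 < J.length := List.length_pos_iff.2 hJ
    exact ⟨⟨0, this⟩⟩
  have hkk : 0 < kkc fu d := by rw [hc.kkc]; exact Nat.factorial_pos _
  have hcard : Fintype.card (Fin J.length) ≤ 2 ^ d := by
    rw [Fintype.card_fin]
    exact hok.len
  rcases hdeep with ⟨h2, _⟩ | ⟨h2, h3, h4, _, h6⟩ | ⟨_, h3⟩
  · left
    intro Γ g
    unfold deepStep
    dsimp only
    rw [if_pos h2]
  · right
    set o := flat fu (totN J - k) (Gc fu (totN J)) (radD d a (t, 0, J, k, WM, WI, γ))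
      (orcD fu d rz a (t, 0, J, k, WM, WI, γ)
        (ptsJ fu d J (tabE fu d rz a (t, 0, J, k, WM, WI, γ)))) with ho
    have hkN : k < totN J := by omega
    set w : ℤ := ∑ b ∈ Finset.range (totN J),
      g2 (actU (totN J) k WM o.2.2.1) k b * solZ J s b with hw
    -- the functional
    set Uf : (∀ j, (Fin (eJ J j) → ℚ) × ℚ) →ₗ[ℚ] ℚ :=
      (LinearMap.proj (⟨d + k, by omega⟩ : Fin (d + (k + 1)))) ∘ₗ
        Ltot (eJ J) (psiJ d J (k + 1) (actU (totN J) k WM o.2.2.1)) with hUf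
    have hUfy : ∀ y : ℕ → ℚ, Uf (blkN J y) = ∑ b ∈ Finset.range (totN J),
        (g2 (actU (totN J) k WM o.2.2.1) k b : ℚ) * y b := by
      intro y
      change Ltot (eJ J) (psiJ d J (k + 1) (actU (totN J) k WM o.2.2.1)) (blkN J y)
        ⟨d + k, by omega⟩ = _
      rw [Ltot_blk, if_neg (by simp)]
      simp
    have hUfy2 : ∀ y : ℕ → ℚ, Uf (blkN J y) = ∑ i ∈ Finset.range (totN J - k),
        (g2 o.2.2.1 0 i : ℚ) * ∑ b ∈ Finset.range (totN J), (g2 WM (k + i) b : ℚ) * y b := by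
      intro y
      rw [hUfy]
      simp only [Finset.mul_sum]
      rw [Finset.sum_comm]
      refine Finset.sum_congr rfl fun b hb => ?_
      rw [g2_actU_k hkN (Finset.mem_range.1 hb)]
      push_cast
      rw [Finset.sum_mul]
      exact Finset.sum_congr rfl fun i _ => by ring
    have hfl := FoundI.flat hfo hkk (2 ^ d) hcard Uf (o.2.2.2.2 : ℚ)
      ((Gc fu (totN J) : ℚ) + 1) (fun y hy => by
        have h7 := h6 (unblk J y) (by rw [blkN_unblk]; exact hy)
        rw [← hUfy2, blkN_unblk] at h7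
        exact h7) s hs
    have hwU : Uf (fun j => cast2 (mval (s j))) = (w : ℚ) := by
      rw [← blkN_solZ, hUfy, hw]
      push_cast
      rfl
    rw [hwU] at hfl
    have hflZ : |w - o.2.2.2.2| ≤ 3 * ((Gc fu (totN J) : ℤ) + 1) := by
      have h8 : ((|w - o.2.2.2.2| : ℤ) : ℚ) ≤ ((3 * ((Gc fu (totN J) : ℤ) + 1) : ℤ) : ℚ) := by
        push_cast
        exact hfl
      exact_mod_cast h8
    rw [abs_le] at hflZ
    have hG : Gc fu (totN J) ≤ flatG (maxD d) := by
      rw [hc.gc _ (tot_le_maxD hok)]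
      exact flatG_mono (tot_le_maxD hok)
    obtain ⟨c, hcw⟩ : ∃ c : ℕ, (c : ℤ) = w - o.2.2.2.2 + (3 * Gc fu (totN J) + 3) :=
      ⟨(w - o.2.2.2.2 + (3 * Gc fu (totN J) + 3)).toNat, Int.toNat_of_nonneg (by linarith)⟩
    refine ⟨c, ?_, fun Γ g hg => ?_⟩
    · have h9 : (c : ℤ) ≤ ((6 * Gc fu (totN J) + 6 : ℕ) : ℤ) := by
        rw [hcw]
        push_cast
        linarith
      have h10 : c ≤ 6 * Gc fu (totN J) + 6 := by exact_mod_cast h9
      unfold baseD
      generalize 2 * tauD d * (d + 1).factorial * (flatG d + 1) = x1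
      omega
    · refine ⟨_, actW (totN J) k WI o.2.2.2.1, _, ?_, hkN,
        isSol_newEq hs hkN hok.vg.len o.2.2.1 hw⟩
      unfold deepStep
      dsimp only
      rw [← ho, if_neg (by rw [h2]; norm_num), if_pos h2, hg, hcw]
      have h11 : o.2.2.2.2 - (3 * (Gc fu (totN J) : ℤ) + 3) +
          (w - o.2.2.2.2 + (3 * (Gc fu (totN J) : ℤ) + 3)) = w := by ring
      rw [h11]
  · exfalso
    obtain ⟨z, hz⟩ := FoundI.deep_nonempty hfo hkk (2 ^ d) hcard s hs
    have h4 : z ∈ DeepP d rz a J k WM γ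
        (ptsJ fu d J (tabE fu d rz a (t, 0, J, k, WM, WI, γ))) := hz
    rw [h3] at h4
    exact h4

end Pool.Agent.MDF
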