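import Pool.Agent.MDF.Final

/-!
# Correctness of the algorithm from the correctness of the main paths
-/

set_option autoImplicit false

namespace Pool.Agent.MDF

open Pool.Agent.PF

/-- Soundness of the main paths. -/
def SoundSpec : Prop := ∃ F : ℕ → ℕ, EB F ∧ Monotone F ∧
    ∀ (fu d : ℕ) (Ab : Rows) (a : ZV) (g : ℕ), a.length = d → F d * (blV a + 1) ≤ fu →
      mainPath fu d Ab a g = true →
      vec d a ∈ AddSubmonoid.closure (SR d (rowsZ d Ab a))

/-- Completeness of the main paths. -/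
def CompleteSpec : Prop := ∃ F : ℕ → ℕ, EB F ∧ Monotone F ∧
    ∀ (fu d : ℕ) (Ab : Rows) (a : ZV), a.length = d → F d * (blV a + 1) ≤ fu →
      vec d a ≠ 0 → vec d a ∈ AddSubmonoid.closure (SR d (rowsZ d Ab a)) →
      ∃ g < fu, mainPath fu d Ab a g = true

theorem decide_of (hS : SoundSpec) (hC : CompleteSpec) : DecideSpec := by
  obtain ⟨F, hF, hFm, hF'⟩ := hS
  obtain ⟨G, hG, hGm, hG'⟩ := hC
  refine ⟨fun n => F n + G n, hF.add hG, fun m n h => Nat.add_le_add (hFm h) (hGm h),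
    fun fu d Ab a ha hfu => ?_⟩
  have h1 : blV a + 1 ≤ sz (Ab, a) + 1 := Nat.add_le_add_right (blV_le_sz_inst Ab a) 1
  have h2 : (F d + G d) * (blV a + 1) ≤ fu := (Nat.mul_le_mul_left _ h1).trans hfu
  have h3 : F d * (blV a + 1) ≤ fu := (Nat.mul_le_mul_right _ (Nat.le_add_right _ _)).trans h2
  have h4 : G d * (blV a + 1) ≤ fu := (Nat.mul_le_mul_right _ (Nat.le_add_left _ _)).trans h2
  unfold decideMD
  rw [Bool.or_eq_true, start_zero, tab_any, closure_iff]
  constructor
  · rintro (h | ⟨g, _, h⟩)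
    · rw [h]; exact AddSubmonoid.zero_mem _
    · exact hF' fu d Ab a g ha h3 h
  · intro h
    by_cases h0 : vec d a = 0
    · exact Or.inl h0
    · exact Or.inr (hG' fu d Ab a ha h4 h0 h)

end Pool.Agent.MDF
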