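import Pool.Agent.MDF.CompDeep
import Pool.Agent.MDF.DecideOf

/-!
# Soundness of the main paths, unconditional
-/

set_option autoImplicit false

namespace Pool.Agent.MDF

/-- **Soundness.** -/
theorem sound_spec : SoundSpec := by
  obtain ⟨Fe, he1, _, he3⟩ := stepE_spec
  obtain ⟨Fd, hd1, _, hd3⟩ := deep_spec
  exact mainPath_sound he3 hd3 he1 hd1

end Pool.Agent.MDF
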