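import Pool.Agent.MDF.Carry
import Pool.Agent.MDF.CompDeep
import Pool.Agent.MDF.SoundF

/-!
# Completeness of the main paths
-/

set_option autoImplicit false

namespace Pool.Agent.MDF

open Pool.Agent.PF Pool.Agent.MonFPT Matrix

/-- **The cases of the main step**, uniformly in the guesses. -/
theorem mainStep_cases' (fu d : ℕ) (rz : Rows) (a : ZV) (s : MS) (h0 : s.2.1 = 0) :
    ((∀ j < s.2.2.1.length, ∀ σ < tpow fu (kkc fu d) (pc s.2.2.1 j).1,
        (flatE fu d rz a s j σ).1 = 1) ∧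
      ∀ Γ g, mainStep fu d rz a Γ g s = deepStep fu d rz a Γ g s (tabE fu d rz a s)) ∨
    ∃ j < s.2.2.1.length, ∃ σ < tpow fu (kkc fu d) (pc s.2.2.1 j).1,
      (flatE fu d rz a s j σ).1 ≠ 1 ∧
      ∀ Γ g, mainStep fu d rz a Γ g s =
        splitJ fu d s.2.2.1 Γ g s.1 j σ (flatE fu d rz a s j σ) := by
  have hun : ∀ Γ g, mainStep fu d rz a Γ g s =
      oc (findN s.2.2.1.length fun j =>
        ((tabE fu d rz a s).getD j []).any fun o => decide (o.1 ≠ 1))
      (deepStep fu d rz a Γ g s (tabE fu d rz a s))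
      fun j => oc (findN ((tabE fu d rz a s).getD j []).length fun σ =>
          decide ((((tabE fu d rz a s).getD j []).getD σ res0).1 ≠ 1)) (rej s.1)
        fun σ => splitJ fu d s.2.2.1 Γ g s.1 j σ (((tabE fu d rz a s).getD j []).getD σ res0) := by
    intro Γ g
    unfold mainStep
    rw [if_pos h0]
  cases h1 : findN s.2.2.1.length fun j =>
      ((tabE fu d rz a s).getD j []).any fun o => decide (o.1 ≠ 1) with
  | none =>
    left
    refine ⟨fun j hj σ hσ => ?_, fun Γ g => by rw [hun, h1]; rfl⟩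
    have h2 := findN_none h1 j hj
    rw [tabE_getD hj, List.any_eq_false] at h2
    have h3 := h2 _ (mem_tab.2 ⟨σ, hσ, rfl⟩)
    simpa using h3
  | some j =>
    right
    obtain ⟨hj, h2⟩ := findN_some h1
    rw [tabE_getD hj, List.any_eq_true] at h2
    obtain ⟨o, ho, ho2⟩ := h2
    obtain ⟨σ0, hσ0, rfl⟩ := mem_tab.1 ho
    cases h3 : findN ((tabE fu d rz a s).getD j []).length fun σ =>
        decide ((((tabE fu d rz a s).getD j []).getD σ res0).1 ≠ 1) with
    | none =>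
      have h4 := findN_none h3 σ0 (by rw [tabE_getD hj, length_tab]; exact hσ0)
      rw [tabE_getD hj, getD_tab, if_pos hσ0] at h4
      rw [h4] at ho2
      exact absurd ho2 (by simp)
    | some σ =>
      obtain ⟨hσ, h4⟩ := findN_some h3
      rw [tabE_getD hj, length_tab] at hσ
      rw [tabE_getD hj, getD_tab, if_pos hσ] at h4
      refine ⟨j, hj, σ, hσ, by simpa using h4, fun Γ g => ?_⟩
      rw [hun, h1]
      change oc (findN ((tabE fu d rz a s).getD j []).length fun σ =>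
        decide ((((tabE fu d rz a s).getD j []).getD σ res0).1 ≠ 1)) _ _ = _
      rw [h3]
      change splitJ fu d s.2.2.1 Γ g s.1 j σ _ = _
      rw [tabE_getD hj, getD_tab, if_pos hσ]

/-- The measure of a state. -/
def measS (d : ℕ) (s : MS) : ℕ :=
  (s.2.2.1.map fun P : Piece => (2 ^ d + 1) ^ P.1).sum * (maxD d + 1) + (maxD d - s.2.2.2.1)

/-- A good state. -/
def GoodS (Q d X0 : ℕ) (rz : Rows) (a : ZV) (s : MS) : Prop :=
  s.2.1 = 0 ∧ (∃ X, X + 1 ≤ (Q + 1) ^ s.1 * (X0 + 1) ∧ MOK d X rz a s) ∧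
    Carries d rz a s.2.2.1 s.2.2.2.1 s.2.2.2.2.1 s.2.2.2.2.2.2

lemma Carries.ne_nil {d : ℕ} {rz : Rows} {a : ZV} {J : List Piece} {k : ℕ} {WM : ZM} {γ : ZV}
    (h : Carries d rz a J k WM γ) (ha : vec d a ≠ 0) : J ≠ [] := by
  rintro rfl
  obtain ⟨m, hm0, hsol, hcard⟩ := h
  have h1 := (Carries.deco hm0 hsol hcard).2.1
  have h2 : decoL d [] m = [] := rfl
  rw [h2] at h1
  exact ha h1.symm

/-- **One good step.** -/
theorem good_step {Fe Fd : ℕ → ℕ} (hE : StepEHyp Fe) (hD : DeepHyp Fd) {fu d X : ℕ}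
    {rz : Rows} {a : ZV} (ha : vec d a ≠ 0) {s : MS} (hc : FuOK fu d) (hs : MOK d X rz a s)
    (h0 : s.2.1 = 0) (hfe : Fe d * (X + 1) ≤ fu)
    (hfd : Fd d * (X + tauD d * (d + 1).factorial + Fe d * (X + 1) + 1 + 1) ≤ fu)
    (hcar : Carries d rz a s.2.2.1 s.2.2.2.1 s.2.2.2.2.1 s.2.2.2.2.2.2) :
    ∃ c : ℕ → ℕ, (∀ i, c i < baseD d) ∧ ∀ g,
      (∀ i < 2 ^ d, gss fu (baseD d) (kap fu d) g s.1 i = c i) →
        (mainStep fu d rz a (baseD d) g s).2.1 = 1 ∨
        ((mainStep fu d rz a (baseD d) g s).2.1 = 0 ∧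
          Carries d rz a (mainStep fu d rz a (baseD d) g s).2.2.1
            (mainStep fu d rz a (baseD d) g s).2.2.2.1
            (mainStep fu d rz a (baseD d) g s).2.2.2.2.1
            (mainStep fu d rz a (baseD d) g s).2.2.2.2.2.2 ∧
          measS d (mainStep fu d rz a (baseD d) g s) < measS d s) := by
  obtain ⟨t, st, J, k, WM, WI, γ⟩ := s
  change st = 0 at h0
  subst h0
  change Carries d rz a J k WM γ at hcar
  have hok : StOK d X rz a J k WM WI γ := hs.ok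
  have hJ := hcar.ne_nil ha
  rcases mainStep_cases' fu d rz a (t, 0, J, k, WM, WI, γ) rfl with
    ⟨hall, heq⟩ | ⟨j, hj, σ, hσ, hne, heq⟩
  · obtain ⟨m, hm0, hsol, hcard⟩ := hcar
    rcases deep_complete hE hD hc hok hfe hfd hall hJ hsol with h | ⟨c, hc1, hc2⟩
    · refine ⟨fun _ => 0, fun _ => baseD_pos d, fun g _ => Or.inl ?_⟩
      rw [heq]
      exact h _ g
    · refine ⟨fun _ => c, fun _ => hc1, fun g hg => Or.inr ?_⟩
      obtain ⟨WM', WI', γ', h1, h2, h3⟩ := hc2 (baseD d) g (hg 0 (by positivity))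
      rw [heq, h1]
      refine ⟨rfl, ⟨m, hm0, h3, hcard⟩, ?_⟩
      have h4 := tot_le_maxD hok
      unfold measS
      dsimp only
      omega
  · have hst := hE fu d X t rz a J k WM WI γ ⟨j, hj⟩ σ _ hok hfe rfl
    rcases hst with h | ⟨h1, h2, h3, h4, h5⟩ | ⟨_, h2⟩
    · exact absurd h.1 hne
    · obtain ⟨δ, hδ, hsp⟩ := Carries.split (Γ := baseD d) (t := t) hc hcar ⟨j, hj⟩ h2 h1 h3 h5
      refine ⟨δ, hδ, fun g hg => Or.inr ?_⟩
      obtain ⟨J', h6, h7, h8⟩ := hsp g hg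
      have h9 : mainStep fu d rz a (baseD d) g (t, 0, J, k, WM, WI, γ) =
          (t + 1, 0, J', 0, idM (totN J'), idM (totN J'), []) := by
        rw [heq]
        exact h6
      rw [h9]
      refine ⟨rfl, h8, ?_⟩
      unfold measS
      dsimp only
      have h10 := Nat.mul_le_mul_right (maxD d + 1) h7
      rw [Nat.succ_mul] at h10
      omega
    · exfalso
      obtain ⟨m, hm0, hsol, _⟩ := hcar
      obtain ⟨x, hx⟩ := Multiset.exists_mem_of_ne_zero (hm0 ⟨j, hj⟩)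
      exact h2 x (Carries.usable hsol ⟨j, hj⟩ hx)

lemma measS_init (d : ℕ) (a : ZV) : measS d (init d a) < lenD d := by
  have h1 : measS d (init d a) = (2 ^ d + 1) ^ d * (maxD d + 1) + maxD d := by
    unfold measS init
    simp
  rw [h1]
  have h2 : maxD d + 1 ≤ (2 ^ d + 1) ^ 2 := by
    unfold maxD
    have h3 : d + 1 ≤ 2 ^ d := Nat.lt_two_pow_self
    have h4 : 2 ^ d * (d + 1) ≤ 2 ^ d * 2 ^ d := Nat.mul_le_mul_left _ h3
    have h5 : (2 ^ d + 1) ^ 2 = 2 ^ d * 2 ^ d + 2 * 2 ^ d + 1 := by ring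
    omega
  have h3 : 1 ≤ (2 ^ d + 1) ^ d := Nat.one_le_iff_ne_zero.2 (by positivity)
  have h4 : maxD d < (2 ^ d + 1) ^ d * (maxD d + 1) :=
    Nat.lt_of_lt_of_le (Nat.lt_succ_self _) (Nat.le_mul_of_pos_left _ h3)
  have h5 : (2 ^ d + 1) ^ d * (maxD d + 1) ≤ (2 ^ d + 1) ^ (d + 2) := by
    rw [pow_add]
    exact Nat.mul_le_mul_left _ h2
  have h6 : 2 * (2 ^ d + 1) ^ (d + 2) ≤ (2 ^ d + 1) ^ (d + 3) := by
    rw [pow_succ _ (d + 2), mul_comm]
    refine Nat.mul_le_mul_left _ ?_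
    have : 1 ≤ 2 ^ d := Nat.one_le_two_pow
    omega
  have h7 : (2 ^ d + 1) ^ (d + 3) ≤ (2 ^ d + 2) ^ (2 * d + 4) :=
    (Nat.pow_le_pow_left (by omega) _).trans (Nat.pow_le_pow_right (Nat.succ_pos _) (by omega))
  unfold lenD
  omega

lemma toP_init (d r : ℕ) : toP d (d, idM d, tab d fun _ => 0, r) = idPiece d := by
  obtain ⟨h1, h2⟩ := chS_id d
  have h3 : chS d d (idM d) (tab d fun _ => 0) = ⟨0, 1⟩ := by
    rw [← h1, ← h2]
  unfold toP idPiece
  congr 1

/-- The fuel for the two searches. -/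
lemma fuel_of_stF {Fe Fd : ℕ → ℕ} {fu d X : ℕ} (h4 : stF Fe Fd d * (X + 1) ≤ fu) :
    Fe d * (X + 1) ≤ fu ∧
      Fd d * (X + tauD d * (d + 1).factorial + Fe d * (X + 1) + 1 + 1) ≤ fu := by
  refine ⟨le_trans (Nat.mul_le_mul_right _ ?_) h4, le_trans ?_ h4⟩
  · unfold stF
    generalize coefD d = x5
    generalize maxD d = x7
    generalize tauD d * (d + 1).factorial = x8
    generalize Fd d * (x8 + Fe d + 2) = x9
    generalize d * d * (Fe d + 1) = x10
    omega
  · set K := tauD d * (d + 1).factorial with hK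
    have h5 : X + K + Fe d * (X + 1) + 1 + 1 ≤ (K + Fe d + 2) * (X + 1) := by
      have h1 : (K + Fe d + 2) * (X + 1) = K * X + K + Fe d * (X + 1) + 2 * X + 2 := by ring
      rw [h1]
      have := Nat.zero_le (K * X)
      omega
    calc Fd d * (X + K + Fe d * (X + 1) + 1 + 1) ≤ Fd d * ((K + Fe d + 2) * (X + 1)) :=
          Nat.mul_le_mul_left _ h5
      _ = Fd d * (K + Fe d + 2) * (X + 1) := by ring
      _ ≤ stF Fe Fd d * (X + 1) := by
          refine Nat.mul_le_mul_right _ ?_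
          unfold stF
          rw [← hK]
          generalize Fd d * (K + Fe d + 2) = x1
          generalize coefD d = x5
          generalize maxD d = x7
          generalize d * d * (Fe d + 1) = x10
          omega

/-- **Completeness.** -/
theorem complete_spec : CompleteSpec := by
  obtain ⟨Fe, he1, _, hE⟩ := stepE_spec
  obtain ⟨Fd, hd1, _, hD⟩ := deep_spec
  obtain ⟨F0, hF01, hF02, hF0⟩ := mainPath_inv hE hD he1 hd1
  obtain ⟨F, hF1, hF2, hF3, _⟩ := EB.exists_mono (f := fun d => F0 d +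
    stF Fe Fd d * (stF Fe Fd d + 1) ^ lenD d + baseD d ^ (2 ^ d * lenD d) + 1) (by
      have h2 := eb_stF he1 hd1
      have h4 : EB lenD := by unfold lenD; fun_prop
      have h5 : EB baseD := by unfold baseD tauD maxD flatG; fun_prop
      fun_prop)
  refine ⟨F, hF1, hF2, fun fu d Ab a ha hfu hne hmem => ?_⟩
  have hle : (F0 d + stF Fe Fd d * (stF Fe Fd d + 1) ^ lenD d +
      baseD d ^ (2 ^ d * lenD d) + 1) * (blV a + 1) ≤ fu :=
    (Nat.mul_le_mul_right _ (hF3 d)).trans hfu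
  set Q := stF Fe Fd d with hQ
  set rz := rowsZ d Ab a with hrz
  have hsum : (F0 d + Q * (Q + 1) ^ lenD d + baseD d ^ (2 ^ d * lenD d) + 1) * (blV a + 1) =
      F0 d * (blV a + 1) + Q * ((Q + 1) ^ lenD d * (blV a + 1)) +
        baseD d ^ (2 ^ d * lenD d) * (blV a + 1) + (blV a + 1) := by ring
  rw [hsum] at hle
  have hb1 : baseD d ^ (2 ^ d * lenD d) ≤ baseD d ^ (2 ^ d * lenD d) * (blV a + 1) :=
    Nat.le_mul_of_pos_right _ (by omega)
  have hF0' : ∀ g, _ := fun g => hF0 fu d Ab a g ha (by omega)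
  have hc : FuOK fu d := (hF0' 0).1
  have hst : ∀ t ≤ lenD d, ∀ X, X + 1 ≤ (Q + 1) ^ t * (blV a + 1) → Q * (X + 1) ≤ fu := by
    intro t ht X hX
    have h1 : (Q + 1) ^ t * (blV a + 1) ≤ (Q + 1) ^ lenD d * (blV a + 1) :=
      Nat.mul_le_mul_right _ (Nat.pow_le_pow_right (by omega) ht)
    exact (Nat.mul_le_mul_left _ (hX.trans h1)).trans (by omega)
  have hκ : kap fu d = 2 ^ d := hc.kap
  have hpow : baseD d ^ (kap fu d * lenD d) ≤ fu := by rw [hκ]; omega
  have hgood : ∀ s, GoodS Q d (blV a) rz a s → s.1 < lenD d →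
      ∃ c : ℕ → ℕ, (∀ i, c i < baseD d) ∧ ∀ g,
        (∀ i < kap fu d, dig fu (baseD d) g (s.1 * kap fu d + i) = c i) →
          (mainStep fu d rz a (baseD d) g s).2.1 = 1 ∨
          (GoodS Q d (blV a) rz a (mainStep fu d rz a (baseD d) g s) ∧
            measS d (mainStep fu d rz a (baseD d) g s) < measS d s) := by
    intro s hs ht
    obtain ⟨h0, ⟨X, hX, hok⟩, hcar⟩ := hs
    have h1 := hst s.1 (le_of_lt ht) X hX
    obtain ⟨hfe, hfd⟩ := fuel_of_stF h1
    obtain ⟨c, hc1, hc2⟩ := good_step hE hD hne hc hok h0 hfe hfd hcar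
    refine ⟨c, hc1, fun g hg => ?_⟩
    have h2 := hc2 g fun i hi => hg i (by rw [hκ]; exact hi)
    rcases h2 with h2 | ⟨h2, h3, h4⟩
    · exact Or.inl h2
    · refine Or.inr ⟨⟨h2, ⟨Q * (X + 1), ?_, mainStep_inv' hE hD hc hok h1⟩, h3⟩, h4⟩
      rw [mainStep_time h0]
      calc Q * (X + 1) + 1 ≤ (Q + 1) * (X + 1) := by rw [Nat.add_mul]; omega
        _ ≤ (Q + 1) * ((Q + 1) ^ s.1 * (blV a + 1)) := Nat.mul_le_mul_left _ hX
        _ = (Q + 1) ^ (s.1 + 1) * (blV a + 1) := by rw [pow_succ]; ring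
  have hstart : GoodS Q d (blV a) rz a (init d a) := by
    refine ⟨rfl, ⟨blV a, ?_, init_ok Ab ha⟩, ?_⟩
    · change blV a + 1 ≤ (Q + 1) ^ 0 * (blV a + 1)
      rw [pow_zero, one_mul]
    · refine carries_of_deco ?_
      change Follows _ _ _ [toP d (d, idM d, tab d fun _ => 0, blV a)]
      rw [toP_init]
      exact Follows.start (isConv_SR d rz) hne hmem
  obtain ⟨g, hg, hdone⟩ := outer_complete
    (fun g s => mainStep fu d rz a (baseD d) g s) (fun s => s.1) (measS d)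
    (fun s => GoodS Q d (blV a) rz a s) (fun s => s.2.1 = 1)
    fu (baseD d) (kap fu d) (lenD d) hpow
    (fun g g' s h => mainStep_congr (by rw [hκ]; exact Nat.one_le_two_pow) h)
    (fun g s hs => mainStep_done (by rw [hs]; norm_num))
    (fun g s hs => mainStep_time hs.1) hgood (init d a) hstart rfl (measS_init d a)
  refine ⟨g, ?_, ?_⟩
  · rw [hκ] at hg; omega
  · unfold mainPath
    rw [(hF0' g).2.2]
    exact decide_eq_true hdone

end Pool.Agent.MDF
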