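import Pool.Agent.MDF.Search

/-!
# Correctness of the integer programs and of the cone problem
-/

set_option autoImplicit false

namespace Pool.Agent.MDF

open Pool.Agent.PF Pool.Agent.MonFPT Matrix

/-! ### Integer programming -/

lemma orcRows_some {n : ℕ} {rows : Rows} {x h : ZV} (hx : orcRows n rows x = some h) :
    ∃ p ∈ rows, h = p.1 ∧ p.2 < vec n p.1 ⬝ᵥ vec n x := by
  unfold orcRows at hx
  rw [Option.map_eq_some_iff] at hx
  obtain ⟨p, hp, rfl⟩ := hx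
  refine ⟨p, List.mem_of_find?_eq_some hp, rfl, ?_⟩
  have h1 := List.find?_some hp
  rw [decide_eq_true_eq, dot_eq] at h1
  exact h1

lemma orcRows_none {n : ℕ} {rows : Rows} {x : ZV} (hx : orcRows n rows x = none) :
    InRows n rows (vec n x) := by
  intro p hp
  unfold orcRows at hx
  rw [Option.map_eq_none_iff, List.find?_eq_none] at hx
  have h1 := hx p hp
  rw [decide_eq_true_eq, dot_eq, not_lt] at h1
  exact h1

/-- The rational points of the integer program. -/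
def rowsK (n r : ℕ) (rows : Rows) : Set (Fin n → ℚ) :=
  {y | (∀ i, |y i| ≤ 2 ^ r) ∧ ∀ p ∈ rows, dotQ (vec n p.1) y ≤ p.2}

lemma orcOK_rows (n r X : ℕ) (rows : Rows) : OrcOK X (rowsK n r rows) (orcRows n rows) := by
  intro x _ h hx y hy
  obtain ⟨p, hp, rfl, h1⟩ := orcRows_some hx
  rw [dotQ_toQ]
  refine (hy.2 p hp).trans_lt ?_
  exact_mod_cast h1

lemma mem_rowsK {n r : ℕ} {rows : Rows} {z : Fin n → ℤ} (hz : ∀ i, |z i| ≤ 2 ^ r)
    (h : InRows n rows z) : toQ z ∈ rowsK n r rows := by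
  refine ⟨fun i => ?_, fun p hp => ?_⟩
  · rw [toQ_apply, ← Int.cast_abs]
    exact_mod_cast hz i
  · rw [dotQ_toQ]
    exact_mod_cast h p hp

/-- **Integer programming.** -/
theorem ilp_spec : ∃ F : ℕ → ℕ, EB F ∧ Monotone F ∧
    ∀ (fu n r : ℕ) (rows : Rows), F n * (r + 1) ≤ fu →
      (∀ x, ilp fu n r rows = some x → VB n (F n * (r + 1)) x ∧ InRows n rows (vec n x)) ∧
      (ilp fu n r rows = none → ∀ z : Fin n → ℤ, (∀ i, |z i| ≤ 2 ^ r) → ¬ InRows n rows z) := by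
  obtain ⟨F, hF1, hF2, hF3⟩ := search_spec
  refine ⟨F, hF1, hF2, fun fu n r rows hfu => ?_⟩
  obtain ⟨h1, h2⟩ := hF3 fu n r (orcRows n rows) (rowsK n r rows) hfu (fun y hy => hy.1)
    (orcOK_rows n r _ rows)
  exact ⟨fun x hx => ⟨(h1 x hx).1, orcRows_none (h1 x hx).2⟩,
    fun hn z hz hr => h2 hn z (mem_rowsK hz hr)⟩

/-! ### The cone problem -/

lemma inRows_cons {n : ℕ} {p : ZV × ℤ} {rows : Rows} {z : Fin n → ℤ} :
    InRows n (p :: rows) z ↔ vec n p.1 ⬝ᵥ z ≤ p.2 ∧ InRows n rows z := by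
  unfold InRows
  simp

lemma pull_dot (D n : ℕ) (C : ZM) (w : ZV) (z : Fin n → ℤ) :
    vec n (pull D n C w) ⬝ᵥ z = vec D w ⬝ᵥ (mtx D n C *ᵥ z) := by
  rw [vec_pull, ← dotProduct_mulVec]

/-- A column with a negative value. -/
lemma cone_row {D : ℕ} {p : CP} {w : ZV} {z : Fin p.1 → ℤ} :
    InRows p.1 ((pull D p.1 p.2.2.2.1 w, -1 - dot D w p.2.2.2.2) :: p.2.2.1) z ↔
      vec D w ⬝ᵥ (vec D p.2.2.2.2 + mtx D p.1 p.2.2.2.1 *ᵥ z) ≤ -1 ∧ InRows p.1 p.2.2.1 z := by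
  rw [inRows_cons, pull_dot, dot_eq, dotProduct_add]
  constructor
  · rintro ⟨h1, h2⟩
    exact ⟨by linarith, h2⟩
  · rintro ⟨h1, h2⟩
    exact ⟨by dsimp only; linarith, h2⟩

lemma le_coneB {ps : List CP} (t : ZV) {p : CP} (hp : p ∈ ps) :
    blM p.2.2.2.1 + blV p.2.2.2.2 + p.2.1 + p.1 + 1 ≤ coneB ps t := by
  unfold coneB
  have h1 : blM p.2.2.2.1 + blV p.2.2.2.2 + p.2.1 + p.1 + 1 ≤
      (ps.map fun p => blM p.2.2.2.1 + blV p.2.2.2.2 + p.2.1 + p.1 + 1).sum :=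
    List.le_sum_of_mem (List.mem_map.2 ⟨p, hp, rfl⟩)
  omega

/-- The size of the columns. -/
lemma abs_col_le {D E : ℕ} {ps : List CP} (t : ZV) (hps : ∀ p ∈ ps, p.OK E) {c : Fin D → ℤ}
    (hc : c ∈ colsOf D ps) (i : Fin D) : |c i| ≤ 2 ^ coneB ps t := by
  obtain ⟨p, hp, z, hz, rfl⟩ := hc
  have hbox := (hps p hp).box z hz
  have h1 : |(mtx D p.1 p.2.2.2.1 *ᵥ z) i| ≤ (p.1 : ℤ) * (2 ^ blM p.2.2.2.1 * 2 ^ p.2.1) :=
    abs_mulVec_le _ _ (fun i j => abs_g2_le _ _ _) hbox (by positivity) i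
  have h2 : |vec D p.2.2.2.2 i| ≤ 2 ^ blV p.2.2.2.2 := abs_vec_le _ _ _
  refine (abs_add_le _ _).trans ((add_le_add h2 h1).trans ?_)
  have h3 : ((p.1 : ℤ) + 1) ≤ 2 ^ p.1 := by
    have := Nat.lt_two_pow_self (n := p.1)
    exact_mod_cast this
  have h4 : (1 : ℤ) ≤ 2 ^ blV p.2.2.2.2 := one_le_pow₀ (by norm_num)
  have h5 : (1 : ℤ) ≤ 2 ^ blM p.2.2.2.1 * 2 ^ p.2.1 := by
    rw [← pow_add]; exact one_le_pow₀ (by norm_num)
  have h6 : (0 : ℤ) ≤ p.1 := Int.natCast_nonneg _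
  have h7 := le_coneB t hp
  calc (2 : ℤ) ^ blV p.2.2.2.2 + p.1 * (2 ^ blM p.2.2.2.1 * 2 ^ p.2.1)
      ≤ 2 ^ blV p.2.2.2.2 * (2 ^ blM p.2.2.2.1 * 2 ^ p.2.1) +
        p.1 * (2 ^ blV p.2.2.2.2 * (2 ^ blM p.2.2.2.1 * 2 ^ p.2.1)) := by
        refine add_le_add (by nlinarith) (mul_le_mul_of_nonneg_left (by nlinarith) h6)
    _ = (p.1 + 1) * (2 ^ blV p.2.2.2.2 * (2 ^ blM p.2.2.2.1 * 2 ^ p.2.1)) := by ring
    _ ≤ 2 ^ p.1 * (2 ^ blV p.2.2.2.2 * (2 ^ blM p.2.2.2.1 * 2 ^ p.2.1)) :=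
        mul_le_mul_of_nonneg_right h3 (by positivity)
    _ = 2 ^ (p.1 + (blV p.2.2.2.2 + (blM p.2.2.2.1 + p.2.1))) := by
        rw [pow_add, pow_add, pow_add]
    _ ≤ 2 ^ coneB ps t := pow_le_pow_right₀ (by norm_num) (by omega)

lemma coneK_mono {D : ℕ} {C : Set (Fin D → ℤ)} {t : Fin D → ℤ} {R R' : ℤ} (h : R ≤ R') :
    coneK C t R ⊆ coneK C t R' := fun y hy =>
  ⟨fun i => (hy.1 i).trans (by exact_mod_cast h), hy.2⟩

lemma factorial_mul_le (D B : ℕ) :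
    (D.factorial : ℤ) * (2 ^ B) ^ D ≤ 2 ^ (4 * ((D + 1) * (D + 1)) * (B + 1)) := by
  have h1 : D.factorial ≤ 2 ^ (D * D) := by
    calc D.factorial ≤ D ^ D := Nat.factorial_le_pow D
      _ ≤ (2 ^ D) ^ D := Nat.pow_le_pow_left Nat.lt_two_pow_self.le D
      _ = 2 ^ (D * D) := by rw [← pow_mul]
  have h2 : (D.factorial : ℤ) ≤ 2 ^ (D * D) := by exact_mod_cast h1
  calc (D.factorial : ℤ) * (2 ^ B) ^ D ≤ 2 ^ (D * D) * (2 ^ B) ^ D :=
        mul_le_mul_of_nonneg_right h2 (by positivity)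
    _ = 2 ^ (D * D + B * D) := by rw [← pow_mul, pow_add]
    _ ≤ 2 ^ (4 * ((D + 1) * (D + 1)) * (B + 1)) := by
        refine pow_le_pow_right₀ (by norm_num) ?_
        have h3 : 4 * ((D + 1) * (D + 1)) * (B + 1) = (D * D + B * D) +
            (3 * (D * D) + 8 * D + 4 + 4 * (D * D) * B + 7 * (B * D) + 4 * B) := by ring
        omega

/-- **Membership in the cone generated by the columns.** -/
theorem cone_spec : ∃ F : ℕ → ℕ, EB F ∧ Monotone F ∧
    ∀ (fu D E : ℕ) (ps : List CP) (t : ZV), (∀ p ∈ ps, p.OK E) →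
      F (D + E) * (coneB ps t + 1) ≤ fu →
      (∀ w, cone fu D ps t = some w → VB D (F (D + E) * (coneB ps t + 1)) w ∧
        vec D w ⬝ᵥ vec D t < 0 ∧ ∀ c ∈ colsOf D ps, 0 ≤ vec D w ⬝ᵥ c) ∧
      (cone fu D ps t = none →
        toQ (vec D t) ∈ PointedCone.hull ℚ (toQ '' colsOf D ps)) := by
  obtain ⟨Fs, hs1, hs2, hs3⟩ := search_spec
  obtain ⟨Fi, hi1, hi2, hi3⟩ := ilp_spec
  refine ⟨fun n => Fs n * (4 * ((n + 1) * (n + 1)) + 1) + Fi n, ?_, ?_, ?_⟩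
  · fun_prop
  · intro a b hab
    exact Nat.add_le_add (Nat.mul_le_mul (hs2 hab) (by
      have : (a + 1) * (a + 1) ≤ (b + 1) * (b + 1) := Nat.mul_le_mul (by omega) (by omega)
      omega)) (hi2 hab)
  intro fu D E ps t hps hfu
  set B := coneB ps t with hB
  set r := 4 * ((D + 1) * (D + 1)) * (B + 1) with hr
  have hsum : (Fs (D + E) * (4 * ((D + E + 1) * (D + E + 1)) + 1) + Fi (D + E)) * (B + 1) =
      Fs (D + E) * ((4 * ((D + E + 1) * (D + E + 1)) + 1) * (B + 1)) +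
        Fi (D + E) * (B + 1) := by ring
  have hr1 : r + 1 ≤ (4 * ((D + E + 1) * (D + E + 1)) + 1) * (B + 1) := by
    have h1 : (D + 1) * (D + 1) ≤ (D + E + 1) * (D + E + 1) :=
      Nat.mul_le_mul (by omega) (by omega)
    calc r + 1 ≤ (4 * ((D + 1) * (D + 1)) + 1) * (B + 1) := by
          have h2 : (4 * ((D + 1) * (D + 1)) + 1) * (B + 1) =
            4 * ((D + 1) * (D + 1)) * (B + 1) + (B + 1) := by ring
          rw [hr, h2]
          omega
      _ ≤ _ := Nat.mul_le_mul_right _ (by omega)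
  have hX : Fs D * (r + 1) ≤
      (Fs (D + E) * (4 * ((D + E + 1) * (D + E + 1)) + 1) + Fi (D + E)) * (B + 1) := by
    rw [hsum]
    exact (Nat.mul_le_mul (hs2 (Nat.le_add_right D E)) hr1).trans (Nat.le_add_right _ _)
  have hilp : ∀ p ∈ ps, Fi p.1 * (p.2.1 + 1) ≤ fu := by
    intro p hp
    have h1 : p.1 ≤ D + E := (hps p hp).dim.trans (Nat.le_add_left _ _)
    have h2 := le_coneB t hp
    refine le_trans ?_ hfu
    dsimp only
    rw [hsum]
    exact (Nat.mul_le_mul (hi2 h1) (by omega)).trans (Nat.le_add_left _ _)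
  -- the oracle
  have horc : OrcOK (Fs D * (r + 1)) (coneK (colsOf D ps) (vec D t) (2 ^ r))
      (orcCone fu D ps t) := by
    intro w _ h hw
    unfold orcCone at hw
    split_ifs at hw with h0
    · rw [Option.some_inj] at hw
      subst hw
      refine cone_cut_target _ _ _ _ ?_
      rw [dotProduct_comm, ← dot_eq]
      omega
    · obtain ⟨p, hp, hp2⟩ := List.mem_map.1 (firstSome_mem hw)
      rw [Option.map_eq_some_iff] at hp2
      obtain ⟨x, hx, rfl⟩ := hp2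
      have h1 := ((hi3 fu p.1 p.2.1 _ (hilp p hp)).1 x hx).2
      rw [cone_row] at h1
      have h2 : vec D (tab D fun l => - (dot p.1 (row p.2.2.2.1 l) x + g1 p.2.2.2.2 l)) =
          -(vec D p.2.2.2.2 + mtx D p.1 p.2.2.2.1 *ᵥ vec p.1 x) := by
        funext i
        rw [vec_apply, g1_tab_lt _ i.2, dot_eq, add_comm]
        rfl
      rw [h2]
      refine cone_cut_col _ _ _ _ _ ⟨p, hp, _, h1.2, rfl⟩ ?_
      rw [dotProduct_comm]
      linarith [h1.1]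
  obtain ⟨h1, h2⟩ := hs3 fu D r (orcCone fu D ps t) _ (hX.trans hfu)
    (fun y hy i => by have := hy.1 i; push_cast at this; exact this) horc
  constructor
  · intro w hw
    obtain ⟨h3, h4⟩ := h1 w hw
    refine ⟨h3.mono hX, ?_⟩
    unfold orcCone at h4
    split_ifs at h4 with h0
    rw [not_le, dot_eq] at h0
    refine ⟨h0, ?_⟩
    rintro _ ⟨p, hp, z, hz, rfl⟩
    have h5 := firstSome_eq_none h4 (List.mem_map.2 ⟨p, hp, rfl⟩)
    rw [Option.map_eq_none_iff] at h5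
    have h6 := (hi3 fu p.1 p.2.1 _ (hilp p hp)).2 h5 z ((hps p hp).box z hz)
    rw [cone_row] at h6
    by_contra hcon
    exact h6 ⟨by omega, hz⟩
  · intro hnone
    by_contra hcon
    obtain ⟨w, hw⟩ := coneK_point (colsOf D ps) (2 ^ B) (one_le_pow₀ (by norm_num))
      (fun c hc i => abs_col_le t hps hc i) (vec D t) (fun i => (abs_vec_le _ _ _).trans
        (pow_le_pow_right₀ (by norm_num) (by rw [hB]; unfold coneB; omega))) hcon
    exact h2 hnone w (coneK_mono (factorial_mul_le D B) hw)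

end Pool.Agent.MDF
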