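import Pool.Agent.MDF.DeepMain

/-!
# The size of the deep region
-/

set_option autoImplicit false

namespace Pool.Agent.MDF

open Pool.Agent.PF Pool.Agent.MonFPT Matrix

/-! ### Elements of the cone of a piece -/

lemma hcone_snd_nonneg {e : ℕ} {P : Set (Fin e → ℤ)} {u : (Fin e → ℚ) × ℚ} (hu : u ∈ hcone P) :
    0 ≤ u.2 := by
  refine Submodule.span_induction (p := fun u _ => (0 : ℚ) ≤ u.2) ?_ ?_ ?_ ?_ hu
  · rintro _ ⟨z, _, rfl⟩
    exact zero_le_one
  · exact le_rfl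
  · intro a b _ _ ha hb
    exact add_nonneg ha hb
  · rintro ⟨r, hr⟩ a _ ha
    exact mul_nonneg hr ha

lemma hcone_abs_le {e : ℕ} {P : Set (Fin e → ℤ)} {R : ℚ} (hR : ∀ z ∈ P, ∀ i, |(z i : ℚ)| ≤ R)
    {u : (Fin e → ℚ) × ℚ} (hu : u ∈ hcone P) (i : Fin e) : |u.1 i| ≤ R * u.2 := by
  refine Submodule.span_induction (p := fun u _ => |u.1 i| ≤ R * u.2) ?_ ?_ ?_ ?_ hu
  · rintro _ ⟨z, hz, rfl⟩
    simpa using hR z hz i
  · simp
  · intro a b _ _ ha hb
    calc |(a + b).1 i| ≤ |a.1 i| + |b.1 i| := abs_add_le _ _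
      _ ≤ R * a.2 + R * b.2 := add_le_add ha hb
      _ = R * (a + b).2 := by rw [Prod.snd_add]; ring
  · rintro ⟨r, hr⟩ a _ ha
    have h1 : ((⟨r, hr⟩ : {c : ℚ // 0 ≤ c}) • a).1 i = r * a.1 i := rfl
    have h2 : ((⟨r, hr⟩ : {c : ℚ // 0 ≤ c}) • a).2 = r * a.2 := rfl
    rw [h1, h2, abs_mul, abs_of_nonneg hr]
    calc r * |a.1 i| ≤ r * (R * a.2) := mul_le_mul_of_nonneg_left ha hr
      _ = R * (r * a.2) := by ring

lemma hcone_lin {d e : ℕ} {S : Set (Fin d → ℤ)} (c : Chart d e) {P : Set (Fin e → ℤ)}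
    (hP : ∀ x ∈ P, c.pt x ∈ S) (hpos : ∀ z ∈ S, (∀ l, 0 ≤ z l) ∧ 1 ≤ ∑ l, z l)
    {u : (Fin e → ℚ) × ℚ} (hu : u ∈ hcone P) :
    (∀ l, 0 ≤ c.lin u l) ∧ u.2 ≤ ∑ l, c.lin u l := by
  refine Submodule.span_induction
    (p := fun u _ => (∀ l, 0 ≤ c.lin u l) ∧ u.2 ≤ ∑ l, c.lin u l) ?_ ?_ ?_ ?_ hu
  · rintro _ ⟨z, hz, rfl⟩
    obtain ⟨h1, h2⟩ := hpos _ (hP z hz)
    simp only [Chart.lin_one, toQ_apply]
    refine ⟨fun l => ?_, ?_⟩
    · exact_mod_cast h1 l
    · exact_mod_cast h2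
  · simp
  · rintro a b _ _ ⟨ha1, ha2⟩ ⟨hb1, hb2⟩
    simp only [map_add, Pi.add_apply, Finset.sum_add_distrib, Prod.snd_add]
    exact ⟨fun l => add_nonneg (ha1 l) (hb1 l), add_le_add ha2 hb2⟩
  · rintro ⟨r, hr⟩ a _ ⟨ha1, ha2⟩
    have h1 : (⟨r, hr⟩ : {c : ℚ // 0 ≤ c}) • a = r • a := rfl
    rw [h1]
    simp only [map_smul, Pi.smul_apply, smul_eq_mul, ← Finset.mul_sum, Prod.smul_snd]
    exact ⟨fun l => mul_nonneg hr (ha1 l), mul_le_mul_of_nonneg_left ha2 hr⟩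

variable {n s d : ℕ} {rz : Rows} {a : ZV} {J : List Piece} {k : ℕ} {WM WI : ZM} {γ : ZV}
  {pts : List (List ZV)} {κ : ℕ}

/-- The first `d` coordinates of the columns. -/
lemma psiJ_lin (j : Fin J.length) (u : (Fin (eJ J j) → ℚ) × ℚ) (l : Fin d) :
    (psiJ d J k WM j).lin u ⟨l, by omega⟩ = (phiJ d J j).lin u l := by
  have h1 : (psiJ d J k WM j).lin u ⟨l, by omega⟩ =
      u.2 * ((psiJ d J k WM j).base ⟨l, by omega⟩ : ℚ) +
        ∑ a, ((psiJ d J k WM j).cols ⟨l, by omega⟩ a : ℚ) * u.1 a := rfl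
  have h2 : (phiJ d J j).lin u l =
      u.2 * ((phiJ d J j).base l : ℚ) + ∑ a, ((phiJ d J j).cols l a : ℚ) * u.1 a := rfl
  rw [h1, h2]
  have h3 : (psiJ d J k WM j).base ⟨l, by omega⟩ = (phiJ d J j).base l := by
    change g1 (tab _ _) _ = g1 _ _
    rw [g1_tab_lt _ (by change (l : ℕ) < d + k; omega)]
    exact if_pos l.2
  have h4 : ∀ a, (psiJ d J k WM j).cols ⟨l, by omega⟩ a = (phiJ d J j).cols l a := by
    intro a
    have ha : (a : ℕ) < (pc J j).1 := a.2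
    change g2 (tabM _ _ _) _ _ = g2 _ _ _
    rw [g2_tabM_lt _ (by change (l : ℕ) < d + k; omega) ha]
    exact if_pos l.2
  rw [h3]
  simp only [h4]

/-- The blocks of the points of the deep region. -/
lemma KD_blk (hmem : ∀ j σ, ptsI J pts j σ ∈ pset (SR d rz) (eJ J) (phiJ d J) j)
    (hM : ∀ j < J.length, 0 < (pts.getD j []).length)
    {y : ∀ j : Fin J.length, (Fin (eJ J j) → ℚ) × ℚ}
    (hy : y ∈ DeepI (SR d rz) (eJ J) (phiJ d J) (psiJ d J k WM) (vec (d + k) (tgt d a γ k))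
      (ptsI J pts) (1 / (2 * κ))) (j : Fin J.length) :
    y j ∈ hcone (pset (SR d rz) (eJ J) (phiJ d J) j) := by
  refine (Deep_subset_Rel _ _ _ _ (by positivity) _ (fun i => ?_) hy).1 j
  rw [centerI_eq _ _ (by rw [Fintype.card_fin]; exact hM i i.2)]
  refine Submodule.sum_mem _ fun σ _ => PointedCone.smul_mem _ (by positivity) ?_
  exact Submodule.subset_span ⟨_, hmem i σ, rfl⟩

/-- The number of points of the pieces. -/
lemma KD_num (hmem : ∀ j σ, ptsI J pts j σ ∈ pset (SR d rz) (eJ J) (phiJ d J) j)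
    (hM : ∀ j < J.length, 0 < (pts.getD j []).length)
    (hpos : ∀ z ∈ SR d rz, (∀ l, 0 ≤ z l) ∧ 1 ≤ ∑ l, z l)
    {y : ∀ j : Fin J.length, (Fin (eJ J j) → ℚ) × ℚ}
    (hy : y ∈ DeepI (SR d rz) (eJ J) (phiJ d J) (psiJ d J k WM) (vec (d + k) (tgt d a γ k))
      (ptsI J pts) (1 / (2 * κ))) (j : Fin J.length) :
    (y j).2 ≤ 2 ^ (d + blV a) := by
  have h1 : ∀ i, y i ∈ hcone (pset (SR d rz) (eJ J) (phiJ d J) i) := KD_blk hmem hM hy
  have h2 : ∀ i, (∀ l, 0 ≤ (phiJ d J i).lin (y i) l) ∧ (y i).2 ≤ ∑ l, (phiJ d J i).lin (y i) l :=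
    fun i => hcone_lin (phiJ d J i) (fun x hx => hx) hpos (h1 i)
  have h3 : ∀ l : Fin d, ∑ i, (phiJ d J i).lin (y i) l = (g1 a l : ℚ) := by
    intro l
    have h4 := congrFun hy.2 ⟨l, by omega⟩
    rw [Ltot_apply, Finset.sum_apply, toQ_apply, vec_apply,
      g1_tgt a γ (by change (l : ℕ) < d + k; omega), if_pos l.2] at h4
    rw [← h4]
    exact Finset.sum_congr rfl fun i _ => (psiJ_lin i (y i) l).symm
  calc (y j).2 ≤ ∑ i, (y i).2 :=
        Finset.single_le_sum (f := fun i => (y i).2) (fun i _ => hcone_snd_nonneg (h1 i))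
          (Finset.mem_univ j)
    _ ≤ ∑ i, ∑ l, (phiJ d J i).lin (y i) l := Finset.sum_le_sum fun i _ => (h2 i).2
    _ = ∑ l, (g1 a (l : Fin d) : ℚ) := by
        rw [Finset.sum_comm]
        exact Finset.sum_congr rfl fun l _ => h3 l
    _ ≤ ∑ _l : Fin d, (2 ^ blV a : ℚ) := by
        refine Finset.sum_le_sum fun l _ => ?_
        have := (le_abs_self _).trans (abs_g1_le a l)
        exact_mod_cast this
    _ = (d : ℚ) * 2 ^ blV a := by
        rw [Finset.sum_const, Finset.card_univ, Fintype.card_fin, nsmul_eq_mul]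
    _ ≤ 2 ^ d * 2 ^ blV a := by
        have h5 : ((d : ℕ) : ℚ) ≤ ((2 ^ d : ℕ) : ℚ) := by exact_mod_cast Nat.lt_two_pow_self.le
        push_cast at h5
        exact mul_le_mul_of_nonneg_right h5 (by positivity)
    _ = 2 ^ (d + blV a) := by rw [pow_add]

lemma rad_le_sum {j : ℕ} (hj : j < J.length) :
    (pc J j).2.2.2 ≤ (J.map fun P => P.2.2.2).sum := by
  rw [pc_eq hj]
  exact List.single_le_sum (fun _ _ => Nat.zero_le _) _
    (List.mem_map_of_mem (List.getElem_mem hj))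

/-- **The deep region is in the box.** -/
theorem KD_box (h : DHyp n s d rz a J k WM WI γ)
    (hmem : ∀ j σ, ptsI J pts j σ ∈ pset (SR d rz) (eJ J) (phiJ d J) j)
    (hM : ∀ j < J.length, 0 < (pts.getD j []).length)
    (hpos : ∀ z ∈ SR d rz, (∀ l, 0 ≤ z l) ∧ 1 ≤ ∑ l, z l) (t b : ℕ) :
    InBox (radD d a (t, b, J, k, WM, WI, γ)) (KD d rz a J k WM WI γ pts κ) := by
  intro x hx i
  set R : ℕ := (J.map fun P => P.2.2.2).sum with hR
  set Y := yQ (totN J) k WI γ x with hY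
  have hnum : ∀ j : Fin J.length, (blkN J Y j).2 ≤ 2 ^ (d + blV a) := KD_num hmem hM hpos hx
  have hcone := KD_blk hmem hM hx
  have h0 : ∀ j : Fin J.length, 0 ≤ (blkN J Y j).2 := fun j => hcone_snd_nonneg (hcone j)
  have h1 : ∀ (j : Fin J.length) (c : Fin (eJ J j)),
      |Y (off J j + c)| ≤ 2 ^ (R + d + blV a) := by
    intro j c
    have h2 := hcone_abs_le (R := 2 ^ (pc J j).2.2.2) (fun z hz i => by
      rw [mem_pset_iff] at hz
      exact_mod_cast h.box j j.2 z hz i) (hcone j) c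
    calc |Y (off J j + c)| ≤ 2 ^ (pc J j).2.2.2 * (blkN J Y j).2 := h2
      _ ≤ 2 ^ R * 2 ^ (d + blV a) :=
          mul_le_mul (pow_le_pow_right₀ (by norm_num) (rad_le_sum j.2)) (hnum j) (h0 j)
            (by positivity)
      _ = 2 ^ (R + d + blV a) := by rw [← pow_add]; ring_nf
  have h2 : ∀ j : Fin J.length, |Y (off J j + eJ J j)| ≤ 2 ^ (R + d + blV a) := by
    intro j
    have h3 : |Y (off J j + eJ J j)| = (blkN J Y j).2 := abs_of_nonneg (h0 j)
    rw [h3]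
    exact (hnum j).trans (pow_le_pow_right₀ (by norm_num) (by omega))
  have h3 : ∑ b ∈ Finset.range (totN J), |Y b| ≤ (totN J : ℚ) * 2 ^ (R + d + blV a) := by
    rw [sum_totN]
    have h4 : ((totN J : ℕ) : ℚ) * 2 ^ (R + d + blV a) =
        ∑ b ∈ Finset.range (totN J), (2 ^ (R + d + blV a) : ℚ) := by
      rw [Finset.sum_const, Finset.card_range, nsmul_eq_mul]
    rw [h4, sum_totN J fun _ => (2 ^ (R + d + blV a) : ℚ)]
    exact Finset.sum_le_sum fun j _ => add_le_add (Finset.sum_le_sum fun c _ => h1 j c) (h2 j)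
  have hkN := h.k_le
  have hi := i.2
  have h5 := WM_yQ h.uw.UW h.k_le γ x (i := k + i) (by omega)
  rw [dif_neg (by omega)] at h5
  have h6 : x ⟨k + (i : ℕ) - k, by omega⟩ = x i := by
    congr 1
    exact Fin.ext (by simp)
  rw [← h6, ← h5]
  calc |∑ b ∈ Finset.range (totN J), (g2 WM (k + i) b : ℚ) * Y b| ≤
        ∑ b ∈ Finset.range (totN J), |(g2 WM (k + i) b : ℚ) * Y b| :=
        Finset.abs_sum_le_sum_abs _ _
    _ ≤ ∑ b ∈ Finset.range (totN J), 2 ^ blM WM * |Y b| := by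
        refine Finset.sum_le_sum fun b _ => ?_
        rw [abs_mul]
        refine mul_le_mul_of_nonneg_right ?_ (abs_nonneg _)
        exact_mod_cast abs_g2_le WM (k + i) b
    _ = 2 ^ blM WM * ∑ b ∈ Finset.range (totN J), |Y b| := by rw [Finset.mul_sum]
    _ ≤ 2 ^ blM WM * (2 ^ totN J * 2 ^ (R + d + blV a)) := by
        refine mul_le_mul_of_nonneg_left (h3.trans ?_) (by positivity)
        have h7 : ((totN J : ℕ) : ℚ) ≤ ((2 ^ totN J : ℕ) : ℚ) := by
          exact_mod_cast Nat.lt_two_pow_self.le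
        push_cast at h7
        exact mul_le_mul_of_nonneg_right h7 (by positivity)
    _ = 2 ^ (radD d a (t, b, J, k, WM, WI, γ)) := by
        have h8 : radD d a (t, b, J, k, WM, WI, γ) = blV a + d + R + blM WM + totN J := rfl
        rw [h8]
        ring

end Pool.Agent.MDF
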