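import Pool.Agent.MDF.SpecDefs

/-!
# The pieces of the main algorithm as charts, blocks of vectors
-/

set_option autoImplicit false

namespace Pool.Agent.MDF

open Pool.Agent.PF Pool.Agent.MonFPT Matrix

/-- The integral points of the system of inequalities. -/
def SR (d : ℕ) (rz : Rows) : Set (Fin d → ℤ) := {z | InRows d rz z}

/-- The affine map of a piece. -/
def phiP (d : ℕ) (P : Piece) : Chart d P.1 where
  base := vec d P.2.2.1
  cols := mtx d P.1 P.2.1

/-- The dimensions of the pieces. -/
def eJ (J : List Piece) (j : Fin J.length) : ℕ := (pc J j).1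

/-- The affine maps of the pieces. -/
def phiJ (d : ℕ) (J : List Piece) (j : Fin J.length) : Chart d (eJ J j) := phiP d (pc J j)

/-- The column maps of the pieces. -/
def psiJ (d : ℕ) (J : List Piece) (k : ℕ) (WM : ZM) (j : Fin J.length) :
    Chart (d + k) (eJ J j) where
  base := vec (d + k) (colO d J k WM j (pc J j))
  cols := mtx (d + k) (eJ J j) (colM d J k WM j (pc J j))

/-- The blocks of a rational vector; the last coordinate of a block is the number of points. -/
def blkN (J : List Piece) (y : ℕ → ℚ) (j : Fin J.length) : (Fin (eJ J j) → ℚ) × ℚ :=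
  (fun i => y (off J j + i), y (off J j + eJ J j))

/-- The blocks of an integral vector. -/
def blkI (J : List Piece) (y : ZV) (j : Fin J.length) : (Fin (eJ J j) → ℤ) × ℤ :=
  (fun i => g1 y (off J j + i), g1 y (off J j + eJ J j))

lemma blkN_toQ (J : List Piece) (y : ZV) :
    blkN J (fun b => (g1 y b : ℚ)) = fun j => cast2 (blkI J y j) := rfl

/-! ### Elementary facts -/

lemma mem_SR {d : ℕ} {rz : Rows} {z : Fin d → ℤ} : z ∈ SR d rz ↔ InRows d rz z := Iff.rfl

/-- The inequalities of a piece. -/
lemma inRows_prow {d : ℕ} {rz : Rows} {P : Piece} (x : Fin P.1 → ℤ) :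
    InRows P.1 (prow d rz P) x ↔ (phiP d P).pt x ∈ SR d rz := by
  have h1 : ∀ p : ZV × ℤ, vec P.1 (pull d P.1 P.2.1 p.1) ⬝ᵥ x ≤ p.2 - dot d p.1 P.2.2.1 ↔
      vec d p.1 ⬝ᵥ (phiP d P).pt x ≤ p.2 := by
    intro p
    rw [vec_pull, dot_eq, Chart.dot_pt]
    change _ ↔ vec d p.1 ⬝ᵥ vec d P.2.2.1 + (vec d p.1 ᵥ* mtx d P.1 P.2.1) ⬝ᵥ x ≤ p.2
    constructor <;> intro h <;> linarith
  constructor
  · intro h p hp
    exact (h1 p).1 (h _ (List.mem_map_of_mem hp))
  · intro h q hq
    obtain ⟨p, hp, rfl⟩ := List.mem_map.1 hq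
    exact (h1 p).2 (h p hp)

lemma mem_pset_iff {d : ℕ} {rz : Rows} {J : List Piece} (j : Fin J.length)
    (x : Fin (eJ J j) → ℤ) :
    x ∈ pset (SR d rz) (eJ J) (phiJ d J) j ↔ InRows (eJ J j) (prow d rz (pc J j)) x :=
  (inRows_prow (P := pc J j) x).symm

/-! ### Offsets -/

lemma pc_eq {J : List Piece} {j : ℕ} (h : j < J.length) : pc J j = J[j] := by
  unfold pc
  rw [List.getD_eq_getElem _ _ h]

@[simp] lemma off_zero (J : List Piece) : off J 0 = 0 := rfl

lemma off_succ {J : List Piece} {j : ℕ} (h : j < J.length) :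
    off J (j + 1) = off J j + ((pc J j).1 + 1) := by
  unfold off
  rw [List.take_add_one, pc_eq h, List.getElem?_eq_getElem h, List.map_append, List.sum_append]
  rfl

lemma off_mono {J : List Piece} {i j : ℕ} (h : i ≤ j) : off J i ≤ off J j := by
  unfold off
  obtain ⟨m, rfl⟩ := Nat.exists_eq_add_of_le h
  rw [List.take_add, List.map_append, List.sum_append]
  exact Nat.le_add_right _ _

lemma off_lt_totN {J : List Piece} {j a : ℕ} (h : j < J.length) (ha : a ≤ (pc J j).1) :
    off J j + a < totN J := by
  have h1 := off_mono (J := J) (i := j + 1) (j := J.length) h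
  rw [off_succ h] at h1
  unfold totN
  omega

lemma succ_le_totN {J : List Piece} {j : ℕ} (h : j < J.length) : (pc J j).1 + 1 ≤ totN J := by
  have h1 := off_lt_totN h (le_refl (pc J j).1)
  omega

lemma length_le_off {J : List Piece} {j : ℕ} (h : j ≤ J.length) : j ≤ off J j := by
  induction j with
  | zero => simp
  | succ j ih =>
    rw [off_succ h]
    have := ih (by omega)
    omega

lemma length_le_totN (J : List Piece) : J.length ≤ totN J := length_le_off le_rfl

/-- Sums over the blocks. -/
lemma sum_off {R : Type} [AddCommMonoid R] (J : List Piece) (f : ℕ → R) {n : ℕ}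
    (hn : n ≤ J.length) :
    ∑ b ∈ Finset.range (off J n), f b =
      ∑ j ∈ Finset.range n, ∑ a ∈ Finset.range ((pc J j).1 + 1), f (off J j + a) := by
  induction n with
  | zero => simp
  | succ n ih =>
    rw [off_succ hn, Finset.sum_range_add, ih (by omega)]
    rw [Finset.sum_range_succ (fun j => ∑ a ∈ Finset.range ((pc J j).1 + 1), f (off J j + a))]

lemma sum_totN {R : Type} [AddCommMonoid R] (J : List Piece) (f : ℕ → R) :
    ∑ b ∈ Finset.range (totN J), f b =
      ∑ j : Fin J.length, (∑ a : Fin (eJ J j), f (off J j + a) + f (off J j + eJ J j)) := by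
  unfold totN
  rw [sum_off J f le_rfl, Finset.sum_range]
  refine Finset.sum_congr rfl fun j _ => ?_
  rw [Finset.sum_range_succ, Finset.sum_range]
  rfl

/-- Entries of a flattened list of lists. -/
lemma getD_flatten_tab {α : Type} (z : α) (f : ℕ → List α) (o : ℕ → ℕ) (h0 : o 0 = 0) (n : ℕ)
    (hs : ∀ j < n, o (j + 1) = o j + (f j).length) :
    (tab n f).flatten.length = o n ∧
      ∀ j < n, ∀ a < (f j).length, (tab n f).flatten.getD (o j + a) z = (f j).getD a z := by
  induction n with
  | zero =>
    refine ⟨by simp [tab, h0], fun j hj => by omega⟩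
  | succ n ih =>
    obtain ⟨h1, h2⟩ := ih fun j hj => hs j (by omega)
    have h3 : (tab (n + 1) f).flatten = (tab n f).flatten ++ f n := by
      unfold tab
      rw [List.range_succ, List.map_append, List.flatten_append]
      simp
    have hmono : ∀ i j, i ≤ j → j ≤ n → o i ≤ o j := by
      intro i j hij hj
      induction j with
      | zero =>
        have : i = 0 := by omega
        rw [this]
      | succ j ihj =>
        rcases Nat.lt_or_ge i (j + 1) with h | h
        · have h4 := ihj (by omega) (by omega)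
          have h5 := hs j (by omega)
          omega
        · have : i = j + 1 := by omega
          rw [this]
    refine ⟨by rw [h3, List.length_append, h1, hs n (by omega)], fun j hj a ha => ?_⟩
    rw [h3]
    rcases Nat.lt_or_ge j n with h | h
    · have h4 : o j + a < (tab n f).flatten.length := by
        rw [h1]
        have h5 := hs j (by omega)
        have h6 := hmono (j + 1) n (by omega) le_rfl
        omega
      rw [List.getD_append _ _ _ _ h4]
      exact h2 j h a ha
    · have h4 : j = n := by omega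
      subst h4
      rw [List.getD_append_right _ _ _ _ (by omega), h1, Nat.add_sub_cancel_left]

lemma length_eqRow (J : List Piece) (l : ℕ) : (eqRow J l).length = totN J := by
  unfold eqRow totN
  exact (getD_flatten_tab (0 : ℤ) _ (off J) rfl J.length fun j hj => by
    rw [off_succ hj]; simp).1

lemma g1_eqRow {J : List Piece} {j a : ℕ} (l : ℕ) (hj : j < J.length) (ha : a ≤ (pc J j).1) :
    g1 (eqRow J l) (off J j + a) =
      if a < (pc J j).1 then g2 (pc J j).2.1 l a else g1 (pc J j).2.2.1 l := by
  unfold eqRow g1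
  rw [(getD_flatten_tab (0 : ℤ) _ (off J) rfl J.length fun j hj => by
    rw [off_succ hj]; simp).2 j hj a (by simp; omega)]
  exact g1_tab_lt _ (by omega)

/-- **The linear map on the blocks.** -/
lemma Ltot_blk (d : ℕ) (J : List Piece) (k : ℕ) (WM : ZM) (y : ℕ → ℚ) (l : Fin (d + k)) :
    Ltot (eJ J) (psiJ d J k WM) (blkN J y) l =
      if (l : ℕ) < d then ∑ b ∈ Finset.range (totN J), (g1 (eqRow J l) b : ℚ) * y b
      else ∑ b ∈ Finset.range (totN J), (g2 WM (l - d) b : ℚ) * y b := by
  have h0 : Ltot (eJ J) (psiJ d J k WM) (blkN J y) l =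
      ∑ j : Fin J.length, (∑ a : Fin (eJ J j), ((psiJ d J k WM j).cols l a : ℚ) *
        y (off J j + a) + ((psiJ d J k WM j).base l : ℚ) * y (off J j + eJ J j)) := by
    rw [Ltot_apply, Finset.sum_apply]
    refine Finset.sum_congr rfl fun j _ => ?_
    have h1 : (psiJ d J k WM j).lin (blkN J y j) l =
        (blkN J y j).2 * ((psiJ d J k WM j).base l : ℚ) +
          ∑ a, ((psiJ d J k WM j).cols l a : ℚ) * (blkN J y j).1 a := rfl
    rw [h1, add_comm, mul_comm]
    rfl
  rw [h0]
  split_ifs with hl
  · rw [sum_totN]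
    refine Finset.sum_congr rfl fun j _ => ?_
    congr 1
    · refine Finset.sum_congr rfl fun a _ => ?_
      have ha : (a : ℕ) < (pc J j).1 := a.2
      rw [g1_eqRow l j.2 ha.le, if_pos ha]
      have h2 : (psiJ d J k WM j).cols l a = g2 (pc J j).2.1 l a := by
        change g2 (tabM _ _ _) _ _ = _
        rw [g2_tabM_lt _ l.2 ha, if_pos hl]
      rw [h2]
    · have h3 : g1 (eqRow J l) (off J j + eJ J j) = g1 (pc J j).2.2.1 l := by
        have := g1_eqRow (J := J) (a := (pc J j).1) l j.2 le_rfl
        rw [if_neg (lt_irrefl _)] at this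
        exact this
      have h2 : (psiJ d J k WM j).base l = g1 (pc J j).2.2.1 l := by
        change g1 (tab _ _) _ = _
        rw [g1_tab_lt _ l.2, if_pos hl]
      rw [h2, h3]
  · rw [sum_totN]
    refine Finset.sum_congr rfl fun j _ => ?_
    congr 1
    · refine Finset.sum_congr rfl fun a _ => ?_
      have ha : (a : ℕ) < (pc J j).1 := a.2
      have h2 : (psiJ d J k WM j).cols l a = g2 WM (l - d) (off J j + a) := by
        change g2 (tabM _ _ _) _ _ = _
        rw [g2_tabM_lt _ l.2 ha, if_neg hl]
      rw [h2]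
    · have h2 : (psiJ d J k WM j).base l = g2 WM (l - d) (off J j + eJ J j) := by
        change g1 (tab _ _) _ = _
        rw [g1_tab_lt _ l.2, if_neg hl]
        rfl
      rw [h2]

end Pool.Agent.MDF
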