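import Pool.Agent.MDF.DeepBox

/-!
# The search in the deep region
-/

set_option autoImplicit false

namespace Pool.Agent.MDF

open Pool.Agent.PF Pool.Agent.MonFPT Matrix

variable {n s d : ℕ} {rz : Rows} {a : ZV} {J : List Piece} {k : ℕ} {WM WI : ZM} {γ : ZV}
  {pts : List (List ZV)} {κ : ℕ}

/-! ### The search -/

/-- A factor. -/
def cR (n : ℕ) : ℕ := 2 * n * n + 4 * n + 1

lemma radD_le (h : DHyp n s d rz a J k WM WI γ) (t b : ℕ) :
    radD d a (t, b, J, k, WM, WI, γ) + 1 ≤ cR n * (s + 1) := by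
  have h1 : radD d a (t, b, J, k, WM, WI, γ) =
      blV a + d + (J.map fun P => P.2.2.2).sum + blM WM + totN J := rfl
  have h2 := blV_le h.a_vb
  have h3 := blM_le h.uw.mU
  have h4 : (J.map fun P => P.2.2.2).sum ≤ J.length * s := by
    have h5 := List.sum_le_card_nsmul (J.map fun P => P.2.2.2) s (fun x hx => by
      obtain ⟨P, hP, rfl⟩ := List.mem_map.1 hx
      obtain ⟨i, hi, rfl⟩ := List.mem_iff_getElem.1 hP
      have := h.rad i hi
      rwa [pc_eq hi] at this)
    rwa [List.length_map, smul_eq_mul] at h5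
  have h5 := length_le_totN J
  have h6 := h.N_le
  have h7 := h.d_le
  have h8 : d * (s + 1) ≤ n * (s + 1) := Nat.mul_le_mul_right _ h7
  have h9 : J.length * s ≤ n * s := Nat.mul_le_mul_right _ (h5.trans h6)
  have h10 : totN J * (totN J * (s + 1)) ≤ n * (n * (s + 1)) :=
    Nat.mul_le_mul h6 (Nat.mul_le_mul_right _ h6)
  rw [h1]
  unfold cR
  nlinarith [Nat.zero_le (n * n * s), Nat.zero_le (n * s), Nat.zero_le (n * n)]

/-- **The search in the deep region.** -/
theorem deep_flat : ∃ F : ℕ → ℕ, EB F ∧ Monotone F ∧ ∀ (fu n s d G : ℕ) (rz : Rows) (a : ZV)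
    (J : List Piece) (k : ℕ) (WM WI : ZM) (γ : ZV) (pts : List (List ZV)) (t b : ℕ),
    F n * (s + 1) ≤ fu → DHyp n s d rz a J k WM WI γ → PHyp n s J pts →
    (∀ j σ, ptsI J pts j σ ∈ pset (SR d rz) (eJ J) (phiJ d J) j) →
    (∀ z ∈ SR d rz, (∀ l, 0 ≤ z l) ∧ 1 ≤ ∑ l, z l) → kap fu d ≤ 2 ^ n → 1 ≤ kap fu d →
    flatG (totN J - k) ≤ G →
    FlatRes G (F n * (s + 1)) (KD d rz a J k WM WI γ pts (kap fu d))
      (orcD fu d rz a (t, b, J, k, WM, WI, γ) pts)
      (flat fu (totN J - k) G (radD d a (t, b, J, k, WM, WI, γ))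
        (orcD fu d rz a (t, b, J, k, WM, WI, γ) pts)) ∧
    ((flat fu (totN J - k) G (radD d a (t, b, J, k, WM, WI, γ))
        (orcD fu d rz a (t, b, J, k, WM, WI, γ) pts)).1 = 1 →
      (fun j => cast2 (blkI J (yD (totN J) k WI γ
        (flat fu (totN J - k) G (radD d a (t, b, J, k, WM, WI, γ))
          (orcD fu d rz a (t, b, J, k, WM, WI, γ) pts)).2.1) j)) ∈
        DeepI (SR d rz) (eJ J) (phiJ d J) (psiJ d J k WM) (vec (d + k) (tgt d a γ k))
          (ptsI J pts) (1 / (2 * kap fu d))) := by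
  obtain ⟨Ff, hFf1, hFf2, hFf3⟩ := flat_spec
  obtain ⟨Fc, hFc1, hFc2, hFc3⟩ := cone_spec
  have hE : EB fun n => Ff n * cR n + Fc (2 * n) * (cD n * (Ff n * cR n + 1)) := by
    unfold cR cD
    fun_prop
  obtain ⟨F, hF1, hF2, hF3, _⟩ := hE.exists_mono
  refine ⟨F, hF1, hF2, fun fu n s d G rz a J k WM WI γ pts t b hfu h hp hmem hpos hκ hκ1 hG => ?_⟩
  set st : MS := (t, b, J, k, WM, WI, γ) with hst
  set N := totN J - k with hN
  have hr := radD_le h t b
  have hNn : N ≤ n := (Nat.sub_le _ _).trans h.N_le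
  set X := Ff N * (radD d a st + 1) with hX
  have hX1 : X ≤ Ff n * cR n * (s + 1) := by
    rw [hX, mul_assoc]
    exact Nat.mul_le_mul (hFf2 hNn) hr
  have hF3' : (Ff n * cR n + Fc (2 * n) * (cD n * (Ff n * cR n + 1))) * (s + 1) ≤
      F n * (s + 1) := Nat.mul_le_mul_right _ (hF3 n)
  have hX2 : X ≤ F n * (s + 1) := by
    refine hX1.trans (le_trans ?_ hF3')
    exact Nat.mul_le_mul_right _ (Nat.le_add_right _ _)
  have hcfu : Fc (2 * n) * (cD n * (s + X + 1)) ≤ fu := by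
    refine le_trans ?_ (hF3'.trans hfu)
    calc Fc (2 * n) * (cD n * (s + X + 1)) ≤
          Fc (2 * n) * (cD n * ((Ff n * cR n + 1) * (s + 1))) := by
          refine Nat.mul_le_mul_left _ (Nat.mul_le_mul_left _ ?_)
          calc s + X + 1 ≤ s + Ff n * cR n * (s + 1) + 1 := by omega
            _ = (Ff n * cR n + 1) * (s + 1) := by ring
      _ = Fc (2 * n) * (cD n * (Ff n * cR n + 1)) * (s + 1) := by ring
      _ ≤ _ := Nat.mul_le_mul_right _ (Nat.le_add_left _ _)
  have horc : OrcOK X (KD d rz a J k WM WI γ pts (kap fu d)) (orcD fu d rz a st pts) :=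
    orcD_ok hFc3 hFc2 hcfu h hp hκ hκ1 t b
  have hbox : InBox (radD d a st) (KD d rz a J k WM WI γ pts (kap fu d)) :=
    KD_box h hmem hp.pos hpos t b
  have hres := hFf3 fu N G (radD d a st) (orcD fu d rz a st pts)
    (KD d rz a J k WM WI γ pts (kap fu d)) hG (hX2.trans hfu) hbox horc
  constructor
  · rcases hres with h1 | h1 | h1
    · exact Or.inl ⟨h1.st, h1.vb.mono hX2, h1.acc⟩
    · exact Or.inr (Or.inl ⟨h1.st, h1.pos, ⟨h1.uw.mU.mono hX2, h1.uw.mW.mono hX2, h1.uw.UW,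
        h1.uw.WU⟩, h1.vle.trans (pow_le_pow_right₀ (by norm_num) hX2), h1.flat⟩)
    · exact Or.inr (Or.inr h1)
  · intro h1
    rcases hres with h2 | h2 | h2
    · exact orcD_none hFc3 hFc2 hcfu h hp hκ hκ1 t b h2.vb h2.acc
    · rw [h2.st] at h1
      omega
    · rw [h2.st] at h1
      omega

/-! ### From blocks to free coordinates -/

/-- The free coordinates of a vector. -/
def xfree (N k : ℕ) (WM : ZM) (Y : ℕ → ℚ) (i : Fin (N - k)) : ℚ :=
  ∑ b ∈ Finset.range N, (g2 WM (k + i) b : ℚ) * Y b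

/-- The vector is determined by the equations and the free coordinates. -/
lemma yQ_xfree {N k : ℕ} {WM WI : ZM} (h : mtx N N WI * mtx N N WM = 1) (hk : k ≤ N) (γ : ZV)
    (Y : ℕ → ℚ)
    (hY : ∀ c < k, ∑ b ∈ Finset.range N, (g2 WM c b : ℚ) * Y b = g1 γ c) {b : ℕ} (hb : b < N) :
    yQ N k WI γ (xfree N k WM Y) b = Y b := by
  have h0 : ∀ c : ℕ, c < N → ∑ i ∈ Finset.range N, (g2 WI b i : ℚ) * (g2 WM i c : ℚ) =
      if b = c then 1 else 0 := by
    intro c hc
    have h1 := congrFun (congrFun h ⟨b, hb⟩) ⟨c, hc⟩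
    rw [Matrix.mul_apply, Matrix.one_apply] at h1
    simp only [mtx_apply, Fin.mk.injEq] at h1
    rw [Finset.sum_range]
    exact_mod_cast h1
  have h1 : yQ N k WI γ (xfree N k WM Y) b =
      ∑ i ∈ Finset.range N, (g2 WI b i : ℚ) *
        ∑ c ∈ Finset.range N, (g2 WM i c : ℚ) * Y c := by
    obtain ⟨r, hr⟩ := Nat.exists_eq_add_of_le hk
    have h2 : ∑ i ∈ Finset.range N, (g2 WI b i : ℚ) *
        ∑ c ∈ Finset.range N, (g2 WM i c : ℚ) * Y c =
        ∑ i ∈ Finset.range k, (g2 WI b i : ℚ) *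
          ∑ c ∈ Finset.range N, (g2 WM i c : ℚ) * Y c +
        ∑ i ∈ Finset.range (N - k), (g2 WI b (k + i) : ℚ) *
          ∑ c ∈ Finset.range N, (g2 WM (k + i) c : ℚ) * Y c := by
      have h3 : N = k + (N - k) := by omega
      conv_lhs => rw [h3]
      rw [Finset.sum_range_add, ← h3]
    rw [h2]
    unfold yQ xfree
    congr 1
    · rw [Finset.sum_range]
      refine Finset.sum_congr rfl fun c _ => ?_
      rw [hY c c.2]
    · rw [Finset.sum_range]
  rw [h1]
  calc ∑ i ∈ Finset.range N, (g2 WI b i : ℚ) * ∑ c ∈ Finset.range N, (g2 WM i c : ℚ) * Y c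
      = ∑ c ∈ Finset.range N,
          (∑ i ∈ Finset.range N, (g2 WI b i : ℚ) * (g2 WM i c : ℚ)) * Y c := by
        simp only [Finset.mul_sum, Finset.sum_mul]
        rw [Finset.sum_comm]
        exact Finset.sum_congr rfl fun c _ => Finset.sum_congr rfl fun i _ => by ring
    _ = ∑ c ∈ Finset.range N, (if b = c then 1 else 0) * Y c :=
        Finset.sum_congr rfl fun c hc => by rw [h0 c (Finset.mem_range.1 hc)]
    _ = Y b := by
        rw [Finset.sum_eq_single b]
        · simp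
        · intro c _ hc
          rw [if_neg (Ne.symm hc), zero_mul]
        · intro hcon
          exact absurd (Finset.mem_range.2 hb) hcon

/-- The points of the deep region from their blocks. -/
lemma mem_KD (h : UW (totN J) s WM WI) (hk : k ≤ totN J) (Y : ℕ → ℚ)
    (hY : blkN J Y ∈ DeepI (SR d rz) (eJ J) (phiJ d J) (psiJ d J k WM)
      (vec (d + k) (tgt d a γ k)) (ptsI J pts) (1 / (2 * κ))) :
    xfree (totN J) k WM Y ∈ KD d rz a J k WM WI γ pts κ := by
  have h1 : ∀ c < k, ∑ b ∈ Finset.range (totN J), (g2 WM c b : ℚ) * Y b = g1 γ c := by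
    intro c hc
    have h2 := congrFun hY.2 ⟨d + c, by omega⟩
    rw [Ltot_blk, if_neg (by simp), toQ_apply, vec_apply,
      g1_tgt a γ (by simp; omega), if_neg (by simp)] at h2
    simpa using h2
  have h2 : blkN J (yQ (totN J) k WI γ (xfree (totN J) k WM Y)) = blkN J Y :=
    blkN_congr fun b hb => yQ_xfree h.WU hk γ Y h1 hb
  unfold KD
  rw [Set.mem_ofPred_eq, h2]
  exact hY

/-! ### Vectors from blocks -/

/-- The vector with given blocks. -/
def unblk {R : Type} [Zero R] (J : List Piece) (y : ∀ j : Fin J.length, (Fin (eJ J j) → R) × R)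
    (b : ℕ) : R :=
  ((tab J.length fun j => if h : j < J.length then tab ((pc J j).1 + 1) (fun a =>
    if h' : a < (pc J j).1 then (y ⟨j, h⟩).1 ⟨a, h'⟩ else (y ⟨j, h⟩).2) else []).flatten).getD b 0

lemma unblk_off {R : Type} [Zero R] (J : List Piece)
    (y : ∀ j : Fin J.length, (Fin (eJ J j) → R) × R) (j : Fin J.length) {a : ℕ}
    (ha : a ≤ (pc J j).1) :
    unblk J y (off J j + a) = if h' : a < (pc J j).1 then (y j).1 ⟨a, h'⟩ else (y j).2 := by
  unfold unblk
  rw [(getD_flatten_tab (0 : R) _ (off J) rfl J.length fun j hj => by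
    rw [off_succ hj, dif_pos hj, length_tab]).2 j j.2 a (by
      rw [dif_pos j.2, length_tab]; omega)]
  rw [dif_pos j.2, getD_tab, if_pos (by omega)]

lemma unblk_fst {R : Type} [Zero R] (J : List Piece)
    (y : ∀ j : Fin J.length, (Fin (eJ J j) → R) × R) (j : Fin J.length) (a : Fin (eJ J j)) :
    unblk J y (off J j + a) = (y j).1 a := by
  have ha : (a : ℕ) < (pc J j).1 := a.2
  rw [unblk_off J y j ha.le, dif_pos ha]

lemma unblk_snd {R : Type} [Zero R] (J : List Piece)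
    (y : ∀ j : Fin J.length, (Fin (eJ J j) → R) × R) (j : Fin J.length) :
    unblk J y (off J j + eJ J j) = (y j).2 := by
  have h := unblk_off J y j (le_refl (pc J j).1)
  rw [dif_neg (lt_irrefl _)] at h
  exact h

lemma blkN_unblk (J : List Piece) (y : ∀ j : Fin J.length, (Fin (eJ J j) → ℚ) × ℚ) :
    blkN J (unblk J y) = y := by
  funext j
  exact Prod.ext (funext fun a => unblk_fst J y j a) (unblk_snd J y j)

lemma blkN_unblkZ (J : List Piece) (y : ∀ j : Fin J.length, (Fin (eJ J j) → ℤ) × ℤ) :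
    blkN J (fun b => ((unblk J y b : ℤ) : ℚ)) = fun j => cast2 (y j) := by
  funext j
  refine Prod.ext (funext fun a => ?_) ?_
  · change ((unblk J y (off J j + a) : ℤ) : ℚ) = _
    rw [unblk_fst]
    rfl
  · change ((unblk J y (off J j + eJ J j) : ℤ) : ℚ) = _
    rw [unblk_snd]
    rfl

/-! ### Linear forms -/

/-- A linear form on the blocks. -/
def formL (J : List Piece) (c : ℕ → ℚ) :
    (∀ j : Fin J.length, (Fin (eJ J j) → ℚ) × ℚ) →ₗ[ℚ] ℚ where
  toFun y := ∑ j : Fin J.length, (∑ a : Fin (eJ J j), c (off J j + a) * (y j).1 a + c (off J j + eJ J j) * (y j).2)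
  map_add' x y := by
    simp only [Pi.add_apply, Prod.fst_add, Prod.snd_add, mul_add, Finset.sum_add_distrib]
    ring
  map_smul' r x := by
    simp only [Pi.smul_apply, Prod.smul_fst, Prod.smul_snd, smul_eq_mul, RingHom.id_apply,
      Finset.mul_sum, mul_add]
    refine Finset.sum_congr rfl fun j _ => ?_
    congr 1
    · exact Finset.sum_congr rfl fun a _ => by ring
    · ring

lemma formL_blkN (J : List Piece) (c Y : ℕ → ℚ) :
    formL J c (blkN J Y) = ∑ b ∈ Finset.range (totN J), c b * Y b :=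
  (sum_totN J fun b => c b * Y b).symm

/-- The new row of the unimodular matrix. -/
lemma g2_actU {N : ℕ} (hk : k < N) (U : ZM) {b : ℕ} (hb : b < N) :
    g2 (actU N k WM U) k b = ∑ i : Fin (N - k), g2 U 0 i * g2 WM (k + i) b := by
  unfold actU
  rw [g2_tabM_lt _ hk hb, if_neg (lt_irrefl _), sumz_eq, Nat.sub_self]

lemma dotQ_xfree {N : ℕ} (hk : k < N) (U : ZM) (Y : ℕ → ℚ) :
    dotQ (vec (N - k) (row U 0)) (xfree N k WM Y) =
      ∑ b ∈ Finset.range N, (g2 (actU N k WM U) k b : ℚ) * Y b := by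
  have h1 : ∀ b ∈ Finset.range N, (g2 (actU N k WM U) k b : ℚ) * Y b =
      ∑ i : Fin (N - k), (g2 U 0 i : ℚ) * ((g2 WM (k + i) b : ℚ) * Y b) := by
    intro b hb
    rw [g2_actU hk U (Finset.mem_range.1 hb)]
    push_cast
    rw [Finset.sum_mul]
    exact Finset.sum_congr rfl fun i _ => by ring
  rw [Finset.sum_congr rfl h1, Finset.sum_comm]
  unfold dotQ xfree
  refine Finset.sum_congr rfl fun i _ => ?_
  rw [Finset.mul_sum]
  rfl

/-- **Flat.** The new equation. -/
theorem deep_transfer {K τ : ℕ} (h : UW (totN J) s WM WI) (hk : k < totN J)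
    (hf : FoundI (SR d rz) (eJ J) (phiJ d J) (psiJ d J k WM) (vec (d + k) (tgt d a γ k)) K τ
      (ptsI J pts)) (hK : 0 < K) (hκ : J.length ≤ κ) (U : ZM) (v : ℤ) (G : ℚ)
    (hflat : ∀ y ∈ KD d rz a J k WM WI γ pts κ,
      |dotQ (vec (totN J - k) (row U 0)) y - v| ≤ G)
    (σ : ∀ j : Fin J.length, Multiset (Fin (eJ J j) → ℤ))
    (hσ : IsSol (SR d rz) (eJ J) (phiJ d J) (psiJ d J k WM) (vec (d + k) (tgt d a γ k)) σ) :
    |∑ b ∈ Finset.range (totN J), (g2 (actU (totN J) k WM U) k b : ℚ) *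
      ((unblk J (fun j => mval (σ j)) b : ℤ) : ℚ) - v| ≤ 3 * G := by
  have hJ : Nonempty (Fin J.length) := by
    by_contra hcon
    rw [not_nonempty_iff] at hcon
    have h1 : J.length = 0 := by
      by_contra h0
      exact hcon.false ⟨0, Nat.pos_of_ne_zero h0⟩
    have h2 : totN J = 0 := by
      unfold totN
      rw [h1, off_zero]
    omega
  have h1 := hf.flat hK κ (by rw [Fintype.card_fin]; exact hκ)
    (formL J fun b => (g2 (actU (totN J) k WM U) k b : ℚ)) v G (fun y hy => ?_) σ hσ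
  · rw [← blkN_unblkZ, formL_blkN] at h1
    exact h1
  · rw [← blkN_unblk J y] at hy ⊢
    rw [formL_blkN, ← dotQ_xfree hk]
    exact hflat _ (mem_KD h hk.le _ hy)

/-- The deep region is not empty if there is a solution. -/
theorem KD_nonempty {K τ : ℕ} (h : UW (totN J) s WM WI) (hk : k ≤ totN J)
    (hJ : 0 < J.length)
    (hf : FoundI (SR d rz) (eJ J) (phiJ d J) (psiJ d J k WM) (vec (d + k) (tgt d a γ k)) K τ
      (ptsI J pts)) (hK : 0 < K) (hκ : J.length ≤ κ)
    (σ : ∀ j : Fin J.length, Multiset (Fin (eJ J j) → ℤ))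
    (hσ : IsSol (SR d rz) (eJ J) (phiJ d J) (psiJ d J k WM) (vec (d + k) (tgt d a γ k)) σ) :
    (KD d rz a J k WM WI γ pts κ).Nonempty := by
  have : Nonempty (Fin J.length) := ⟨⟨0, hJ⟩⟩
  obtain ⟨y, hy⟩ := hf.deep_nonempty hK κ (by rw [Fintype.card_fin]; exact hκ) σ hσ
  rw [← blkN_unblk J y] at hy
  exact ⟨_, mem_KD h hk _ hy⟩

end Pool.Agent.MDF
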