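import Pool.Agent.MDF.DeepOrc

/-!
# The oracle of the deep region: cuts and accepted points
-/

set_option autoImplicit false

namespace Pool.Agent.MDF

open Pool.Agent.PF Pool.Agent.MonFPT Matrix

variable {n s d : ℕ} {rz : Rows} {a : ZV} {J : List Piece} {k : ℕ} {WM WI : ZM} {γ : ZV}
  {pts : List (List ZV)} {F : ℕ → ℕ} {fu X κ : ℕ}

lemma cone_step (hF : ConeHyp F) (hmono : Monotone F)
    (hfu : F (2 * n) * (cD n * (s + X + 1)) ≤ fu)
    (h : DHyp n s d rz a J k WM WI γ) (hp : PHyp n s J pts) (hκ : κ ≤ 2 ^ n)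
    {y : ZV} (hy : ∀ b < totN J, |g1 y b| ≤ 2 ^ (n + 2 * s + X)) {j : ℕ} (hj : j < J.length) :
    (∀ w, cone fu ((pc J j).1 + 1) [cp1 d rz (pc J j)] (tgtD κ J pts y j) = some w →
      vec ((pc J j).1 + 1) w ⬝ᵥ vec ((pc J j).1 + 1) (tgtD κ J pts y j) < 0 ∧
        ∀ c ∈ colsOf ((pc J j).1 + 1) [cp1 d rz (pc J j)], 0 ≤ vec ((pc J j).1 + 1) w ⬝ᵥ c) ∧
    (cone fu ((pc J j).1 + 1) [cp1 d rz (pc J j)] (tgtD κ J pts y j) = none →
      toQ (vec ((pc J j).1 + 1) (tgtD κ J pts y j)) ∈
        PointedCone.hull ℚ (toQ '' colsOf ((pc J j).1 + 1) [cp1 d rz (pc J j)])) := by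
  have h0 : (pc J j).1 + 1 ≤ n := (succ_le_totN hj).trans h.N_le
  have h1 := tgtD_VB hp hκ hy hj
  have h2 := coneB_le h hj h1
  have h3 : F ((pc J j).1 + 1 + (pc J j).1) *
      (coneB [cp1 d rz (pc J j)] (tgtD κ J pts y j) + 1) ≤ fu :=
    (Nat.mul_le_mul (hmono (by omega)) h2).trans hfu
  obtain ⟨h4, h5⟩ := hF fu ((pc J j).1 + 1) (pc J j).1 [cp1 d rz (pc J j)]
    (tgtD κ J pts y j) (cp1_OK h hj) h3
  exact ⟨fun w hw => ⟨(h4 w hw).2.1, (h4 w hw).2.2⟩, h5⟩

/-- The value of a linear form on the target. -/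
lemma fl_target {e : ℕ} (w : ZV) (t : ZV) :
    fl (e := e) (g1 w) (fun i : Fin e => toQ (vec (e + 1) t) i.castSucc,
      toQ (vec (e + 1) t) (Fin.last _)) = ((vec (e + 1) w ⬝ᵥ vec (e + 1) t : ℤ) : ℚ) := by
  unfold fl
  rw [dotProduct, Fin.sum_univ_castSucc]
  push_cast
  rfl

lemma cols_nonneg {P : Piece} {w : ZV}
    (hw : ∀ c ∈ colsOf (P.1 + 1) [cp1 d rz P], 0 ≤ vec (P.1 + 1) w ⬝ᵥ c) (z : Fin P.1 → ℤ)
    (hz : InRows P.1 (prow d rz P) z) : 0 ≤ ∑ a : Fin P.1, g1 w a * z a + g1 w P.1 := by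
  have h2 := hw (Fin.snoc (α := fun _ => ℤ) z 1)
    (mem_cols_cp1.2 ⟨z, hz, fun a => by rw [Fin.snoc_castSucc], by rw [Fin.snoc_last]⟩)
  rw [dotProduct, Fin.sum_univ_castSucc] at h2
  simp only [Fin.snoc_castSucc, Fin.snoc_last, mul_one, vec_apply, Fin.val_castSucc,
    Fin.val_last] at h2
  exact h2

/-- The cut by a linear form of a block. -/
lemma cut_block (hκ : 1 ≤ κ) (hp : PHyp n s J pts) {j : ℕ} (hj : j < J.length)
    {w x : ZV}
    (hneg : vec ((pc J j).1 + 1) w ⬝ᵥ
      vec ((pc J j).1 + 1) (tgtD κ J pts (yD (totN J) k WI γ x) j) < 0)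
    (hw : ∀ c ∈ colsOf ((pc J j).1 + 1) [cp1 d rz (pc J j)], 0 ≤ vec ((pc J j).1 + 1) w ⬝ᵥ c) :
    Cut (KD d rz a J k WM WI γ pts κ)
      (vec (totN J - k) (pullD (totN J) k WI (tab (totN J) fun b =>
        if off J j ≤ b then (if b ≤ off J j + (pc J j).1 then - g1 w (b - off J j) else 0) else 0)))
      (vec (totN J - k) x) := by
  refine cut_of_pullD WI γ _ (vec (totN J - k) x) fun y' hy' => ?_
  have key : ∀ G : ℕ → ℚ, ∑ b ∈ Finset.range (totN J), (g1 (tab (totN J) fun b =>
        if off J j ≤ b then (if b ≤ off J j + (pc J j).1 then - g1 w (b - off J j) else 0)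
        else 0) b : ℚ) * G b = - fl (g1 w) (blkN J G ⟨j, hj⟩) := by
    intro G
    have h1 : ∑ b ∈ Finset.range (totN J), (g1 (tab (totN J) fun b =>
        if off J j ≤ b then (if b ≤ off J j + (pc J j).1 then - g1 w (b - off J j) else 0)
        else 0) b : ℚ) * G b = ∑ b ∈ Finset.range (totN J), ((if off J j ≤ b then
          (if b ≤ off J j + (pc J j).1 then (fun i => - g1 w i) (b - off J j) else 0)
          else 0 : ℤ) : ℚ) * G b := by
      refine Finset.sum_congr rfl fun b hb => ?_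
      rw [g1_tab_lt _ (Finset.mem_range.1 hb)]
    rw [h1, sum_block (off_lt_totN hj le_rfl) (fun i => - g1 w i) G]
    unfold fl
    simp only [Int.cast_neg, neg_mul, Finset.sum_neg_distrib]
    rw [neg_add]
    rfl
  rw [key, key, neg_lt_neg_iff]
  have hM := hp.pos j hj
  have hM' : (0 : ℚ) < ((pts.getD j []).length : ℚ) := by exact_mod_cast hM
  have hκ' : (0 : ℚ) < κ := by
    have : 0 < κ := hκ
    exact_mod_cast this
  -- the value on the deep point
  have h1 : 0 ≤ fl (g1 w) (blkN J (yQ (totN J) k WI γ y') ⟨j, hj⟩ -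
      (1 / (2 * κ) : ℚ) • centerI (ptsI J pts) ⟨j, hj⟩) := by
    refine fl_nonneg (g1 w) (fun z hz => ?_) (hy'.1 ⟨j, hj⟩)
    rw [mem_pset_iff] at hz
    exact cols_nonneg hw z hz
  rw [fl_sub, fl_smul] at h1
  -- the value at the integral point
  have h3 : ((vec ((pc J j).1 + 1) w ⬝ᵥ
      vec ((pc J j).1 + 1) (tgtD κ J pts (yD (totN J) k WI γ x) j) : ℤ) : ℚ) < 0 := by
    exact_mod_cast hneg
  have h4 := tgtD_block hκ J pts (yD (totN J) k WI γ x) ⟨j, hj⟩ hM
  have h5 := fl_target (e := (pc J j).1) w (tgtD κ J pts (yD (totN J) k WI γ x) j)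
  have h6 : blkN J (yQ (totN J) k WI γ (toQ (vec (totN J - k) x))) =
      blkN J (fun b => (g1 (yD (totN J) k WI γ x) b : ℚ)) :=
    blkN_congr fun b hb => yQ_toQ WI γ x hb
  rw [h6]
  have h7 : fl (g1 w) ((2 * κ * ((pts.getD j []).length : ℚ)) •
      (blkN J (fun b => (g1 (yD (totN J) k WI γ x) b : ℚ)) ⟨j, hj⟩ -
        (1 / (2 * κ) : ℚ) • centerI (ptsI J pts) ⟨j, hj⟩)) < 0 := by
    have h8 := congrArg (fl (g1 w)) h4
    refine lt_of_eq_of_lt h8.symm ?_
    rw [← h5] at h3
    exact h3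
  rw [fl_smul, fl_sub, fl_smul] at h7
  have h9 : (0 : ℚ) < 2 * κ * ((pts.getD j []).length : ℚ) := by positivity
  have h10 := neg_of_mul_neg_right h7 h9.le
  linarith

/-- **The cuts of the oracle of the deep region are correct.** -/
theorem orcD_ok (hF : ConeHyp F) (hmono : Monotone F)
    (hfu : F (2 * n) * (cD n * (s + X + 1)) ≤ fu)
    (h : DHyp n s d rz a J k WM WI γ) (hp : PHyp n s J pts) (hκ : kap fu d ≤ 2 ^ n)
    (hκ1 : 1 ≤ kap fu d) (t b : ℕ) :
    OrcOK X (KD d rz a J k WM WI γ pts (kap fu d))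
      (orcD fu d rz a (t, b, J, k, WM, WI, γ) pts) := by
  intro x hx g hg
  unfold orcD at hg
  simp only at hg
  rcases hfind : findN d (fun l => decide (dot (totN J) (eqRow J l)
      (yD (totN J) k WI γ x) ≠ g1 a l)) with _ | l
  · rw [hfind] at hg
    change firstSome _ = some g at hg
    have h1 := firstSome_mem hg
    rw [mem_tab] at h1
    obtain ⟨j, hj, h2⟩ := h1
    have hy : ∀ b < totN J, |g1 (yD (totN J) k WI γ x) b| ≤ 2 ^ (n + 2 * s + X) :=
      fun b hb => yD_le h hx hb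
    obtain ⟨h3, _⟩ := cone_step (κ := kap fu d) hF hmono hfu h hp hκ hy hj
    unfold orcDj at h2
    simp only at h2
    obtain ⟨w, hw, rfl⟩ := Option.map_eq_some_iff.1 h2
    obtain ⟨h4, h5⟩ := h3 w hw
    exact cut_block hκ1 hp hj h4 h5
  · rw [hfind] at hg
    obtain ⟨hl, h1⟩ := findN_some hfind
    have h2 : dot (totN J) (eqRow J l) (yD (totN J) k WI γ x) ≠ g1 a l := by simpa using h1
    have hX : ∑ b ∈ Finset.range (totN J), (g1 (eqRow J l) b : ℚ) *
        yQ (totN J) k WI γ (toQ (vec (totN J - k) x)) b =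
        ((dot (totN J) (eqRow J l) (yD (totN J) k WI γ x) : ℤ) : ℚ) := by
      unfold dot
      rw [sumz_range]
      push_cast
      refine Finset.sum_congr rfl fun b hb => ?_
      rw [yQ_toQ WI γ x (Finset.mem_range.1 hb)]
    change (if g1 a l < dot (totN J) (eqRow J l) (yD (totN J) k WI γ x) then
      some (pullD (totN J) k WI (eqRow J l)) else
      some ((pullD (totN J) k WI (eqRow J l)).map fun z => -z)) = some g at hg
    split_ifs at hg with h3
    · obtain rfl := Option.some.inj hg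
      refine cut_of_pullD WI γ _ (vec (totN J - k) x) fun y' hy' => ?_
      rw [KD_row hy' hl, hX]
      exact_mod_cast h3
    · obtain rfl := Option.some.inj hg
      have h4 : vec (totN J - k) ((pullD (totN J) k WI (eqRow J l)).map fun z => -z) =
          vec (totN J - k) (pullD (totN J) k WI ((eqRow J l).map fun z => -z)) := by
        funext i
        unfold pullD
        rw [vec_apply, vec_apply, map_tab, g1_tab_lt _ i.2, g1_tab_lt _ i.2, sumz_range,
          sumz_range, ← Finset.sum_neg_distrib]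
        refine Finset.sum_congr rfl fun b _ => ?_
        have h5 : g1 ((eqRow J l).map fun z => -z) b = - g1 (eqRow J l) b := by
          unfold g1
          rw [List.getD_eq_getElem?_getD, List.getD_eq_getElem?_getD, List.getElem?_map]
          cases (eqRow J l)[b]? <;> simp
        rw [h5]
        ring
      rw [h4]
      refine cut_of_pullD WI γ _ (vec (totN J - k) x) fun y' hy' => ?_
      have h5 : ∀ b, (g1 ((eqRow J l).map fun z => -z) b : ℚ) = - (g1 (eqRow J l) b : ℚ) := by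
        intro b
        unfold g1
        rw [List.getD_eq_getElem?_getD, List.getD_eq_getElem?_getD, List.getElem?_map]
        cases (eqRow J l)[b]? <;> simp
      simp only [h5, neg_mul, Finset.sum_neg_distrib]
      rw [KD_row hy' hl, hX, neg_lt_neg_iff]
      have h6 : dot (totN J) (eqRow J l) (yD (totN J) k WI γ x) < g1 a l := by omega
      exact_mod_cast h6

/-- **The accepted points lie in the deep region.** -/
theorem orcD_none (hF : ConeHyp F) (hmono : Monotone F)
    (hfu : F (2 * n) * (cD n * (s + X + 1)) ≤ fu)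
    (h : DHyp n s d rz a J k WM WI γ) (hp : PHyp n s J pts) (hκ : kap fu d ≤ 2 ^ n)
    (hκ1 : 1 ≤ kap fu d) (t b : ℕ) {x : ZV} (hx : VB (totN J - k) X x)
    (hacc : orcD fu d rz a (t, b, J, k, WM, WI, γ) pts x = none) :
    (fun j => cast2 (blkI J (yD (totN J) k WI γ x) j)) ∈ DeepI (SR d rz) (eJ J) (phiJ d J)
      (psiJ d J k WM) (vec (d + k) (tgt d a γ k)) (ptsI J pts) (1 / (2 * kap fu d)) := by
  unfold orcD at hacc
  simp only at hacc
  rcases hfind : findN d (fun l => decide (dot (totN J) (eqRow J l)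
      (yD (totN J) k WI γ x) ≠ g1 a l)) with _ | l
  swap
  · rw [hfind] at hacc
    change (if g1 a l < dot (totN J) (eqRow J l) (yD (totN J) k WI γ x) then
      some (pullD (totN J) k WI (eqRow J l)) else
      some ((pullD (totN J) k WI (eqRow J l)).map fun z => -z)) = none at hacc
    split_ifs at hacc
  rw [hfind] at hacc
  change firstSome _ = none at hacc
  rw [← blkN_toQ]
  constructor
  · intro j
    have h1 := firstSome_eq_none hacc (mem_tab.2 ⟨j, j.2, rfl⟩)
    have hy : ∀ b < totN J, |g1 (yD (totN J) k WI γ x) b| ≤ 2 ^ (n + 2 * s + X) :=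
      fun b hb => yD_le h hx hb
    obtain ⟨_, h3⟩ := cone_step (κ := kap fu d) hF hmono hfu h hp hκ hy j.2
    unfold orcDj at h1
    simp only at h1
    have h4 := hcone_of_hull (h3 (Option.map_eq_none_iff.1 h1))
    have hM := hp.pos j j.2
    have h5 := tgtD_block hκ1 J pts (yD (totN J) k WI γ x) j hM
    have hM' : (0 : ℚ) < ((pts.getD j []).length : ℚ) := by exact_mod_cast hM
    have hκ' : (0 : ℚ) < (kap fu d : ℚ) := by
      have : 0 < kap fu d := hκ1
      exact_mod_cast this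
    have h6 : (2 * (kap fu d : ℚ) * ((pts.getD j []).length : ℚ)) •
        (blkN J (fun b => (g1 (yD (totN J) k WI γ x) b : ℚ)) j -
          (1 / (2 * (kap fu d : ℚ)) : ℚ) • centerI (ptsI J pts) j) ∈
        hcone {z | InRows (eJ J j) (prow d rz (pc J j)) z} := by
      have h7 := h4
      rw [← h5]
      exact h7
    have h8 : hcone {z : Fin (eJ J j) → ℤ | InRows (eJ J j) (prow d rz (pc J j)) z} =
        hcone (pset (SR d rz) (eJ J) (phiJ d J) j) := by
      congr 1
      ext z
      exact (mem_pset_iff j z).symm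
    rw [h8] at h6
    have h9 := PointedCone.smul_mem (hcone (pset (SR d rz) (eJ J) (phiJ d J) j))
      (inv_nonneg.2 (by positivity : (0 : ℚ) ≤ 2 * (kap fu d : ℚ) *
        ((pts.getD j []).length : ℚ))) h6
    rwa [inv_smul_smul₀ (by positivity)] at h9
  · funext l
    rw [Ltot_blk, toQ_apply, vec_apply, g1_tgt a γ l.2]
    split_ifs with hl
    · have h1 := findN_none hfind l hl
      have h2 : dot (totN J) (eqRow J l) (yD (totN J) k WI γ x) = g1 a l := by simpa using h1
      rw [← h2]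
      unfold dot
      rw [sumz_range]
      push_cast
      rfl
    · have hl2 := l.2
      have h1 := WM_yQ h.uw.UW h.k_le γ (toQ (vec (totN J - k) x)) (i := (l : ℕ) - d)
        (by have := h.k_le; omega)
      rw [dif_pos (by omega)] at h1
      rw [← h1]
      refine Finset.sum_congr rfl fun b hb => ?_
      rw [yQ_toQ WI γ x (Finset.mem_range.1 hb)]

end Pool.Agent.MDF
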