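import Pool.Agent.MDF.DeepSpec

/-!
# The oracle of the deep region: correctness
-/

set_option autoImplicit false

namespace Pool.Agent.MDF

open Pool.Agent.PF Pool.Agent.MonFPT Matrix

/-- The deep region in the free coordinates. -/
def KD (d : ℕ) (rz : Rows) (a : ZV) (J : List Piece) (k : ℕ) (WM WI : ZM) (γ : ZV)
    (pts : List (List ZV)) (κ : ℕ) : Set (Fin (totN J - k) → ℚ) :=
  {x | blkN J (yQ (totN J) k WI γ x) ∈ DeepI (SR d rz) (eJ J) (phiJ d J) (psiJ d J k WM)
    (vec (d + k) (tgt d a γ k)) (ptsI J pts) (1 / (2 * κ))}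

lemma blkN_congr {J : List Piece} {f g : ℕ → ℚ} (h : ∀ b < totN J, f b = g b) :
    blkN J f = blkN J g := by
  funext j
  refine Prod.ext (funext fun a => ?_) ?_
  · exact h _ (off_lt_totN j.2 a.2.le)
  · exact h _ (off_lt_totN j.2 le_rfl)

/-- The rows of the unimodular matrix. -/
lemma WM_yQ {N k : ℕ} {WM WI : ZM} (h : mtx N N WM * mtx N N WI = 1) (hk : k ≤ N) (γ : ZV)
    (x : Fin (N - k) → ℚ) {i : ℕ} (hi : i < N) :
    ∑ b ∈ Finset.range N, (g2 WM i b : ℚ) * yQ N k WI γ x b =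
      if h : i < k then (g1 γ i : ℚ) else x ⟨i - k, by omega⟩ := by
  have h0 : ∀ c : ℕ, c < N → ∑ b ∈ Finset.range N, (g2 WM i b : ℚ) * (g2 WI b c : ℚ) =
      if i = c then 1 else 0 := by
    intro c hc
    have h1 := congrFun (congrFun h ⟨i, hi⟩) ⟨c, hc⟩
    rw [Matrix.mul_apply, Matrix.one_apply] at h1
    simp only [mtx_apply, Fin.mk.injEq] at h1
    rw [Finset.sum_range]
    exact_mod_cast h1
  have h1 : ∑ b ∈ Finset.range N, (g2 WM i b : ℚ) * yQ N k WI γ x b =
      (∑ c : Fin k, (if i = (c : ℕ) then (1 : ℚ) else 0) * g1 γ c) +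
        ∑ c : Fin (N - k), (if i = k + c then (1 : ℚ) else 0) * x c := by
    unfold yQ
    simp only [mul_add, Finset.sum_add_distrib, Finset.mul_sum]
    congr 1
    · rw [Finset.sum_comm]
      refine Finset.sum_congr rfl fun c _ => ?_
      rw [← h0 c (by omega), Finset.sum_mul]
      exact Finset.sum_congr rfl fun b _ => by ring
    · rw [Finset.sum_comm]
      refine Finset.sum_congr rfl fun c _ => ?_
      rw [← h0 (k + c) (by omega), Finset.sum_mul]
      exact Finset.sum_congr rfl fun b _ => by ring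
  rw [h1]
  simp only [ite_mul, one_mul, zero_mul]
  split_ifs with hik
  · rw [Finset.sum_eq_single (⟨i, hik⟩ : Fin k), Finset.sum_eq_zero]
    · simp
    · intro c _
      rw [if_neg (by omega)]
    · intro b _ hb
      rw [if_neg]
      intro hcon
      exact hb (Fin.ext hcon.symm)
    · intro hcon
      exact absurd (Finset.mem_univ _) hcon
  · rw [Finset.sum_eq_zero, Finset.sum_eq_single (⟨i - k, by omega⟩ : Fin (N - k)), zero_add]
    · rw [if_pos]
      change i = k + (i - k)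
      omega
    · intro b _ hb
      rw [if_neg]
      intro hcon
      exact hb (Fin.ext (by change (b : ℕ) = i - k; omega))
    · intro hcon
      exact absurd (Finset.mem_univ _) hcon
    · intro c _
      rw [if_neg]
      have := c.2
      omega

lemma g1_tgt {d : ℕ} (a γ : ZV) {k l : ℕ} (hl : l < d + k) :
    g1 (tgt d a γ k) l = if l < d then g1 a l else g1 γ (l - d) := by
  unfold tgt
  rw [g1_tab_lt _ hl]

/-- The linear equations hold on the deep region. -/
lemma KD_row {d : ℕ} {rz : Rows} {a : ZV} {J : List Piece} {k : ℕ} {WM WI : ZM} {γ : ZV}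
    {pts : List (List ZV)} {κ : ℕ} {x : Fin (totN J - k) → ℚ}
    (hx : x ∈ KD d rz a J k WM WI γ pts κ) {l : ℕ} (hl : l < d) :
    ∑ b ∈ Finset.range (totN J), (g1 (eqRow J l) b : ℚ) * yQ (totN J) k WI γ x b = g1 a l := by
  have h1 := congrFun hx.2 ⟨l, by omega⟩
  rw [Ltot_blk, if_pos hl] at h1
  rw [h1, toQ_apply, vec_apply, g1_tgt a γ (by simp; omega), if_pos hl]

/-- The specification of the cone procedure. -/
def ConeHyp (F : ℕ → ℕ) : Prop :=
  ∀ (fu D E : ℕ) (ps : List CP) (t : ZV), (∀ p ∈ ps, p.OK E) →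
    F (D + E) * (coneB ps t + 1) ≤ fu →
    (∀ w, cone fu D ps t = some w → VB D (F (D + E) * (coneB ps t + 1)) w ∧
      vec D w ⬝ᵥ vec D t < 0 ∧ ∀ c ∈ colsOf D ps, 0 ≤ vec D w ⬝ᵥ c) ∧
    (cone fu D ps t = none →
      toQ (vec D t) ∈ PointedCone.hull ℚ (toQ '' colsOf D ps))

/-- The state of the main algorithm is reasonable. -/
structure DHyp (n s d : ℕ) (rz : Rows) (a : ZV) (J : List Piece) (k : ℕ) (WM WI : ZM)
    (γ : ZV) : Prop where
  d_le : d ≤ n
  N_le : totN J ≤ n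
  k_le : k ≤ totN J
  a_vb : VB d s a
  g_le : ∀ i < k, |g1 γ i| ≤ 2 ^ s
  uw : UW (totN J) s WM WI
  rad : ∀ j < J.length, (pc J j).2.2.2 ≤ s
  box : ∀ j < J.length, ∀ z : Fin (pc J j).1 → ℤ, InRows (pc J j).1 (prow d rz (pc J j)) z →
    ∀ i, |z i| ≤ 2 ^ (pc J j).2.2.2

/-- The certificate points are reasonable. -/
structure PHyp (n s : ℕ) (J : List Piece) (pts : List (List ZV)) : Prop where
  pos : ∀ j < J.length, 0 < (pts.getD j []).length
  le : ∀ j < J.length, (pts.getD j []).length ≤ 2 ^ n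
  ent : ∀ j < J.length, ∀ σ < (pts.getD j []).length, ∀ i < (pc J j).1,
    |g1 ((pts.getD j []).getD σ []) i| ≤ 2 ^ s

variable {n s d : ℕ} {rz : Rows} {a : ZV} {J : List Piece} {k : ℕ} {WM WI : ZM} {γ : ZV}
  {pts : List (List ZV)}

/-- The size of the point of the blocks. -/
lemma yD_le (h : DHyp n s d rz a J k WM WI γ) {X : ℕ} {x : ZV} (hx : VB (totN J - k) X x)
    {b : ℕ} (hb : b < totN J) :
    |g1 (yD (totN J) k WI γ x) b| ≤ 2 ^ (n + 2 * s + X) := by
  unfold yD
  rw [g1_tab_lt _ hb, sumz_range, sumz_range]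
  have h1 : |∑ i ∈ Finset.range k, g2 WI b i * g1 γ i| ≤ k * (2 ^ (2 * s + X) : ℤ) := by
    refine (Finset.abs_sum_le_sum_abs _ _).trans ?_
    calc ∑ i ∈ Finset.range k, |g2 WI b i * g1 γ i| ≤
          ∑ _i ∈ Finset.range k, (2 ^ (2 * s + X) : ℤ) := by
          refine Finset.sum_le_sum fun i hi => ?_
          rw [Finset.mem_range] at hi
          rw [abs_mul]
          calc |g2 WI b i| * |g1 γ i| ≤ 2 ^ s * 2 ^ s :=
                mul_le_mul (h.uw.mW.le b hb i (lt_of_lt_of_le hi h.k_le)) (h.g_le i hi)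
                  (abs_nonneg _) (by positivity)
            _ = 2 ^ (s + s) := by rw [pow_add]
            _ ≤ 2 ^ (2 * s + X) := pow_le_pow_right₀ (by norm_num) (by omega)
      _ = k * (2 ^ (2 * s + X) : ℤ) := by
          rw [Finset.sum_const, Finset.card_range, nsmul_eq_mul]
  have h2 : |∑ i ∈ Finset.range (totN J - k), g2 WI b (k + i) * g1 x i| ≤
      (totN J - k : ℕ) * (2 ^ (2 * s + X) : ℤ) := by
    refine (Finset.abs_sum_le_sum_abs _ _).trans ?_
    calc ∑ i ∈ Finset.range (totN J - k), |g2 WI b (k + i) * g1 x i| ≤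
          ∑ _i ∈ Finset.range (totN J - k), (2 ^ (2 * s + X) : ℤ) := by
          refine Finset.sum_le_sum fun i hi => ?_
          rw [Finset.mem_range] at hi
          rw [abs_mul]
          calc |g2 WI b (k + i)| * |g1 x i| ≤ 2 ^ s * 2 ^ X :=
                mul_le_mul (h.uw.mW.le b hb (k + i) (by omega)) (hx.le i hi)
                  (abs_nonneg _) (by positivity)
            _ = 2 ^ (s + X) := by rw [pow_add]
            _ ≤ 2 ^ (2 * s + X) := pow_le_pow_right₀ (by norm_num) (by omega)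
      _ = (totN J - k : ℕ) * (2 ^ (2 * s + X) : ℤ) := by
          rw [Finset.sum_const, Finset.card_range, nsmul_eq_mul]
  have h3 : ((k : ℤ) + ((totN J - k : ℕ) : ℤ)) = (totN J : ℤ) := by
    have := h.k_le
    omega
  have h4 : (totN J : ℤ) ≤ 2 ^ n := by
    have h5 : totN J ≤ 2 ^ n := h.N_le.trans Nat.lt_two_pow_self.le
    exact_mod_cast h5
  calc |∑ i ∈ Finset.range k, g2 WI b i * g1 γ i +
        ∑ i ∈ Finset.range (totN J - k), g2 WI b (k + i) * g1 x i| ≤
        k * (2 ^ (2 * s + X) : ℤ) + (totN J - k : ℕ) * (2 ^ (2 * s + X) : ℤ) :=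
        (abs_add_le _ _).trans (add_le_add h1 h2)
    _ = (totN J : ℤ) * 2 ^ (2 * s + X) := by rw [← add_mul, h3]
    _ ≤ 2 ^ n * 2 ^ (2 * s + X) := mul_le_mul_of_nonneg_right h4 (by positivity)
    _ = 2 ^ (n + 2 * s + X) := by rw [← pow_add]; ring_nf

/-- The size of the target of the cone problem. -/
lemma tgtD_VB (hp : PHyp n s J pts) {κ : ℕ} (hκ : κ ≤ 2 ^ n)
    {X : ℕ} {y : ZV} (hy : ∀ b < totN J, |g1 y b| ≤ 2 ^ (n + 2 * s + X)) {j : ℕ}
    (hj : j < J.length) :
    VB ((pc J j).1 + 1) (3 * n + 2 + 2 * s + X) (tgtD κ J pts y j) := by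
  unfold tgtD
  refine VB.tab fun l hl => ?_
  have hκ' : ((κ : ℕ) : ℤ) ≤ 2 ^ n := by exact_mod_cast hκ
  have hM' : (((pts.getD j []).length : ℕ) : ℤ) ≤ 2 ^ n := by exact_mod_cast hp.le j hj
  have hy' := hy (off J j + l) (off_lt_totN hj (by omega))
  have h1 : |2 * (κ : ℤ) * ((pts.getD j []).length : ℤ) * g1 y (off J j + l)| ≤
      2 ^ (3 * n + 1 + 2 * s + X) := by
    rw [abs_mul, abs_mul, abs_mul]
    have e1 : |(2 : ℤ)| = 2 := rfl
    have e2 : |(κ : ℤ)| = κ := abs_of_nonneg (by positivity)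
    have e3 : |(((pts.getD j []).length : ℕ) : ℤ)| = (pts.getD j []).length :=
      abs_of_nonneg (by positivity)
    rw [e1, e2, e3]
    calc 2 * (κ : ℤ) * ((pts.getD j []).length : ℤ) * |g1 y (off J j + l)| ≤
          2 * 2 ^ n * 2 ^ n * 2 ^ (n + 2 * s + X) := by gcongr
      _ = 2 ^ (3 * n + 1 + 2 * s + X) := by ring
  have h2 : |if l < (pc J j).1 then
        sumz (pts.getD j []).length fun σ => g1 ((pts.getD j []).getD σ []) l
      else ((pts.getD j []).length : ℤ)| ≤ 2 ^ (3 * n + 1 + 2 * s + X) := by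
    split_ifs with hl'
    · rw [sumz_range]
      refine (Finset.abs_sum_le_sum_abs _ _).trans ?_
      calc ∑ σ ∈ Finset.range (pts.getD j []).length, |g1 ((pts.getD j []).getD σ []) l| ≤
            ∑ _σ ∈ Finset.range (pts.getD j []).length, (2 ^ s : ℤ) :=
            Finset.sum_le_sum fun σ hσ => hp.ent j hj σ (Finset.mem_range.1 hσ) l hl'
        _ = ((pts.getD j []).length : ℤ) * 2 ^ s := by
            rw [Finset.sum_const, Finset.card_range, nsmul_eq_mul]
        _ ≤ 2 ^ n * 2 ^ s := by gcongr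
        _ = 2 ^ (n + s) := by rw [pow_add]
        _ ≤ 2 ^ (3 * n + 1 + 2 * s + X) := pow_le_pow_right₀ (by norm_num) (by omega)
    · rw [abs_of_nonneg (by positivity)]
      exact hM'.trans (pow_le_pow_right₀ (by norm_num) (by omega))
  calc _ ≤ 2 ^ (3 * n + 1 + 2 * s + X) + (2 ^ (3 * n + 1 + 2 * s + X) : ℤ) :=
        (abs_sub _ _).trans (add_le_add h1 h2)
    _ = 2 ^ (3 * n + 2 + 2 * s + X) := by
        rw [show 3 * n + 2 + 2 * s + X = (3 * n + 1 + 2 * s + X) + 1 by ring, pow_succ]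
        ring

/-- A factor. -/
def cD (n : ℕ) : ℕ := 4 * n * n + 5 * n + 2

lemma coneB_le (h : DHyp n s d rz a J k WM WI γ) {X j : ℕ} (hj : j < J.length) {t : ZV}
    (ht : VB ((pc J j).1 + 1) (3 * n + 2 + 2 * s + X) t) :
    coneB [cp1 d rz (pc J j)] t + 1 ≤ cD n * (s + X + 1) := by
  have h0 : (pc J j).1 + 1 ≤ n := (succ_le_totN hj).trans h.N_le
  have h1 : blM (cp1 d rz (pc J j)).2.2.2.1 ≤ ((pc J j).1 + 1) * ((pc J j).1 * (0 + 1)) := by
    refine blM_le (MB.tabM fun i _ b _ => ?_)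
    split_ifs <;> norm_num
  have h2 : blV (cp1 d rz (pc J j)).2.2.2.2 ≤ ((pc J j).1 + 1) * (0 + 1) := by
    refine blV_le (VB.tab fun i _ => ?_)
    split_ifs <;> norm_num
  have h3 := blV_le ht
  have h4 := h.rad j hj
  have h5 : coneB [cp1 d rz (pc J j)] t = blM (cp1 d rz (pc J j)).2.2.2.1 +
      blV (cp1 d rz (pc J j)).2.2.2.2 + (pc J j).2.2.2 + (pc J j).1 + 1 + blV t := by
    unfold coneB
    rw [List.map_singleton, List.sum_singleton]
    rfl
  rw [h5]
  unfold cD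
  have h6 : ((pc J j).1 + 1) * ((pc J j).1 * (0 + 1)) ≤ n * n :=
    Nat.mul_le_mul h0 (by omega)
  have h7 : ((pc J j).1 + 1) * (3 * n + 2 + 2 * s + X + 1) ≤ n * (3 * n + 3 + 2 * s + X) :=
    Nat.mul_le_mul h0 (by omega)
  nlinarith [Nat.zero_le (n * n * s), Nat.zero_le (n * n * X), Nat.zero_le (n * s),
    Nat.zero_le (n * X)]

lemma cp1_OK (h : DHyp n s d rz a J k WM WI γ) {j : ℕ} (hj : j < J.length) :
    ∀ p ∈ [cp1 d rz (pc J j)], CP.OK (pc J j).1 p := by
  intro p hp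
  obtain rfl : p = cp1 d rz (pc J j) := by simpa using hp
  exact ⟨le_rfl, h.box j hj⟩

end Pool.Agent.MDF
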