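import Pool.Agent.MDF.Cone
import Pool.Agent.MDF.DeepDefs
import Pool.Agent.MonFPT.MainStepI

/-!
# The oracle of the deep region
-/

set_option autoImplicit false

namespace Pool.Agent.MDF

open Pool.Agent.PF Pool.Agent.MonFPT Matrix

/-! ### The free coordinates -/

/-- The point of the blocks with the free coordinates `x`. -/
def yQ (N k : ℕ) (WI : ZM) (γ : ZV) (x : Fin (N - k) → ℚ) (b : ℕ) : ℚ :=
  (∑ i : Fin k, (g2 WI b i : ℚ) * g1 γ i) + ∑ i : Fin (N - k), (g2 WI b (k + i) : ℚ) * x i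

lemma yQ_toQ {N k : ℕ} (WI : ZM) (γ x : ZV) {b : ℕ} (hb : b < N) :
    yQ N k WI γ (toQ (vec (N - k) x)) b = (g1 (yD N k WI γ x) b : ℚ) := by
  unfold yD yQ
  rw [g1_tab_lt _ hb, sumz_eq, sumz_eq]
  push_cast
  rfl

/-- The difference of the values of a linear form. -/
lemma dotQ_pullD {N k : ℕ} (WI : ZM) (γ g : ZV) (x x' : Fin (N - k) → ℚ) :
    dotQ (vec (N - k) (pullD N k WI g)) x - dotQ (vec (N - k) (pullD N k WI g)) x' =
      ∑ b ∈ Finset.range N, (g1 g b : ℚ) * (yQ N k WI γ x b - yQ N k WI γ x' b) := by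
  have h1 : ∀ z : Fin (N - k) → ℚ, dotQ (vec (N - k) (pullD N k WI g)) z =
      ∑ b ∈ Finset.range N, (g1 g b : ℚ) * ∑ i : Fin (N - k), (g2 WI b (k + i) : ℚ) * z i := by
    intro z
    unfold dotQ
    have h2 : ∀ i : Fin (N - k), (vec (N - k) (pullD N k WI g) i : ℚ) =
        ∑ b ∈ Finset.range N, (g1 g b : ℚ) * (g2 WI b (k + i) : ℚ) := by
      intro i
      unfold pullD
      rw [vec_apply, g1_tab_lt _ i.2, sumz_range]
      push_cast
      rfl
    simp only [h2, Finset.sum_mul, Finset.mul_sum]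
    rw [Finset.sum_comm]
    exact Finset.sum_congr rfl fun b _ => Finset.sum_congr rfl fun i _ => by ring
  rw [h1, h1, ← Finset.sum_sub_distrib]
  refine Finset.sum_congr rfl fun b _ => ?_
  unfold yQ
  ring

/-- The cut in terms of the points of the blocks. -/
lemma cut_of_pullD {N k : ℕ} (WI : ZM) (γ g : ZV) {K : Set (Fin (N - k) → ℚ)}
    (x : Fin (N - k) → ℤ)
    (H : ∀ y ∈ K, ∑ b ∈ Finset.range N, (g1 g b : ℚ) * yQ N k WI γ y b <
      ∑ b ∈ Finset.range N, (g1 g b : ℚ) * yQ N k WI γ (toQ x) b) :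
    Cut K (vec (N - k) (pullD N k WI g)) x := by
  intro y hy
  have h1 := dotQ_pullD WI γ g y (toQ x)
  have h2 := H y hy
  simp only [mul_sub, Finset.sum_sub_distrib] at h1
  linarith

/-! ### One block -/

/-- Sums over one block. -/
lemma sum_block {N o e : ℕ} (h : o + e < N) (f : ℕ → ℤ) (G : ℕ → ℚ) :
    ∑ b ∈ Finset.range N, ((if o ≤ b then (if b ≤ o + e then f (b - o) else 0) else 0 : ℤ) : ℚ) *
        G b =
      ∑ a : Fin e, (f a : ℚ) * G (o + a) + (f e : ℚ) * G (o + e) := by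
  obtain ⟨r, rfl⟩ : ∃ r, N = o + ((e + 1) + r) := ⟨N - (o + (e + 1)), by omega⟩
  rw [Finset.sum_range_add, Finset.sum_range_add (fun x => ((if o ≤ o + x then
    (if o + x ≤ o + e then f (o + x - o) else 0) else 0 : ℤ) : ℚ) * G (o + x))]
  have h1 : ∑ x ∈ Finset.range o,
      ((if o ≤ x then (if x ≤ o + e then f (x - o) else 0) else 0 : ℤ) : ℚ) * G x = 0 := by
    refine Finset.sum_eq_zero fun x hx => ?_
    rw [if_neg (by rw [Finset.mem_range] at hx; omega)]
    simp
  have h2 : ∑ x ∈ Finset.range r, ((if o ≤ o + (e + 1 + x) then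
      (if o + (e + 1 + x) ≤ o + e then f (o + (e + 1 + x) - o) else 0) else 0 : ℤ) : ℚ) *
        G (o + (e + 1 + x)) = 0 := by
    refine Finset.sum_eq_zero fun x _ => ?_
    rw [if_pos (by omega), if_neg (by omega)]
    simp
  rw [h1, h2, zero_add, add_zero, Finset.sum_range_succ, Finset.sum_range]
  congr 1
  · refine Finset.sum_congr rfl fun a _ => ?_
    have := a.2
    rw [if_pos (by omega), if_pos (by omega), Nat.add_sub_cancel_left]
  · rw [if_pos (by omega), if_pos (by omega), Nat.add_sub_cancel_left]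

/-- The value of a linear form on a block. -/
def fl {e : ℕ} (w : ℕ → ℤ) (u : (Fin e → ℚ) × ℚ) : ℚ :=
  ∑ a : Fin e, (w a : ℚ) * u.1 a + (w e : ℚ) * u.2

lemma fl_add {e : ℕ} (w : ℕ → ℤ) (u v : (Fin e → ℚ) × ℚ) : fl w (u + v) = fl w u + fl w v := by
  unfold fl
  simp only [Prod.fst_add, Prod.snd_add, Pi.add_apply, mul_add, Finset.sum_add_distrib]
  ring

lemma fl_smul {e : ℕ} (w : ℕ → ℤ) (r : ℚ) (u : (Fin e → ℚ) × ℚ) : fl w (r • u) = r * fl w u := by
  unfold fl
  simp only [Prod.smul_fst, Prod.smul_snd, Pi.smul_apply, smul_eq_mul, mul_add, Finset.mul_sum]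
  congr 1
  · exact Finset.sum_congr rfl fun a _ => by ring
  · ring

lemma fl_sub {e : ℕ} (w : ℕ → ℤ) (u v : (Fin e → ℚ) × ℚ) : fl w (u - v) = fl w u - fl w v := by
  have h : u - v = u + (-1 : ℚ) • v := by rw [neg_one_smul, sub_eq_add_neg]
  rw [h, fl_add, fl_smul]
  ring

/-- A form which is nonnegative on the generators is nonnegative on the cone. -/
lemma fl_nonneg {e : ℕ} {P : Set (Fin e → ℤ)} (w : ℕ → ℤ)
    (hw : ∀ z ∈ P, 0 ≤ ∑ a : Fin e, w a * z a + w e) {u : (Fin e → ℚ) × ℚ} (hu : u ∈ hcone P) :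
    0 ≤ fl w u := by
  refine Submodule.span_induction (p := fun u _ => 0 ≤ fl w u) ?_ ?_ ?_ ?_ hu
  · rintro _ ⟨z, hz, rfl⟩
    unfold fl
    simp only [toQ_apply, mul_one]
    exact_mod_cast hw z hz
  · simp [fl]
  · intro a b _ _ ha hb
    rw [fl_add]
    exact add_nonneg ha hb
  · rintro ⟨r, hr⟩ a _ ha
    have h1 : fl w ((⟨r, hr⟩ : {c : ℚ // 0 ≤ c}) • a) = r * fl w a := fl_smul w r a
    rw [h1]
    exact mul_nonneg hr ha

/-- The columns of the family of a single piece. -/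
lemma mem_cols_cp1 {d : ℕ} {rz : Rows} {P : Piece} {c : Fin (P.1 + 1) → ℤ} :
    c ∈ colsOf (P.1 + 1) [cp1 d rz P] ↔
      ∃ z : Fin P.1 → ℤ, InRows P.1 (prow d rz P) z ∧
        (∀ a : Fin P.1, c a.castSucc = z a) ∧ c (Fin.last _) = 1 := by
  have key : ∀ z : Fin P.1 → ℤ, ∀ i : Fin (P.1 + 1),
      (vec (P.1 + 1) (cp1 d rz P).2.2.2.2 + mtx (P.1 + 1) P.1 (cp1 d rz P).2.2.2.1 *ᵥ z) i =
        if h : (i : ℕ) < P.1 then z ⟨i, h⟩ else 1 := by
    intro z i
    rw [Pi.add_apply, vec_apply, mulVec, dotProduct]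
    have h1 : ∀ a : Fin P.1, mtx (P.1 + 1) P.1 (cp1 d rz P).2.2.2.1 i a =
        if (i : ℕ) = a then 1 else 0 := by
      intro a
      change g2 (tabM _ _ _) _ _ = _
      rw [g2_tabM_lt _ i.2 a.2]
    have h2 : g1 (cp1 d rz P).2.2.2.2 i = if (i : ℕ) = P.1 then 1 else 0 := by
      change g1 (tab _ _) _ = _
      rw [g1_tab_lt _ i.2]
    simp only [h1, h2, ite_mul, one_mul, zero_mul]
    by_cases h : (i : ℕ) < P.1
    · rw [dif_pos h, if_neg (by omega), Finset.sum_eq_single (⟨i, h⟩ : Fin P.1)]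
      · simp
      · intro b _ hb
        rw [if_neg]
        intro hcon
        exact hb (Fin.ext hcon.symm)
      · intro hcon
        exact absurd (Finset.mem_univ _) hcon
    · have hi : (i : ℕ) = P.1 := by
        have := i.2
        omega
      rw [dif_neg h, if_pos hi, Finset.sum_eq_zero]
      · simp
      · intro b _
        rw [if_neg]
        have := b.2
        omega
  constructor
  · rintro ⟨p, hp, hc⟩
    obtain rfl : p = cp1 d rz P := by simpa using hp
    obtain ⟨z, hz, rfl⟩ := hc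
    refine ⟨z, hz, fun a => ?_, ?_⟩
    · refine (key z a.castSucc).trans ?_
      rw [dif_pos (by simp)]
      rfl
    · refine (key z (Fin.last _)).trans ?_
      rw [dif_neg (by simp)]
  · rintro ⟨z, hz, h1, h2⟩
    refine ⟨cp1 d rz P, by simp, z, hz, ?_⟩
    funext i
    refine Eq.trans ?_ (key z i).symm
    refine Fin.lastCases ?_ (fun a => ?_) i
    · rw [h2, dif_neg (by simp)]
    · rw [h1, dif_pos (by simp)]
      rfl

/-- The cone generated by the columns of a single piece. -/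
lemma hcone_of_hull {d : ℕ} {rz : Rows} {P : Piece} {v : Fin (P.1 + 1) → ℚ}
    (hv : v ∈ PointedCone.hull ℚ (toQ '' colsOf (P.1 + 1) [cp1 d rz P])) :
    ((fun a : Fin P.1 => v a.castSucc, v (Fin.last _)) : (Fin P.1 → ℚ) × ℚ) ∈
      hcone {z | InRows P.1 (prow d rz P) z} := by
  refine Submodule.span_induction (p := fun v _ =>
    ((fun a : Fin P.1 => v a.castSucc, v (Fin.last _)) : (Fin P.1 → ℚ) × ℚ) ∈
      hcone {z | InRows P.1 (prow d rz P) z}) ?_ ?_ ?_ ?_ hv
  · rintro _ ⟨c, hc, rfl⟩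
    obtain ⟨z, hz, h1, h2⟩ := mem_cols_cp1.1 hc
    refine Submodule.subset_span ⟨z, hz, ?_⟩
    refine Prod.ext (funext fun a => ?_) ?_
    · simp [h1]
    · simp [h2]
  · exact Submodule.zero_mem _
  · intro a b _ _ ha hb
    exact Submodule.add_mem _ ha hb
  · rintro ⟨r, hr⟩ a _ ha
    exact Submodule.smul_mem _ (⟨r, hr⟩ : {c : ℚ // 0 ≤ c}) ha

/-! ### The target -/

/-- The target of the cone problem of piece `j`. -/
def tgtD (κ : ℕ) (J : List Piece) (pts : List (List ZV)) (y : ZV) (j : ℕ) : ZV :=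
  tab ((pc J j).1 + 1) fun l =>
    2 * κ * ((pts.getD j []).length : ℤ) * g1 y (off J j + l) -
      if l < (pc J j).1 then
        sumz (pts.getD j []).length fun σ => g1 ((pts.getD j []).getD σ []) l
      else (pts.getD j []).length

/-- The certificate points of piece `j`. -/
def ptsI (J : List Piece) (pts : List (List ZV)) (j : Fin J.length)
    (σ : Fin (pts.getD j []).length) : Fin (eJ J j) → ℤ :=
  vec (eJ J j) ((pts.getD j []).getD σ [])

/-- The point of the cone problem: `2 κ M` times (the block minus `1 / (2 κ)` times the centre). -/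
lemma tgtD_block {κ : ℕ} (hκ : 1 ≤ κ) (J : List Piece) (pts : List (List ZV)) (y : ZV)
    (j : Fin J.length) (hM : 0 < (pts.getD j []).length) :
    ((fun a : Fin (eJ J j) => toQ (vec (eJ J j + 1) (tgtD κ J pts y j)) a.castSucc,
        toQ (vec (eJ J j + 1) (tgtD κ J pts y j)) (Fin.last _)) : (Fin (eJ J j) → ℚ) × ℚ) =
      (2 * κ * ((pts.getD j []).length : ℚ)) •
        (blkN J (fun b => (g1 y b : ℚ)) j - (1 / (2 * κ) : ℚ) • centerI (ptsI J pts) j) := by
  have hκ' : (κ : ℚ) ≠ 0 := by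
    have : 0 < κ := hκ
    exact_mod_cast this.ne'
  have hM' : ((pts.getD j []).length : ℚ) ≠ 0 := by exact_mod_cast hM.ne'
  refine Prod.ext (funext fun a => ?_) ?_
  · have h1 : toQ (vec (eJ J j + 1) (tgtD κ J pts y j)) a.castSucc =
        2 * κ * ((pts.getD j []).length : ℚ) * (g1 y (off J j + a) : ℚ) -
          ∑ σ : Fin (pts.getD j []).length, (g1 ((pts.getD j []).getD σ []) a : ℚ) := by
      rw [toQ_apply, vec_apply]
      unfold tgtD
      have ha : (a : ℕ) < (pc J j).1 := a.2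
      rw [g1_tab_lt _ (by simpa using Nat.lt_succ_of_lt ha)]
      simp only [Fin.val_castSucc]
      rw [if_pos ha, sumz_eq]
      push_cast
      rfl
    have h2 : (centerI (ptsI J pts) j).1 a = ((pts.getD j []).length : ℚ)⁻¹ *
        ∑ σ : Fin (pts.getD j []).length, (g1 ((pts.getD j []).getD σ []) a : ℚ) := by
      change (((Fintype.card (Fin (pts.getD j []).length) : ℕ) : ℚ)⁻¹ •
        ∑ s, toQ (ptsI J pts j s)) a = _
      rw [Pi.smul_apply, Finset.sum_apply, smul_eq_mul, Fintype.card_fin]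
      rfl
    simp only [Prod.smul_fst, Prod.fst_sub, Pi.smul_apply, Pi.sub_apply, smul_eq_mul]
    rw [h1, h2]
    have h3 : (blkN J (fun b => (g1 y b : ℚ)) j).1 a = (g1 y (off J j + a) : ℚ) := rfl
    rw [h3]
    field_simp
  · have h1 : toQ (vec (eJ J j + 1) (tgtD κ J pts y j)) (Fin.last _) =
        2 * κ * ((pts.getD j []).length : ℚ) * (g1 y (off J j + eJ J j) : ℚ) -
          (pts.getD j []).length := by
      rw [toQ_apply, vec_apply]
      unfold tgtD
      rw [g1_tab_lt _ (by simp [eJ])]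
      simp only [Fin.val_last]
      rw [if_neg (by simp [eJ])]
      push_cast
      rfl
    have h2 : (centerI (ptsI J pts) j).2 = 1 := rfl
    simp only [Prod.smul_snd, Prod.snd_sub, smul_eq_mul]
    rw [h1, h2]
    have h3 : (blkN J (fun b => (g1 y b : ℚ)) j).2 = (g1 y (off J j + eJ J j) : ℚ) := rfl
    rw [h3]
    field_simp

end Pool.Agent.MDF
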