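import Pool.Agent.MDF.DeepDefs
import Pool.Agent.MonFPT.Few

/-!
# The start of the algorithm
-/

set_option autoImplicit false

namespace Pool.Agent.MDF

open Pool.Agent.PF Pool.Agent.MonFPT Matrix

/-- The set `S` of the instance. -/
def setS (d : ℕ) (Ab : Rows) : Set (Fin d → ℤ) := {z | (∀ i, 0 ≤ z i) ∧ InRows d Ab z}

theorem start_zero (d : ℕ) (a : ZV) :
    (tab d fun i => decide (g1 a i = 0)).all id = true ↔ vec d a = 0 := by
  rw [tab_all]
  constructor
  · intro h
    funext i
    have := h i i.2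
    rw [decide_eq_true_iff] at this
    exact this
  · intro h i hi
    rw [decide_eq_true_iff]
    exact congrFun h ⟨i, hi⟩

theorem dot_unit {d : ℕ} (i : ℕ) (hi : i < d) (c : ℤ) (z : Fin d → ℤ) :
    vec d (tab d fun l => if l = i then c else 0) ⬝ᵥ z = c * z ⟨i, hi⟩ := by
  rw [vec_tab, dotProduct, Finset.sum_eq_single (⟨i, hi⟩ : Fin d)]
  · simp
  · intro j _ hj
    have : (j : ℕ) ≠ i := fun h => hj (Fin.ext h)
    simp [this]
  · intro h; exact absurd (Finset.mem_univ _) h

theorem mem_rowsZ {d : ℕ} {Ab : Rows} {a : ZV} {z : Fin d → ℤ} :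
    z ∈ SR d (rowsZ d Ab a) ↔
      InRows d Ab z ∧ (∀ i, z i ≤ vec d a i) ∧ (∀ i, 0 ≤ z i) ∧ 1 ≤ ∑ i, z i := by
  rw [mem_SR]
  constructor
  · intro h
    refine ⟨fun p hp => h p ?_, fun i => ?_, fun i => ?_, ?_⟩
    · unfold rowsZ
      simp only [List.mem_append]
      exact Or.inl (Or.inl (Or.inl hp))
    · have h1 := h (tab d fun l => if l = i then 1 else 0, g1 a i) (by
        unfold rowsZ
        simp only [List.mem_append]
        exact Or.inl (Or.inl (Or.inr (mem_tab.2 ⟨i, i.2, rfl⟩))))
      rw [dot_unit (i : ℕ) i.2] at h1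
      simpa using h1
    · have h1 := h (tab d fun l => if l = i then -1 else 0, 0) (by
        unfold rowsZ
        simp only [List.mem_append]
        exact Or.inl (Or.inr (mem_tab.2 ⟨i, i.2, rfl⟩)))
      rw [dot_unit (i : ℕ) i.2] at h1
      simpa using h1
    · have h1 := h (tab d fun _ => -1, -1) (by
        unfold rowsZ
        simp only [List.mem_append]
        exact Or.inr (List.mem_singleton.2 rfl))
      simp only [vec_tab, dotProduct, neg_mul, one_mul, Finset.sum_neg_distrib] at h1
      linarith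
  · rintro ⟨h1, h2, h3, h4⟩ p hp
    unfold rowsZ at hp
    simp only [List.mem_append] at hp
    rcases hp with ((hp | hp) | hp) | hp
    · exact h1 p hp
    · obtain ⟨i, hi, rfl⟩ := mem_tab.1 hp
      rw [dot_unit i hi]
      simpa using h2 ⟨i, hi⟩
    · obtain ⟨i, hi, rfl⟩ := mem_tab.1 hp
      rw [dot_unit i hi]
      simpa using h3 ⟨i, hi⟩
    · rw [List.mem_singleton] at hp
      subst hp
      simp only [vec_tab, dotProduct, neg_mul, one_mul, Finset.sum_neg_distrib]
      linarith

theorem SR_subset (d : ℕ) (Ab : Rows) (a : ZV) : SR d (rowsZ d Ab a) ⊆ setS d Ab := fun _ hz =>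
  ⟨(mem_rowsZ.1 hz).2.2.1, (mem_rowsZ.1 hz).1⟩

/-- Only the nonzero elements below `a` matter. -/
theorem closure_iff (d : ℕ) (Ab : Rows) (a : ZV) :
    vec d a ∈ AddSubmonoid.closure (setS d Ab) ↔
      vec d a ∈ AddSubmonoid.closure (SR d (rowsZ d Ab a)) := by
  constructor
  · intro h
    obtain ⟨s, hs, hsum⟩ := AddSubmonoid.exists_multiset_of_mem_closure h
    rw [← hsum]
    -- every member is below the sum
    have hnn : ∀ s : Multiset (Fin d → ℤ), (∀ z ∈ s, z ∈ setS d Ab) → ∀ i, 0 ≤ s.sum i := by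
      intro s
      induction s using Multiset.induction_on with
      | empty => intro _ i; simp
      | cons z s ih =>
        intro hs i
        rw [Multiset.sum_cons, Pi.add_apply]
        have h1 := ih (fun y hy => hs y (Multiset.mem_cons_of_mem hy)) i
        have h2 := (hs z (Multiset.mem_cons_self _ _)).1 i
        omega
    have key : ∀ z ∈ s, z ∈ AddSubmonoid.closure (SR d (rowsZ d Ab a)) := by
      intro z hz
      obtain ⟨t, rfl⟩ := Multiset.exists_cons_of_mem hz
      by_cases h0 : z = 0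
      · rw [h0]; exact AddSubmonoid.zero_mem _
      · refine AddSubmonoid.subset_closure (mem_rowsZ.2 ⟨(hs z hz).2, fun i => ?_, (hs z hz).1, ?_⟩)
        · rw [← hsum, Multiset.sum_cons, Pi.add_apply]
          have := hnn t (fun y hy => hs y (Multiset.mem_cons_of_mem hy)) i
          omega
        · by_contra hcon
          have h1 : ∀ i ∈ (Finset.univ : Finset (Fin d)), 0 ≤ z i := fun i _ => (hs z hz).1 i
          have h2 : ∑ i, z i = 0 := by
            have := Finset.sum_nonneg h1
            omega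
          rw [Finset.sum_eq_zero_iff_of_nonneg h1] at h2
          exact h0 (funext fun i => h2 i (Finset.mem_univ i))
    exact AddSubmonoid.multiset_sum_mem _ s key
  · intro h
    exact AddSubmonoid.closure_mono (SR_subset d Ab a) h

/-- The box. -/
theorem SR_box {d : ℕ} {Ab : Rows} {a : ZV} {z : Fin d → ℤ} (hz : z ∈ SR d (rowsZ d Ab a))
    (i : Fin d) : |z i| ≤ 2 ^ blV a := by
  obtain ⟨_, h2, h3, _⟩ := mem_rowsZ.1 hz
  rw [abs_of_nonneg (h3 i)]
  exact (h2 i).trans ((le_abs_self _).trans (abs_vec_le d a i))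

/-- Systems of inequalities define convex sets. -/
theorem isConv_SR (d : ℕ) (rz : Rows) : IsConv (SR d rz) := by
  intro x hx p hp
  have hconv : Convex ℚ {z : Fin d → ℚ | dotQ (vec d p.1) z ≤ p.2} := by
    intro u hu v hv s t hs ht hst
    change dotQ (vec d p.1) (s • u + t • v) ≤ p.2
    have h1 : dotQ (vec d p.1) (s • u + t • v) =
        s * dotQ (vec d p.1) u + t * dotQ (vec d p.1) v := by
      rw [← dotL_apply, ← dotL_apply, ← dotL_apply, map_add, map_smul, map_smul, smul_eq_mul,
        smul_eq_mul]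
    rw [h1]
    have hu' : dotQ (vec d p.1) u ≤ p.2 := hu
    have hv' : dotQ (vec d p.1) v ≤ p.2 := hv
    calc s * dotQ (vec d p.1) u + t * dotQ (vec d p.1) v ≤ s * p.2 + t * p.2 :=
          add_le_add (mul_le_mul_of_nonneg_left hu' hs) (mul_le_mul_of_nonneg_left hv' ht)
      _ = p.2 := by rw [← add_mul, hst, one_mul]
  have h2 : convexHull ℚ (toQ '' SR d rz) ⊆ {z : Fin d → ℚ | dotQ (vec d p.1) z ≤ p.2} := by
    refine convexHull_min ?_ hconv
    rintro _ ⟨z, hz, rfl⟩
    change dotQ (vec d p.1) (toQ z) ≤ p.2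
    rw [dotQ_toQ]
    exact_mod_cast hz p hp
  have h3 := h2 hx
  change dotQ (vec d p.1) (toQ x) ≤ p.2 at h3
  rw [dotQ_toQ] at h3
  exact_mod_cast h3

/-! ### Sizes -/

theorem bl_le_sz (z : ℤ) : bl z ≤ sz z := by
  rw [sz_int]
  unfold bl
  have h : ∀ l : List Bool, l.length ≤ sz l := by
    intro l
    induction l with
    | nil => simp
    | cons b l ih => rw [sz_cons, List.length_cons]; omega
  have := h z.natAbs.bits
  omega

theorem blV_le_sz (v : ZV) : blV v ≤ sz v := by
  unfold blV
  induction v with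
  | nil => simp
  | cons z v ih =>
    rw [List.map_cons, List.sum_cons, sz_cons]
    have := bl_le_sz z
    omega

theorem blV_le_sz_inst (Ab : Rows) (a : ZV) : blV a ≤ sz (Ab, a) := by
  rw [sz_prod]
  have := blV_le_sz a
  omega

end Pool.Agent.MDF
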