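import Pool.Agent.PF.ToTM
import Pool.Agent.PF.Gen
import Pool.Agent.MDF.AlgPF
import Pool.Agent.MDF.Start

/-!
# The final assembly
-/

set_option autoImplicit false

namespace Pool.Agent.MDF

open Pool.Agent.PF Turing

/-- The statement of the correctness of the algorithm. -/
def DecideSpec : Prop := ∃ F : ℕ → ℕ, EB F ∧ Monotone F ∧
    ∀ (fu d : ℕ) (Ab : Rows) (a : ZV), a.length = d → F d * (sz (Ab, a) + 1) ≤ fu →
      (decideMD fu d Ab a = true ↔ vec d a ∈ AddSubmonoid.closure (setS d Ab))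

/-! ### Trees -/

theorem spine_list (l : List V) : (V.list l).spine = l.length := by
  induction l with
  | nil => rfl
  | cons a l ih => simp [V.list, V.spine, ih]

theorem spine_enc_list {α : Type} [VEnc α] (l : List α) : (enc l : V).spine = l.length := by
  change (V.list (l.map enc)).spine = _
  rw [spine_list, List.length_map]

/-! ### The time bound -/

theorem runs_total (c : ℕ) : ∃ (G : V → V) (k K : ℕ),
    RunsBy G (fun v => (K * (tw c v.tl.spine + 2)) ^ k * (v.size + 1) ^ k) ∧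
    ∀ x : Rows × ZV, G (enc x) =
      enc (decideMD (tw c x.2.length * (sz x + 1)) x.2.length x.1 x.2) := by
  -- the three functions
  obtain ⟨P, ⟨c2, hP⟩, hP'⟩ : PF fun x : ℕ × (Rows × ZV) =>
      decideMD (x.1 * (sz x.2 + 1)) x.2.2.length x.2.1 x.2.2 :=
    pf_decideMD (by fun_prop) (by fun_prop) (by fun_prop) (by fun_prop)
  obtain ⟨C, hgen⟩ := gen_tw c
  obtain ⟨c1, hpre⟩ : PT fun v => .node (V.una v.tl.spine) v :=
    PT.node (PT.comp PT.uspine PT.tl) PT.id
  set pre : V → V := fun v => .node (V.una v.tl.spine) v with hpredef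
  set gen : V → V := fun v => .node (V.una (tw c v.hd.spine)) v.tl with hgendef
  set k := c1 + C + c2 + 1 with hk
  refine ⟨fun v => P (gen (pre v)), k, 20, ?_, ?_⟩
  · refine (RunsBy.comp hP (RunsBy.comp hgen hpre)).mono fun v => ?_
    have hs1 : (pre v).size = 2 * v.tl.spine + 1 + v.size + 1 := by
      rw [hpredef]; simp only [V.size, V.size_una]
    have hs2 : (gen (pre v)).size = 2 * tw c v.tl.spine + 1 + v.size + 1 := by
      rw [hgendef, hpredef]; simp only [V.size, V.size_una, V.hd_node, V.tl_node, V.spine_una]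
    have hs3 : v.tl.spine ≤ v.size := (V.spine_le_size _).trans (V.size_tl_le _)
    have hs4 : (pre v).hd.spine = v.tl.spine := by
      rw [hpredef]; simp only [V.hd_node, V.spine_una]
    have hx := two_le_tw c v.tl.spine
    have hL := V.size_pos v
    rw [hs1, hs2, hs4]
    generalize tw c v.tl.spine = x at *
    generalize v.size = L at *
    generalize v.tl.spine = n at *
    set Y := 4 * (x + 2) * (L + 1) with hY
    have hYe : Y = 4 * (x * L + x + 2 * L + 2) := by rw [hY]; ring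
    have hY1 : 1 ≤ Y := by rw [hYe]; omega
    have e1 : (L + 2) ^ c1 ≤ Y ^ k := by
      calc (L + 2) ^ c1 ≤ Y ^ c1 := Nat.pow_le_pow_left (by rw [hYe]; nlinarith) _
        _ ≤ Y ^ k := Nat.pow_le_pow_right hY1 (by omega)
    have e2 : (x + (2 * n + 1 + L + 1) + 2) ^ C ≤ Y ^ k := by
      calc (x + (2 * n + 1 + L + 1) + 2) ^ C ≤ Y ^ C :=
            Nat.pow_le_pow_left (by rw [hYe]; nlinarith) _
        _ ≤ Y ^ k := Nat.pow_le_pow_right hY1 (by omega)
    have e3 : (2 * x + 1 + L + 1 + 2) ^ c2 ≤ Y ^ k := by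
      calc (2 * x + 1 + L + 1 + 2) ^ c2 ≤ Y ^ c2 :=
            Nat.pow_le_pow_left (by rw [hYe]; nlinarith) _
        _ ≤ Y ^ k := Nat.pow_le_pow_right hY1 (by omega)
    have e4 : 1 ≤ Y ^ k := Nat.one_le_pow _ _ hY1
    have e5 : 5 * Y ^ k ≤ (20 * (x + 2)) ^ k * (L + 1) ^ k := by
      have h1 : (20 * (x + 2)) ^ k * (L + 1) ^ k = (5 * Y) ^ k := by
        rw [← mul_pow, hY]; congr 1; ring
      rw [h1, mul_pow 5 Y k]
      refine Nat.mul_le_mul_right _ ?_
      calc 5 = 5 ^ 1 := by norm_num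
        _ ≤ 5 ^ k := Nat.pow_le_pow_right (by norm_num) (by omega)
    omega
  · rintro ⟨Ab, a⟩
    have h1 : gen (pre (enc (Ab, a))) = enc (tw c a.length, ((Ab, a) : Rows × ZV)) := by
      have h2 : (enc (Ab, a) : V) = .node (enc Ab) (enc a) := rfl
      rw [hgendef, hpredef]
      simp only [V.hd_node, V.tl_node, V.spine_una]
      rw [h2]
      simp only [V.tl_node]
      rw [spine_enc_list]
      rfl
    change P (gen (pre (enc (Ab, a)))) = _
    rw [h1, hP']

/-! ### Computability of the bound -/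

theorem primrec_pow2 : Primrec fun n : ℕ => 2 ^ n := by
  have h : Primrec fun n : ℕ => (Nat.rec 1 (fun _ x => x + x) n : ℕ) :=
    Primrec.nat_rec₁ 1 (Primrec.nat_add.comp Primrec.snd Primrec.snd)
  refine h.of_eq fun n => ?_
  induction n with
  | zero => rfl
  | succ n ih => rw [pow_succ]; simp only at ih ⊢; rw [ih]; ring

theorem primrec_tw (c : ℕ) : Primrec (tw c) := by
  induction c with
  | zero => exact (Primrec.nat_add.comp Primrec.id (Primrec.const 2)).of_eq fun n => rfl
  | succ c ih => exact (primrec_pow2.comp ih).of_eq fun n => rfl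

theorem primrec_powc (k : ℕ) {f : ℕ → ℕ} (hf : Primrec f) : Primrec fun n => f n ^ k := by
  induction k with
  | zero => exact (Primrec.const 1).of_eq fun n => by simp
  | succ k ih => exact (Primrec.nat_mul.comp ih hf).of_eq fun n => by rw [pow_succ]

/-! ### The final theorem, on the level of lists -/

theorem outputs_mono {tm : FinTM2} {l : List (tm.Γ tm.k₀)} {l' : Option (List (tm.Γ tm.k₁))}
    {m m' : ℕ} (h : Nonempty (TM2OutputsInTime tm l l' m)) (hm : m ≤ m') :
    Nonempty (TM2OutputsInTime tm l l' m') := by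
  obtain ⟨h⟩ := h
  exact ⟨⟨h.toEvalsTo, h.steps_le_m.trans hm⟩⟩

theorem final_of_spec (hspec : DecideSpec) :
    ∃ (tm : FinTM2) (e₀ : tm.Γ tm.k₀ ≃ Bool) (e₁ : tm.Γ tm.k₁ ≃ Bool) (f : ℕ → ℕ) (k : ℕ),
      Computable f ∧ ∀ x : Rows × ZV, ∀ r : Bool,
        (r = true ↔ vec x.2.length x.2 ∈ AddSubmonoid.closure (setS x.2.length x.1)) →
        Nonempty (TM2OutputsInTime tm ((enc x).code.map e₀.symm) (some ([r].map e₁.symm))
          (f x.2.length * ((enc x).code.length + 1) ^ k)) := by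
  obtain ⟨F, ⟨c, hc⟩, -, hF⟩ := hspec
  obtain ⟨G, k, K, hG, hG'⟩ := runs_total c
  obtain ⟨tm, e₀, e₁, C, htm⟩ := decider_of_runsBy (inp := fun x : Rows × ZV => enc x)
    (ans := fun x => decideMD (tw c x.2.length * (sz x + 1)) x.2.length x.1 x.2) hG
    (fun x => hG' x)
  refine ⟨tm, e₀, e₁, fun n => 3 * C * (K * (tw c n + 2) + 1) ^ k, k + 1, ?_, ?_⟩
  · refine Primrec.to_comp ?_
    refine Primrec.nat_mul.comp (Primrec.const _) (primrec_powc k ?_)
    refine Primrec.nat_add.comp (Primrec.nat_mul.comp (Primrec.const _) ?_) (Primrec.const _)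
    exact Primrec.nat_add.comp (primrec_tw c) (Primrec.const _)
  · rintro ⟨Ab, a⟩ r hr
    have h1 : r = decideMD (tw c a.length * (sz (Ab, a) + 1)) a.length Ab a := by
      have h2 := hF (tw c a.length * (sz (Ab, a) + 1)) a.length Ab a rfl
        (Nat.mul_le_mul_right _ (hc _))
      exact Bool.eq_iff_iff.2 (hr.trans h2.symm)
    have h2 := htm (Ab, a)
    simp only at h2
    rw [← h1] at h2
    refine outputs_mono h2 ?_
    rw [V.code_length]
    have h3 : (enc ((Ab, a) : Rows × ZV) : V).tl.spine = a.length := by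
      have h4 : (enc ((Ab, a) : Rows × ZV) : V) = .node (enc Ab) (enc a) := rfl
      rw [h4, V.tl_node, spine_enc_list]
    rw [h3]
    simp only
    generalize hx : tw c a.length = x
    have hL := V.size_pos (enc ((Ab, a) : Rows × ZV))
    generalize (enc ((Ab, a) : Rows × ZV) : V).size = L at *
    have e1 : (K * (x + 2)) ^ k ≤ (K * (x + 2) + 1) ^ k := Nat.pow_le_pow_left (by omega) _
    have e2 : (L + 1) ^ k ≤ (L + 1) ^ (k + 1) := Nat.pow_le_pow_right (by omega) (by omega)
    have e3 : 1 ≤ (K * (x + 2) + 1) ^ k := Nat.one_le_pow _ _ (by omega)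
    have e4 : L + 1 ≤ (L + 1) ^ (k + 1) := by
      calc L + 1 = (L + 1) ^ 1 := by rw [pow_one]
        _ ≤ (L + 1) ^ (k + 1) := Nat.pow_le_pow_right (by omega) (by omega)
    have e5 : (K * (x + 2)) ^ k * (L + 1) ^ k ≤ (K * (x + 2) + 1) ^ k * (L + 1) ^ (k + 1) :=
      Nat.mul_le_mul e1 e2
    have e6 : L + 1 ≤ (K * (x + 2) + 1) ^ k * (L + 1) ^ (k + 1) := by
      calc L + 1 = 1 * (L + 1) := by ring
        _ ≤ (K * (x + 2) + 1) ^ k * (L + 1) ^ (k + 1) := Nat.mul_le_mul e3 e4
    calc C * (L + (K * (x + 2)) ^ k * (L + 1) ^ k + 1)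
        ≤ C * (3 * ((K * (x + 2) + 1) ^ k * (L + 1) ^ (k + 1))) :=
          Nat.mul_le_mul_left _ (by omega)
      _ = 3 * C * (K * (x + 2) + 1) ^ k * (L + 1) ^ (k + 1) := by ring

end Pool.Agent.MDF
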