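import Pool.Agent.MDF.Alg

/-!
# Lists as vectors and matrices: views, shapes and sizes
-/

set_option autoImplicit false

namespace Pool.Agent.MDF

open Pool.Agent.PF Matrix

/-- The vector of a list. -/
def vec (n : ℕ) (l : ZV) : Fin n → ℤ := fun i => g1 l i

/-- The matrix of a list of rows. -/
def mtx (n m : ℕ) (M : ZM) : Matrix (Fin n) (Fin m) ℤ := fun i j => g2 M i j

@[simp] lemma vec_apply (n : ℕ) (l : ZV) (i : Fin n) : vec n l i = g1 l i := rfl

@[simp] lemma mtx_apply (n m : ℕ) (M : ZM) (i : Fin n) (j : Fin m) : mtx n m M i j = g2 M i j := rfl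

lemma vec_row (n m : ℕ) (M : ZM) (i : Fin n) : vec m (row M i) = mtx n m M i := rfl

/-! ### Tabulation -/

@[simp] lemma length_tab {α : Type} (n : ℕ) (f : ℕ → α) : (tab n f).length = n := by
  rw [tab, List.length_map, List.length_range]

lemma getD_tab {α : Type} (n : ℕ) (f : ℕ → α) (x : α) (i : ℕ) :
    (tab n f).getD i x = if i < n then f i else x := by
  split_ifs with h
  · rw [List.getD_eq_getElem _ _ (by rw [length_tab]; exact h)]
    simp [tab]
  · rw [List.getD_eq_default _ _ (by rw [length_tab]; omega)]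

lemma g1_tab (n : ℕ) (f : ℕ → ℤ) (i : ℕ) : g1 (tab n f) i = if i < n then f i else 0 :=
  getD_tab n f 0 i

lemma g1_tab_lt {n : ℕ} (f : ℕ → ℤ) {i : ℕ} (h : i < n) : g1 (tab n f) i = f i := by
  rw [g1_tab, if_pos h]

lemma vec_tab (n : ℕ) (f : ℕ → ℤ) : vec n (tab n f) = fun i : Fin n => f i := by
  funext i
  rw [vec_apply, g1_tab_lt f i.2]

lemma row_tabM {n : ℕ} (m : ℕ) (f : ℕ → ℕ → ℤ) {i : ℕ} (h : i < n) :
    row (tabM n m f) i = tab m fun j => f i j := by
  unfold row tabM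
  rw [getD_tab, if_pos h]

lemma row_tabM_ge {n : ℕ} (m : ℕ) (f : ℕ → ℕ → ℤ) {i : ℕ} (h : n ≤ i) :
    row (tabM n m f) i = [] := by
  unfold row tabM
  rw [getD_tab, if_neg (by omega)]

lemma g2_tabM (n m : ℕ) (f : ℕ → ℕ → ℤ) (i j : ℕ) :
    g2 (tabM n m f) i j = if i < n then (if j < m then f i j else 0) else 0 := by
  unfold g2
  split_ifs with h1 h2
  · rw [row_tabM m f h1, g1_tab, if_pos h2]
  · rw [row_tabM m f h1, g1_tab, if_neg h2]
  · rw [row_tabM_ge m f (by omega)]; rfl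

lemma g2_tabM_lt {n m : ℕ} (f : ℕ → ℕ → ℤ) {i j : ℕ} (hi : i < n) (hj : j < m) :
    g2 (tabM n m f) i j = f i j := by
  rw [g2_tabM, if_pos hi, if_pos hj]

lemma mtx_tabM (n m : ℕ) (f : ℕ → ℕ → ℤ) :
    mtx n m (tabM n m f) = fun (i : Fin n) (j : Fin m) => f i j := by
  funext i j
  rw [mtx_apply, g2_tabM_lt f i.2 j.2]

lemma tab_all (n : ℕ) (p : ℕ → Bool) : (tab n p).all id = true ↔ ∀ i < n, p i = true := by
  simp [tab]

lemma tab_any (n : ℕ) (p : ℕ → Bool) : (tab n p).any id = true ↔ ∃ i < n, p i = true := by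
  simp [tab]

lemma tab_congr {α : Type} {n : ℕ} {f g : ℕ → α} (h : ∀ i < n, f i = g i) : tab n f = tab n g :=
  List.map_congr_left fun i hi => h i (List.mem_range.1 hi)

lemma mem_tab {α : Type} {n : ℕ} {f : ℕ → α} {x : α} : x ∈ tab n f ↔ ∃ i < n, f i = x := by
  simp [tab]

lemma map_tab {α β : Type} (n : ℕ) (f : ℕ → α) (g : α → β) :
    (tab n f).map g = tab n fun i => g (f i) := by
  rw [tab, List.map_map]; rfl

/-! ### Sums -/

lemma sumz_range (n : ℕ) (f : ℕ → ℤ) : sumz n f = ∑ i ∈ Finset.range n, f i := by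
  unfold sumz tab
  induction n with
  | zero => simp
  | succ n ih => rw [List.sum_range_succ, Finset.sum_range_succ, ih]

lemma sumz_eq (n : ℕ) (f : ℕ → ℤ) : sumz n f = ∑ i : Fin n, f i := by
  rw [sumz_range, Fin.sum_univ_eq_sum_range]

lemma dot_sum (n : ℕ) (u v : ZV) : dot n u v = ∑ i : Fin n, g1 u i * g1 v i := sumz_eq _ _

lemma dot_eq (n : ℕ) (u v : ZV) : dot n u v = vec n u ⬝ᵥ vec n v := sumz_eq _ _

lemma mulVec_eq {n m : ℕ} (M : ZM) (x : ZV) :
    vec n (tab n fun i => dot m (row M i) x) = mtx n m M *ᵥ vec m x := by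
  rw [vec_tab]
  funext i
  rw [dot_sum]
  rfl

/-! ### Affine maps -/

lemma vec_aff (n m : ℕ) (F : ZM) (f0 x : ZV) :
    vec n (aff n m F f0 x) = vec n f0 + mtx n m F *ᵥ vec m x := by
  funext i
  unfold aff
  rw [vec_apply, g1_tab_lt _ i.2, dot_sum, add_comm]
  rfl

lemma vec_pull (n m : ℕ) (F : ZM) (h : ZV) : vec m (pull n m F h) = vec n h ᵥ* mtx n m F := by
  funext j
  unfold pull
  rw [vec_apply, g1_tab_lt _ j.2, sumz_eq]
  rfl

/-! ### Shapes and sizes -/

/-- `M` has `n` rows of length `m`. -/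
structure Shp (n m : ℕ) (M : ZM) : Prop where
  len : M.length = n
  rl : ∀ r ∈ M, r.length = m

lemma shp_tabM (n m : ℕ) (f : ℕ → ℕ → ℤ) : Shp n m (tabM n m f) := by
  refine ⟨length_tab _ _, fun r hr => ?_⟩
  obtain ⟨i, _, rfl⟩ := mem_tab.1 hr
  exact length_tab _ _

lemma Shp.row_len {n m : ℕ} {M : ZM} (h : Shp n m M) {i : ℕ} (hi : i < n) :
    (row M i).length = m := by
  have hi' : i < M.length := by rw [h.len]; exact hi
  unfold row
  rw [List.getD_eq_getElem _ _ hi']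
  exact h.rl _ (List.getElem_mem hi')

/-- A matrix of the shape `n × m` is determined by its entries. -/
lemma Shp.ext {n m : ℕ} {A B : ZM} (hA : Shp n m A) (hB : Shp n m B)
    (h : mtx n m A = mtx n m B) : A = B := by
  refine List.ext_getElem (by rw [hA.len, hB.len]) fun i hi1 hi2 => ?_
  have hi : i < n := by rw [← hA.len]; exact hi1
  refine List.ext_getElem (by rw [hA.rl _ (List.getElem_mem hi1),
    hB.rl _ (List.getElem_mem hi2)]) fun j hj1 hj2 => ?_
  have hj : j < m := by rw [← hA.rl _ (List.getElem_mem hi1)]; exact hj1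
  have h1 := congrFun (congrFun h ⟨i, hi⟩) ⟨j, hj⟩
  simp only [mtx_apply, g2, row, g1] at h1
  rwa [List.getD_eq_getElem _ _ hi1, List.getD_eq_getElem _ _ hi2,
    List.getD_eq_getElem _ _ hj1, List.getD_eq_getElem _ _ hj2] at h1

/-- the size of a list -/
lemma sz_list {α : Type} [VEnc α] (l : List α) : sz l = (l.map fun a => sz a + 1).sum + 1 := by
  induction l with
  | nil => simp
  | cons a l ih => rw [sz_cons, ih, List.map_cons, List.sum_cons]; ring

lemma sz_list_le {α : Type} [VEnc α] (l : List α) (B : ℕ) (h : ∀ a ∈ l, sz a ≤ B) :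
    sz l ≤ l.length * (B + 1) + 1 := by
  induction l with
  | nil => simp
  | cons a l ih =>
    rw [sz_cons, List.length_cons]
    have h1 := ih fun b hb => h b (List.mem_cons_of_mem _ hb)
    have h2 := h a List.mem_cons_self
    rw [Nat.add_mul, one_mul]
    omega

lemma sz_int (z : ℤ) : sz z = sz (decide (z < 0)) + sz z.natAbs.bits + 1 := rfl

lemma length_bits_le {m b : ℕ} (h : m < 2 ^ b) : m.bits.length ≤ b := by
  rw [Nat.size_eq_bits_len]
  exact Nat.size_le.2 h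

lemma sz_int_le (z : ℤ) : sz z ≤ 4 * bl z + 5 := by
  rw [sz_int]
  have h1 := sz_bool_le (decide (z < 0))
  have h2 := sz_list_le z.natAbs.bits 3 fun b _ => sz_bool_le b
  unfold bl
  omega

lemma bl_le {z : ℤ} {b : ℕ} (h : |z| ≤ 2 ^ b) : bl z ≤ b + 1 := by
  refine length_bits_le ?_
  have h1 : (z.natAbs : ℤ) ≤ 2 ^ b := by rw [Int.natCast_natAbs]; exact h
  have h2 : z.natAbs ≤ 2 ^ b := by exact_mod_cast h1
  have h3 : 2 ^ b < 2 ^ (b + 1) := Nat.pow_lt_pow_right (by norm_num) (by omega)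
  omega

lemma abs_lt_bl (z : ℤ) : |z| < 2 ^ bl z := by
  unfold bl
  rw [Nat.size_eq_bits_len]
  have h1 := Nat.lt_size_self z.natAbs
  have h2 : ((z.natAbs : ℕ) : ℤ) < 2 ^ z.natAbs.size := by exact_mod_cast h1
  rwa [Int.natCast_natAbs] at h2

lemma sz_int_le' {z : ℤ} {b : ℕ} (h : |z| ≤ 2 ^ b) : sz z ≤ 4 * b + 9 := by
  have h1 := sz_int_le z
  have h2 := bl_le h
  omega

lemma sz_vec_le {n b : ℕ} {l : ZV} (hl : l.length = n) (h : ∀ i < n, |g1 l i| ≤ 2 ^ b) :
    sz l ≤ n * (4 * b + 10) + 1 := by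
  rw [← hl]
  refine sz_list_le l (4 * b + 9) fun a ha => ?_
  obtain ⟨i, hi, rfl⟩ := List.mem_iff_getElem.1 ha
  have h1 := h i (by rw [← hl]; exact hi)
  unfold g1 at h1
  rw [List.getD_eq_getElem _ _ hi] at h1
  exact sz_int_le' h1

lemma sz_mat_le {n m b : ℕ} {M : ZM} (hM : Shp n m M) (h : ∀ i < n, ∀ j < m, |g2 M i j| ≤ 2 ^ b) :
    sz M ≤ n * (m * (4 * b + 10) + 2) + 1 := by
  rw [← hM.len]
  refine sz_list_le M (m * (4 * b + 10) + 1) fun r hr => ?_
  obtain ⟨i, hi, rfl⟩ := List.mem_iff_getElem.1 hr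
  refine sz_vec_le (hM.rl _ hr) fun j hj => ?_
  have h1 := h i (by rw [← hM.len]; exact hi) j hj
  unfold g2 row at h1
  rwa [List.getD_eq_getElem _ _ hi] at h1

end Pool.Agent.MDF
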