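import Pool.Agent.MDF.LLLMain
import Pool.Agent.MDF.View
import Pool.Agent.MDF.Tw

/-!
# The specification of the lattice reduction, in terms of the views of lists
-/

set_option autoImplicit false

namespace Pool.Agent.MDF

open Pool.Agent.PF Matrix
open Pool.Agent.MonFPT (castQ IsRed)

lemma shp_mt {n : ℕ} (A : Matrix (Fin n) (Fin n) ℤ) : Shp n n (LR.mt A) := shp_tabM _ _ _

lemma mtx_mt {n : ℕ} (A : Matrix (Fin n) (Fin n) ℤ) : mtx n n (LR.mt A) = A := by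
  unfold LR.mt
  rw [mtx_tabM]
  funext i j
  rw [dif_pos i.2, LR.ex_lt _ j.2]

/-- The bound for the bit lengths in the lattice reduction. -/
def lllZ (n b : ℕ) : ℕ := LR.ZZ n (n + 2 * b)

/-- **Lattice reduction of a matrix.** -/
theorem lll_view {n b fu : ℕ} (hn : 1 ≤ n) {R : ZM} (hR : Shp n n R)
    (hb : ∀ i < n, ∀ j < n, |g2 R i j| ≤ 2 ^ b) (hdet : (mtx n n R).det ≠ 0)
    (hfu : LR.FB n b ≤ fu) :
    Shp n n (lll fu n R).1 ∧ Shp n n (lll fu n R).2.1 ∧ Shp n n (lll fu n R).2.2 ∧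
      mtx n n (lll fu n R).1 = mtx n n (lll fu n R).2.1 * mtx n n R ∧
      mtx n n (lll fu n R).2.1 * mtx n n (lll fu n R).2.2 = 1 ∧
      mtx n n (lll fu n R).2.2 * mtx n n (lll fu n R).2.1 = 1 ∧
      (∃ (mu : Matrix (Fin n) (Fin n) ℚ) (D : Fin n → ℚ),
        IsRed (castQ (mtx n n (lll fu n R).1) * (castQ (mtx n n (lll fu n R).1))ᵀ) mu D) ∧
      (∀ i < n, ∀ j < n, |g2 (lll fu n R).1 i j| < 2 ^ lllZ n b) ∧
      (∀ i < n, ∀ j < n, |g2 (lll fu n R).2.1 i j| < 2 ^ lllZ n b) ∧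
      ∀ i < n, ∀ j < n, |g2 (lll fu n R).2.2 i j| < 2 ^ lllZ n b := by
  have hRm : R = LR.mt (mtx n n R) := hR.ext (shp_mt _) (mtx_mt _).symm
  obtain ⟨U, W, h1, h2, h3, h4, h5, h6⟩ := LR.lll_spec hn (mtx n n R) hdet
    (fun i j => hb i i.2 j j.2) hfu
  rw [← hRm] at h1
  rw [h1]
  simp only
  have hg : ∀ (A : Matrix (Fin n) (Fin n) ℤ) (i j : ℕ) (hi : i < n) (hj : j < n),
      g2 (LR.mt A) i j = A ⟨i, hi⟩ ⟨j, hj⟩ := by
    intro A i j hi hj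
    have := congrFun (congrFun (mtx_mt A) ⟨i, hi⟩) ⟨j, hj⟩
    exact this
  refine ⟨shp_mt _, shp_mt _, shp_mt _, ?_, ?_, ?_, ?_, ?_, ?_, ?_⟩
  · rw [mtx_mt, mtx_mt]
  · rw [mtx_mt, mtx_mt]
    exact mul_eq_one_comm.1 h2
  · rw [mtx_mt, mtx_mt]
    exact h2
  · rw [mtx_mt]
    exact h3
  · intro i hi j hj
    rw [hg _ i j hi hj]
    exact h6 _ _
  · intro i hi j hj
    rw [hg _ i j hi hj]
    exact h4 _ _
  · intro i hi j hj
    rw [hg _ i j hi hj]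
    exact h5 _ _

/-! ### The growth of the bounds -/

/-- The factor. -/
def lllC (n : ℕ) : ℕ := (LR.SB n 1 * LR.ZZ n 1 + 3 * 2 ^ n) * (n + 2)

lemma EX_le (n : ℕ) {m : ℕ} (hm : 1 ≤ m) : LR.EX n m ≤ LR.EX n 1 * m := by
  obtain ⟨k, rfl⟩ := Nat.exists_eq_add_of_le' hm
  have h1 : LR.EX n 1 * (k + 1) = LR.EX n (k + 1) + (n * n + (3 + n) * n + n) * k := by
    unfold LR.EX
    ring
  omega

lemma ZZ_le (n : ℕ) {m : ℕ} (hm : 1 ≤ m) : LR.ZZ n m ≤ LR.ZZ n 1 * m := by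
  have h1 := EX_le n hm
  have h2 : LR.EX n m * (n + 1) ≤ LR.EX n 1 * m * (n + 1) := Nat.mul_le_mul_right _ h1
  have h3 : n * n ≤ n * n * m := Nat.le_mul_of_pos_right _ (by omega)
  have h4 : LR.ZZ n 1 * m = n * n * m + LR.EX n 1 * m * (n + 1) + m * 2 ^ n + m := by
    unfold LR.ZZ
    ring
  rw [h4]
  unfold LR.ZZ
  omega

lemma one_le_ZZ (n m : ℕ) : 1 ≤ LR.ZZ n m := by
  unfold LR.ZZ
  omega

lemma SB_le (n : ℕ) {Z : ℕ} (hZ : 1 ≤ Z) : LR.SB n Z ≤ LR.SB n 1 * Z := by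
  obtain ⟨k, rfl⟩ := Nat.exists_eq_add_of_le' hZ
  have h1 : LR.SB n 1 * (k + 1) =
      LR.SB n (k + 1) + (2 * (n * n) + 3 * (n * (n * 6 + 2) + 1) + 5) * k := by
    unfold LR.SB
    ring
  omega

lemma ZZ_le' (n b : ℕ) : LR.ZZ n (n + 2 * b) ≤ LR.ZZ n 1 * (n + 2) * (b + 1) := by
  rcases Nat.eq_zero_or_pos (n + 2 * b) with h0 | h0
  · have hn : n = 0 := by omega
    have hb : b = 0 := by omega
    subst hn hb
    unfold LR.ZZ LR.EX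
    norm_num
  · refine (ZZ_le n h0).trans ?_
    rw [mul_assoc]
    apply Nat.mul_le_mul_left
    nlinarith

theorem lllZ_le (n b : ℕ) : lllZ n b ≤ lllC n * (b + 1) := by
  refine (ZZ_le' n b).trans ?_
  apply Nat.mul_le_mul_right
  unfold lllC
  apply Nat.mul_le_mul_right
  have h1 : 1 ≤ LR.SB n 1 := by
    unfold LR.SB
    omega
  calc LR.ZZ n 1 ≤ LR.SB n 1 * LR.ZZ n 1 := Nat.le_mul_of_pos_left _ h1
    _ ≤ _ := Nat.le_add_right _ _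

theorem FB_le (n b : ℕ) : LR.FB n b ≤ lllC n * (b + 1) := by
  unfold LR.FB
  have h1 := SB_le n (one_le_ZZ n (n + 2 * b))
  have h2 := Nat.mul_le_mul_left (LR.SB n 1) (ZZ_le' n b)
  have h3 : 3 * (2 ^ n * (n + 2 * b)) ≤ 3 * 2 ^ n * (n + 2) * (b + 1) := by
    have h4 : n + 2 * b ≤ (n + 2) * (b + 1) := by nlinarith
    calc 3 * (2 ^ n * (n + 2 * b)) ≤ 3 * (2 ^ n * ((n + 2) * (b + 1))) :=
          Nat.mul_le_mul_left _ (Nat.mul_le_mul_left _ h4)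
      _ = _ := by ring
  have h5 : lllC n * (b + 1) = LR.SB n 1 * (LR.ZZ n 1 * (n + 2) * (b + 1)) +
      3 * 2 ^ n * (n + 2) * (b + 1) := by
    unfold lllC
    ring
  omega

theorem eb_lllC : EB lllC := by
  unfold lllC LR.SB LR.ZZ LR.EX
  fun_prop

/-- **Lattice reduction.** -/
theorem lll_final : ∃ F : ℕ → ℕ, EB F ∧ Monotone F ∧ ∀ (n b fu : ℕ) (R : ZM), 1 ≤ n →
    Shp n n R → (∀ i < n, ∀ j < n, |g2 R i j| ≤ 2 ^ b) → (mtx n n R).det ≠ 0 →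
    F n * (b + 1) ≤ fu →
    Shp n n (lll fu n R).1 ∧ Shp n n (lll fu n R).2.1 ∧ Shp n n (lll fu n R).2.2 ∧
      mtx n n (lll fu n R).1 = mtx n n (lll fu n R).2.1 * mtx n n R ∧
      mtx n n (lll fu n R).2.1 * mtx n n (lll fu n R).2.2 = 1 ∧
      mtx n n (lll fu n R).2.2 * mtx n n (lll fu n R).2.1 = 1 ∧
      (∃ (mu : Matrix (Fin n) (Fin n) ℚ) (D : Fin n → ℚ),
        IsRed (castQ (mtx n n (lll fu n R).1) * (castQ (mtx n n (lll fu n R).1))ᵀ) mu D) ∧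
      (∀ i < n, ∀ j < n, |g2 (lll fu n R).1 i j| ≤ 2 ^ (F n * (b + 1))) ∧
      (∀ i < n, ∀ j < n, |g2 (lll fu n R).2.1 i j| ≤ 2 ^ (F n * (b + 1))) ∧
      ∀ i < n, ∀ j < n, |g2 (lll fu n R).2.2 i j| ≤ 2 ^ (F n * (b + 1)) := by
  obtain ⟨F, h1, h2, h3, -⟩ := eb_lllC.exists_mono
  refine ⟨F, h1, h2, fun n b fu R hn hR hb hdet hfu => ?_⟩
  have h4 : lllC n * (b + 1) ≤ F n * (b + 1) := Nat.mul_le_mul_right _ (h3 n)
  obtain ⟨a1, a2, a3, a4, a5, a6, a7, a8, a9, a10⟩ := lll_view hn hR hb hdet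
    (((FB_le n b).trans h4).trans hfu)
  have h5 : (2 : ℤ) ^ lllZ n b ≤ 2 ^ (F n * (b + 1)) :=
    pow_le_pow_right₀ (by norm_num) ((lllZ_le n b).trans h4)
  exact ⟨a1, a2, a3, a4, a5, a6, a7, fun i hi j hj => (a8 i hi j hj).le.trans h5,
    fun i hi j hj => (a9 i hi j hj).le.trans h5, fun i hi j hj => (a10 i hi j hj).le.trans h5⟩

end Pool.Agent.MDF
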