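import Pool.Agent.MDF.View
import Pool.Agent.MDF.Tw
import Pool.Agent.MonFPT.Oracles

/-!
# Specifications: definitions
-/

set_option autoImplicit false

namespace Pool.Agent.MDF

open Pool.Agent.PF Pool.Agent.MonFPT Matrix

/-- A vector of length `n` with entries of absolute value at most `2 ^ s`. -/
structure VB (n s : ℕ) (v : ZV) : Prop where
  len : v.length = n
  le : ∀ i < n, |g1 v i| ≤ 2 ^ s

/-- An `n × m` matrix with entries of absolute value at most `2 ^ s`. -/
structure MB (n m s : ℕ) (M : ZM) : Prop where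
  shp : Shp n m M
  le : ∀ i < n, ∀ j < m, |g2 M i j| ≤ 2 ^ s

/-- `K` is contained in the box of radius `2 ^ r`. -/
def InBox {n : ℕ} (r : ℕ) (K : Set (Fin n → ℚ)) : Prop := ∀ y ∈ K, ∀ i, |y i| ≤ 2 ^ r

/-- The oracle is correct for `K` at the points with entries of absolute value at most `2 ^ X`. -/
def OrcOK {n : ℕ} (X : ℕ) (K : Set (Fin n → ℚ)) (orc : Orc) : Prop :=
  ∀ x, VB n X x → ∀ h, orc x = some h → Cut K (vec n h) (vec n x)

/-- Unimodular matrices, inverse to each other, with entries of absolute value at most `2 ^ s`. -/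
structure UW (n s : ℕ) (U W : ZM) : Prop where
  mU : MB n n s U
  mW : MB n n s W
  UW : mtx n n U * mtx n n W = 1
  WU : mtx n n W * mtx n n U = 1

/-- The point `o.2.1` is accepted. -/
structure ResPt (n X : ℕ) (orc : Orc) (o : Res) : Prop where
  st : o.1 = 1
  vb : VB n X o.2.1
  acc : orc o.2.1 = none

/-- `K` is flat in the direction of the first row of `U`. -/
structure ResFl (n G X : ℕ) (K : Set (Fin n → ℚ)) (o : Res) : Prop where
  st : o.1 = 2
  pos : 0 < n
  uw : UW n X o.2.2.1 o.2.2.2.1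
  vle : |o.2.2.2.2| ≤ 2 ^ X
  flat : ∀ y ∈ K, |dotQ (vec n (row o.2.2.1 0)) y - o.2.2.2.2| ≤ G + 1

/-- `K` is empty. -/
structure ResEm (n : ℕ) (K : Set (Fin n → ℚ)) (o : Res) : Prop where
  st : o.1 = 3
  emp : K = ∅

/-- The result `o` of the basic search is correct. -/
def FlatRes {n : ℕ} (G X : ℕ) (K : Set (Fin n → ℚ)) (orc : Orc) (o : Res) : Prop :=
  ResPt n X orc o ∨ ResFl n G X K o ∨ ResEm n K o

/-- The integral point `z` satisfies the inequalities. -/
def InRows (n : ℕ) (rows : Rows) (z : Fin n → ℤ) : Prop := ∀ p ∈ rows, vec n p.1 ⬝ᵥ z ≤ p.2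

/-- The columns of a family. -/
def CP.cols (D : ℕ) (p : CP) : Set (Fin D → ℤ) :=
  {c | ∃ z : Fin p.1 → ℤ, InRows p.1 p.2.2.1 z ∧
    c = vec D p.2.2.2.2 + mtx D p.1 p.2.2.2.1 *ᵥ z}

/-- The integral points of the family are in the box. -/
structure CP.OK (E : ℕ) (p : CP) : Prop where
  dim : p.1 ≤ E
  box : ∀ z : Fin p.1 → ℤ, InRows p.1 p.2.2.1 z → ∀ i, |z i| ≤ 2 ^ p.2.1

/-- All the columns. -/
def colsOf (D : ℕ) (ps : List CP) : Set (Fin D → ℤ) := {c | ∃ p ∈ ps, c ∈ p.cols D}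

/-! ### Elementary facts -/

theorem VB.mono {n s s' : ℕ} {v : ZV} (h : VB n s v) (hs : s ≤ s') : VB n s' v :=
  ⟨h.len, fun i hi => (h.le i hi).trans (pow_le_pow_right₀ (by norm_num) hs)⟩

theorem MB.mono {n m s s' : ℕ} {M : ZM} (h : MB n m s M) (hs : s ≤ s') : MB n m s' M :=
  ⟨h.shp, fun i hi j hj => (h.le i hi j hj).trans (pow_le_pow_right₀ (by norm_num) hs)⟩

theorem OrcOK.mono {n X X' : ℕ} {K : Set (Fin n → ℚ)} {orc : Orc} (h : OrcOK X' K orc)
    (hX : X ≤ X') : OrcOK X K orc := fun x hx => h x (hx.mono hX)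

theorem VB.tab {n s : ℕ} {f : ℕ → ℤ} (h : ∀ i < n, |f i| ≤ 2 ^ s) : VB n s (tab n f) :=
  ⟨length_tab _ _, fun i hi => by rw [g1_tab_lt f hi]; exact h i hi⟩

theorem MB.tabM {n m s : ℕ} {f : ℕ → ℕ → ℤ} (h : ∀ i < n, ∀ j < m, |f i j| ≤ 2 ^ s) :
    MB n m s (tabM n m f) :=
  ⟨shp_tabM _ _ _, fun i hi j hj => by rw [g2_tabM_lt f hi hj]; exact h i hi j hj⟩

theorem VB.sz_le {n s : ℕ} {v : ZV} (h : VB n s v) : sz v ≤ n * (4 * s + 10) + 1 :=
  sz_vec_le h.len h.le

theorem MB.sz_le {n m s : ℕ} {M : ZM} (h : MB n m s M) :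
    sz M ≤ n * (m * (4 * s + 10) + 2) + 1 := sz_mat_le h.shp h.le

theorem blV_le {n s : ℕ} {v : ZV} (h : VB n s v) : blV v ≤ n * (s + 1) := by
  unfold blV
  have h1 : ∀ x ∈ v, bl x ≤ s + 1 := by
    intro x hx
    obtain ⟨i, hi, rfl⟩ := List.mem_iff_getElem.1 hx
    have h2 := h.le i (by rw [← h.len]; exact hi)
    unfold g1 at h2
    rw [List.getD_eq_getElem _ _ hi] at h2
    exact bl_le h2
  calc (v.map bl).sum ≤ (v.map bl).length • (s + 1) :=
        List.sum_le_card_nsmul _ _ fun x hx => by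
          rw [List.mem_map] at hx
          obtain ⟨y, hy, rfl⟩ := hx
          exact h1 y hy
    _ = n * (s + 1) := by rw [List.length_map, h.len, smul_eq_mul]

theorem blM_le {n m s : ℕ} {M : ZM} (h : MB n m s M) : blM M ≤ n * (m * (s + 1)) := by
  unfold blM
  have h1 : ∀ x ∈ M, blV x ≤ m * (s + 1) := by
    intro x hx
    obtain ⟨i, hi, rfl⟩ := List.mem_iff_getElem.1 hx
    refine blV_le ⟨h.shp.rl _ hx, fun j hj => ?_⟩
    have h2 := h.le i (by rw [← h.shp.len]; exact hi) j hj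
    unfold g2 row at h2
    rwa [List.getD_eq_getElem _ _ hi] at h2
  calc (M.map blV).sum ≤ (M.map blV).length • (m * (s + 1)) :=
        List.sum_le_card_nsmul _ _ fun x hx => by
          rw [List.mem_map] at hx
          obtain ⟨y, hy, rfl⟩ := hx
          exact h1 y hy
    _ = n * (m * (s + 1)) := by rw [List.length_map, h.shp.len, smul_eq_mul]

/-- The entries of a vector are bounded by its total bit length. -/
theorem abs_g1_le (v : ZV) (i : ℕ) : |g1 v i| ≤ 2 ^ blV v := by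
  unfold g1
  by_cases hi : i < v.length
  · rw [List.getD_eq_getElem _ _ hi]
    refine (abs_lt_bl _).le.trans (pow_le_pow_right₀ (by norm_num) ?_)
    unfold blV
    exact List.single_le_sum (fun x _ => Nat.zero_le x) _ (List.mem_map_of_mem (List.getElem_mem hi))
  · rw [List.getD_eq_default _ _ (by omega)]
    simp

/-- The entries of a matrix are bounded by its total bit length. -/
theorem abs_g2_le (M : ZM) (i j : ℕ) : |g2 M i j| ≤ 2 ^ blM M := by
  unfold g2 row
  by_cases hi : i < M.length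
  · rw [List.getD_eq_getElem _ _ hi]
    refine (abs_g1_le _ _).trans (pow_le_pow_right₀ (by norm_num) ?_)
    unfold blM
    exact List.single_le_sum (fun x _ => Nat.zero_le x) _ (List.mem_map_of_mem (List.getElem_mem hi))
  · rw [List.getD_eq_default _ _ (by omega)]
    simp [g1]

theorem abs_vec_le (n : ℕ) (v : ZV) (i : Fin n) : |vec n v i| ≤ 2 ^ blV v := abs_g1_le v i

end Pool.Agent.MDF
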