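import Pool.Agent.MDF.FlatSpec
import Pool.Agent.MDF.LLLView
import Pool.Agent.MDF.SpecDefs

/-!
# The basic search: unconditional specification
-/

set_option autoImplicit false

namespace Pool.Agent.MDF

open Pool.Agent.PF Pool.Agent.MonFPT Matrix

theorem lllSpec_lllC : LLLSpec lllC := by
  intro n b fu R hn hR hb hdet hfu
  obtain ⟨h1, h2, h3, h4, h5, h6, h7, _, h9, h10⟩ :=
    lll_view hn hR hb hdet ((FB_le n b).trans hfu)
  have hp : (2 : ℤ) ^ lllZ n b ≤ 2 ^ (lllC n * (b + 1)) :=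
    pow_le_pow_right₀ (by norm_num) (lllZ_le n b)
  exact ⟨h1, h2, h3, h4, h5, h6, h7, fun i hi j hj => (h9 i hi j hj).le.trans hp,
    fun i hi j hj => (h10 i hi j hj).le.trans hp⟩

theorem eb_flatF : EB (flatF lllC) := by
  have h := eb_lllC
  unfold flatF phiF betaF tF
  fun_prop

/-- **The basic search.** -/
theorem flat_spec : ∃ F : ℕ → ℕ, EB F ∧ Monotone F ∧
    ∀ (fu n G r : ℕ) (orc : Orc) (K : Set (Fin n → ℚ)), flatG n ≤ G → F n * (r + 1) ≤ fu →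
      InBox r K → OrcOK (F n * (r + 1)) K orc →
      FlatRes G (F n * (r + 1)) K orc (flat fu n G r orc) := by
  obtain ⟨F, hF1, hF2, hF3, _⟩ := eb_flatF.exists_mono
  refine ⟨F, hF1, hF2, fun fu n G r orc K hG hfu hK horc => ?_⟩
  have hle : flatF lllC n * (r + 1) ≤ F n * (r + 1) := Nat.mul_le_mul_right _ (hF3 n)
  have h := flatSpec_of_lllSpec lllSpec_lllC n r fu G orc K (hle.trans hfu) (by exact_mod_cast hG)
    hK (fun x hx hxb h hh y hy => horc x ⟨hx, fun i hi => (hxb i hi).trans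
      (pow_le_pow_right₀ (by norm_num) hle)⟩ h hh y hy)
  rcases h.mono hle with ⟨h1, h2, h3, h4⟩ | ⟨h1, h2, h3, h4, ⟨h5, h6⟩, h7, h8, h9, h10⟩ |
    ⟨h1, h2⟩
  · exact Or.inl ⟨h1, ⟨h3, h4⟩, h2⟩
  · refine Or.inr (Or.inl ⟨h2, h1, ⟨⟨h3, h7⟩, ⟨h4, h8⟩, h5, h6⟩, h9, fun y hy => ?_⟩)
    have := h10 y hy
    push_cast at this
    exact this
  · exact Or.inr (Or.inr ⟨h1, h2⟩)

end Pool.Agent.MDF
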