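import Pool.Agent.MDF.FlatStepProof

/-!
# The basic search is correct
-/

set_option autoImplicit false

namespace Pool.Agent.MDF

open Pool.Agent.PF Pool.Agent.MonFPT Matrix

/-- bound for the steps -/
def tF (n : ℕ) : ℕ := 128 * n ^ 4 * (n * (n + 1) + 1) + 1

/-- bound for the vertices -/
def betaF (n : ℕ) : ℕ := tF n * (11 + 5 * n) + (n + 1)

/-- bound for the results -/
def phiF (f : ℕ → ℕ) (n : ℕ) : ℕ := f n * (betaF n + 2) + betaF n + n

/-- The bound for `flat`. -/
def flatF (f : ℕ → ℕ) (n : ℕ) : ℕ :=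
  (4 * phiF f n + 10) * (3 * n * n + 2 * n + 2) + (6 * n + 21) + tF n + phiF f n +
    f n * (betaF n + 2)

lemma TT_le (n r : ℕ) : TT n r + 1 ≤ tF n * (r + 1) := by
  unfold TT tF
  set a := 128 * n ^ 4 with ha
  have h1 : a * (n * ((n + 1) * (r + 1)) + 1) + 1 + (a * r + r) =
      (a * (n * (n + 1) + 1) + 1) * (r + 1) := by ring
  omega

lemma bb_le (n r : ℕ) : bb n r ≤ betaF n * (r + 1) := by
  unfold bb betaF
  calc (TT n r + 1) * (11 + 5 * n) + (n + 1) * (r + 1)
      ≤ tF n * (r + 1) * (11 + 5 * n) + (n + 1) * (r + 1) :=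
        Nat.add_le_add_right (Nat.mul_le_mul_right _ (TT_le n r)) _
    _ = (tF n * (11 + 5 * n) + (n + 1)) * (r + 1) := by ring

lemma bb2_le (f : ℕ → ℕ) (n r : ℕ) : f n * (bb n r + 2) ≤ f n * (betaF n + 2) * (r + 1) := by
  rw [Nat.mul_assoc]
  refine Nat.mul_le_mul_left _ ?_
  have := bb_le n r
  calc bb n r + 2 ≤ betaF n * (r + 1) + 2 * (r + 1) := by omega
    _ = (betaF n + 2) * (r + 1) := by ring

lemma bF_le (f : ℕ → ℕ) (n r : ℕ) : bF f n r ≤ phiF f n * (r + 1) := by
  unfold bF phiF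
  have h1 := bb2_le f n r
  have h2 := bb_le n r
  have h3 : n ≤ n * (r + 1) := Nat.le_mul_of_pos_right _ (by omega)
  calc f n * (bb n r + 2) + bb n r + n
      ≤ f n * (betaF n + 2) * (r + 1) + betaF n * (r + 1) + n * (r + 1) := by omega
    _ = (f n * (betaF n + 2) + betaF n + n) * (r + 1) := by ring

lemma size_le (f : ℕ → ℕ) (n r : ℕ) :
    (4 * bF f n r + 10) * (3 * n * n + 2 * n + 2) + (6 * n + 21) ≤
      ((4 * phiF f n + 10) * (3 * n * n + 2 * n + 2) + (6 * n + 21)) * (r + 1) := by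
  have h1 := bF_le f n r
  have h2 : 4 * bF f n r + 10 ≤ (4 * phiF f n + 10) * (r + 1) := by
    calc 4 * bF f n r + 10 ≤ 4 * (phiF f n * (r + 1)) + 10 * (r + 1) := by omega
      _ = (4 * phiF f n + 10) * (r + 1) := by ring
  have h3 : 6 * n + 21 ≤ (6 * n + 21) * (r + 1) := Nat.le_mul_of_pos_right _ (by omega)
  calc (4 * bF f n r + 10) * (3 * n * n + 2 * n + 2) + (6 * n + 21)
      ≤ (4 * phiF f n + 10) * (r + 1) * (3 * n * n + 2 * n + 2) + (6 * n + 21) * (r + 1) :=
        Nat.add_le_add (Nat.mul_le_mul_right _ h2) h3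
    _ = _ := by ring

section

variable {n r : ℕ} {K : Set (Fin n → ℚ)} {f : ℕ → ℕ} {G : ℤ} {orc : Orc} {p : ℤ × ZM × Res}

lemma sz_state {n b : ℕ} {q : ℤ} {V : ZM} (hq : |q| ≤ 2 ^ b) (hs : Shp (n + 1) n V)
    (hV : ∀ i < n + 1, ∀ j < n, |g2 V i j| ≤ 2 ^ b) (c : ℕ) (hb : b ≤ c) (res : Res)
    (hres : sz res ≤ 9 + (n * (4 * c + 10) + 1) + 2 * (n * (n * (4 * c + 10) + 2) + 1) +
      (4 * c + 9) + 4) :
    sz (q, V, res) ≤ (4 * c + 10) * (3 * n * n + 2 * n + 2) + (6 * n + 21) := by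
  rw [sz_prod, sz_prod]
  have h1 := sz_int_le' hq
  have h2 := sz_mat_le hs hV
  have h3 : (n + 1) * (n * (4 * b + 10) + 2) ≤ (n + 1) * (n * (4 * c + 10) + 2) := by
    refine Nat.mul_le_mul_left _ (Nat.add_le_add_right (Nat.mul_le_mul_left _ ?_) _)
    omega
  have h4 : (4 * c + 10) * (3 * n * n + 2 * n + 2) + (6 * n + 21) =
      (4 * c + 9) + ((n + 1) * (n * (4 * c + 10) + 2) + 1) +
        (9 + (n * (4 * c + 10) + 1) + 2 * (n * (n * (4 * c + 10) + 2) + 1) +
      (4 * c + 9) + 4) + 2 + 2 := by ring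
  omega

lemma FDone.sz_le (h : FDone f n r G orc K p) :
    sz p ≤ (4 * bF f n r + 10) * (3 * n * n + 2 * n + 2) + (6 * n + 21) := by
  obtain ⟨q, V, res⟩ := p
  exact sz_state h.q h.shp h.V _ (by unfold bF; omega) res h.szr

lemma FI.sz_le {t : ℕ} (hn : 1 ≤ n) (h : FI n r t K p) (ht : t ≤ TT n r + 1) :
    sz p ≤ (4 * bF f n r + 10) * (3 * n * n + 2 * n + 2) + (6 * n + 21) := by
  obtain ⟨q, V, res⟩ := p
  have hres : res = (0, [], [], [], 0) := h.res
  subst hres
  refine sz_state (h.q_le hn ht) h.shp (h.V_le ht) _ (by unfold bF; omega) _ ?_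
  simp only [sz_prod, sz_nat, sz_nil]
  have h2 : sz (0 : ℤ) ≤ 9 := by
    have := sz_int_le (0 : ℤ)
    have h3 : bl 0 = 0 := by simp [bl]
    omega
  omega

lemma FDone.step (h : FDone f n r G orc K p) (fu : ℕ) : flatStep fu n G orc p = p := by
  unfold flatStep
  exact if_neg h.ne

/-- The first state. -/
lemma FI.start (hn : 1 ≤ n) (hK : ∀ y ∈ K, ∀ i, |y i| ≤ 2 ^ r) :
    FI n r 0 K (1, simp0 n r, 0, [], [], [], 0) := by
  have hV : V2 n (simp0 n r) = initV n (2 ^ r) := by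
    funext i l
    unfold V2 simp0 initV
    rw [g2_tabM_lt _ i.2 l.2]
    unfold pow2
    by_cases h : (i : ℕ) = l + 1
    · have h' : i = l.succ := Fin.ext (by simpa using h)
      rw [if_pos h, if_pos h', pow_succ]; ring
    · have h' : i ≠ l.succ := fun h2 => h (by rw [h2]; simp)
      rw [if_neg h, if_neg h', add_zero]
  have hR : (0 : ℤ) < 2 ^ r := by positivity
  refine ⟨rfl, ?_, ?_, ?_, ?_⟩
  · change FlatInv n (2 ^ r) 0 1 (V2 n (simp0 n r))
    rw [hV]
    exact FlatInv.init hn _ hR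
  · exact shp_tabM _ _ _
  · intro y hy
    change InSimplex 1 (V2 n (simp0 n r)) y
    rw [hV]
    refine init_contains hn _ hR y fun j => ?_
    push_cast
    exact hK y hy j
  · change (edges (V2 n (simp0 n r))).det ≠ 0
    rw [hV]
    have h1 := det_homog 1 (initV n (2 ^ r))
    rw [init_det, one_mul] at h1
    rw [← h1]
    have : (0 : ℤ) < n := by exact_mod_cast hn
    positivity

lemma iterate_state (hf : LLLSpec f) (hn : 1 ≤ n) {fu : ℕ} (hG : (flatG n : ℤ) ≤ G)
    (hfu : f n * (bb n r + 2) ≤ fu) (hcuts : CutsOK n (bb n r) orc K)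
    (hstart : FI n r 0 K p) (i : ℕ) :
    (i ≤ flatSteps n (2 ^ r) ∧ FI n r i K ((flatStep fu n G orc)^[i] p)) ∨
      FDone f n r G orc K ((flatStep fu n G orc)^[i] p) := by
  induction i with
  | zero => exact Or.inl ⟨Nat.zero_le _, hstart⟩
  | succ i ih =>
    rw [Function.iterate_succ_apply']
    rcases ih with ⟨h1, h2⟩ | h
    · rcases flatStep_spec hf hn hG (h1.trans (flatSteps_le n r)) hfu hcuts h2 with ⟨h3, h4⟩ | h3
      · exact Or.inl ⟨h3, h4⟩
      · exact Or.inr h3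
    · right
      rw [h.step]
      exact h

lemma FlatOK.mono {b c : ℕ} (hbc : b ≤ c) {o : Res} (h : FlatOK n b G orc K o) :
    FlatOK n c G orc K o := by
  have hp : (2 : ℤ) ^ b ≤ 2 ^ c := pow_le_pow_right₀ (by norm_num) hbc
  rcases h with ⟨h1, h2, h3, h4⟩ | ⟨h1, h2, h3, h4, h5, h6, h7, h8, h9⟩ | h
  · exact Or.inl ⟨h1, h2, h3, fun i hi => (h4 i hi).trans hp⟩
  · exact Or.inr (Or.inl ⟨h1, h2, h3, h4, h5, fun i hi j hj => (h6 i hi j hj).trans hp,
      fun i hi j hj => (h7 i hi j hj).trans hp, h8.trans hp, h9⟩)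
  · exact Or.inr (Or.inr h)

end

/-- **The basic search is correct.** -/
theorem flatSpec_of_lllSpec {f : ℕ → ℕ} (hf : LLLSpec f) : FlatSpec (flatF f) := by
  intro n r fu G orc K hfu hG hK hcuts
  unfold flat
  rcases Nat.eq_zero_or_pos n with hn | hn
  · subst hn
    rw [if_pos rfl]
    cases horc : orc [] with
    | none =>
      exact Or.inl ⟨rfl, horc, rfl, fun i hi => absurd hi (by omega)⟩
    | some h =>
      refine Or.inr (Or.inr ⟨rfl, ?_⟩)
      rw [Set.eq_empty_iff_forall_notMem]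
      intro y hy
      have h1 := hcuts [] rfl (fun i hi => absurd hi (by omega)) h horc y hy
      simp [dotQ] at h1
  · rw [if_neg (by omega)]
    have e1 : bb n r ≤ flatF f n * (r + 1) := by
      refine (bb_le n r).trans (Nat.mul_le_mul_right _ ?_)
      unfold flatF phiF
      omega
    have e2 : f n * (bb n r + 2) ≤ fu := by
      refine (bb2_le f n r).trans (le_trans (Nat.mul_le_mul_right _ ?_) hfu)
      unfold flatF
      omega
    have e3 : (4 * bF f n r + 10) * (3 * n * n + 2 * n + 2) + (6 * n + 21) ≤ fu := by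
      refine (size_le f n r).trans (le_trans (Nat.mul_le_mul_right _ ?_) hfu)
      unfold flatF
      omega
    have e4 : TT n r + 2 ≤ fu := by
      have h1 : TT n r + 1 + 1 ≤ (tF n + 1) * (r + 1) := by
        have := TT_le n r
        calc TT n r + 1 + 1 ≤ tF n * (r + 1) + 1 * (r + 1) := by omega
          _ = (tF n + 1) * (r + 1) := by ring
      refine le_trans h1 (le_trans (Nat.mul_le_mul_right _ ?_) hfu)
      unfold flatF
      omega
    have e5 : bF f n r ≤ flatF f n * (r + 1) := by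
      refine (bF_le f n r).trans (Nat.mul_le_mul_right _ ?_)
      unfold flatF
      omega
    have hcuts' : CutsOK n (bb n r) orc K := fun x hx hxb h hh y hy =>
      hcuts x hx (fun i hi => (hxb i hi).trans (pow_le_pow_right₀ (by norm_num) e1)) h hh y hy
    have hit := iterate_state (p := (1, simp0 n r, 0, [], [], [], 0)) hf hn hG e2 hcuts'
      (FI.start hn hK)
    have hT := flatSteps_le n r
    rw [bIter_eq]
    · have h1 := hit fu
      rcases h1 with ⟨h2, _⟩ | h2
      · omega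
      · exact h2.ok.mono e5
    · intro i _
      rcases hit (i + 1) with ⟨h2, h3⟩ | h3
      · exact (h3.sz_le (f := f) hn (by omega)).trans e3
      · exact h3.sz_le.trans e3

end Pool.Agent.MDF
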