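import Pool.Agent.MDF.FlatStepSpec

/-!
# One step of the basic search: proof
-/

set_option autoImplicit false

namespace Pool.Agent.MDF

open Pool.Agent.PF Pool.Agent.MonFPT Matrix

variable {n : ℕ}

lemma mtx_edges (V : ZM) :
    mtx n n (tabM n n fun l i => g2 V (i + 1) l - g2 V 0 l) = edges (V2 n V) := by
  rw [mtx_tabM]
  rfl

lemma dot_row_V (h : ZV) (V : ZM) (i : Fin (n + 1)) :
    dot n h (row V i) = ∑ j, vec n h j * V2 n V i j := by
  rw [dot_sum]; rfl

lemma dot_row_V' (h : ZV) (V : ZM) {i : ℕ} (hi : i < n + 1) :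
    dot n h (row V i) = ∑ j, vec n h j * V2 n V ⟨i, hi⟩ j := dot_row_V h V ⟨i, hi⟩

/-- the values of the cut -/
lemma gval_eq (q : ℤ) (V : ZM) (h x : ZV) {i : ℕ} (hi : i < n + 1) :
    dot n h (row V i) - q * dot n h x = gval q (V2 n V) (vec n h) (vec n x) ⟨i, hi⟩ := by
  unfold gval
  rw [dot_row_V' h V hi, dot_sum]
  rfl

lemma findN_some {m : ℕ} {P : ℕ → Bool} {k : ℕ} (h : findN m P = some k) : k < m ∧ P k = true := by
  unfold findN at h
  have h1 := List.find?_some h
  have h2 := List.mem_of_find?_eq_some h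
  exact ⟨List.mem_range.1 h2, h1⟩

lemma findN_isSome {m : ℕ} {P : ℕ → Bool} {k : ℕ} (hk : k < m) (h : P k = true) :
    ∃ k', findN m P = some k' := by
  unfold findN
  have h1 : ((List.range m).find? P).isSome = true := by
    rw [List.find?_isSome]
    exact ⟨k, List.mem_range.2 hk, h⟩
  exact Option.isSome_iff_exists.1 h1

lemma findN_none {m : ℕ} {P : ℕ → Bool} (h : findN m P = none) (k : ℕ) (hk : k < m) :
    P k = false := by
  unfold findN at h
  rw [List.find?_eq_none] at h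
  have := h k (List.mem_range.2 hk)
  simpa using this

/-- The index used by `cutV`. -/
lemma exists_min_index (g : ℕ → ℤ) :
    ∃ k, ((findN (n + 1) fun i => (tab (n + 1) fun j => decide (g i ≤ g j)).all id)).getD 0 = k ∧
      k < n + 1 ∧ ∀ j < n + 1, g k ≤ g j := by
  obtain ⟨k0, hk0, hmin⟩ := Finset.exists_min_image (Finset.range (n + 1)) g
    ⟨0, Finset.mem_range.2 (by omega)⟩
  have h1 : ((tab (n + 1) fun j => decide (g k0 ≤ g j)).all id) = true := by
    rw [tab_all]
    intro j hj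
    exact decide_eq_true (hmin j (Finset.mem_range.2 hj))
  obtain ⟨k, hk⟩ := findN_isSome (P := fun i => (tab (n + 1) fun j => decide (g i ≤ g j)).all id)
    (Finset.mem_range.1 hk0) h1
  obtain ⟨hk1, hk2⟩ := findN_some hk
  refine ⟨k, by rw [hk]; rfl, hk1, fun j hj => ?_⟩
  have h2 := (tab_all _ _).1 hk2 j hj
  exact of_decide_eq_true h2

lemma R0c_eq (n : ℕ) : R0c n = 256 * (n : ℤ) ^ 5 := by
  unfold R0c; ring

/-- `cutV` is `updV`. -/
lemma cutV_spec (V : ZM) (g : ZV) :
    ∃ k : Fin (n + 1), (∀ j : Fin (n + 1), g1 g k ≤ g1 g j) ∧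
      Shp (n + 1) n (cutV n V g) ∧
      V2 n (cutV n V g) = updV (256 * (n : ℤ) ^ 5) (fun i : Fin (n + 1) =>
        cdiv (256 * (n : ℤ) ^ 5 * (16 * (n : ℤ) ^ 4 * -g1 g k))
          (16 * (n : ℤ) ^ 4 * -g1 g k + g1 g i)) k (V2 n V) := by
  obtain ⟨k, hk, hk1, hk2⟩ := exists_min_index (n := n) (g1 g)
  refine ⟨⟨k, hk1⟩, fun j => hk2 j j.2, ?_, ?_⟩
  · unfold cutV
    exact shp_tabM _ _ _
  · funext i l
    unfold V2 cutV updV
    simp only [hk]
    rw [g2_tabM_lt _ i.2 l.2]
    have h16 : (16 * (n * n * n * n : ℤ)) = 16 * (n : ℤ) ^ 4 := by ring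
    rw [h16, R0c_eq]
    by_cases hik : (i : ℕ) = k
    · rw [if_pos hik]
      subst hik
      simp
    · rw [if_neg hik]

variable {r t : ℕ} {K : Set (Fin n → ℚ)}

/-- The update of the simplex. -/
lemma FI.cut (hn : 1 ≤ n) {q : ℤ} {V : ZM} (hFI : FI n r t K (q, V, 0, [], [], [], 0))
    (h x : ZV) (g : ZV) (hg : ∀ i < n + 1, g1 g i = dot n h (row V i) - q * dot n h x)
    (hneg : ∃ i < n + 1, g1 g i < 0) (mu : Fin (n + 1) → ℚ) (hmu1 : ∑ i, mu i = 1)
    (hmux : ∀ j, ∑ i, mu i * V2 n V i j = q * vec n x j)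
    (hmu : ∀ i, |(n + 1) * mu i - 1| ≤ 1 / (12 * (n : ℚ) ^ 2))
    (hcut : ∀ y ∈ K, dotQ (vec n h) y < dotQ (vec n h) fun i => (g1 x i : ℚ)) :
    FI n r (t + 1) K (R0c n * q, cutV n V g, 0, [], [], [], 0) := by
  have hn1 : (1 : ℤ) ≤ n := by exact_mod_cast hn
  have hq : 0 < q := hFI.q_pos hn
  obtain ⟨k, hk, hshp, hV⟩ := cutV_spec (n := n) V g
  have hgv : ∀ i : Fin (n + 1), g1 g i = gval q (V2 n V) (vec n h) (vec n x) i := by
    intro i
    rw [hg i i.2, gval_eq q V h x i.2]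
  have hkg : ∀ i, gval q (V2 n V) (vec n h) (vec n x) k ≤ gval q (V2 n V) (vec n h) (vec n x) i := by
    intro i
    rw [← hgv, ← hgv]; exact hk i
  have hkneg : gval q (V2 n V) (vec n h) (vec n x) k < 0 := by
    obtain ⟨i, hi, hi2⟩ := hneg
    have h1 := hk ⟨i, hi⟩
    rw [← hgv]
    exact lt_of_le_of_lt h1 hi2
  set A : ℤ := gval q (V2 n V) (vec n h) (vec n x) k with hA
  have hgk : g1 g k = A := hgv k
  rw [hgk] at hV
  set rr : Fin (n + 1) → ℤ := fun i : Fin (n + 1) =>
    cdiv (256 * (n : ℤ) ^ 5 * (16 * (n : ℤ) ^ 4 * -A)) (16 * (n : ℤ) ^ 4 * -A + g1 g i) with hrr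
  have hn4 : (1 : ℤ) ≤ (n : ℤ) ^ 4 := one_le_pow₀ hn1
  have hden : ∀ i : Fin (n + 1), 0 < 16 * (n : ℤ) ^ 4 * -A + g1 g i := by
    intro i
    have h1 := hkg i
    rw [← hgv i] at h1
    nlinarith
  have hr1 : ∀ i, i ≠ k → 256 * (n : ℤ) ^ 5 * (16 * (n : ℤ) ^ 4) * (-A) ≤
      rr i * (16 * (n : ℤ) ^ 4 * (-A) + gval q (V2 n V) (vec n h) (vec n x) i) := by
    intro i _
    have h1 := (cdiv_spec (256 * (n : ℤ) ^ 5 * (16 * (n : ℤ) ^ 4 * -A)) _ (hden i)).1
    rw [← hgv i]
    linarith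
  have hr2 : ∀ i, i ≠ k → rr i * (16 * (n : ℤ) ^ 4 * (-A) +
      gval q (V2 n V) (vec n h) (vec n x) i) ≤
      256 * (n : ℤ) ^ 5 * (16 * (n : ℤ) ^ 4) * (-A) +
        (16 * (n : ℤ) ^ 4 * (-A) + gval q (V2 n V) (vec n h) (vec n x) i) := by
    intro i _
    have h1 := (cdiv_spec (256 * (n : ℤ) ^ 5 * (16 * (n : ℤ) ^ 4 * -A)) _ (hden i)).2
    rw [← hgv i]
    linarith
  obtain ⟨hpos, hvol⟩ := flat_cut_volume hn q hq (V2 n V) (vec n h) (vec n x) k hkg hkneg mu hmu1
    hmux hmu rr hr1 hr2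
  have hR0 : (0 : ℤ) < 256 * (n : ℤ) ^ 5 := by positivity
  refine ⟨rfl, ?_, hshp, ?_, ?_⟩
  · change FlatInv n (2 ^ r) (t + 1) (R0c n * q) (V2 n (cutV n V g))
    rw [hV, R0c_eq]
    exact hFI.inv.step hn k rr hpos hvol
  · intro y hy
    change InSimplex (R0c n * q) (V2 n (cutV n V g)) y
    rw [hV, R0c_eq]
    refine flat_cut_contains q hq (V2 n V) (vec n h) (vec n x) k hkg hkneg (16 * (n : ℤ) ^ 4)
      (256 * (n : ℤ) ^ 5) (by linarith) hR0 rr (fun i hi => ?_) y (hFI.sub y hy) (hcut y hy).le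
    exact hr1 i hi
  · change (edges (V2 n (cutV n V g))).det ≠ 0
    rw [hV]
    intro h0
    have h1 := det_homog (256 * (n : ℤ) ^ 5 * q) (updV (256 * (n : ℤ) ^ 5) rr k (V2 n V))
    rw [det_homog_updV, h0, mul_zero, det_homog] at h1
    have h2 : ∏ i ∈ Finset.univ.erase k, rr i ≠ 0 :=
      Finset.prod_ne_zero_iff.2 fun i hi => (hpos i (Finset.ne_of_mem_erase hi)).1.ne'
    rcases mul_eq_zero.1 h1 with h3 | h3
    · rcases mul_eq_zero.1 h3 with h4 | h4
      · exact hR0.ne' h4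
      · exact h2 h4
    · rcases mul_eq_zero.1 h3 with h4 | h4
      · exact hq.ne' h4
      · exact hFI.det h4

/-- The bound for the result. -/
def bF (f : ℕ → ℕ) (n r : ℕ) : ℕ := f n * (bb n r + 2) + bb n r + n

/-- The state is finished with a correct result. -/
structure FDone (f : ℕ → ℕ) (n r : ℕ) (G : ℤ) (orc : Orc) (K : Set (Fin n → ℚ))
    (p : ℤ × ZM × Res) : Prop where
  ne : p.2.2.1 ≠ 0
  le3 : p.2.2.1 ≤ 3
  ok : FlatOK n (bF f n r) G orc K p.2.2
  q : |p.1| ≤ 2 ^ bb n r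
  shp : Shp (n + 1) n p.2.1
  V : ∀ i < n + 1, ∀ j < n, |g2 p.2.1 i j| ≤ 2 ^ bb n r
  szr : sz p.2.2 ≤ 9 + (n * (4 * bF f n r + 10) + 1) + 2 * (n * (n * (4 * bF f n r + 10) + 2) + 1) +
    (4 * bF f n r + 9) + 4

lemma sz_zero_nat_le (k : ℕ) (h : k ≤ 3) : sz k ≤ 7 := by
  rw [sz_nat]; omega

lemma castQ_sq_entry (B : Matrix (Fin n) (Fin n) ℤ) (i : Fin n) :
    (castQ B * (castQ B)ᵀ) i i = ((∑ l, B i l * B i l : ℤ) : ℚ) := by
  rw [Matrix.mul_apply]
  push_cast
  exact Finset.sum_congr rfl fun l _ => by simp [castQ]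

/-- **One step of the search.** -/
theorem flatStep_spec {f : ℕ → ℕ} (hf : LLLSpec f) (hn : 1 ≤ n) {fu : ℕ} {G : ℤ} {orc : Orc}
    (hG : (flatG n : ℤ) ≤ G) (ht : t ≤ TT n r) (hfu : f n * (bb n r + 2) ≤ fu)
    (hcuts : CutsOK n (bb n r) orc K) {p : ℤ × ZM × Res} (hFI : FI n r t K p) :
    (t < flatSteps n (2 ^ r) ∧ FI n r (t + 1) K (flatStep fu n G orc p)) ∨
      FDone f n r G orc K (flatStep fu n G orc p) := by
  obtain ⟨q, V, res⟩ := p
  have hres : res = (0, [], [], [], 0) := hFI.res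
  subst hres
  have hn0 : 0 < n := hn
  have hq : 0 < q := hFI.q_pos hn
  have hqle : |q| ≤ 2 ^ bb n r := hFI.q_le hn (by omega)
  have hVle : ∀ i < n + 1, ∀ j < n, |g2 V i j| ≤ 2 ^ bb n r := fun i hi j hj =>
    hFI.V_le (by omega) i hi j hj
  have hshp : Shp (n + 1) n V := hFI.shp
  -- the lattice reduction
  set R : ZM := tabM n n fun l i => g2 V (i + 1) l - g2 V 0 l with hR
  have hRm : mtx n n R = edges (V2 n V) := mtx_edges V
  have hRle : ∀ i < n, ∀ j < n, |g2 R i j| ≤ 2 ^ (bb n r + 1) := by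
    intro i hi j hj
    rw [hR, g2_tabM_lt _ hi hj]
    refine (abs_sub _ _).trans ?_
    have h1 := hVle (j + 1) (by omega) i hi
    have h2 := hVle 0 (by omega) i hi
    rw [pow_succ]
    linarith
  have hL := hf n (bb n r + 1) fu R hn (shp_tabM _ _ _) hRle (by rw [hRm]; exact hFI.det)
    (by rw [show bb n r + 1 + 1 = bb n r + 2 by ring]; exact hfu)
  rw [show bb n r + 1 + 1 = bb n r + 2 by ring] at hL
  set L := lll fu n R with hLdef
  obtain ⟨mu, D, hred⟩ := hL.red
  have hB : castQ (mtx n n L.1) = rbasis (mtx n n L.2.1) (V2 n V) := by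
    rw [rbasis, hL.eq, hRm]
  rw [hB] at hred
  have hbF1 : f n * (bb n r + 2) ≤ bF f n r := by unfold bF; omega
  have hbF2 : bb n r ≤ bF f n r := by unfold bF; omega
  have hpow1 : (2 : ℤ) ^ (f n * (bb n r + 2)) ≤ 2 ^ bF f n r :=
    pow_le_pow_right₀ (by norm_num) hbF1
  have hpow2 : (2 : ℤ) ^ bb n r ≤ 2 ^ bF f n r := pow_le_pow_right₀ (by norm_num) hbF2
  -- the test
  have hD0 : D ⟨0, hn0⟩ = ((dot n (row L.1 0) (row L.1 0) : ℤ) : ℚ) := by
    rw [← hred.first hn0, ← hB, castQ_sq_entry, dot_sum]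
    rfl
  unfold flatStep
  rw [if_pos rfl]
  by_cases htest : dot n (row L.1 0) (row L.1 0) < (G * q) * (G * q)
  · -- flat
    right
    simp only [← hR, ← hLdef]
    rw [if_pos htest]
    have hG0 : (0 : ℤ) ≤ G := le_trans (Int.natCast_nonneg _) hG
    have hvle : |dot n (row L.2.1 0) (row V 0) / q| ≤ 2 ^ bF f n r := by
      have h1 : |dot n (row L.2.1 0) (row V 0)| ≤ n * (2 ^ (f n * (bb n r + 2)) * 2 ^ bb n r) := by
        rw [dot_sum]
        exact abs_sum_mul_le _ _ (fun j => hL.bU 0 hn0 j j.2)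
          (fun j => hVle 0 (by omega) j j.2) (by positivity)
      have h2 : |dot n (row L.2.1 0) (row V 0) / q| ≤ |dot n (row L.2.1 0) (row V 0)| :=
        Int.abs_ediv_le_abs _ _
      refine h2.trans (h1.trans ?_)
      have h3 : (2 : ℤ) ^ bF f n r = 2 ^ (f n * (bb n r + 2)) * 2 ^ bb n r * 2 ^ n := by
        rw [← pow_add, ← pow_add]; rfl
      rw [h3, mul_comm]
      exact mul_le_mul_of_nonneg_left (le_two_pow n) (by positivity)
    refine ⟨by norm_num, by norm_num, Or.inr (Or.inl ⟨hn0, rfl, hL.sU, hL.sW, ⟨hL.inv, hL.inv'⟩, ?_, ?_,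
      hvle, ?_⟩), hqle, hshp, hVle, ?_⟩
    · exact fun i hi j hj => (hL.bU i hi j hj).trans hpow1
    · exact fun i hi j hj => (hL.bW i hi j hj).trans hpow1
    · intro y hy
      have h1 : D ⟨0, hn0⟩ < ((G : ℚ) * q) ^ 2 := by
        rw [hD0]
        have h2 : ((dot n (row L.1 0) (row L.1 0) : ℤ) : ℚ) < ((G * q * (G * q) : ℤ) : ℚ) := by
          exact_mod_cast htest
        push_cast at h2
        nlinarith
      have h2 := flat_dir hn0 q hq (mtx n n L.2.1) (V2 n V) hred (G : ℚ) (by exact_mod_cast hG0) h1 y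
        (hFI.sub y hy)
      have h3 : dotQ (mtx n n L.2.1 ⟨0, hn0⟩) (fun j => (V2 n V 0 j : ℚ)) =
          ((dot n (row L.2.1 0) (row V 0) : ℤ) : ℚ) := by
        rw [dot_sum]
        unfold dotQ
        push_cast
        rfl
      rw [h3] at h2
      exact strip_ediv hq h2
    · change sz ((2, [], L.2.1, L.2.2, dot n (row L.2.1 0) (row V 0) / q) : Res) ≤ _
      simp only [sz_prod, sz_nat, sz_nil]
      have h1 := sz_mat_le hL.sU fun i hi j hj => (hL.bU i hi j hj).trans hpow1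
      have h2 := sz_mat_le hL.sW fun i hi j hj => (hL.bW i hi j hj).trans hpow1
      have h3 := sz_int_le' hvle
      omega
  · -- a point
    push Not at htest
    simp only [← hR, ← hLdef]
    rw [if_neg (not_lt.2 htest)]
    set s : ZV := tab n fun l => sumz (n + 1) fun i => g2 V i l with hs
    set y : ZV := tab n fun i => rdiv (dot n (row L.2.1 i) s) ((n + 1) * q) with hy
    set x : ZV := tab n fun l => dot n (row L.2.2 l) y with hx
    have hG0 : (0 : ℤ) ≤ flatG n := Int.natCast_nonneg _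
    have hDlarge : ((flatG n : ℚ) * q) ^ 2 ≤ D ⟨0, hn0⟩ := by
      rw [hD0]
      have h1 : (flatG n * q * (flatG n * q) : ℤ) ≤ G * q * (G * q) := by
        have h2 : (flatG n : ℤ) * q ≤ G * q := mul_le_mul_of_nonneg_right hG hq.le
        exact mul_le_mul h2 h2 (mul_nonneg hG0 hq.le) (mul_nonneg (hG0.trans hG) hq.le)
      have h2 : ((flatG n * q * (flatG n * q) : ℤ) : ℚ) ≤
          ((dot n (row L.1 0) (row L.1 0) : ℤ) : ℚ) := by
        exact_mod_cast h1.trans htest
      push_cast at h2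
      nlinarith
    have hsv : ∀ l : Fin n, g1 s l = ∑ i, V2 n V i l := by
      intro l
      rw [hs, g1_tab_lt _ l.2, sumz_eq]
      rfl
    have hyz : ∀ i, 2 * |(n + 1) * q * vec n y i -
        ∑ j, mtx n n L.2.1 i j * ∑ k, V2 n V k j| ≤ (n + 1) * q := by
      intro i
      have h1 : vec n y i = rdiv (dot n (row L.2.1 i) s) ((n + 1) * q) := by
        rw [hy, vec_apply, g1_tab_lt _ i.2]
      have h2 : ∑ j, mtx n n L.2.1 i j * ∑ k, V2 n V k j = dot n (row L.2.1 i) s := by
        rw [dot_sum]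
        refine Finset.sum_congr rfl fun j _ => ?_
        rw [hsv j]
        rfl
      rw [h1, h2]
      exact rdiv_spec _ _ (mul_pos (by positivity) hq)
    have hxW : vec n x = mtx n n L.2.2 *ᵥ vec n y := by
      rw [hx, mulVec_eq]
    obtain ⟨β, hβ1, hβx, hβ⟩ := flat_point hn q hq (mtx n n L.2.1) (mtx n n L.2.2) hL.inv (V2 n V)
      hred hDlarge (vec n y) (vec n x) hyz hxW
    have hxlen : x.length = n := length_tab _ _
    -- the point is in the simplex
    have hn1 : (1 : ℚ) ≤ n := by exact_mod_cast hn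
    have hβpos : ∀ i, 0 ≤ β i := by
      intro i
      have h1 := (abs_le.1 (hβ i)).1
      have h2 : 1 / (12 * (n : ℚ) ^ 2) ≤ 1 := by
        rw [div_le_one (by positivity)]
        have : (1 : ℚ) ≤ (n : ℚ) ^ 2 := one_le_pow₀ hn1
        linarith
      by_contra hcon
      push Not at hcon
      nlinarith
    have hxle : ∀ i < n, |g1 x i| ≤ 2 ^ bb n r := by
      intro i hi
      have h1 := hβx ⟨i, hi⟩
      have h2 : |(q : ℚ) * (vec n x ⟨i, hi⟩ : ℚ)| ≤ 2 ^ bb n r := by
        rw [← h1]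
        calc |∑ k, β k * (V2 n V k ⟨i, hi⟩ : ℚ)| ≤ ∑ k, |β k * (V2 n V k ⟨i, hi⟩ : ℚ)| :=
              Finset.abs_sum_le_sum_abs _ _
          _ ≤ ∑ k, β k * 2 ^ bb n r := by
              refine Finset.sum_le_sum fun k _ => ?_
              rw [abs_mul, abs_of_nonneg (hβpos k)]
              refine mul_le_mul_of_nonneg_left ?_ (hβpos k)
              have h3 := hVle k k.2 i hi
              have h4 : ((|g2 V k i| : ℤ) : ℚ) ≤ ((2 ^ bb n r : ℤ) : ℚ) := by exact_mod_cast h3
              rw [Int.cast_abs] at h4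
              push_cast at h4
              exact h4
          _ = 2 ^ bb n r := by rw [← Finset.sum_mul, hβ1, one_mul]
      have h3 : |q * g1 x i| ≤ 2 ^ bb n r := by
        have : ((|q * g1 x i| : ℤ) : ℚ) ≤ ((2 ^ bb n r : ℤ) : ℚ) := by
          push_cast
          rw [vec_apply] at h2
          exact h2
        exact_mod_cast this
      rw [abs_mul, abs_of_pos hq] at h3
      have h4 : |g1 x i| ≤ q * |g1 x i| := by
        have := abs_nonneg (g1 x i)
        nlinarith
      exact h4.trans h3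
    have hbig : t < flatSteps n (2 ^ r) := by
      by_contra hcon
      push Not at hcon
      refine hFI.inv.not_large hn (by positivity) hcon ?_
      exact flat_volume hn q hq (mtx n n L.2.1) (mtx n n L.2.2) hL.inv (V2 n V) hred hDlarge
    cases horc : orc x with
    | none =>
      right
      change FDone f n r G orc K (q, V, 1, x, [], [], 0)
      refine ⟨by norm_num, by norm_num, Or.inl ⟨rfl, horc, hxlen, fun i hi => (hxle i hi).trans
        hpow2⟩, hqle, hshp, hVle, ?_⟩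
      change sz ((1, x, [], [], 0) : Res) ≤ _
      simp only [sz_prod, sz_nat, sz_nil]
      have h1 := sz_vec_le hxlen fun i hi => (hxle i hi).trans hpow2
      have h2 : sz (0 : ℤ) ≤ 9 := by
        have := sz_int_le (0 : ℤ)
        have h3 : bl 0 = 0 := by simp [bl]
        omega
      omega
    | some h =>
      have hcut := hcuts x hxlen hxle h horc
      change (t < flatSteps n (2 ^ r) ∧ FI n r (t + 1) K
        (if (tab (n + 1) fun i => decide (0 ≤ g1 (tab (n + 1) fun i => dot n h (row V i) -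
          q * dot n h x) i)).all id then (q, V, 3, [], [], [], 0)
        else (R0c n * q, cutV n V (tab (n + 1) fun i => dot n h (row V i) - q * dot n h x),
          0, [], [], [], 0))) ∨ FDone f n r G orc K
        (if (tab (n + 1) fun i => decide (0 ≤ g1 (tab (n + 1) fun i => dot n h (row V i) -
          q * dot n h x) i)).all id then (q, V, 3, [], [], [], 0)
        else (R0c n * q, cutV n V (tab (n + 1) fun i => dot n h (row V i) - q * dot n h x),
          0, [], [], [], 0))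
      set g : ZV := tab (n + 1) fun i => dot n h (row V i) - q * dot n h x with hg
      have hgi : ∀ i < n + 1, g1 g i = dot n h (row V i) - q * dot n h x := fun i hi => by
        rw [hg, g1_tab_lt _ hi]
      by_cases hall : ((tab (n + 1) fun i => decide (0 ≤ g1 g i)).all id) = true
      · right
        rw [if_pos hall]
        have hall' : ∀ i : Fin (n + 1), 0 ≤ gval q (V2 n V) (vec n h) (vec n x) i := by
          intro i
          have h1 := of_decide_eq_true ((tab_all _ _).1 hall i i.2)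
          rw [hgi i i.2, gval_eq q V h x i.2] at h1
          exact h1
        have hKempty : K = ∅ := by
          rw [Set.eq_empty_iff_forall_notMem]
          intro y hy
          have h1 := flat_empty q hq (V2 n V) (vec n h) (vec n x) hall' y (hFI.sub y hy)
          have h2 := hcut y hy
          exact absurd h2 (not_lt.2 h1)
        refine ⟨by norm_num, by norm_num, Or.inr (Or.inr ⟨rfl, hKempty⟩), hqle, hshp, hVle, ?_⟩
        change sz ((3, [], [], [], 0) : Res) ≤ _
        simp only [sz_prod, sz_nat, sz_nil]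
        have h2 : sz (0 : ℤ) ≤ 9 := by
          have := sz_int_le (0 : ℤ)
          have h3 : bl 0 = 0 := by simp [bl]
          omega
        have h4 : 0 ≤ n * (4 * bF f n r + 10) := Nat.zero_le _
        omega
      · left
        refine ⟨hbig, ?_⟩
        rw [if_neg hall]
        refine hFI.cut hn h x g hgi ?_ β hβ1 (fun j => hβx j) hβ hcut
        rw [tab_all] at hall
        push Not at hall
        obtain ⟨i, hi, hi2⟩ := hall
        exact ⟨i, hi, by simpa using hi2⟩

end Pool.Agent.MDF
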