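import Pool.Agent.MDF.View
import Pool.Agent.MonFPT.FlatTerm
import Pool.Agent.MonFPT.Chart

/-!
# One step of the basic search
-/

set_option autoImplicit false

namespace Pool.Agent.MDF

open Pool.Agent.PF Pool.Agent.MonFPT Matrix

/-! ### Rounding -/

lemma rdiv_spec (a b : ℤ) (hb : 0 < b) : 2 * |b * rdiv a b - a| ≤ b := by
  unfold rdiv
  have h1 := Int.mul_ediv_add_emod (2 * a + b) (2 * b)
  have h2 := Int.emod_nonneg (2 * a + b) (by omega : 2 * b ≠ 0)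
  have h3 := Int.emod_lt_of_pos (2 * a + b) (by omega : 0 < 2 * b)
  set m := (2 * a + b) / (2 * b) with hm
  set e := (2 * a + b) % (2 * b) with he
  have h4 : 2 * (b * m - a) = b - e := by linarith
  have h5 : 2 * |b * m - a| = |b - e| := by
    rw [← h4, abs_mul]; norm_num
  rw [h5, abs_le]
  constructor <;> linarith

lemma cdiv_spec (a b : ℤ) (hb : 0 < b) : a ≤ cdiv a b * b ∧ cdiv a b * b ≤ a + b := by
  unfold cdiv
  have h1 := Int.mul_ediv_add_emod (-a) b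
  have h2 := Int.emod_nonneg (-a) hb.ne'
  have h3 := Int.emod_lt_of_pos (-a) hb
  constructor <;> linarith

/-! ### The specification of lattice reduction -/

/-- The result of lattice reduction. -/
structure LLLOut (n : ℕ) (R : ZM) (L : LS) (b : ℕ) : Prop where
  sB : Shp n n L.1
  sU : Shp n n L.2.1
  sW : Shp n n L.2.2
  eq : mtx n n L.1 = mtx n n L.2.1 * mtx n n R
  inv : mtx n n L.2.1 * mtx n n L.2.2 = 1
  inv' : mtx n n L.2.2 * mtx n n L.2.1 = 1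
  red : ∃ mu D, IsRed (castQ (mtx n n L.1) * (castQ (mtx n n L.1))ᵀ) mu D
  bU : ∀ i < n, ∀ j < n, |g2 L.2.1 i j| ≤ 2 ^ b
  bW : ∀ i < n, ∀ j < n, |g2 L.2.2 i j| ≤ 2 ^ b

/-- The specification of `lll`. -/
def LLLSpec (f : ℕ → ℕ) : Prop :=
  ∀ (n b fu : ℕ) (R : ZM), 1 ≤ n → Shp n n R → (∀ i < n, ∀ j < n, |g2 R i j| ≤ 2 ^ b) →
    (mtx n n R).det ≠ 0 → f n * (b + 1) ≤ fu → LLLOut n R (lll fu n R) (f n * (b + 1))

/-! ### The specification of the basic search -/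

/-- A correct result of the basic search. -/
def FlatOK (n b : ℕ) (G : ℤ) (orc : Orc) (K : Set (Fin n → ℚ)) (o : Res) : Prop :=
  (o.1 = 1 ∧ orc o.2.1 = none ∧ o.2.1.length = n ∧ ∀ i < n, |g1 o.2.1 i| ≤ 2 ^ b) ∨
  (0 < n ∧ o.1 = 2 ∧ Shp n n o.2.2.1 ∧ Shp n n o.2.2.2.1 ∧
    (mtx n n o.2.2.1 * mtx n n o.2.2.2.1 = 1 ∧ mtx n n o.2.2.2.1 * mtx n n o.2.2.1 = 1) ∧
    (∀ i < n, ∀ j < n, |g2 o.2.2.1 i j| ≤ 2 ^ b) ∧
    (∀ i < n, ∀ j < n, |g2 o.2.2.2.1 i j| ≤ 2 ^ b) ∧ |o.2.2.2.2| ≤ 2 ^ b ∧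
    ∀ y ∈ K, |dotQ (vec n (row o.2.2.1 0)) y - o.2.2.2.2| ≤ G + 1) ∨
  (o.1 = 3 ∧ K = ∅)

/-- The oracle gives strict cuts for all queries of bounded size. -/
def CutsOK (n b : ℕ) (orc : Orc) (K : Set (Fin n → ℚ)) : Prop :=
  ∀ x : ZV, x.length = n → (∀ i < n, |g1 x i| ≤ 2 ^ b) → ∀ h, orc x = some h →
    ∀ y ∈ K, dotQ (vec n h) y < dotQ (vec n h) fun i => (g1 x i : ℚ)

/-- The specification of `flat`. -/
def FlatSpec (f : ℕ → ℕ) : Prop :=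
  ∀ (n r fu : ℕ) (G : ℤ) (orc : Orc) (K : Set (Fin n → ℚ)), f n * (r + 1) ≤ fu →
    (flatG n : ℤ) ≤ G → (∀ y ∈ K, ∀ i, |y i| ≤ 2 ^ r) → CutsOK n (f n * (r + 1)) orc K →
    FlatOK n (f n * (r + 1)) G orc K (flat fu n G r orc)

/-! ### Bounds -/

/-- the number of steps -/
def TT (n r : ℕ) : ℕ := 128 * n ^ 4 * (n * ((n + 1) * (r + 1)) + 1)

/-- the bit length of the vertices -/
def bb (n r : ℕ) : ℕ := (TT n r + 1) * (11 + 5 * n) + (n + 1) * (r + 1)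

lemma le_two_pow (n : ℕ) : (n : ℤ) ≤ 2 ^ n := by
  exact_mod_cast Nat.lt_two_pow_self.le

lemma flatSteps_le (n r : ℕ) : flatSteps n (2 ^ r) ≤ TT n r := by
  unfold flatSteps TT
  have h1 : ((2 : ℤ) ^ r).toNat = 2 ^ r := by
    have : ((2 : ℤ) ^ r) = ((2 ^ r : ℕ) : ℤ) := by push_cast; rfl
    rw [this, Int.toNat_natCast]
  rw [h1]
  have h2 : (2 * n * 2 ^ r) ^ n ≤ 2 ^ (n * ((n + 1) * (r + 1))) := by
    have h3 : 2 * n * 2 ^ r ≤ 2 ^ ((n + 1) * (r + 1)) := by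
      calc 2 * n * 2 ^ r ≤ 2 * 2 ^ n * 2 ^ r :=
            Nat.mul_le_mul_right _ (Nat.mul_le_mul_left _ Nat.lt_two_pow_self.le)
        _ = 2 ^ (1 + n + r) := by ring
        _ ≤ 2 ^ ((n + 1) * (r + 1)) := Nat.pow_le_pow_right (by norm_num) (by nlinarith)
    calc (2 * n * 2 ^ r) ^ n ≤ (2 ^ ((n + 1) * (r + 1))) ^ n := Nat.pow_le_pow_left h3 n
      _ = 2 ^ (n * ((n + 1) * (r + 1))) := by rw [← pow_mul, mul_comm]
  have h4 : Nat.log 2 ((2 * n * 2 ^ r) ^ n) ≤ n * ((n + 1) * (r + 1)) := by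
    calc Nat.log 2 ((2 * n * 2 ^ r) ^ n) ≤ Nat.log 2 (2 ^ (n * ((n + 1) * (r + 1)))) :=
          Nat.log_mono_right h2
      _ = n * ((n + 1) * (r + 1)) := Nat.log_pow (by norm_num) _
  exact Nat.mul_le_mul_left _ (by omega)

lemma pow_bound (n r t : ℕ) (ht : t ≤ TT n r + 1) :
    (5 * (256 * (n : ℤ) ^ 5)) ^ t * (2 * n * 2 ^ r) ≤ 2 ^ bb n r := by
  have h1 : (5 * (256 * (n : ℤ) ^ 5)) ≤ 2 ^ (11 + 5 * n) := by
    have h2 : (n : ℤ) ^ 5 ≤ (2 ^ n) ^ 5 := pow_le_pow_left₀ (by positivity) (le_two_pow n) 5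
    have h3 : ((2 : ℤ) ^ n) ^ 5 = 2 ^ (5 * n) := by rw [← pow_mul, mul_comm]
    rw [h3] at h2
    rw [pow_add]
    have h4 : (0 : ℤ) < 2 ^ (5 * n) := by positivity
    nlinarith
  have h2 : (5 * (256 * (n : ℤ) ^ 5)) ^ t ≤ 2 ^ ((TT n r + 1) * (11 + 5 * n)) := by
    calc (5 * (256 * (n : ℤ) ^ 5)) ^ t ≤ (2 ^ (11 + 5 * n)) ^ t :=
          pow_le_pow_left₀ (by positivity) h1 t
      _ ≤ (2 ^ (11 + 5 * n)) ^ (TT n r + 1) := by
          refine pow_le_pow_right₀ ?_ ht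
          exact one_le_pow₀ (by norm_num)
      _ = 2 ^ ((TT n r + 1) * (11 + 5 * n)) := by rw [← pow_mul, mul_comm]
  have h3 : (2 * n * 2 ^ r : ℤ) ≤ 2 ^ ((n + 1) * (r + 1)) := by
    calc (2 * n * 2 ^ r : ℤ) ≤ 2 * 2 ^ n * 2 ^ r := by
          have := le_two_pow n
          have h4 : (0 : ℤ) < 2 ^ r := by positivity
          nlinarith
      _ = 2 ^ (1 + n + r) := by ring
      _ ≤ 2 ^ ((n + 1) * (r + 1)) := pow_le_pow_right₀ (by norm_num) (by nlinarith)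
  calc (5 * (256 * (n : ℤ) ^ 5)) ^ t * (2 * n * 2 ^ r)
      ≤ 2 ^ ((TT n r + 1) * (11 + 5 * n)) * 2 ^ ((n + 1) * (r + 1)) :=
        mul_le_mul h2 h3 (by positivity) (by positivity)
    _ = 2 ^ bb n r := by rw [← pow_add]; rfl

lemma q_bound (n r t : ℕ) (hn : 1 ≤ n) (ht : t ≤ TT n r + 1) :
    (256 * (n : ℤ) ^ 5) ^ t ≤ 2 ^ bb n r := by
  have hn1 : (1 : ℤ) ≤ n := by exact_mod_cast hn
  refine le_trans ?_ (pow_bound n r t ht)
  have h1 : (256 * (n : ℤ) ^ 5) ^ t ≤ (5 * (256 * (n : ℤ) ^ 5)) ^ t :=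
    pow_le_pow_left₀ (by positivity) (by nlinarith [pow_pos (by linarith : (0 : ℤ) < n) 5]) t
  have h2 : (1 : ℤ) ≤ 2 * n * 2 ^ r := by
    have h3 : (1 : ℤ) ≤ 2 ^ r := one_le_pow₀ (by norm_num)
    nlinarith
  calc (256 * (n : ℤ) ^ 5) ^ t ≤ (5 * (256 * (n : ℤ) ^ 5)) ^ t := h1
    _ = (5 * (256 * (n : ℤ) ^ 5)) ^ t * 1 := (mul_one _).symm
    _ ≤ (5 * (256 * (n : ℤ) ^ 5)) ^ t * (2 * n * 2 ^ r) :=
        mul_le_mul_of_nonneg_left h2 (by positivity)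

/-! ### One step -/

/-- the vertices -/
def V2 (n : ℕ) (V : ZM) : Fin (n + 1) → Fin n → ℤ := fun i j => g2 V i j

/-- The invariant while the search is running. -/
structure FI (n r t : ℕ) (K : Set (Fin n → ℚ)) (p : ℤ × ZM × Res) : Prop where
  res : p.2.2 = (0, [], [], [], 0)
  inv : FlatInv n (2 ^ r) t p.1 (V2 n p.2.1)
  shp : Shp (n + 1) n p.2.1
  sub : ∀ y ∈ K, InSimplex p.1 (V2 n p.2.1) y
  det : (edges (V2 n p.2.1)).det ≠ 0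

variable {n r t : ℕ} {K : Set (Fin n → ℚ)} {p : ℤ × ZM × Res}

lemma FI.q_pos (hn : 1 ≤ n) (h : FI n r t K p) : 0 < p.1 := by
  have hn1 : (0 : ℤ) < n := by exact_mod_cast hn
  rw [h.inv.q_eq]; positivity

lemma FI.q_le (hn : 1 ≤ n) (h : FI n r t K p) (ht : t ≤ TT n r + 1) : |p.1| ≤ 2 ^ bb n r := by
  rw [abs_of_pos (h.q_pos hn), h.inv.q_eq]
  exact q_bound n r t hn ht

lemma FI.V_le (h : FI n r t K p) (ht : t ≤ TT n r + 1) (i : ℕ) (hi : i < n + 1) (j : ℕ)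
    (hj : j < n) : |g2 p.2.1 i j| ≤ 2 ^ bb n r :=
  (h.inv.le ⟨i, hi⟩ ⟨j, hj⟩).trans (by
    have := pow_bound n r t ht
    push_cast at this ⊢
    exact this)

end Pool.Agent.MDF
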