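import Pool.Agent.MDF.Basic

/-!
# Lattice reduction

The algorithm of helper79: the Gram matrix is eliminated without division.
-/

set_option autoImplicit false

namespace Pool.Agent.MDF

open Pool.Agent.PF

/-! ### Lattice reduction -/

/-- The Gram matrix of the rows. -/
def gram (n : ℕ) (B : ZM) : ZM := tabM n n fun i j => dot n (row B i) (row B j)

/-- One step of the elimination without division; state (pivot, matrix). -/
def elStep (n : ℕ) (p : ℕ × ZM) : ℕ × ZM :=
  (p.1 + 1, tabM n n fun i j => g2 p.2 p.1 p.1 * g2 p.2 i j - g2 p.2 i p.1 * g2 p.2 p.1 j)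

/-- The Gram matrix of the rows of `B` after `k` steps of elimination. -/
def elim (fu n k : ℕ) (B : ZM) : ZM := (bIter fu k (elStep n) (0, gram n B)).2

/-- Adding `c` times row `j` to row `i`. -/
def addRow (n : ℕ) (B : ZM) (i j : ℕ) (c : ℤ) : ZM :=
  tabM n n fun a l => if a = i then g2 B a l + c * g2 B j l else g2 B a l

/-- The inverse operation on the columns of the inverse matrix. -/
def addCol (n : ℕ) (W : ZM) (i j : ℕ) (c : ℤ) : ZM :=
  tabM n n fun a l => if l = j then g2 W a l - c * g2 W a i else g2 W a l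

/-- Transposition of the indices `i`, `i + 1`. -/
def sw (i a : ℕ) : ℕ := if a = i then i + 1 else if a = i + 1 then i else a

/-- Exchange of two rows. -/
def swRow (n : ℕ) (B : ZM) (i : ℕ) : ZM := tabM n n fun a l => g2 B (sw i a) l
/-- Exchange of two columns. -/
def swCol (n : ℕ) (W : ZM) (i : ℕ) : ZM := tabM n n fun a l => g2 W a (sw i l)

/-- Matrix `B`, the transformation `U` and its inverse `W`. -/
abbrev LS := ZM × ZM × ZM

/-- One operation of the size reduction. -/
def szStep (fu n : ℕ) (p : ℕ × LS) : ℕ × LS :=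
  let i := p.1 / n
  let j := n - 1 - p.1 % n
  if j < i then
    let G := elim fu n j p.2.1
    let c := - rdiv (g2 G i j) (g2 G j j)
    (p.1 + 1, addRow n p.2.1 i j c, addRow n p.2.2.1 i j c, addCol n p.2.2.2 i j c)
  else (p.1 + 1, p.2)

/-- Size reduction. -/
def szRed (fu n : ℕ) (st : LS) : LS := (bIter fu (n * n) (szStep fu n) (0, st)).2

/-- The test for an exchange of the rows `i` and `i + 1`. -/
def lov (fu n : ℕ) (B : ZM) (i : ℕ) : Bool :=
  let G := elim fu n i B
  decide (4 * g2 G (i + 1) (i + 1) < 3 * g2 G i i)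

/-- One step of lattice reduction: one exchange, if necessary, and size reduction. -/
def lllStep (fu n : ℕ) (st : LS) : LS :=
  oc (findN (n - 1) (lov fu n st.1)) st fun i =>
    szRed fu n (swRow n st.1 i, swRow n st.2.1 i, swCol n st.2.2 i)

/-- Lattice reduction of the rows of `R`. -/
def lll (fu n : ℕ) (R : ZM) : LS :=
  bIter fu fu (lllStep fu n) (szRed fu n (R, idM n, idM n))

/-! ### Polynomial time -/

section

variable {α : Type} [VEnc α]

@[fun_prop] theorem pf_gram {n : α → ℕ} {B : α → ZM} (hn : PF n) (hB : PF B) :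
    PF (fun x => gram (n x) (B x)) := by unfold gram; fun_prop

@[fun_prop] theorem pf_elStep {n : α → ℕ} {p : α → ℕ × ZM} (hn : PF n) (hp : PF p) :
    PF (fun x => elStep (n x) (p x)) := by unfold elStep; fun_prop

@[fun_prop] theorem pf_elim {fu n k : α → ℕ} {B : α → ZM} (hfu : PF fu) (hn : PF n) (hk : PF k)
    (hB : PF B) : PF (fun x => elim (fu x) (n x) (k x) (B x)) := by unfold elim; fun_prop

@[fun_prop] theorem pf_addRow {n i j : α → ℕ} {B : α → ZM} {c : α → ℤ} (hn : PF n) (hB : PF B)
    (hi : PF i) (hj : PF j) (hc : PF c) :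
    PF (fun x => addRow (n x) (B x) (i x) (j x) (c x)) := by unfold addRow; fun_prop

@[fun_prop] theorem pf_addCol {n i j : α → ℕ} {B : α → ZM} {c : α → ℤ} (hn : PF n) (hB : PF B)
    (hi : PF i) (hj : PF j) (hc : PF c) :
    PF (fun x => addCol (n x) (B x) (i x) (j x) (c x)) := by unfold addCol; fun_prop

@[fun_prop] theorem pf_sw {i j : α → ℕ} (hi : PF i) (hj : PF j) :
    PF (fun x => sw (i x) (j x)) := by unfold sw; fun_prop

@[fun_prop] theorem pf_swRow {n i : α → ℕ} {B : α → ZM} (hn : PF n) (hB : PF B)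
    (hi : PF i) : PF (fun x => swRow (n x) (B x) (i x)) := by unfold swRow; fun_prop

@[fun_prop] theorem pf_swCol {n i : α → ℕ} {B : α → ZM} (hn : PF n) (hB : PF B)
    (hi : PF i) : PF (fun x => swCol (n x) (B x) (i x)) := by unfold swCol; fun_prop

@[fun_prop] theorem pf_szStep {fu n : α → ℕ} {p : α → ℕ × LS} (hfu : PF fu) (hn : PF n)
    (hp : PF p) : PF (fun x => szStep (fu x) (n x) (p x)) := by
  unfold szStep; fun_prop

@[fun_prop] theorem pf_szRed {fu n : α → ℕ} {p : α → LS} (hfu : PF fu) (hn : PF n)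
    (hp : PF p) : PF (fun x => szRed (fu x) (n x) (p x)) := by
  unfold szRed; fun_prop

@[fun_prop] theorem pf_lov {fu n i : α → ℕ} {B : α → ZM} (hfu : PF fu) (hn : PF n)
    (hB : PF B) (hi : PF i) : PF (fun x => lov (fu x) (n x) (B x) (i x)) := by
  unfold lov; fun_prop

@[fun_prop] theorem pf_lllStep {fu n : α → ℕ} {p : α → LS} (hfu : PF fu) (hn : PF n)
    (hp : PF p) : PF (fun x => lllStep (fu x) (n x) (p x)) := by
  unfold lllStep; fun_prop

@[fun_prop] theorem pf_lll {fu n : α → ℕ} {R : α → ZM} (hfu : PF fu) (hn : PF n)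
    (hR : PF R) : PF (fun x => lll (fu x) (n x) (R x)) := by
  unfold lll; fun_prop

end

end Pool.Agent.MDF
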