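import Pool.Agent.MDF.LLLSpec

/-!
# The lattice reduction on lists: the specification
-/

set_option autoImplicit false
set_option linter.unusedSectionVars false
set_option linter.unusedVariables false

namespace Pool.Agent.MDF.LR

open Pool.Agent.PF Matrix
open Pool.Agent.MonFPT (FE BE iq im gr ge rp ra rs rd st fv lv qq PInv XB rowM castQ IsRed e0
  bt scl pv posDef_BE FE_cast Tri tri_ra tri_rp)

variable {n : ℕ}

/-- The bound for the squared lengths of the vectors. -/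
def LB (n M : ℕ) : ℕ := (7 * (M ^ 2 ^ n) ^ 2 * (n * M)) ^ n * (n * M)

lemma len_all {E : Matrix (Fin n) (Fin n) ℤ} (hE : E.det ≠ 0) {M : ℕ} (hM1 : 1 ≤ M)
    {s : MonFPT.LS n} (h : PInv E M s) {m : ℕ} (hm : m < n) {j : ℕ} (hj : j ≤ m) (i : ℕ)
    (hi : i < n) :
    BE E (im (iq n) (rp (FE E) m j s).1 i) (im (iq n) (rp (FE E) m j s).1 i) ≤ (LB n M : ℕ) := by
  have hB := posDef_BE hE
  have hM1' : (1 : ℚ) ≤ M := by exact_mod_cast hM1
  have hn1 : (1 : ℚ) ≤ n := by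
    have : 1 ≤ n := by omega
    exact_mod_cast this
  have hnM : (1 : ℚ) ≤ n * M := one_le_mul_of_one_le_of_one_le hn1 hM1'
  have hscl := MonFPT.scl_le h.pos M hM1' h.btM
  have hK : (1 : ℚ) ≤ 7 * ((M : ℚ) ^ 2 ^ n) ^ 2 * (n * M) := by
    have h1 : (1 : ℚ) ≤ ((M : ℚ) ^ 2 ^ n) ^ 2 := one_le_pow₀ (one_le_pow₀ hM1')
    have h2 : (1 : ℚ) ≤ ((M : ℚ) ^ 2 ^ n) ^ 2 * (n * M) := one_le_mul_of_one_le_of_one_le h1 hnM
    linarith
  unfold LB
  push_cast
  by_cases him : i = m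
  · subst him
    refine (MonFPT.len_rp (FE E) (iq n) hB (FE_cast E) s h.pos hi _ (n * M) hscl
      (fun l hl => h.len l (by omega)) hnM j hj).trans ?_
    exact mul_le_mul (pow_le_pow_right₀ hK (by omega)) (h.len i hi) (hB.nonneg _) (by positivity)
  · have h1 : im (iq n) (rp (FE E) m j s).1 i = im (iq n) s.1 i := by
      unfold im
      rw [MonFPT.rp_ne (FE E) m s him j]
    rw [h1]
    refine (h.len i hi).trans ?_
    exact le_mul_of_one_le_left (by linarith) (one_le_pow₀ hK)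

lemma LB_le_XB (n M : ℕ) (hM : 1 ≤ M) : LB n M ≤ XB n M := by
  unfold LB XB
  exact Nat.le_mul_of_pos_left _ (by positivity)

lemma ge_bound {E : Matrix (Fin n) (Fin n) ℤ} (hE : E.det ≠ 0) {M : ℕ} (hM1 : 1 ≤ M)
    {s : MonFPT.LS n} (h : PInv E M s) {m : ℕ} (hm : m < n) {j : ℕ} (hj : j ≤ m) {t : ℕ}
    (ht : t ≤ n) {a b : ℕ} (ha : a < n) (hb : b < n) :
    |ge (gr (FE E) (rp (FE E) m j s).1) t a b| ≤ M ^ 2 ^ n * LB n M := by
  have hB := posDef_BE hE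
  have hM1' : (1 : ℚ) ≤ M := by exact_mod_cast hM1
  set s' := rp (FE E) m j s with hs'
  have htri : Tri (im (iq n) s.1) (im (iq n) s'.1) := tri_rp (FE E) (iq n) m s j hj
  have hpos : ∀ k < n, 0 < bt (BE E) (im (iq n) s'.1) k := by
    intro k hk
    rw [MonFPT.bt_tri hB htri]
    exact h.pos k hk
  have hG := MonFPT.gr_cast (B := BE E) (FE E) (iq n) (FE_cast E) s'.1
  have hscl : scl (BE E) (im (iq n) s'.1) n ≤ (M : ℚ) ^ 2 ^ n := by
    rw [MonFPT.scl_tri hB htri]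
    exact MonFPT.scl_le h.pos M hM1' h.btM
  have hsct : scl (BE E) (im (iq n) s'.1) t ≤ (M : ℚ) ^ 2 ^ n :=
    (MonFPT.scl_mono hB hG hpos ht).trans hscl
  have hsc0 : 0 < scl (BE E) (im (iq n) s'.1) t := MonFPT.scl_pos hpos t ht
  have h1 := MonFPT.ge_cast hB hG t a b
  set B' := im (iq n) s'.1 with hB'
  have h2 : (BE E (pv (BE E) B' t (B' a)) (B' b)) ^ 2 ≤ ((LB n M : ℕ) : ℚ) ^ 2 := by
    rw [MonFPT.pv_left hB]
    refine (MonFPT.cauchy_schwarz hB _ _).trans ?_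
    have h3 := (MonFPT.pv_le hB B' t (B' a)).trans (len_all hE hM1 h hm hj a ha)
    have h4 := (MonFPT.pv_le hB B' t (B' b)).trans (len_all hE hM1 h hm hj b hb)
    have h5 := hB.nonneg (pv (BE E) B' t (B' b))
    rw [sq]
    exact mul_le_mul h3 h4 h5 (Nat.cast_nonneg _)
  have h3 : |BE E (pv (BE E) B' t (B' a)) (B' b)| ≤ ((LB n M : ℕ) : ℚ) :=
    abs_le_of_sq_le_sq h2 (Nat.cast_nonneg _)
  have h4 : |(ge (gr (FE E) s'.1) t a b : ℚ)| ≤ (M : ℚ) ^ 2 ^ n * (LB n M : ℕ) := by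
    rw [h1, abs_mul, abs_of_pos hsc0]
    exact mul_le_mul hsct h3 (abs_nonneg _) (by positivity)
  exact_mod_cast h4

/-! ### Bit lengths -/

/-- The exponent of `XB`. -/
def EX (n m : ℕ) : ℕ := n * n + m * n + ((3 + m * 2 ^ n * 2 + (n + m)) * n + (n + m))

/-- The bound for the bit lengths. -/
def ZZ (n m : ℕ) : ℕ := n * n + EX n m * (n + 1) + m * 2 ^ n + 1

lemma fact_le (n : ℕ) : n.factorial ≤ 2 ^ (n * n) := by
  calc n.factorial ≤ n ^ n := Nat.factorial_le_pow n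
    _ ≤ (2 ^ n) ^ n := Nat.pow_le_pow_left Nat.lt_two_pow_self.le n
    _ = 2 ^ (n * n) := by rw [← pow_mul]

lemma XB_le (n m : ℕ) : XB n (2 ^ m) ≤ 2 ^ EX n m := by
  have hn : n ≤ 2 ^ n := Nat.lt_two_pow_self.le
  have h1 : n * 2 ^ m ≤ 2 ^ (n + m) := by
    rw [pow_add]
    exact Nat.mul_le_mul_right _ hn
  have h2 : 7 * ((2 ^ m) ^ 2 ^ n) ^ 2 * (n * 2 ^ m) ≤ 2 ^ (3 + m * 2 ^ n * 2 + (n + m)) := by
    rw [pow_add, pow_add]
    apply Nat.mul_le_mul _ h1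
    apply Nat.mul_le_mul (by norm_num)
    rw [← pow_mul, ← pow_mul, mul_assoc]
  unfold XB EX
  calc n.factorial * (2 ^ m) ^ n * ((7 * ((2 ^ m) ^ 2 ^ n) ^ 2 * (n * 2 ^ m)) ^ n * (n * 2 ^ m))
      ≤ (2 ^ (n * n) * (2 ^ m) ^ n) *
        ((2 ^ (3 + m * 2 ^ n * 2 + (n + m))) ^ n * 2 ^ (n + m)) :=
        Nat.mul_le_mul (Nat.mul_le_mul_right _ (fact_le n))
          (Nat.mul_le_mul (Nat.pow_le_pow_left h2 n) h1)
    _ = _ := by rw [← pow_mul, ← pow_mul, ← pow_add, ← pow_add, ← pow_add]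

lemma binv_rp {E : Matrix (Fin n) (Fin n) ℤ} (hE : E.det ≠ 0) {m : ℕ}
    (hM : ∀ i, (E * Eᵀ) i i ≤ (2 ^ m : ℕ)) {s : MonFPT.LS n} (h : PInv E (2 ^ m) s) {i0 : ℕ}
    (hi0 : i0 < n) {j : ℕ} (hj : j ≤ i0) : BInv E (ZZ n m) (rp (FE E) i0 j s) := by
  have hM1 : 1 ≤ 2 ^ m := Nat.one_le_two_pow
  have hXB := XB_le n m
  have hLB := LB_le_XB n (2 ^ m) hM1
  have h2Z : ∀ (z : ℤ) (e : ℕ), |z| ≤ 2 ^ e → e < ZZ n m → |z| < 2 ^ ZZ n m := by
    intro z e hz he
    refine hz.trans_lt ?_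
    exact pow_lt_pow_right₀ (by norm_num) he
  have hEX : EX n m ≤ EX n m * (n + 1) := Nat.le_mul_of_pos_right _ (by omega)
  obtain ⟨h1, h2⟩ := MonFPT.entries_rp hE hM1 hM h hi0 hj
  refine ⟨fun t ht a ha b hb => ?_, fun a b => ?_, fun a b => ?_, fun a b => ?_⟩
  · apply h2Z _ (m * 2 ^ n + EX n m)
    · refine (ge_bound hE hM1 h hi0 hj ht ha hb).trans ?_
      have h3 : (2 ^ m) ^ 2 ^ n * LB n (2 ^ m) ≤ 2 ^ (m * 2 ^ n + EX n m) := by
        rw [pow_add, ← pow_mul]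
        exact Nat.mul_le_mul_left _ (hLB.trans hXB)
      exact_mod_cast h3
    · unfold ZZ
      omega
  · apply h2Z _ (EX n m)
    · have h3 := len_all hE hM1 h hi0 hj a a.2
      rw [MonFPT.BE_apply] at h3
      have h4 : (((rp (FE E) i0 j s).1 a ᵥ* E) b : ℚ) ^ 2 ≤ (LB n (2 ^ m) : ℕ) := by
        refine le_trans ?_ h3
        have h5 : ∀ l : Fin n, (im (iq n) (rp (FE E) i0 j s).1 a ᵥ* castQ E) l =
            (((rp (FE E) i0 j s).1 a ᵥ* E) l : ℚ) := by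
          intro l
          simp [im, iq, vecMul, dotProduct, castQ]
        have h6 : (((rp (FE E) i0 j s).1 a ᵥ* E) b : ℚ) ^ 2 =
            (im (iq n) (rp (FE E) i0 j s).1 a ᵥ* castQ E) b *
              (im (iq n) (rp (FE E) i0 j s).1 a ᵥ* castQ E) b := by
          rw [h5]
          ring
        rw [h6]
        exact Finset.single_le_sum (f := fun b => (im (iq n) (rp (FE E) i0 j s).1 a ᵥ* castQ E) b *
              (im (iq n) (rp (FE E) i0 j s).1 a ᵥ* castQ E) b)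
          (fun l _ => mul_self_nonneg _) (Finset.mem_univ b)
      have h7 : (((rp (FE E) i0 j s).1 a ᵥ* E) b) ^ 2 ≤ ((LB n (2 ^ m) : ℕ) : ℤ) := by
        exact_mod_cast h4
      have h8 : |((rp (FE E) i0 j s).1 a ᵥ* E) b| ≤ ((LB n (2 ^ m) : ℕ) : ℤ) := by
        refine le_trans ?_ h7
        rw [← sq_abs]
        exact Int.le_self_sq _
      refine h8.trans ?_
      exact_mod_cast hLB.trans hXB
    · unfold ZZ
      omega
  · apply h2Z _ (EX n m)
    · refine (h1 a b).trans ?_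
      exact_mod_cast hXB
    · unfold ZZ
      omega
  · apply h2Z _ (n * n + EX n m * n)
    · refine (h2 a b).trans ?_
      have h3 : n.factorial * XB n (2 ^ m) ^ n ≤ 2 ^ (n * n + EX n m * n) := by
        rw [pow_add, pow_mul 2 (EX n m) n]
        exact Nat.mul_le_mul (fact_le n) (Nat.pow_le_pow_left hXB n)
      exact_mod_cast h3
    · have h3 : EX n m * (n + 1) = EX n m * n + EX n m := by ring
      unfold ZZ
      omega

lemma bdd_of_pinv {E : Matrix (Fin n) (Fin n) ℤ} (hn : 1 ≤ n) (hE : E.det ≠ 0) {m : ℕ}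
    (hM : ∀ i, (E * Eᵀ) i i ≤ (2 ^ m : ℕ)) {s : MonFPT.LS n} (h : PInv E (2 ^ m) s) :
    Bdd E (ZZ n m) s := by
  intro p hp
  rcases Nat.lt_or_ge p (n * n) with h1 | h1
  · have hi : p / n < n := Nat.div_lt_of_lt_mul h1
    have hr : p % n < n := Nat.mod_lt _ (by omega)
    have h2 := sqf_eq E s (p / n) hi.le (p % n) hr.le (Or.inl hi)
    rw [Nat.div_add_mod] at h2
    rw [h2]
    have h3 : ∀ a b : ℕ, b < n → a < n → b - (n - a) ≤ a := by intros; omega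
    exact binv_rp hE hM (MonFPT.pinv_ra hE h hi.le) hi (h3 _ _ hr hi)
  · have h2 : p = n * n := by omega
    subst h2
    have h3 := sqf_eq E s n le_rfl 0 (Nat.zero_le _) (Or.inr rfl)
    rw [Nat.add_zero, Nat.zero_sub] at h3
    rw [h3]
    exact binv_rp hE hM (MonFPT.pinv_ra hE h le_rfl) (show 0 < n by omega) le_rfl

/-- The lists of a matrix. -/
def mt (A : Matrix (Fin n) (Fin n) ℤ) : ZM :=
  tabM n n fun i j => if h : i < n then ex (A ⟨i, h⟩) j else 0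

lemma rep_eq (E : Matrix (Fin n) (Fin n) ℤ) (s : MonFPT.LS n) :
    rep E s = (mt (rowM n s.1 * E), mt (rowM n s.1), mt (MonFPT.colM n s.2)) := by
  unfold rep mt
  refine Prod.ext ?_ (Prod.ext ?_ ?_)
  · refine tabM_congr fun i hi j hj => ?_
    rw [dif_pos hi, ex_lt _ hj, ex_lt _ hj]
    rfl
  · refine tabM_congr fun i hi j hj => ?_
    rw [dif_pos hi, ex_lt _ hj, ex_lt _ hj]
    rfl
  · refine tabM_congr fun i hi j hj => ?_
    rw [dif_pos hi, ex_lt _ hj, ex_lt _ hi]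
    rfl

/-- The bound for the fuel. -/
def FB (n s : ℕ) : ℕ := SB n (ZZ n (n + 2 * s)) + 3 * (2 ^ n * (n + 2 * s))

/-- **The specification of the lattice reduction.** -/
theorem lll_spec {n s fu : ℕ} (hn : 1 ≤ n) (E : Matrix (Fin n) (Fin n) ℤ) (hE : E.det ≠ 0)
    (hs : ∀ i j, |E i j| ≤ 2 ^ s) (hfu : FB n s ≤ fu) :
    ∃ U W : Matrix (Fin n) (Fin n) ℤ, lll fu n (mt E) = (mt (U * E), mt U, mt W) ∧ W * U = 1 ∧
      (∃ (mu : Matrix (Fin n) (Fin n) ℚ) (D : Fin n → ℚ),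
        IsRed (castQ (U * E) * (castQ (U * E))ᵀ) mu D) ∧
      (∀ i j, |U i j| < 2 ^ ZZ n (n + 2 * s)) ∧ (∀ i j, |W i j| < 2 ^ ZZ n (n + 2 * s)) ∧
      ∀ i j, |(U * E) i j| < 2 ^ ZZ n (n + 2 * s) := by
  set m := n + 2 * s with hm
  have hSB : SB n (ZZ n m) ≤ fu := le_trans (Nat.le_add_right _ _) hfu
  have hM : ∀ i, (E * Eᵀ) i i ≤ (2 ^ m : ℕ) := by
    intro i
    rw [Matrix.mul_apply]
    have h1 : ∀ j ∈ Finset.univ, E i j * Eᵀ j i ≤ (2 : ℤ) ^ (2 * s) := by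
      intro j _
      rw [transpose_apply, ← sq, ← sq_abs, pow_mul']
      exact pow_le_pow_left₀ (abs_nonneg _) (hs i j) 2
    refine (Finset.sum_le_sum h1).trans ?_
    rw [Finset.sum_const, Finset.card_univ, Fintype.card_fin, nsmul_eq_mul]
    push_cast
    rw [hm, pow_add]
    apply mul_le_mul_of_nonneg_right _ (by positivity)
    exact_mod_cast (Nat.lt_two_pow_self (n := n)).le
  have hM1 : 1 ≤ 2 ^ m := Nat.one_le_two_pow
  have h0 := MonFPT.pinv_e0 hE hM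
  have hinit : (mt E, idM n, idM n) = rep E (e0 n, e0 n) := by
    rw [rep_eq, MonFPT.rowM_e0, MonFPT.colM_e0, one_mul]
    refine Prod.ext rfl ?_
    have h1 : idM n = mt (1 : Matrix (Fin n) (Fin n) ℤ) := by
      unfold idM mt
      refine tabM_congr fun i hi j hj => ?_
      rw [dif_pos hi, ex_lt _ hj, Matrix.one_apply]
      simp only [Fin.mk.injEq]
    exact Prod.ext h1 h1
  have hfirst : szRed fu n (mt E, idM n, idM n) = rep E (ra (FE E) n (e0 n, e0 n)) := by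
    rw [hinit]
    exact szRed_rep hSB E _ (bdd_of_pinv hn hE hM h0)
  have hp1 := MonFPT.pinv_ra hE h0 le_rfl
  have hb : ∀ s' : MonFPT.LS n, PInv E (2 ^ m) s' → BInv E (ZZ n m) s' := fun s' hs' =>
    binv_rp hE hM hs' (show 0 < n by omega) (Nat.zero_le 0)
  have hiter : ∀ t, (lllStep fu n)^[t] (rep E (ra (FE E) n (e0 n, e0 n))) =
      rep E ((st (FE E) n)^[t] (ra (FE E) n (e0 n, e0 n))) := by
    intro t
    induction t with
    | zero => rfl
    | succ t ih =>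
      rw [Function.iterate_succ_apply', Function.iterate_succ_apply', ih]
      have h1 := MonFPT.pinv_iter hE hp1 t
      exact lllStep_rep hSB E _ (hb _ h1) fun k hk =>
        bdd_of_pinv hn hE hM (MonFPT.pinv_sw hE h1 hk)
  have hres : lll fu n (mt E) = rep E ((st (FE E) n)^[fu] (ra (FE E) n (e0 n, e0 n))) := by
    unfold lll
    rw [hfirst, bIter_eq, hiter]
    intro t _
    rw [hiter]
    have h1 := sz_rep (hb _ (MonFPT.pinv_iter hE hp1 (t + 1)))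
    unfold SB at hSB
    omega
  set s' := (st (FE E) n)^[fu] (ra (FE E) n (e0 n, e0 n)) with hs'
  have hb' := hb s' (MonFPT.pinv_iter hE hp1 fu)
  have hT : 3 * (2 ^ n * m) ≤ fu := le_trans (Nat.le_add_left _ _) hfu
  obtain ⟨h1, h2⟩ := MonFPT.lll hE hM1 hM (L := m) (by omega) le_rfl fu hT
  refine ⟨rowM n s'.1, MonFPT.colM n s'.2, ?_, h1, h2, fun i j => hb'.ub i j, fun i j => hb'.wb j i,
    fun i j => hb'.bb i j⟩
  rw [hres, rep_eq]

end Pool.Agent.MDF.LR
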