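import Pool.Agent.MDF.Tab
import Pool.Agent.MonFPT.GLLL

/-!
# The lattice reduction on lists
-/

set_option autoImplicit false
set_option linter.unusedSectionVars false
set_option linter.unusedVariables false

namespace Pool.Agent.MDF.LR

open Pool.Agent.PF Matrix
open Pool.Agent.MonFPT (FE BE iq im gr ge rp ra rs rd st fv lv qq PInv XB rowM colM castQ IsRed e0
  bt scl pv posDef_BE FE_cast Tri tri_ra tri_rp)

variable {n : ℕ}

/-- The entries of a vector. -/
def ex (x : Fin n → ℤ) (j : ℕ) : ℤ := if h : j < n then x ⟨j, h⟩ else 0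

lemma ex_lt (x : Fin n → ℤ) {j : ℕ} (h : j < n) : ex x j = x ⟨j, h⟩ := dif_pos h

lemma ex_fin (x : Fin n → ℤ) (j : Fin n) : ex x j = x j := ex_lt x j.2

/-- The lists of a state. -/
def rep (E : Matrix (Fin n) (Fin n) ℤ) (s : MonFPT.LS n) : LS :=
  (tabM n n fun i j => ex (s.1 i ᵥ* E) j, tabM n n fun i j => ex (s.1 i) j,
    tabM n n fun i j => ex (s.2 j) i)

/-! ### Elimination -/

lemma gram_rep (E : Matrix (Fin n) (Fin n) ℤ) (s : MonFPT.LS n) :
    gram n (rep E s).1 = tabM n n (gr (FE E) s.1) := by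
  refine tabM_congr fun i hi j hj => ?_
  rw [dot_eq, Finset.sum_range]
  unfold gr FE dotProduct
  refine Finset.sum_congr rfl fun l _ => ?_
  unfold rep
  simp only
  rw [row_tabM_lt _ _ hi, row_tabM_lt _ _ hj, g1_tab_lt _ l.2, g1_tab_lt _ l.2, ex_fin, ex_fin]

lemma elStep_iter (G : ℕ → ℕ → ℤ) : ∀ t ≤ n,
    (elStep n)^[t] (0, tabM n n G) = (t, tabM n n (ge G t))
  | 0, _ => rfl
  | t + 1, h => by
    rw [Function.iterate_succ_apply', elStep_iter G t (by omega)]
    unfold elStep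
    simp only
    congr 1
    refine tabM_congr fun i hi j hj => ?_
    rw [g2_tabM _ (show t < n by omega) (by omega), g2_tabM _ hi hj, g2_tabM _ hi (by omega),
      g2_tabM _ (by omega) hj]
    rfl

/-- The bound for the size of the states, `2 ^ Z` being the bound for the entries. -/
def SB (n Z : ℕ) : ℕ := 2 * (n * n) + 3 * (n * (n * (4 * Z + 6) + 2) + 1) + 5

lemma elim_rep {fu Z : ℕ} (hfu : SB n Z ≤ fu) (E : Matrix (Fin n) (Fin n) ℤ)
    (s : MonFPT.LS n) {k : ℕ} (hk : k ≤ n)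
    (hZ : ∀ t ≤ k, ∀ i < n, ∀ j < n, |ge (gr (FE E) s.1) t i j| < 2 ^ Z) :
    elim fu n k (rep E s).1 = tabM n n (ge (gr (FE E) s.1) k) := by
  unfold elim
  rw [gram_rep, bIter_eq, elStep_iter _ k hk]
  intro t ht
  rw [elStep_iter _ _ (by omega), sz_prod, sz_nat]
  have h1 := sz_tabM_le (n := n) (m := n) (hZ (t + 1) (by omega))
  have h2 : n ≤ n * n := Nat.le_mul_self n
  unfold SB at hfu
  omega

/-! ### Size reduction -/

/-- One operation, for the number `p`. -/
def sq1 (E : Matrix (Fin n) (Fin n) ℤ) (p : ℕ) (s : MonFPT.LS n) : MonFPT.LS n :=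
  if n - 1 - p % n < p / n then rs (FE E) s (p / n) (n - 1 - p % n) else s

/-- The states of the size reduction. -/
def sqf (E : Matrix (Fin n) (Fin n) ℤ) (s : MonFPT.LS n) : ℕ → MonFPT.LS n
  | 0 => s
  | p + 1 => sq1 E p (sqf E s p)

lemma rep_rs (E : Matrix (Fin n) (Fin n) ℤ) (s : MonFPT.LS n) {i j : ℕ} (hi : i < n)
    (hj : j < i) :
    rep E (rs (FE E) s i j) = (addRow n (rep E s).1 i j (- qq (FE E) s.1 i j),
      addRow n (rep E s).2.1 i j (- qq (FE E) s.1 i j),
      addCol n (rep E s).2.2 i j (- qq (FE E) s.1 i j)) := by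
  set q := qq (FE E) s.1 i j with hq
  have hjn : j < n := by omega
  unfold rep addRow addCol
  simp only
  refine Prod.ext ?_ (Prod.ext ?_ ?_)
  · refine tabM_congr fun a ha l hl => ?_
    by_cases hai : a = i
    · subst hai
      rw [if_pos rfl, g2_tabM _ ha hl, g2_tabM _ hjn hl]
      unfold rs
      simp only [Function.update_self]
      rw [ex_lt _ hl, ex_lt _ hl, ex_lt _ hl, sub_vecMul, smul_vecMul, Pi.sub_apply,
        Pi.smul_apply, smul_eq_mul, ← hq]
      ring
    · rw [if_neg hai, g2_tabM _ ha hl]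
      unfold rs
      simp only [Function.update_of_ne hai]
  · refine tabM_congr fun a ha l hl => ?_
    by_cases hai : a = i
    · subst hai
      rw [if_pos rfl, g2_tabM _ ha hl, g2_tabM _ hjn hl]
      unfold rs
      simp only [Function.update_self]
      rw [ex_lt _ hl, ex_lt _ hl, ex_lt _ hl, Pi.sub_apply, Pi.smul_apply, smul_eq_mul, ← hq]
      ring
    · rw [if_neg hai, g2_tabM _ ha hl]
      unfold rs
      simp only [Function.update_of_ne hai]
  · refine tabM_congr fun a ha l hl => ?_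
    by_cases hlj : l = j
    · subst hlj
      rw [if_pos rfl, g2_tabM _ ha hl, g2_tabM _ ha hi]
      unfold rs
      simp only [Function.update_self]
      rw [ex_lt _ ha, ex_lt _ ha, ex_lt _ ha, Pi.add_apply, Pi.smul_apply, smul_eq_mul, ← hq]
      ring
    · rw [if_neg hlj, g2_tabM _ ha hl]
      unfold rs
      simp only [Function.update_of_ne hlj]

lemma szStep_rep {fu Z : ℕ} (hfu : SB n Z ≤ fu) (E : Matrix (Fin n) (Fin n) ℤ)
    (s : MonFPT.LS n) {p : ℕ} (hp : p < n * n)
    (hZ : ∀ t ≤ n, ∀ i < n, ∀ j < n, |ge (gr (FE E) s.1) t i j| < 2 ^ Z) :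
    szStep fu n (p, rep E s) = (p + 1, rep E (sq1 E p s)) := by
  have hi : p / n < n := Nat.div_lt_of_lt_mul hp
  unfold szStep sq1
  simp only
  by_cases h : n - 1 - p % n < p / n
  · have hj : n - 1 - p % n < n := by omega
    rw [if_pos h, if_pos h, elim_rep hfu E s hj.le fun t ht => hZ t (by omega),
      g2_tabM _ hi hj, g2_tabM _ hj hj, rep_rs E s hi h]
    rfl
  · rw [if_neg h, if_neg h]

lemma sqf_eq (E : Matrix (Fin n) (Fin n) ℤ) (s : MonFPT.LS n) : ∀ i ≤ n, ∀ r ≤ n,
    (i < n ∨ r = 0) → sqf E s (n * i + r) = rp (FE E) i (r - (n - i)) (ra (FE E) i s) := by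
  intro i
  induction i with
  | zero =>
    intro _ r
    induction r with
    | zero =>
      intro _ _
      rw [Nat.mul_zero, Nat.zero_sub]
      rfl
    | succ r ih =>
      intro hr hir
      have h1 := ih (by omega) (by omega)
      have hr0 : r < n := by omega
      rw [Nat.mul_zero, Nat.zero_add] at h1 ⊢
      change sq1 E r (sqf E s r) = _
      rw [h1]
      unfold sq1
      rw [Nat.div_eq_of_lt hr0, if_neg (by omega)]
      have h2 : r - (n - 0) = 0 := by omega
      have h3 : r + 1 - (n - 0) = 0 := by omega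
      rw [h2, h3]
  | succ i ihi =>
    intro hi r
    induction r with
    | zero =>
      intro _ _
      have h1 := ihi (by omega) n le_rfl (Or.inl (by omega))
      have h2 : n * (i + 1) + 0 = n * i + n := by ring
      have h3 : 0 - (n - (i + 1)) = 0 := by omega
      have h4 : n - (n - i) = i := by omega
      rw [h2, h1, h3, h4, ← MonFPT.rd_eq_rp]
      rfl
    | succ r ih =>
      intro hr hir
      have hi' : i + 1 < n := by omega
      have h1 := ih (by omega) (Or.inl hi')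
      have h2 : n * (i + 1) + (r + 1) = (n * (i + 1) + r) + 1 := by ring
      have hr0 : r < n := by omega
      have h3 : (n * (i + 1) + r) / n = i + 1 := by
        rw [Nat.mul_add_div (by omega), Nat.div_eq_of_lt hr0, Nat.add_zero]
      have h4 : (n * (i + 1) + r) % n = r := by
        rw [Nat.mul_add_mod, Nat.mod_eq_of_lt hr0]
      rw [h2]
      change sq1 E (n * (i + 1) + r) (sqf E s (n * (i + 1) + r)) = _
      rw [h1]
      unfold sq1
      rw [h3, h4]
      by_cases h5 : n - 1 - r < i + 1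
      · rw [if_pos h5]
        have h6 : r + 1 - (n - (i + 1)) = (r - (n - (i + 1))) + 1 := by omega
        rw [h6]
        change _ = rs (FE E) (rp (FE E) (i + 1) (r - (n - (i + 1))) (ra (FE E) (i + 1) s)) (i + 1)
          (i + 1 - 1 - (r - (n - (i + 1))))
        congr 1
        omega
      · rw [if_neg h5]
        have h6 : r + 1 - (n - (i + 1)) = 0 := by omega
        have h7 : r - (n - (i + 1)) = 0 := by omega
        rw [h6, h7]

/-! ### Bounds -/

/-- All numbers are bounded by `2 ^ Z`. -/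
structure BInv (E : Matrix (Fin n) (Fin n) ℤ) (Z : ℕ) (s : MonFPT.LS n) : Prop where
  gb : ∀ t ≤ n, ∀ i < n, ∀ j < n, |ge (gr (FE E) s.1) t i j| < 2 ^ Z
  bb : ∀ i j : Fin n, |(s.1 i ᵥ* E) j| < 2 ^ Z
  ub : ∀ i j : Fin n, |s.1 i j| < 2 ^ Z
  wb : ∀ i j : Fin n, |s.2 i j| < 2 ^ Z

lemma sz_rep {E : Matrix (Fin n) (Fin n) ℤ} {Z : ℕ} {s : MonFPT.LS n} (h : BInv E Z s) :
    sz (rep E s) ≤ 3 * (n * (n * (4 * Z + 6) + 2) + 1) + 2 := by
  have h1 : sz (rep E s).1 ≤ n * (n * (4 * Z + 6) + 2) + 1 :=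
    sz_tabM_le fun i hi j hj => by rw [ex_lt _ hj]; exact h.bb ⟨i, hi⟩ ⟨j, hj⟩
  have h2 : sz (rep E s).2.1 ≤ n * (n * (4 * Z + 6) + 2) + 1 :=
    sz_tabM_le fun i hi j hj => by rw [ex_lt _ hj]; exact h.ub ⟨i, hi⟩ ⟨j, hj⟩
  have h3 : sz (rep E s).2.2 ≤ n * (n * (4 * Z + 6) + 2) + 1 :=
    sz_tabM_le fun i hi j hj => by rw [ex_lt _ hi]; exact h.wb ⟨j, hj⟩ ⟨i, hi⟩
  have h4 : sz (rep E s) = sz (rep E s).1 + (sz (rep E s).2.1 + sz (rep E s).2.2 + 1) + 1 := rfl
  omega

lemma szRed_rep {fu Z : ℕ} (hfu : SB n Z ≤ fu) (E : Matrix (Fin n) (Fin n) ℤ)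
    (s : MonFPT.LS n) (hZ : ∀ p ≤ n * n, BInv E Z (sqf E s p)) :
    szRed fu n (rep E s) = rep E (ra (FE E) n s) := by
  have h1 : ∀ p ≤ n * n, (szStep fu n)^[p] (0, rep E s) = (p, rep E (sqf E s p)) := by
    intro p
    induction p with
    | zero => intro _; rfl
    | succ p ih =>
      intro hp
      rw [Function.iterate_succ_apply', ih (by omega),
        szStep_rep hfu E _ (by omega) (hZ p (by omega)).gb]
      rfl
  unfold szRed
  rw [bIter_eq, h1 _ le_rfl]
  · have h2 := sqf_eq E s n le_rfl 0 (Nat.zero_le _) (Or.inr rfl)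
    rw [Nat.add_zero, Nat.zero_sub] at h2
    rw [h2]
    rfl
  · intro t ht
    rw [h1 _ (by omega), sz_prod, sz_nat]
    have h2 := sz_rep (hZ (t + 1) (by omega))
    unfold SB at hfu
    omega

/-! ### The exchange -/

lemma find_congr {α : Type} {p q : α → Bool} : ∀ (l : List α), (∀ a ∈ l, p a = q a) →
    l.find? p = l.find? q
  | [], _ => rfl
  | a :: l, h => by
    rw [List.find?_cons, List.find?_cons, h a (by simp),
      find_congr l fun b hb => h b (List.mem_cons_of_mem _ hb)]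

lemma findN_lov {fu Z : ℕ} (hfu : SB n Z ≤ fu) (E : Matrix (Fin n) (Fin n) ℤ)
    (s : MonFPT.LS n) (h : BInv E Z s) :
    findN (n - 1) (lov fu n (rep E s).1) = fv (FE E) n s.1 := by
  unfold findN fv
  refine find_congr _ fun i hi => ?_
  rw [List.mem_range] at hi
  unfold lov lv
  simp only
  rw [elim_rep hfu E s (by omega) fun t ht => h.gb t (by omega),
    g2_tabM _ (by omega) (by omega), g2_tabM _ (by omega) (by omega)]

lemma sw_fn {W : Type} (b : ℕ → W) (k i : ℕ) : MonFPT.sw b k i = b (sw k i) := by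
  unfold MonFPT.sw sw
  split_ifs <;> rfl

lemma sw_lt_n {k i : ℕ} (hk : k + 1 < n) (hi : i < n) : sw k i < n := by
  unfold sw
  split_ifs <;> omega

lemma rep_sw (E : Matrix (Fin n) (Fin n) ℤ) (s : MonFPT.LS n) {k : ℕ} (hk : k + 1 < n) :
    rep E (MonFPT.sw s.1 k, MonFPT.sw s.2 k) =
      (swRow n (rep E s).1 k, swRow n (rep E s).2.1 k, swCol n (rep E s).2.2 k) := by
  unfold rep swRow swCol
  simp only
  refine Prod.ext ?_ (Prod.ext ?_ ?_)
  · refine tabM_congr fun a ha l hl => ?_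
    rw [g2_tabM _ (sw_lt_n hk ha) hl, sw_fn]
  · refine tabM_congr fun a ha l hl => ?_
    rw [g2_tabM _ (sw_lt_n hk ha) hl, sw_fn]
  · refine tabM_congr fun a ha l hl => ?_
    rw [g2_tabM _ ha (sw_lt_n hk hl), sw_fn]

/-- All the states reached from `s` by size reduction are bounded. -/
def Bdd (E : Matrix (Fin n) (Fin n) ℤ) (Z : ℕ) (s : MonFPT.LS n) : Prop :=
  ∀ p ≤ n * n, BInv E Z (sqf E s p)

lemma lllStep_rep {fu Z : ℕ} (hfu : SB n Z ≤ fu) (E : Matrix (Fin n) (Fin n) ℤ)
    (s : MonFPT.LS n) (h : BInv E Z s)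
    (hb : ∀ k, fv (FE E) n s.1 = some k → Bdd E Z (MonFPT.sw s.1 k, MonFPT.sw s.2 k)) :
    lllStep fu n (rep E s) = rep E (st (FE E) n s) := by
  unfold lllStep
  rw [findN_lov hfu E s h]
  unfold st
  cases hk : fv (FE E) n s.1 with
  | none => rfl
  | some k =>
    have h1 := MonFPT.fv_some (FE E) hk
    change szRed fu n _ = rep E (ra (FE E) n (MonFPT.sw s.1 k, MonFPT.sw s.2 k))
    rw [← szRed_rep hfu E _ (hb k hk), rep_sw E s h1.1]

end Pool.Agent.MDF.LR
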