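import Pool.Agent.MDF.DeepDefs
import Pool.Agent.MDF.Cone
import Pool.Agent.MonFPT.MainStepI

/-!
# The main path: states, specifications of the two searches
-/

set_option autoImplicit false

namespace Pool.Agent.MDF

open Pool.Agent.PF Pool.Agent.MonFPT Matrix

/-- A piece is correct, with bound `X` for the bit lengths. -/
structure PieceOK (d X : ℕ) (rz : Rows) (P : Piece) : Prop where
  dim : P.1 ≤ d
  mF : MB d P.1 X P.2.1
  v0 : VB d X P.2.2.1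
  rad : P.2.2.2 ≤ X
  box : ∀ z : Fin P.1 → ℤ, InRows P.1 (prow d rz P) z → ∀ i, |z i| ≤ 2 ^ P.2.2.2

/-- The inequalities imply `0 ≤ z`, `1 ≤ ∑ z`. -/
def PosRows (d : ℕ) (rz : Rows) : Prop := ∀ z ∈ SR d rz, (∀ i, 0 ≤ z i) ∧ 1 ≤ ∑ i, z i

/-- The pieces and the equations of a state are correct, with bound `X` for the bit lengths. -/
structure StOK (d X : ℕ) (rz : Rows) (a : ZV) (J : List Piece) (k : ℕ) (WM WI : ZM) (γ : ZV) :
    Prop where
  pos : PosRows d rz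
  va : VB d X a
  len : J.length ≤ 2 ^ d
  pc : ∀ P ∈ J, PieceOK d X rz P
  hk : k ≤ totN J
  uw : UW (totN J) X WM WI
  vg : VB k X γ

/-- The target vector. -/
def tgtV (d : ℕ) (a : ZV) (k : ℕ) (γ : ZV) : Fin (d + k) → ℤ := vec (d + k) (tgt d a γ k)

/-- `x` is a point of the piece `j`, usable for the state. -/
def UsableS (d : ℕ) (rz : Rows) (a : ZV) (J : List Piece) (k : ℕ) (WM : ZM) (γ : ZV)
    (j : Fin J.length) (x : Fin (eJ J j) → ℤ) : Prop :=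
  x ∈ pset (SR d rz) (eJ J) (phiJ d J) j ∧
    IsUsable (SR d rz) (eJ J) (phiJ d J) (psiJ d J k WM) (tgtV d a k γ) j x

/-- The lower end of the strip; the same number as in `newP`. -/
def bE (fu d e σ : ℕ) (o : Res) : ℤ :=
  tauc fu d * (sumz e fun i => g2 o.2.2.1 0 i * res fu (kkc fu d) σ i) +
    tauc fu d * kkc fu d * (o.2.2.2.2 - (Gd fu d + 1))

/-- **Specification of Step 1** (the search in the piece `j`, residue class `σ`). -/
def StepEHyp (F : ℕ → ℕ) : Prop :=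
  ∀ (fu d X t : ℕ) (rz : Rows) (a : ZV) (J : List Piece) (k : ℕ) (WM WI : ZM) (γ : ZV)
    (j : Fin J.length) (σ : ℕ) (o : Res),
    StOK d X rz a J k WM WI γ → F d * (X + 1) ≤ fu →
    o = flatE fu d rz a (t, 0, J, k, WM, WI, γ) j σ →
    (o.1 = 1 ∧ VB (eJ J j) (F d * (X + 1)) o.2.1 ∧
      UsableS d rz a J k WM γ j
        (vec (eJ J j) (ptE fu (kkc fu d) (tauc fu d) (eJ J j) σ o.2.1))) ∨
    (o.1 = 2 ∧ 0 < eJ J j ∧ UW (eJ J j) (F d * (X + 1)) o.2.2.1 o.2.2.2.1 ∧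
      |o.2.2.2.2| ≤ 2 ^ (F d * (X + 1)) ∧
      ∀ x, UsableS d rz a J k WM γ j x →
        bE fu d (eJ J j) σ o ≤ vec (eJ J j) (row o.2.2.1 0) ⬝ᵥ x ∧
        vec (eJ J j) (row o.2.2.1 0) ⬝ᵥ x ≤
          bE fu d (eJ J j) σ o + 2 * (tauc fu d * kkc fu d * (Gd fu d + 1) : ℕ)) ∨
    (o.1 = 3 ∧ ∀ x, ¬ UsableS d rz a J k WM γ j x)

/-- The certificate points of a piece as a family. -/
def ptF (J : List Piece) (pts : List (List ZV)) (j : Fin J.length)
    (s : Fin (pts.getD j []).length) : Fin (eJ J j) → ℤ :=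
  vec (eJ J j) ((pts.getD j []).getD s [])

/-- The certificate points are found in all residue classes. -/
def FoundS (fu d : ℕ) (rz : Rows) (a : ZV) (J : List Piece) (k : ℕ) (WM : ZM) (γ : ZV)
    (pts : List (List ZV)) : Prop :=
  FoundI (SR d rz) (eJ J) (phiJ d J) (psiJ d J k WM) (tgtV d a k γ) (kkc fu d) (tauc fu d)
    (ptF J pts)

/-- The deep points. -/
def DeepP (d : ℕ) (rz : Rows) (a : ZV) (J : List Piece) (k : ℕ) (WM : ZM) (γ : ZV)
    (pts : List (List ZV)) : Set (∀ j, (Fin (eJ J j) → ℚ) × ℚ) :=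
  DeepI (SR d rz) (eJ J) (phiJ d J) (psiJ d J k WM) (tgtV d a k γ) (ptF J pts)
    (1 / (2 * ((2 ^ d : ℕ) : ℚ)))

/-- **Specification of Step 2** (the search in the deep region). -/
def DeepHyp (F : ℕ → ℕ) : Prop :=
  ∀ (fu d X t : ℕ) (rz : Rows) (a : ZV) (J : List Piece) (k : ℕ) (WM WI : ZM) (γ : ZV)
    (pts : List (List ZV)) (o : Res),
    StOK d X rz a J k WM WI γ → F d * (X + 1) ≤ fu →
    (∀ j < J.length, (pts.getD j []).length ≤ (d + 1).factorial ^ d ∧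
      ∀ p ∈ pts.getD j [], VB (pc J j).1 X p) →
    FoundS fu d rz a J k WM γ pts →
    o = flat fu (totN J - k) (Gc fu (totN J)) (radD d a (t, 0, J, k, WM, WI, γ))
      (orcD fu d rz a (t, 0, J, k, WM, WI, γ) pts) →
    (o.1 = 1 ∧ ∃ y : ∀ j, (Fin (eJ J j) → ℤ) × ℤ,
      (fun j => cast2 (y j)) ∈ DeepP d rz a J k WM γ pts) ∨
    (o.1 = 2 ∧ 0 < totN J - k ∧ UW (totN J - k) (F d * (X + 1)) o.2.2.1 o.2.2.2.1 ∧
      |o.2.2.2.2| ≤ 2 ^ (F d * (X + 1)) ∧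
      ∀ y : ℕ → ℚ, blkN J y ∈ DeepP d rz a J k WM γ pts →
        |∑ i ∈ Finset.range (totN J - k), (g2 o.2.2.1 0 i : ℚ) *
          ∑ b ∈ Finset.range (totN J), (g2 WM (k + i) b : ℚ) * y b - o.2.2.2.2| ≤
            (Gc fu (totN J) : ℚ) + 1) ∨
    (o.1 = 3 ∧ DeepP d rz a J k WM γ pts = ∅)

end Pool.Agent.MDF
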