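import Pool.Agent.MDF.Flat

/-!
# Correctness of the search for an integral point
-/

set_option autoImplicit false

namespace Pool.Agent.MDF

open Pool.Agent.PF Pool.Agent.MonFPT Matrix

/-! ### Optional values -/

lemma firstSome_mem {α : Type} {l : List (Option α)} {a : α} (h : firstSome l = some a) :
    some a ∈ l := by
  unfold firstSome at h
  rw [Option.join_eq_some_iff] at h
  exact List.mem_of_find?_eq_some h

lemma firstSome_eq_none {α : Type} {l : List (Option α)} (h : firstSome l = none) {o : Option α}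
    (ho : o ∈ l) : o = none := by
  unfold firstSome at h
  rw [Option.join_eq_none_iff] at h
  rcases h with h | h
  · rw [List.find?_eq_none] at h
    have := h o ho
    simpa using this
  · have := List.find?_some h
    simp at this

/-! ### Powers and digits -/

lemma tpow_min (fu b n : ℕ) (hb : 1 ≤ b) : tpow fu b n = min (b ^ n) fu := by
  have key : ∀ k : ℕ, (fun m => min (m * b) fu)^[k] (min 1 fu) = min (b ^ k) fu := by
    intro k
    induction k with
    | zero => rw [pow_zero]; rfl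
    | succ k ih =>
      rw [Function.iterate_succ_apply', ih, pow_succ]
      rcases le_total (b ^ k) fu with h | h
      · rw [min_eq_left h]
      · rw [min_eq_right h]
        have h1 : fu ≤ fu * b := Nat.le_mul_of_pos_right _ hb
        have h2 : fu ≤ b ^ k * b := h.trans (Nat.le_mul_of_pos_right _ hb)
        rw [min_eq_right h1, min_eq_right h2]
  unfold tpow
  rw [bIter_eq, key]
  intro i _
  rw [key, sz_nat]
  have := min_le_right (b ^ (i + 1)) fu
  omega

lemma tpow_eq {fu b n : ℕ} (hb : 1 ≤ b) (h : b ^ n ≤ fu) : tpow fu b n = b ^ n := by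
  rw [tpow_min fu b n hb, min_eq_left h]

lemma dig_lt {fu b g t : ℕ} (hb : 1 ≤ b) : dig fu b g t < b := Nat.mod_lt _ hb

lemma dig_eq {fu b g t : ℕ} (hb : 1 ≤ b) (h : b ^ t ≤ fu) : dig fu b g t = g / b ^ t % b := by
  unfold dig
  rw [tpow_eq hb h]

/-- Every sequence of digits is the sequence of digits of a number. -/
lemma exists_digits (b : ℕ) (n : ℕ) : ∀ d : ℕ → ℕ, (∀ i, d i < b) →
    ∃ g < b ^ n, ∀ i < n, g / b ^ i % b = d i := by
  induction n with
  | zero => intro d _; exact ⟨0, by simp, fun i hi => absurd hi (Nat.not_lt_zero i)⟩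
  | succ n ih =>
    intro d hd
    obtain ⟨g, hg, hgd⟩ := ih (fun i => d (i + 1)) fun i => hd _
    have hb : 0 < b := lt_of_le_of_lt (Nat.zero_le _) (hd 0)
    refine ⟨d 0 + b * g, ?_, fun i hi => ?_⟩
    · have h1 : g + 1 ≤ b ^ n := hg
      have h2 : b * (g + 1) ≤ b * b ^ n := Nat.mul_le_mul_left b h1
      rw [pow_succ, mul_comm (b ^ n) b]
      have := hd 0
      rw [Nat.mul_add, mul_one] at h2
      omega
    · cases i with
      | zero => rw [pow_zero, Nat.div_one, Nat.add_mul_mod_self_left, Nat.mod_eq_of_lt (hd 0)]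
      | succ i =>
        rw [pow_succ, mul_comm (b ^ i) b, ← Nat.div_div_eq_div_mul, Nat.add_mul_div_left _ _ hb,
          Nat.div_eq_of_lt (hd 0), Nat.zero_add]
        exact hgd i (by omega)

/-! ### Charts of lists -/

/-- The chart of an affine map. -/
def chS (n m : ℕ) (F : ZM) (f0 : ZV) : Chart n m := ⟨vec n f0, mtx n m F⟩

lemma chS_aff (n m : ℕ) (F : ZM) (f0 x : ZV) :
    vec n (aff n m F f0 x) = (chS n m F f0).pt (vec m x) := vec_aff n m F f0 x

lemma chS_pull (n m : ℕ) (F : ZM) (f0 h : ZV) :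
    vec m (pull n m F h) = (chS n m F f0).pull (vec n h) := vec_pull n m F h

lemma chS_slice (n m : ℕ) (F W : ZM) (f0 : ZV) (c : ℤ) :
    chS n m (sliceF n (m + 1) F W) (sliceO n (m + 1) F W f0 c) =
      (chS n (m + 1) F f0).slice (mtx (m + 1) (m + 1) W) c := by
  have h1 : vec n (sliceO n (m + 1) F W f0 c) =
      fun i => vec n f0 i + c * (mtx n (m + 1) F * mtx (m + 1) (m + 1) W) i 0 := by
    funext i
    unfold sliceO
    rw [vec_apply, g1_tab_lt _ i.2, sumz_eq, Matrix.mul_apply, mul_comm c]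
    rfl
  have h2 : mtx n m (sliceF n (m + 1) F W) =
      (mtx n (m + 1) F * mtx (m + 1) (m + 1) W).submatrix id Fin.succ := by
    unfold sliceF
    rw [Nat.add_sub_cancel, mtx_tabM]
    funext i j
    rw [sumz_eq, submatrix_apply, Matrix.mul_apply]
    rfl
  unfold chS Chart.slice
  rw [h1, h2]

lemma chS_id (n : ℕ) : (chS n n (idM n) (tab n fun _ => 0)).base = 0 ∧
    (chS n n (idM n) (tab n fun _ => 0)).cols = 1 := by
  constructor
  · funext i
    change g1 (tab n fun _ => 0) i = 0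
    rw [g1_tab_lt _ i.2]
  · change mtx n n (idM n) = 1
    unfold idM
    rw [mtx_tabM]
    funext i j
    rw [Matrix.one_apply]
    by_cases h : i = j
    · subst h; simp
    · rw [if_neg h, if_neg fun h' => h (Fin.ext h')]

lemma chS_id_pt (n : ℕ) (z : Fin n → ℤ) : (chS n n (idM n) (tab n fun _ => 0)).pt z = z := by
  rw [Chart.pt, (chS_id n).1, (chS_id n).2, one_mulVec, zero_add]

lemma chS_id_ptQ (n : ℕ) (y : Fin n → ℚ) : (chS n n (idM n) (tab n fun _ => 0)).ptQ y = y := by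
  funext i
  unfold Chart.ptQ
  rw [(chS_id n).1, (chS_id n).2]
  simp [Matrix.one_apply]

/-! ### The basic search -/

/-- Correctness of the basic search. -/
def FlatHyp (e : ℕ → ℕ) : Prop :=
  ∀ (fu n G r : ℕ) (orc : Orc) (K : Set (Fin n → ℚ)), flatG n ≤ G → e n * (r + 1) ≤ fu →
    InBox r K → OrcOK (e n * (r + 1)) K orc →
    FlatRes G (e n * (r + 1)) K orc (flat fu n G r orc)

/-! ### One step of a path -/

/-- A step of a path with a given digit. -/
def pstep (fu n : ℕ) (G : ℤ) (orc : Orc) (δ : ℕ) (p : SS) : SS :=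
  let t := p.1
  let st := p.2.1
  let m := p.2.2.2.1
  let F := p.2.2.2.2.1
  let f0 := p.2.2.2.2.2.1
  let r := p.2.2.2.2.2.2
  if st = 0 then
    let o := flat fu m G r fun x => (orc (aff n m F f0 x)).map (pull n m F)
    if o.1 = 1 then (t + 1, 1, aff n m F f0 o.2.1, m, F, f0, r)
    else if o.1 = 2 then
      let U := o.2.2.1
      let W := o.2.2.2.1
      let c := o.2.2.2.2 - (G + 1) + δ
      (t + 1, 0, [], m - 1, sliceF n m F W, sliceO n m F W f0 c, r + blM U + m)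
    else (t + 1, 2, [], m, F, f0, r)
  else p

lemma pathStep_eq (fu n : ℕ) (G : ℤ) (Gb : ℕ) (orc : Orc) (g : ℕ) (p : SS) :
    pathStep fu n G Gb orc g p = pstep fu n G orc (dig fu Gb g p.1) p := rfl

/-- The invariant of the states. -/
structure PInv (n : ℕ) (K : Set (Fin n → ℚ)) (orc : Orc) (σ : ℕ) (p : SS) : Prop where
  hm : p.2.2.2.1 ≤ n
  shp : Shp n p.2.2.2.1 p.2.2.2.2.1
  len : p.2.2.2.2.2.1.length = n
  rad : p.2.2.2.2.2.2 + 1 ≤ σ
  bF : ∀ i < n, ∀ j < p.2.2.2.1, |g2 p.2.2.2.2.1 i j| ≤ 2 ^ σ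
  b0 : ∀ i < n, |g1 p.2.2.2.2.2.1 i| ≤ 2 ^ σ
  box : ∀ y : Fin p.2.2.2.1 → ℚ,
    (chS n p.2.2.2.1 p.2.2.2.2.1 p.2.2.2.2.2.1).ptQ y ∈ K → ∀ i, |y i| ≤ 2 ^ p.2.2.2.2.2.2
  st : p.2.1 ≤ 2
  pt : (p.2.1 = 1 ∧ orc p.2.2.1 = none ∧ p.2.2.1.length = n ∧
    ∀ i < n, |g1 p.2.2.1 i| ≤ 2 ^ σ) ∨ (p.2.1 ≠ 1 ∧ p.2.2.1 = [])

lemma two_pow_le_q {a b : ℕ} (h : a ≤ b) : (2 : ℤ) ^ a ≤ 2 ^ b :=
  pow_le_pow_right₀ (by norm_num) h

lemma PInv.mono {n : ℕ} {K : Set (Fin n → ℚ)} {orc : Orc} {σ σ' : ℕ} {p : SS}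
    (h : PInv n K orc σ p) (hσ : σ ≤ σ') : PInv n K orc σ' p where
  hm := h.hm
  shp := h.shp
  len := h.len
  rad := h.rad.trans hσ
  bF i hi j hj := (h.bF i hi j hj).trans (two_pow_le_q hσ)
  b0 i hi := (h.b0 i hi).trans (two_pow_le_q hσ)
  box := h.box
  st := h.st
  pt := by
    rcases h.pt with ⟨h1, h2, h3, h4⟩ | h1
    · exact Or.inl ⟨h1, h2, h3, fun i hi => (h4 i hi).trans (two_pow_le_q hσ)⟩
    · exact Or.inr h1

lemma flatG_mono : Monotone flatG := by
  intro a b h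
  unfold flatG
  have h1 : a ^ 3 ≤ b ^ 3 := Nat.pow_le_pow_left h 3
  have h2 : 3 ^ a ≤ 3 ^ b := Nat.pow_le_pow_right (by norm_num) h
  exact Nat.mul_le_mul (Nat.mul_le_mul (Nat.mul_le_mul_left _ h1) (by omega)) h2

/-- The growth factor. -/
def srB (e : ℕ → ℕ) (n G : ℕ) : ℕ := 2 * e n + n * n * (e n + 1) + 2 * n + G + 6

lemma abs_aff_le {n m : ℕ} {F : ZM} {f0 x : ZV} {β γ : ℕ}
    (hF : ∀ i < n, ∀ j < m, |g2 F i j| ≤ 2 ^ β) (h0 : ∀ i < n, |g1 f0 i| ≤ 2 ^ β)
    (hx : ∀ i < m, |g1 x i| ≤ 2 ^ γ) : ∀ i < n, |g1 (aff n m F f0 x) i| ≤ 2 ^ (m + β + γ) := by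
  intro i hi
  have h1 : g1 (aff n m F f0 x) i = (chS n m F f0).base ⟨i, hi⟩ +
      ∑ j, (chS n m F f0).cols ⟨i, hi⟩ j * vec m x j := by
    have h := congrFun (chS_aff n m F f0 x) ⟨i, hi⟩
    rw [Chart.pt_apply] at h
    exact h
  have h2 : |∑ j, (chS n m F f0).cols ⟨i, hi⟩ j * vec m x j| ≤ (m : ℤ) * (2 ^ β * 2 ^ γ) :=
    abs_sum_mul_le _ _ (fun j => hF i hi j j.2) (fun j => hx j j.2) (by positivity)
  have h3 : |(chS n m F f0).base ⟨i, hi⟩| ≤ 2 ^ β := h0 i hi
  rw [h1]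
  refine (abs_add_le _ _).trans ((add_le_add h3 h2).trans ?_)
  have h4 : ((m : ℤ) + 1) ≤ 2 ^ m := by
    have := Nat.lt_two_pow_self (n := m)
    exact_mod_cast this
  have h5 : (2 : ℤ) ^ β ≤ 2 ^ β * 2 ^ γ := by
    have : (1 : ℤ) ≤ 2 ^ γ := one_le_pow₀ (by norm_num)
    nlinarith [pow_pos (show (0 : ℤ) < 2 by norm_num) β]
  have h6 : (0 : ℤ) ≤ 2 ^ β * 2 ^ γ := by positivity
  calc (2 : ℤ) ^ β + m * (2 ^ β * 2 ^ γ) ≤ (m + 1) * (2 ^ β * 2 ^ γ) := by nlinarith
    _ ≤ 2 ^ m * (2 ^ β * 2 ^ γ) := mul_le_mul_of_nonneg_right h4 h6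
    _ = 2 ^ (m + β + γ) := by rw [pow_add, pow_add]; ring

/-- The box of a slice. -/
lemma slice_box {n m : ℕ} (c : Chart n (m + 1)) {U W : Matrix (Fin (m + 1)) (Fin (m + 1)) ℤ}
    (hUW : U * W = 1) (g : ℤ) {K : Set (Fin n → ℚ)} {r b : ℕ}
    (hbox : ∀ y, c.ptQ y ∈ K → ∀ i, |y i| ≤ 2 ^ r) (hU : ∀ i j, |U i j| ≤ 2 ^ b)
    {y : Fin m → ℚ} (hy : (c.slice W g).ptQ y ∈ K) (i : Fin m) :
    |y i| ≤ 2 ^ (r + b + (m + 1)) := by
  rw [Chart.ptQ_slice] at hy
  have h1 := hbox _ hy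
  set z := castQ W *ᵥ (Fin.cons (g : ℚ) y : Fin (m + 1) → ℚ) with hz
  have h2 : y i = ∑ j, (U i.succ j : ℚ) * z j := by
    have h3 : castQ U *ᵥ z = (Fin.cons (g : ℚ) y : Fin (m + 1) → ℚ) := by
      rw [hz, mulVec_mulVec, ← castQ_mul, hUW]
      have h2 : castQ (1 : Matrix (Fin (m + 1)) (Fin (m + 1)) ℤ) = 1 := by
        ext i j
        simp [castQ, Matrix.one_apply]
      rw [h2, one_mulVec]
    have h4 := congrFun h3 i.succ
    rw [Fin.cons_succ] at h4
    rw [← h4]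
    rfl
  rw [h2]
  refine (Finset.abs_sum_le_sum_abs _ _).trans ?_
  have h5 : ∀ j, |(U i.succ j : ℚ) * z j| ≤ 2 ^ b * 2 ^ r := by
    intro j
    rw [abs_mul]
    refine mul_le_mul ?_ (h1 j) (abs_nonneg _) (by positivity)
    rw [← Int.cast_abs]
    exact_mod_cast hU i.succ j
  calc ∑ j, |(U i.succ j : ℚ) * z j| ≤ ∑ _j : Fin (m + 1), (2 : ℚ) ^ b * 2 ^ r :=
        Finset.sum_le_sum fun j _ => h5 j
    _ = ((m + 1 : ℕ) : ℚ) * (2 ^ b * 2 ^ r) := by
        rw [Finset.sum_const, Finset.card_univ, Fintype.card_fin, nsmul_eq_mul]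
    _ ≤ 2 ^ (m + 1) * (2 ^ b * 2 ^ r) := by
        refine mul_le_mul_of_nonneg_right ?_ (by positivity)
        exact_mod_cast (Nat.lt_two_pow_self (n := m + 1)).le
    _ = 2 ^ (r + b + (m + 1)) := by rw [pow_add, pow_add]; ring

/-- **One step.** -/
lemma pstep_cases {e : ℕ → ℕ} (he : FlatHyp e) (hmono : Monotone e) {n fu σ G : ℕ}
    {K : Set (Fin n → ℚ)} {orc : Orc} (hG : flatG n ≤ G) (hfu : e n * σ ≤ fu)
    (horc : ∀ x : ZV, x.length = n → (∀ i < n, |g1 x i| ≤ 2 ^ (srB e n G * σ)) →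
      ∀ h, orc x = some h → Cut K (vec n h) (vec n x))
    {t m r : ℕ} {pt : ZV} {F : ZM} {f0 : ZV} (hp : PInv n K orc σ (t, 0, pt, m, F, f0, r)) :
    (∃ x : ZV, (∀ δ, pstep fu n G orc δ (t, 0, pt, m, F, f0, r) = (t + 1, 1, x, m, F, f0, r)) ∧
      PInv n K orc (srB e n G * σ) (t + 1, 1, x, m, F, f0, r)) ∨
    (∃ (m' : ℕ) (U W : Matrix (Fin (m' + 1)) (Fin (m' + 1)) ℤ) (c : Chart n (m' + 1)) (v : ℤ),
      m = m' + 1 ∧ W * U = 1 ∧ (∀ δ : ℕ, ∃ (F' : ZM) (f0' : ZV) (r' : ℕ),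
        pstep fu n G orc δ (t, 0, pt, m, F, f0, r) = (t + 1, 0, [], m', F', f0', r') ∧
        (δ ≤ 2 * G + 2 → PInv n K orc (srB e n G * σ) (t + 1, 0, [], m', F', f0', r')) ∧
        chS n m' F' f0' = c.slice W (v - (G + 1) + δ)) ∧
      (∀ y, c.ptQ y ∈ K → |dotQ (U 0) y - v| ≤ ((G + 1 : ℕ) : ℚ)) ∧
      ∀ z : Fin n → ℤ, (∃ x, (chS n m F f0).pt x = z) → ∃ x, c.pt x = z) ∨
    ((∀ δ, pstep fu n G orc δ (t, 0, pt, m, F, f0, r) = (t + 1, 2, [], m, F, f0, r)) ∧
      PInv n K orc (srB e n G * σ) (t + 1, 2, [], m, F, f0, r) ∧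
      ∀ x, toQ ((chS n m F f0).pt x) ∉ K) := by
  have hm : m ≤ n := hp.hm
  have hr : r + 1 ≤ σ := hp.rad
  have hσ1 : 1 ≤ σ := by omega
  have hX : e m * (r + 1) ≤ e n * σ := Nat.mul_le_mul (hmono hm) hr
  have hB : srB e n G * σ =
      2 * (e n * σ) + n * n * (e n + 1) * σ + 2 * (n * σ) + G * σ + 6 * σ := by
    unfold srB; ring
  have hnσ : n ≤ n * σ := Nat.le_mul_of_pos_right _ hσ1
  have hGσ : G ≤ G * σ := Nat.le_mul_of_pos_right _ hσ1
  have hσB : σ ≤ srB e n G * σ := by rw [hB]; omega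
  have hq : ∀ x : ZV, (∀ i < m, |g1 x i| ≤ 2 ^ (e m * (r + 1))) →
      ∀ i < n, |g1 (aff n m F f0 x) i| ≤ 2 ^ (srB e n G * σ) := by
    intro x hx i hi
    refine (abs_aff_le (m := m) hp.bF hp.b0 hx i hi).trans (two_pow_le_q ?_)
    rw [hB]
    omega
  have hflat := he fu m G r (fun x => (orc (aff n m F f0 x)).map (pull n m F))
    {y | (chS n m F f0).ptQ y ∈ K} ((flatG_mono hm).trans hG) (hX.trans hfu)
    (fun y hy i => hp.box y hy i) (by
      intro x hx h hh
      rw [Option.map_eq_some_iff] at hh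
      obtain ⟨h', hh', rfl⟩ := hh
      have hc := horc (aff n m F f0 x) (length_tab _ _) (hq x hx.le) h' hh'
      rw [chS_aff] at hc
      have h2 := hc.pull
      rw [chS_pull]
      exact h2)
  rcases hflat with ⟨h1, ⟨h3, h4⟩, h2⟩ | ⟨h1, h0, ⟨⟨h2, h5⟩, ⟨h3, h6⟩, h4, hWU⟩, h7, h8⟩ |
    ⟨h1, h2⟩
  · -- a point
    refine Or.inl ⟨aff n m F f0
      (flat fu m G r fun x => (orc (aff n m F f0 x)).map (pull n m F)).2.1, fun δ => ?_, ?_⟩
    · unfold pstep
      simp only [if_pos, h1]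
    · refine { (hp.mono hσB) with st := by norm_num, pt := Or.inl ⟨rfl, ?_, length_tab _ _, ?_⟩ }
      · exact Option.map_eq_none_iff.1 h2
      · exact hq _ h4
  · -- flat
    obtain ⟨m, rfl⟩ : ∃ k, m = k + 1 := ⟨m - 1, by omega⟩
    set o := flat fu (m + 1) G r fun x =>
      (orc (aff n (m + 1) F f0 x)).map (pull n (m + 1) F) with ho
    refine Or.inr (Or.inl ⟨m, mtx (m + 1) (m + 1) o.2.2.1, mtx (m + 1) (m + 1) o.2.2.2.1,
      chS n (m + 1) F f0, o.2.2.2.2, rfl, hWU, fun δ => ?_, fun y hy => ?_, fun z hz => hz⟩)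
    · refine ⟨sliceF n (m + 1) F o.2.2.2.1, sliceO n (m + 1) F o.2.2.2.1 f0
        (o.2.2.2.2 - (G + 1) + δ), r + blM o.2.2.1 + (m + 1), ?_, fun hδ => ?_, ?_⟩
      · unfold pstep
        simp only [← ho, if_pos, h1]
        rfl
      · have hbl : blM o.2.2.1 ≤ (m + 1) * ((m + 1) * (e (m + 1) * (r + 1) + 1)) := blM_le ⟨h2, h5⟩
        have hbl2 : blM o.2.2.1 ≤ n * n * (e n + 1) * σ := by
          refine hbl.trans ?_
          calc (m + 1) * ((m + 1) * (e (m + 1) * (r + 1) + 1)) ≤ n * (n * (e n * σ + σ)) :=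
                Nat.mul_le_mul hm (Nat.mul_le_mul hm (by omega))
            _ = n * n * (e n + 1) * σ := by ring
        have hc : (chS n m (sliceF n (m + 1) F o.2.2.2.1) (sliceO n (m + 1) F o.2.2.2.1 f0
            (o.2.2.2.2 - (G + 1) + δ))) = (chS n (m + 1) F f0).slice
              (mtx (m + 1) (m + 1) o.2.2.2.1) (o.2.2.2.2 - (G + 1) + δ) := chS_slice _ _ _ _ _ _
        have hsl := (chS n (m + 1) F f0).slice_le (mtx (m + 1) (m + 1) o.2.2.2.1)
          (o.2.2.2.2 - (G + 1) + δ) (M := 2 ^ σ) (M' := 2 ^ (e n * σ))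
          (fun i => hp.b0 i i.2) (fun i j => hp.bF i i.2 j j.2)
          (fun i j => (h6 i i.2 j j.2).trans (two_pow_le_q hX)) (by positivity)
          (one_le_pow₀ (by norm_num))
        have hv : |o.2.2.2.2| ≤ 2 ^ (e n * σ) := h7.trans (two_pow_le_q hX)
        have hG2 : ((G : ℕ) : ℤ) < 2 ^ G := by exact_mod_cast Nat.lt_two_pow_self
        have hδ' : ((δ : ℕ) : ℤ) ≤ 2 * G + 2 := by exact_mod_cast hδ
        have hδ0 : (0 : ℤ) ≤ δ := Int.natCast_nonneg _
        have hc1 : |o.2.2.2.2 - (G + 1) + δ| ≤ 2 ^ (e n * σ) + (3 * G + 3) := by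
          rw [abs_le] at hv ⊢
          constructor <;> omega
        have hc2 : 1 + |o.2.2.2.2 - (G + 1) + δ| ≤ 2 ^ (e n * σ + G + 4) := by
          have h9 : (1 : ℤ) ≤ 2 ^ (e n * σ) := one_le_pow₀ (by norm_num)
          have h10 : (1 : ℤ) ≤ 2 ^ G := one_le_pow₀ (by norm_num)
          have h11 : (2 : ℤ) ^ (e n * σ + G + 4) = 16 * (2 ^ (e n * σ) * 2 ^ G) := by
            rw [pow_add, pow_add]; norm_num; ring
          have h12 : (2 : ℤ) ^ G ≤ 2 ^ (e n * σ) * 2 ^ G := by nlinarith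
          have h13 : (2 : ℤ) ^ (e n * σ) ≤ 2 ^ (e n * σ) * 2 ^ G := by nlinarith
          rw [h11]
          linarith
        have hall : (1 + |o.2.2.2.2 - (G + 1) + δ|) *
            (((m : ℤ) + 1) * (2 ^ σ * 2 ^ (e n * σ))) ≤ 2 ^ (srB e n G * σ) := by
          have h9 : ((m : ℤ) + 1) ≤ 2 ^ n := by
            have h10 : m + 1 ≤ 2 ^ n := hm.trans Nat.lt_two_pow_self.le
            exact_mod_cast h10
          calc (1 + |o.2.2.2.2 - (G + 1) + δ|) * (((m : ℤ) + 1) * (2 ^ σ * 2 ^ (e n * σ)))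
              ≤ 2 ^ (e n * σ + G + 4) * (2 ^ n * (2 ^ σ * 2 ^ (e n * σ))) := by
                refine mul_le_mul hc2 (mul_le_mul_of_nonneg_right h9 (by positivity))
                  (by positivity) (by positivity)
            _ = 2 ^ (e n * σ + G + 4 + (n + (σ + e n * σ))) := by
                rw [pow_add 2 (e n * σ + G + 4), pow_add 2 n, pow_add 2 σ]
            _ ≤ 2 ^ (srB e n G * σ) := two_pow_le_q (by rw [hB]; omega)
        have hbb : ∀ i < n, |g1 (sliceO n (m + 1) F o.2.2.2.1 f0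
            (o.2.2.2.2 - (G + 1) + δ)) i| ≤ 2 ^ (srB e n G * σ) := by
          intro i hi
          have h10 := hsl.1 ⟨i, hi⟩
          rw [← hc] at h10
          exact h10.trans hall
        have hbc : ∀ i < n, ∀ j < m, |g2 (sliceF n (m + 1) F o.2.2.2.1) i j| ≤
            2 ^ (srB e n G * σ) := by
          intro i hi j hj
          have h10 := hsl.2 ⟨i, hi⟩ ⟨j, hj⟩
          rw [← hc] at h10
          exact h10.trans hall
        refine ⟨by change m ≤ n; omega, shp_tabM _ _ _, length_tab _ _, ?_, hbc, hbb, ?_,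
          by norm_num, Or.inr ⟨by norm_num, rfl⟩⟩
        · change r + blM o.2.2.1 + (m + 1) + 1 ≤ srB e n G * σ
          rw [hB]
          omega
        · intro y hy i
          have hy' : (chS n m (sliceF n (m + 1) F o.2.2.2.1) (sliceO n (m + 1) F o.2.2.2.1 f0
            (o.2.2.2.2 - (G + 1) + δ))).ptQ y ∈ K := hy
          rw [hc] at hy'
          exact slice_box (chS n (m + 1) F f0) h4 _ hp.box (fun i j => abs_g2_le _ _ _) hy' i
      · exact chS_slice _ _ _ _ _ _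
    · have h9 := h8 y hy
      push_cast
      exact h9
  · -- empty
    refine Or.inr (Or.inr ⟨fun δ => ?_, ?_, fun x hx => ?_⟩)
    · unfold pstep
      simp only [if_pos, h1]
      norm_num
    · exact { (hp.mono hσB) with st := le_rfl, pt := Or.inr ⟨by norm_num, rfl⟩ }
    · have h3 : toQ x ∈ {y | (chS n m F f0).ptQ y ∈ K} := by
        change (chS n m F f0).ptQ (toQ x) ∈ K
        rw [Chart.ptQ_toQ]
        exact hx
      rw [h2] at h3
      exact h3

/-! ### Paths -/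

/-- A step with the digits `δ`. -/
def pit (fu n : ℕ) (G : ℤ) (orc : Orc) (δ : ℕ → ℕ) (p : SS) : SS :=
  pstep fu n G orc (δ p.1) p

lemma pit_fix {fu n : ℕ} {G : ℤ} {orc : Orc} (δ : ℕ → ℕ) {p : SS} (h : p.2.1 ≠ 0) (k : ℕ) :
    (pit fu n G orc δ)^[k] p = p := by
  induction k with
  | zero => rfl
  | succ k ih =>
    rw [Function.iterate_succ_apply]
    have h1 : pit fu n G orc δ p = p := by
      unfold pit pstep
      rw [if_neg h]
    rw [h1, ih]

lemma pstep_time {fu n : ℕ} {G : ℤ} {orc : Orc} (δ : ℕ) {p : SS} (h : p.2.1 = 0) :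
    (pstep fu n G orc δ p).1 = p.1 + 1 := by
  unfold pstep
  simp only [h, if_pos]
  split_ifs <;> rfl

lemma pit_congr {fu n : ℕ} {G : ℤ} {orc : Orc} {δ δ' : ℕ → ℕ} (k : ℕ) : ∀ p : SS,
    (∀ i, p.1 ≤ i → i < p.1 + k → δ i = δ' i) →
    (pit fu n G orc δ)^[k] p = (pit fu n G orc δ')^[k] p := by
  induction k with
  | zero => intro p _; rfl
  | succ k ih =>
    intro p h
    by_cases hp : p.2.1 = 0
    · rw [Function.iterate_succ_apply, Function.iterate_succ_apply]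
      have h1 : pit fu n G orc δ p = pit fu n G orc δ' p := by
        unfold pit
        rw [h p.1 le_rfl (by omega)]
      rw [h1]
      refine ih _ fun i hi hi' => ?_
      have h2 : (pit fu n G orc δ' p).1 = p.1 + 1 := pstep_time _ hp
      rw [h2] at hi hi'
      exact h i (by omega) (by omega)
    · rw [pit_fix δ hp, pit_fix δ' hp]

/-- The invariant is kept by a step. -/
lemma pinv_step {e : ℕ → ℕ} (he : FlatHyp e) (hmono : Monotone e) {n fu σ G : ℕ}
    {K : Set (Fin n → ℚ)} {orc : Orc} (hG : flatG n ≤ G) (hfu : e n * σ ≤ fu)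
    (horc : ∀ x : ZV, x.length = n → (∀ i < n, |g1 x i| ≤ 2 ^ (srB e n G * σ)) →
      ∀ h, orc x = some h → Cut K (vec n h) (vec n x))
    {δ : ℕ} (hδ : δ ≤ 2 * G + 2) {p : SS} (hp : PInv n K orc σ p) :
    PInv n K orc (srB e n G * σ) (pstep fu n G orc δ p) := by
  by_cases h0 : p.2.1 = 0
  · obtain ⟨t, st, pt, m, F, f0, r⟩ := p
    change st = 0 at h0
    subst h0
    rcases pstep_cases he hmono hG hfu horc hp with ⟨x, h1, h2⟩ | ⟨m', U, W, c, v, h1, h2, h3, _⟩ |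
      ⟨h1, h2, _⟩
    · rw [h1]; exact h2
    · obtain ⟨F', f0', r', h4, h5, _⟩ := h3 δ
      rw [h4]
      exact h5 hδ
    · rw [h1]; exact h2
  · have h1 : pstep fu n G orc δ p = p := by
      unfold pstep
      rw [if_neg h0]
    rw [h1]
    refine hp.mono (Nat.le_mul_of_pos_left _ ?_)
    unfold srB
    omega

/-- The invariant along a path. -/
lemma pinv_iter {e : ℕ → ℕ} (he : FlatHyp e) (hmono : Monotone e) {n fu G T σ0 : ℕ}
    {K : Set (Fin n → ℚ)} {orc : Orc} (hG : flatG n ≤ G)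
    (hfu : e n * (srB e n G ^ T * σ0) ≤ fu)
    (horc : ∀ x : ZV, x.length = n → (∀ i < n, |g1 x i| ≤ 2 ^ (srB e n G ^ T * σ0)) →
      ∀ h, orc x = some h → Cut K (vec n h) (vec n x))
    {δ : ℕ → ℕ} (hδ : ∀ i, δ i ≤ 2 * G + 2) {p : SS} (hp : PInv n K orc σ0 p) :
    ∀ k ≤ T, PInv n K orc (srB e n G ^ k * σ0) ((pit fu n G orc δ)^[k] p) := by
  have hB : 1 ≤ srB e n G := by unfold srB; omega
  intro k
  induction k with
  | zero => intro _; rw [pow_zero, one_mul]; exact hp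
  | succ k ih =>
    intro hk
    rw [Function.iterate_succ_apply', pow_succ, mul_comm (srB e n G ^ k), mul_assoc]
    have h1 : srB e n G ^ k ≤ srB e n G ^ T := Nat.pow_le_pow_right hB (by omega)
    have h2 : srB e n G * (srB e n G ^ k * σ0) ≤ srB e n G ^ T * σ0 := by
      rw [← mul_assoc, ← pow_succ']
      exact Nat.mul_le_mul_right _ (Nat.pow_le_pow_right hB hk)
    refine pinv_step he hmono hG ((Nat.mul_le_mul_left _ (Nat.mul_le_mul_right _ h1)).trans hfu)
      (fun x hxl hx h hh => horc x hxl (fun i hi => (hx i hi).trans (two_pow_le_q h2)) h hh)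
      (hδ _) (ih (by omega))

/-- Some sequence of digits leads to a point. -/
lemma exists_path {e : ℕ → ℕ} (he : FlatHyp e) (hmono : Monotone e) {n fu G : ℕ}
    {K : Set (Fin n → ℚ)} {orc : Orc} (hG : flatG n ≤ G) : ∀ (T σ : ℕ)
    (_ : e n * (srB e n G ^ T * σ) ≤ fu)
    (_ : ∀ x : ZV, x.length = n → (∀ i < n, |g1 x i| ≤ 2 ^ (srB e n G ^ T * σ)) →
      ∀ h, orc x = some h → Cut K (vec n h) (vec n x))
    (t m r : ℕ) (F : ZM) (f0 : ZV), m < T → PInv n K orc σ (t, 0, [], m, F, f0, r) →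
    ∀ z, toQ ((chS n m F f0).pt z) ∈ K →
    ∃ δ : ℕ → ℕ, (∀ i, δ i ≤ 2 * G + 2) ∧
      ((pit fu n G orc δ)^[T] (t, 0, [], m, F, f0, r)).2.1 = 1 := by
  have hB : 1 ≤ srB e n G := by unfold srB; omega
  intro T
  induction T with
  | zero => intro σ _ _ t m r F f0 hm; exact absurd hm (Nat.not_lt_zero m)
  | succ T ih =>
    intro σ hfu horc t m r F f0 hm hp z hz
    have hB1 : srB e n G * σ ≤ srB e n G ^ (T + 1) * σ := by
      refine Nat.mul_le_mul_right _ ?_
      calc srB e n G = srB e n G ^ 1 := (pow_one _).symm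
        _ ≤ srB e n G ^ (T + 1) := Nat.pow_le_pow_right hB (by omega)
    have hB2 : srB e n G ^ (T + 1) * σ = srB e n G ^ T * (srB e n G * σ) := by
      rw [pow_succ, mul_assoc]
    have hσ1 : σ ≤ srB e n G ^ (T + 1) * σ := Nat.le_mul_of_pos_left _ (Nat.pow_pos hB)
    have hcases := pstep_cases he hmono hG ((Nat.mul_le_mul_left _ hσ1).trans hfu)
      (fun x hxl hx h hh => horc x hxl (fun i hi => (hx i hi).trans (two_pow_le_q hB1)) h hh) hp
    rcases hcases with ⟨x, h1, _⟩ | ⟨m', U, W, c, v, rfl, hWU, h3, h4, h5⟩ | ⟨_, _, h3⟩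
    · refine ⟨fun _ => 0, fun _ => Nat.zero_le _, ?_⟩
      rw [Function.iterate_succ_apply]
      have h2 : pit fu n G orc (fun _ => 0) (t, 0, [], m, F, f0, r) =
          (t + 1, 1, x, m, F, f0, r) := h1 0
      rw [h2, pit_fix]
      norm_num
    · obtain ⟨w, hw⟩ := h5 _ ⟨z, rfl⟩
      rw [← hw] at hz
      obtain ⟨h6, h7⟩ := c.search_step K hWU v (G + 1) h4 w hz
      rw [Finset.mem_Icc] at h6
      push_cast at h6
      obtain ⟨δ0, hδ0⟩ : ∃ δ0 : ℕ, ((δ0 : ℕ) : ℤ) = (U *ᵥ w) 0 - v + (G + 1) :=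
        ⟨((U *ᵥ w) 0 - v + (G + 1)).toNat, Int.toNat_of_nonneg (by linarith [h6.1])⟩
      have hδ1 : δ0 ≤ 2 * G + 2 := by
        have : ((δ0 : ℕ) : ℤ) ≤ 2 * G + 2 := by rw [hδ0]; linarith [h6.2]
        exact_mod_cast this
      obtain ⟨F', f0', r', h8, h9, h10⟩ := h3 δ0
      have h11 : v - (G + 1) + (δ0 : ℤ) = (U *ᵥ w) 0 := by rw [hδ0]; ring
      rw [h11] at h10
      rw [h7, ← h10] at hz
      obtain ⟨δ, hδ, h12⟩ := ih (srB e n G * σ) (by rw [← hB2]; exact hfu)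
        (by rw [← hB2]; exact horc) (t + 1) m' r' F' f0' (by omega) (h9 hδ1) _ hz
      refine ⟨fun i => if i = t then δ0 else δ i, fun i => ?_, ?_⟩
      · change (if i = t then δ0 else δ i) ≤ _
        split_ifs
        · exact hδ1
        · exact hδ i
      · rw [Function.iterate_succ_apply]
        have h13 : pit fu n G orc (fun i => if i = t then δ0 else δ i)
            (t, 0, [], m' + 1, F, f0, r) = (t + 1, 0, [], m', F', f0', r') := by
          rw [← h8]
          unfold pit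
          simp
        rw [h13, pit_congr (δ' := δ) T _ fun i hi _ => ?_]
        · exact h12
        · have : i ≠ t := by
            change t + 1 ≤ i at hi
            omega
          rw [if_neg this]
    · exact absurd hz (h3 z)

/-! ### The size of the states -/

lemma pit_time {fu n : ℕ} {G : ℤ} {orc : Orc} (δ : ℕ → ℕ) (p : SS) (k : ℕ) :
    ((pit fu n G orc δ)^[k] p).1 ≤ p.1 + k := by
  induction k with
  | zero => exact le_rfl
  | succ k ih =>
    rw [Function.iterate_succ_apply']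
    by_cases h : ((pit fu n G orc δ)^[k] p).2.1 = 0
    · have h1 : (pit fu n G orc δ ((pit fu n G orc δ)^[k] p)).1 =
          ((pit fu n G orc δ)^[k] p).1 + 1 := pstep_time _ h
      omega
    · have h1 : pit fu n G orc δ ((pit fu n G orc δ)^[k] p) = (pit fu n G orc δ)^[k] p :=
        pit_fix δ h 1
      rw [h1]
      omega

lemma PInv.size {n : ℕ} {K : Set (Fin n → ℚ)} {orc : Orc} {σ T : ℕ} {p : SS}
    (h : PInv n K orc σ p) (hT : p.1 ≤ T) : sz p ≤ (2 * T + 14 * (n * n) + 32 * n + 19) * σ := by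
  obtain ⟨t, st, pt, m, F, f0, r⟩ := p
  change t ≤ T at hT
  have h1 : m ≤ n := h.hm
  have h2 : r + 1 ≤ σ := h.rad
  have h3 : sz F ≤ n * (m * (4 * σ + 10) + 2) + 1 := sz_mat_le h.shp h.bF
  have h4 : sz f0 ≤ n * (4 * σ + 10) + 1 := sz_vec_le h.len h.b0
  have h5 : sz pt ≤ n * (4 * σ + 10) + 1 := by
    rcases h.pt with ⟨_, _, h6, h7⟩ | ⟨_, h6⟩
    · exact sz_vec_le h6 h7
    · change pt = [] at h6
      rw [h6, sz_nil]
      omega
  have h6 : st ≤ 2 := h.st
  have h7 : 4 * σ + 10 ≤ 14 * σ := by omega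
  have h8 : n * (4 * σ + 10) ≤ 14 * (n * σ) := by
    calc n * (4 * σ + 10) ≤ n * (14 * σ) := Nat.mul_le_mul_left _ h7
      _ = 14 * (n * σ) := by ring
  have h9 : n * (m * (4 * σ + 10) + 2) ≤ 14 * (n * n * σ) + 2 * n := by
    calc n * (m * (4 * σ + 10) + 2) ≤ n * (n * (14 * σ) + 2) :=
          Nat.mul_le_mul_left _ (Nat.add_le_add_right (Nat.mul_le_mul h1 h7) 2)
      _ = 14 * (n * n * σ) + 2 * n := by ring
  have h10 : n ≤ n * σ := Nat.le_mul_of_pos_right _ (by omega)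
  have h11 : T ≤ T * σ := Nat.le_mul_of_pos_right _ (by omega)
  have h12 : (2 * T + 14 * (n * n) + 32 * n + 19) * σ =
      2 * (T * σ) + 14 * (n * n * σ) + 32 * (n * σ) + 19 * σ := by ring
  rw [h12]
  simp only [sz_prod, sz_nat]
  omega

/-- The initial state. -/
lemma pinv_init {n r : ℕ} {K : Set (Fin n → ℚ)} {orc : Orc}
    (hK : ∀ y ∈ K, ∀ i, |y i| ≤ 2 ^ r) :
    PInv n K orc (r + 1) (0, 0, [], n, idM n, tab n fun _ => 0, r) where
  hm := le_rfl
  shp := shp_tabM _ _ _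
  len := length_tab _ _
  rad := le_rfl
  bF i hi j hj := by
    change |g2 (idM n) i j| ≤ _
    unfold idM
    rw [g2_tabM_lt _ hi hj]
    split_ifs
    · rw [abs_one]; exact one_le_pow₀ (by norm_num)
    · rw [abs_zero]; positivity
  b0 i hi := by
    change |g1 (tab n fun _ => 0) i| ≤ _
    rw [g1_tab_lt _ hi, abs_zero]
    positivity
  box y hy i := by
    have h1 : (chS n n (idM n) (tab n fun _ => 0)).ptQ y ∈ K := hy
    rw [chS_id_ptQ] at h1
    exact hK y h1 i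
  st := by norm_num
  pt := Or.inr ⟨by norm_num, rfl⟩

lemma Gc_eq {fu n : ℕ} (h1 : 3 ^ n ≤ fu) (h2 : flatG n ≤ fu) : Gc fu n = flatG n := by
  unfold Gc
  rw [tpow_eq (by norm_num) h1]
  have h3 : 12 * (n * n * n) * (n + 1) * 3 ^ n = flatG n := by
    unfold flatG
    ring
  rw [h3, min_eq_left h2]

/-- The bound for the search. -/
def srE (e : ℕ → ℕ) (n : ℕ) : ℕ :=
  (e n + 14 * (n * n) + 34 * n + 21) * srB e n (flatG n) ^ (n + 1) + (2 * flatG n + 3) ^ (n + 1) +
    3 ^ n + flatG n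

/-- **The search for an integral point.** -/
theorem search_of_flat {e : ℕ → ℕ} (he : FlatHyp e) (hmono : Monotone e) (fu n r : ℕ) (orc : Orc)
    (K : Set (Fin n → ℚ)) (hfu : srE e n * (r + 1) ≤ fu) (hbox : InBox r K)
    (horc : OrcOK (srE e n * (r + 1)) K orc) :
    (∀ x, search fu n r orc = some x → VB n (srE e n * (r + 1)) x ∧ orc x = none) ∧
      (search fu n r orc = none → ∀ z : Fin n → ℤ, toQ z ∉ K) := by
  set G := flatG n with hG
  set B := srB e n G with hB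
  set X := B ^ (n + 1) * (r + 1) with hX
  have hr1 : 1 ≤ r + 1 := by omega
  have hsum : srE e n * (r + 1) = (e n + 14 * (n * n) + 34 * n + 21) * X +
      ((2 * G + 3) ^ (n + 1) + 3 ^ n + G) * (r + 1) := by
    unfold srE
    rw [← hG, ← hB, hX]
    ring
  have h1 : (2 * G + 3) ^ (n + 1) + 3 ^ n + G ≤ ((2 * G + 3) ^ (n + 1) + 3 ^ n + G) * (r + 1) :=
    Nat.le_mul_of_pos_right _ hr1
  have hsum2 : (e n + 14 * (n * n) + 34 * n + 21) * X =
      e n * X + (14 * (n * n) + 34 * n + 21) * X := by ring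
  have hXs : X ≤ (14 * (n * n) + 34 * n + 21) * X := Nat.le_mul_of_pos_left _ (by omega)
  have h3pos : 0 < 3 ^ n := by positivity
  have heX : e n * X ≤ fu := by omega
  have h3n : 3 ^ n ≤ fu := by omega
  have hGfu : G ≤ fu := by omega
  have hGb : (2 * G + 3) ^ (n + 1) ≤ fu := by omega
  have horc' : ∀ x : ZV, x.length = n → (∀ i < n, |g1 x i| ≤ 2 ^ X) →
      ∀ h, orc x = some h → Cut K (vec n h) (vec n x) := fun x hxl hx h hh =>
    horc x ⟨hxl, fun i hi => (hx i hi).trans (two_pow_le_q (by omega))⟩ h hh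
  have hGc : Gc fu n = G := Gc_eq h3n hGfu
  have hb0 : 0 < 2 * G + 3 := by omega
  -- the paths
  have hinv : ∀ δ : ℕ → ℕ, (∀ i, δ i ≤ 2 * G + 2) → ∀ k ≤ n + 1,
      PInv n K orc X ((pit fu n G orc δ)^[k] (0, 0, [], n, idM n, tab n fun _ => 0, r)) := by
    intro δ hδ k hk
    refine (pinv_iter (T := n + 1) (σ0 := r + 1) he hmono hG.ge heX horc' hδ
      (pinv_init hbox) k hk).mono ?_
    refine Nat.mul_le_mul_right _ (Nat.pow_le_pow_right ?_ hk)
    unfold srB
    omega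
  have hdig : ∀ g i, dig fu (2 * G + 3) g i ≤ 2 * G + 2 := fun g i => by
    have := dig_lt (fu := fu) (g := g) (t := i) (b := 2 * G + 3) (by omega)
    omega
  have hpath : ∀ g, path fu n (Gc fu n) (2 * Gc fu n + 3) r orc g =
      let p := (pit fu n G orc (dig fu (2 * G + 3) g))^[n + 1]
        (0, 0, [], n, idM n, tab n fun _ => 0, r)
      if p.2.1 = 1 then some p.2.2.1 else none := by
    intro g
    rw [hGc]
    unfold path
    have hfun : pathStep fu n G (2 * G + 3) orc g =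
        pit fu n G orc (dig fu (2 * G + 3) g) := rfl
    rw [hfun, bIter_eq]
    intro i hi
    have h2 := (hinv _ (hdig g) (i + 1) (by omega)).size (T := n + 1)
      ((pit_time _ _ _).trans (by change 0 + (i + 1) ≤ n + 1; omega))
    refine h2.trans ?_
    have h4 : (2 * (n + 1) + 14 * (n * n) + 32 * n + 19) * X =
        (14 * (n * n) + 34 * n + 21) * X := by ring
    omega
  constructor
  · intro x hx
    unfold search at hx
    obtain ⟨g, _, hg⟩ := mem_tab.1 (firstSome_mem hx)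
    rw [hpath] at hg
    have h2 := hinv _ (hdig g) (n + 1) le_rfl
    dsimp only at hg
    split_ifs at hg with h3
    have hg' := Option.some.inj hg
    rcases h2.pt with ⟨_, h5, h6, h7⟩ | ⟨h4, _⟩
    · rw [hg'] at h5 h6 h7
      exact ⟨⟨h6, fun i hi => (h7 i hi).trans (two_pow_le_q (by omega))⟩, h5⟩
    · exact absurd h3 h4
  · intro hnone z hz
    have hz' : toQ ((chS n n (idM n) (tab n fun _ => 0)).pt z) ∈ K := by rwa [chS_id_pt]
    obtain ⟨δ, hδ, h2⟩ := exists_path he hmono hG.ge (n + 1) (r + 1) heX horc' 0 n r _ _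
      (Nat.lt_succ_self n) (pinv_init hbox) z hz'
    obtain ⟨g, hg, hgd⟩ := exists_digits (2 * G + 3) (n + 1) δ fun i => by have := hδ i; omega
    have h3 : path fu n (Gc fu n) (2 * Gc fu n + 3) r orc g = none := by
      unfold search at hnone
      exact firstSome_eq_none hnone (mem_tab.2 ⟨g, hg.trans_le hGb, rfl⟩)
    rw [hpath] at h3
    have h4 : (pit fu n G orc (dig fu (2 * G + 3) g))^[n + 1]
        (0, 0, [], n, idM n, tab n fun _ => 0, r) = (pit fu n G orc δ)^[n + 1]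
        (0, 0, [], n, idM n, tab n fun _ => 0, r) := by
      refine pit_congr _ _ fun i _ hi => ?_
      change i < 0 + (n + 1) at hi
      rw [dig_eq (by omega), hgd i (by omega)]
      exact (Nat.pow_le_pow_right (by omega) (by omega)).trans hGb
    rw [h4] at h3
    simp only [h2, if_pos] at h3
    exact absurd h3 (by simp)

theorem eb_srE {e : ℕ → ℕ} (he : EB e) : EB (srE e) := by
  unfold srE srB flatG
  fun_prop

/-- **The search for an integral point.** -/
theorem search_spec : ∃ F : ℕ → ℕ, EB F ∧ Monotone F ∧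
    ∀ (fu n r : ℕ) (orc : Orc) (K : Set (Fin n → ℚ)), F n * (r + 1) ≤ fu →
      InBox r K → OrcOK (F n * (r + 1)) K orc →
      (∀ x, search fu n r orc = some x → VB n (F n * (r + 1)) x ∧ orc x = none) ∧
      (search fu n r orc = none → ∀ z : Fin n → ℤ, toQ z ∉ K) := by
  obtain ⟨e, he1, he2, he3⟩ := flat_spec
  obtain ⟨F, hF1, hF2, hF3, _⟩ := (eb_srE he1).exists_mono
  refine ⟨F, hF1, hF2, fun fu n r orc K hfu hbox horc => ?_⟩
  have hle : srE e n * (r + 1) ≤ F n * (r + 1) := Nat.mul_le_mul_right _ (hF3 n)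
  obtain ⟨h1, h2⟩ := search_of_flat he3 he2 fu n r orc K (hle.trans hfu) hbox (horc.mono hle)
  exact ⟨fun x hx => ⟨(h1 x hx).1.mono hle, (h1 x hx).2⟩, h2⟩

end Pool.Agent.MDF
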