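import Pool.Agent.MDF.StepE
import Pool.Agent.MDF.Consts

/-!
# Sizes of the states along a main path
-/

set_option autoImplicit false

namespace Pool.Agent.MDF

open Pool.Agent.PF Pool.Agent.MonFPT Matrix

/-! ### Slices of pieces -/

/-- The box of an integral slice. -/
lemma slice_boxZ {n m : ℕ} (c : Chart n (m + 1)) {U W : Matrix (Fin (m + 1)) (Fin (m + 1)) ℤ}
    (hUW : U * W = 1) (g : ℤ) {S : Set (Fin n → ℤ)} {r b : ℕ}
    (hbox : ∀ z, c.pt z ∈ S → ∀ i, |z i| ≤ 2 ^ r) (hU : ∀ i j, |U i j| ≤ 2 ^ b)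
    {y : Fin m → ℤ} (hy : (c.slice W g).pt y ∈ S) (i : Fin m) :
    |y i| ≤ 2 ^ (r + b + (m + 1)) := by
  rw [Chart.pt_slice] at hy
  have h1 := hbox _ hy
  have h2 : Fin.tail (U *ᵥ (W *ᵥ (Fin.cons g y : Fin (m + 1) → ℤ))) = y := by
    rw [mulVec_mulVec, hUW, one_mulVec, Fin.tail_cons]
  have h3 := Chart.abs_tail_le hU (by positivity) h1 i
  rw [h2] at h3
  refine h3.trans ?_
  have h4 : ((m : ℤ) + 1) ≤ 2 ^ (m + 1) := by
    exact_mod_cast (Nat.lt_two_pow_self (n := m + 1)).le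
  calc ((m : ℤ) + 1) * (2 ^ b * 2 ^ r) ≤ 2 ^ (m + 1) * (2 ^ b * 2 ^ r) :=
        mul_le_mul_of_nonneg_right h4 (by positivity)
    _ = 2 ^ (r + b + (m + 1)) := by rw [pow_add, pow_add]; ring

/-- The chart of a slice. -/
lemma phiP_slice (d m : ℕ) (F : ZM) (f0 : ZV) (r : ℕ) (U W : ZM) (δ : ℤ) :
    phiP d (slice d (m + 1, F, f0, r) U W δ) =
      (phiP d (m + 1, F, f0, r)).slice (mtx (m + 1) (m + 1) W) δ :=
  chS_slice d m F W f0 δ

/-- The size of a slice. -/
def slX (d X Y Z : ℕ) : ℕ := X + Y + Z + d * (d * (Y + 1)) + 2 * d + 1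

/-- **A slice of a correct piece is correct.** -/
theorem slice_ok {d X Y Z : ℕ} {rz : Rows} {P : Piece} (hP : PieceOK d X rz P) (h0 : 0 < P.1)
    {U W : ZM} (hUW : UW P.1 Y U W) {δ : ℤ} (hδ : |δ| ≤ 2 ^ Z) :
    PieceOK d (slX d X Y Z) rz (slice d P U W δ) := by
  obtain ⟨e, F, f0, r⟩ := P
  obtain ⟨m, rfl⟩ : ∃ m, e = m + 1 := ⟨e - 1, by change 0 < e at h0; omega⟩
  have hdim : m + 1 ≤ d := hP.dim
  have hsl := (chS d (m + 1) F f0).slice_le (mtx (m + 1) (m + 1) W) δ (M := 2 ^ X)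
    (M' := 2 ^ Y) (fun i => hP.v0.le i i.2) (fun i j => hP.mF.le i i.2 j j.2)
    (fun i j => hUW.mW.le i i.2 j j.2) (by positivity) (one_le_pow₀ (by norm_num))
  rw [← chS_slice] at hsl
  have hall : (1 + |δ|) * (((m : ℤ) + 1) * (2 ^ X * 2 ^ Y)) ≤ 2 ^ slX d X Y Z := by
    have h1 : 1 + |δ| ≤ 2 ^ (Z + 1) := by
      have : (1 : ℤ) ≤ 2 ^ Z := one_le_pow₀ (by norm_num)
      rw [pow_succ]
      linarith
    have h2 : ((m : ℤ) + 1) ≤ 2 ^ d := by
      have : m + 1 ≤ 2 ^ d := hdim.trans Nat.lt_two_pow_self.le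
      exact_mod_cast this
    calc (1 + |δ|) * (((m : ℤ) + 1) * (2 ^ X * 2 ^ Y))
        ≤ 2 ^ (Z + 1) * (2 ^ d * (2 ^ X * 2 ^ Y)) := by
          refine mul_le_mul h1 (mul_le_mul_of_nonneg_right h2 (by positivity))
            (by positivity) (by positivity)
      _ = 2 ^ (Z + 1 + (d + (X + Y))) := by
          rw [pow_add 2 (Z + 1), pow_add 2 d, pow_add 2 X]
      _ ≤ 2 ^ slX d X Y Z := pow_le_pow_right₀ (by norm_num) (by unfold slX; omega)
  have hbl : blM U ≤ d * (d * (Y + 1)) :=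
    (blM_le hUW.mU).trans (Nat.mul_le_mul hdim (Nat.mul_le_mul_right _ hdim))
  have hrad : r ≤ X := hP.rad
  refine ⟨?_, ⟨shp_tabM _ _ _, fun i hi j hj => (hsl.2 ⟨i, hi⟩ ⟨j, hj⟩).trans hall⟩,
    ⟨length_tab _ _, fun i hi => (hsl.1 ⟨i, hi⟩).trans hall⟩, ?_, ?_⟩
  · change m ≤ d
    omega
  · change r + blM U + (m + 1) ≤ _
    unfold slX
    omega
  · intro z hz i
    have h1 : (phiP d (slice d (m + 1, F, f0, r) U W δ)).pt z ∈ SR d rz :=
      (inRows_prow (P := slice d (m + 1, F, f0, r) U W δ) z).1 hz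
    rw [phiP_slice] at h1
    exact slice_boxZ _ hUW.UW _ (fun w hw => hP.box w ((inRows_prow (P := (m + 1, F, f0, r))
      w).2 hw)) (fun i j => abs_g2_le _ _ _) h1 i

lemma PieceOK.mono {d X X' : ℕ} {rz : Rows} {P : Piece} (h : PieceOK d X rz P) (hX : X ≤ X') :
    PieceOK d X' rz P :=
  ⟨h.dim, h.mF.mono hX, h.v0.mono hX, h.rad.trans hX, h.box⟩

lemma StOK.mono {d X X' : ℕ} {rz : Rows} {a : ZV} {J : List Piece} {k : ℕ} {WM WI : ZM}
    {γ : ZV} (h : StOK d X rz a J k WM WI γ) (hX : X ≤ X') : StOK d X' rz a J k WM WI γ :=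
  ⟨h.pos, h.va.mono hX, h.len, fun P hP => (h.pc P hP).mono hX, h.hk, S1.uw_mono h.uw hX,
    h.vg.mono hX⟩

/-! ### Unimodular matrices -/

lemma mtx_idM (N : ℕ) : mtx N N (idM N) = 1 := by
  unfold idM
  rw [mtx_tabM]
  funext i j
  rw [Matrix.one_apply]
  by_cases h : i = j
  · subst h; simp
  · rw [if_neg h, if_neg fun h' => h (Fin.ext h')]

lemma uw_id (N X : ℕ) : UW N X (idM N) (idM N) := by
  have h : MB N N X (idM N) := MB.tabM fun i _ j _ => by
    split_ifs
    · rw [abs_one]; exact one_le_pow₀ (by norm_num)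
    · rw [abs_zero]; positivity
  exact ⟨h, h, by rw [mtx_idM, one_mul], by rw [mtx_idM, one_mul]⟩

/-- The block diagonal matrix. -/
def blkM (N k : ℕ) (U : ZM) : Matrix (Fin N) (Fin N) ℤ := fun i j =>
  if (i : ℕ) < k then (if i = j then 1 else 0) else
    if (j : ℕ) < k then 0 else g2 U (i - k) (j - k)

/-- Sums over the second block. -/
lemma sum_blk {N k : ℕ} (hk : k ≤ N) (f : ℕ → ℤ) (h : ∀ i < k, f i = 0) :
    ∑ i : Fin N, f i = ∑ j : Fin (N - k), f (k + j) := by
  rw [Fin.sum_univ_eq_sum_range, Fin.sum_univ_eq_sum_range (fun j => f (k + j))]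
  have h1 : N = k + (N - k) := by omega
  conv_lhs => rw [h1]
  rw [Finset.sum_range_add]
  rw [Finset.sum_eq_zero fun i hi => h i (Finset.mem_range.1 hi), zero_add]

lemma blkM_mul {N k : ℕ} (hk : k ≤ N) {U W : ZM}
    (h : mtx (N - k) (N - k) U * mtx (N - k) (N - k) W = 1) :
    blkM N k U * blkM N k W = 1 := by
  funext i j
  rw [Matrix.mul_apply, Matrix.one_apply]
  by_cases hi : (i : ℕ) < k
  · rw [Finset.sum_eq_single i]
    · unfold blkM
      rw [if_pos hi, if_pos rfl, one_mul, if_pos hi]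
    · intro l _ hl
      unfold blkM
      rw [if_pos hi, if_neg fun h' => hl h'.symm, zero_mul]
    · intro h'; exact absurd (Finset.mem_univ _) h'
  · set f : ℕ → ℤ := fun l : ℕ => if l < k then 0 else if (j : ℕ) < k then 0 else
      g2 U (i - k) (l - k) * g2 W (l - k) (j - k) with hf
    have h1 : ∀ l : Fin N, blkM N k U i l * blkM N k W l j = f l := by
      intro l
      rw [hf]
      unfold blkM
      dsimp only
      rw [if_neg hi]
      by_cases hl : (l : ℕ) < k
      · simp only [if_pos hl, zero_mul]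
      · rw [if_neg hl, if_neg hl, if_neg hl]
        by_cases hj : (j : ℕ) < k
        · rw [if_pos hj, if_pos hj, mul_zero]
        · rw [if_neg hj, if_neg hj]
    rw [Finset.sum_congr rfl fun l _ => h1 l, sum_blk hk f fun l hl => if_pos hl, hf]
    dsimp only
    by_cases hj : (j : ℕ) < k
    · have hij : i ≠ j := fun h' => hi (by rw [h']; exact hj)
      rw [if_neg hij]
      refine Finset.sum_eq_zero fun l _ => ?_
      rw [if_neg (by omega), if_pos hj]
    · have h2 := congrFun (congrFun h ⟨i - k, by omega⟩) ⟨j - k, by omega⟩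
      rw [Matrix.mul_apply, Matrix.one_apply] at h2
      have h3 : (⟨(i : ℕ) - k, by omega⟩ : Fin (N - k)) = ⟨(j : ℕ) - k, by omega⟩ ↔ i = j := by
        rw [Fin.mk.injEq, Fin.ext_iff]
        omega
      by_cases hij : i = j
      · rw [if_pos hij]
        rw [if_pos (h3.2 hij)] at h2
        rw [← h2]
        refine Finset.sum_congr rfl fun l _ => ?_
        rw [if_neg (by omega), if_neg hj, Nat.add_sub_cancel_left]
        rfl
      · rw [if_neg hij]
        rw [if_neg fun h' => hij (h3.1 h')] at h2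
        rw [← h2]
        refine Finset.sum_congr rfl fun l _ => ?_
        rw [if_neg (by omega), if_neg hj, Nat.add_sub_cancel_left]
        rfl

lemma mtx_actU {N k : ℕ} (hk : k ≤ N) (WM U : ZM) :
    mtx N N (actU N k WM U) = blkM N k U * mtx N N WM := by
  unfold actU
  rw [mtx_tabM]
  funext i c
  rw [Matrix.mul_apply]
  by_cases hi : (i : ℕ) < k
  · rw [if_pos hi, Finset.sum_eq_single i]
    · unfold blkM
      rw [if_pos hi, if_pos rfl, one_mul]
      rfl
    · intro l _ hl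
      unfold blkM
      rw [if_pos hi, if_neg fun h' => hl h'.symm, zero_mul]
    · intro h'; exact absurd (Finset.mem_univ _) h'
  · rw [if_neg hi, sumz_eq]
    set f : ℕ → ℤ := fun l : ℕ => if l < k then 0 else g2 U (i - k) (l - k) * g2 WM l c
      with hf
    have h1 : ∀ l : Fin N, blkM N k U i l * mtx N N WM l c = f l := by
      intro l
      rw [hf]
      unfold blkM
      dsimp only
      rw [if_neg hi]
      by_cases hl : (l : ℕ) < k
      · rw [if_pos hl, if_pos hl, zero_mul]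
      · rw [if_neg hl, if_neg hl]
        rfl
    rw [Finset.sum_congr rfl fun l _ => h1 l, sum_blk hk f fun l hl => if_pos hl, hf]
    dsimp only
    refine Finset.sum_congr rfl fun l _ => ?_
    rw [if_neg (by omega), Nat.add_sub_cancel_left]

lemma mtx_actW {N k : ℕ} (hk : k ≤ N) (WI W : ZM) :
    mtx N N (actW N k WI W) = mtx N N WI * blkM N k W := by
  unfold actW
  rw [mtx_tabM]
  funext b c
  rw [Matrix.mul_apply]
  by_cases hc : (c : ℕ) < k
  · rw [if_pos hc, Finset.sum_eq_single c]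
    · unfold blkM
      rw [if_pos hc, if_pos rfl, mul_one]
      rfl
    · intro l _ hl
      unfold blkM
      by_cases hl' : (l : ℕ) < k
      · rw [if_pos hl', if_neg hl, mul_zero]
      · rw [if_neg hl', if_pos hc, mul_zero]
    · intro h'; exact absurd (Finset.mem_univ _) h'
  · rw [if_neg hc, sumz_eq]
    set f : ℕ → ℤ := fun l : ℕ => if l < k then 0 else g2 WI b l * g2 W (l - k) (c - k)
      with hf
    have h1 : ∀ l : Fin N, mtx N N WI b l * blkM N k W l c = f l := by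
      intro l
      rw [hf]
      unfold blkM
      dsimp only
      by_cases hl : (l : ℕ) < k
      · have hlc : l ≠ c := fun h' => hc (by rw [← h']; exact hl)
        rw [if_pos hl, if_pos hl, if_neg hlc, mul_zero]
      · rw [if_neg hl, if_neg hl, if_neg hc]
        rfl
    rw [Finset.sum_congr rfl fun l _ => h1 l, sum_blk hk f fun l hl => if_pos hl, hf]
    dsimp only
    refine Finset.sum_congr rfl fun l _ => ?_
    rw [if_neg (by omega), Nat.add_sub_cancel_left]

lemma blkM_le {N k Y : ℕ} {U : ZM} (h : MB (N - k) (N - k) Y U) (i j : Fin N) :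
    |blkM N k U i j| ≤ 2 ^ Y := by
  have h1 : (1 : ℤ) ≤ 2 ^ Y := one_le_pow₀ (by norm_num)
  unfold blkM
  split_ifs
  · rw [abs_one]; exact h1
  · rw [abs_zero]; positivity
  · rw [abs_zero]; positivity
  · exact h.le _ (by omega) _ (by omega)

/-- **The new unimodular matrices.** -/
theorem act_ok {N k X Y : ℕ} (hk : k ≤ N) {WM WI U W : ZM} (h1 : UW N X WM WI)
    (h2 : UW (N - k) Y U W) : UW N (N + X + Y) (actU N k WM U) (actW N k WI W) := by
  have hN : (N : ℤ) ≤ 2 ^ N := by exact_mod_cast Nat.lt_two_pow_self.le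
  have hb : ((N : ℕ) : ℤ) * (2 ^ X * 2 ^ Y) ≤ 2 ^ (N + X + Y) := by
    calc ((N : ℕ) : ℤ) * (2 ^ X * 2 ^ Y) ≤ 2 ^ N * (2 ^ X * 2 ^ Y) :=
          mul_le_mul_of_nonneg_right hN (by positivity)
      _ = 2 ^ (N + X + Y) := by rw [pow_add, pow_add]; ring
  refine ⟨⟨shp_tabM _ _ _, fun i hi j hj => ?_⟩, ⟨shp_tabM _ _ _, fun i hi j hj => ?_⟩, ?_, ?_⟩
  · have h3 : g2 (actU N k WM U) i j = (blkM N k U * mtx N N WM) ⟨i, hi⟩ ⟨j, hj⟩ := by
      rw [← mtx_actU hk]
      rfl
    rw [h3]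
    refine (abs_mul_apply_le _ _ (fun i j => blkM_le h2.mU i j)
      (fun i j => h1.mU.le i i.2 j j.2) (by positivity) _ _).trans ?_
    rw [mul_comm ((2 : ℤ) ^ Y)]
    exact hb
  · have h3 : g2 (actW N k WI W) i j = (mtx N N WI * blkM N k W) ⟨i, hi⟩ ⟨j, hj⟩ := by
      rw [← mtx_actW hk]
      rfl
    rw [h3]
    exact (abs_mul_apply_le _ _ (fun i j => h1.mW.le i i.2 j j.2)
      (fun i j => blkM_le h2.mW i j) (by positivity) _ _).trans hb
  · rw [mtx_actU hk, mtx_actW hk, Matrix.mul_assoc, ← Matrix.mul_assoc (mtx N N WM), h1.UW,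
      Matrix.one_mul, blkM_mul hk h2.UW]
  · rw [mtx_actU hk, mtx_actW hk, Matrix.mul_assoc, ← Matrix.mul_assoc (blkM N k W),
      blkM_mul hk h2.WU, Matrix.one_mul, h1.WU]

end Pool.Agent.MDF
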