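import Pool.Agent.MDF.Sizes

/-!
# The main step keeps the invariant
-/

set_option autoImplicit false

namespace Pool.Agent.MDF

open Pool.Agent.PF Pool.Agent.MonFPT Matrix

/-! ### The cases of the main step -/

/-- The results of a piece. -/
lemma tabE_getD {fu d : ℕ} {rz : Rows} {a : ZV} {s : MS} {j : ℕ} (hj : j < s.2.2.1.length) :
    (tabE fu d rz a s).getD j [] =
      tab (tpow fu (kkc fu d) (pc s.2.2.1 j).1) fun σ => flatE fu d rz a s j σ := by
  unfold tabE
  rw [getD_tab, if_pos hj]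

/-- **The cases of the main step.** -/
theorem mainStep_cases (fu d : ℕ) (rz : Rows) (a : ZV) (Γ g : ℕ) (s : MS) (h0 : s.2.1 = 0) :
    ((∀ j < s.2.2.1.length, ∀ σ < tpow fu (kkc fu d) (pc s.2.2.1 j).1,
        (flatE fu d rz a s j σ).1 = 1) ∧
      mainStep fu d rz a Γ g s = deepStep fu d rz a Γ g s (tabE fu d rz a s)) ∨
    ∃ j < s.2.2.1.length, ∃ σ < tpow fu (kkc fu d) (pc s.2.2.1 j).1,
      (flatE fu d rz a s j σ).1 ≠ 1 ∧
      mainStep fu d rz a Γ g s =
        splitJ fu d s.2.2.1 Γ g s.1 j σ (flatE fu d rz a s j σ) := by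
  unfold mainStep
  rw [if_pos h0]
  dsimp only
  cases h1 : findN s.2.2.1.length fun j =>
      ((tabE fu d rz a s).getD j []).any fun o => decide (o.1 ≠ 1) with
  | none =>
    left
    refine ⟨fun j hj σ hσ => ?_, rfl⟩
    have h2 := findN_none h1 j hj
    rw [tabE_getD hj, List.any_eq_false] at h2
    have h3 := h2 _ (mem_tab.2 ⟨σ, hσ, rfl⟩)
    simpa using h3
  | some j =>
    right
    obtain ⟨hj, h2⟩ := findN_some h1
    rw [tabE_getD hj, List.any_eq_true] at h2
    obtain ⟨o, ho, ho2⟩ := h2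
    obtain ⟨σ0, hσ0, rfl⟩ := mem_tab.1 ho
    cases h3 : findN ((tabE fu d rz a s).getD j []).length fun σ =>
        decide ((((tabE fu d rz a s).getD j []).getD σ res0).1 ≠ 1) with
    | none =>
      have h4 := findN_none h3 σ0 (by rw [tabE_getD hj, length_tab]; exact hσ0)
      rw [tabE_getD hj, getD_tab, if_pos hσ0] at h4
      rw [h4] at ho2
      exact absurd ho2 (by simp)
    | some σ =>
      obtain ⟨hσ, h4⟩ := findN_some h3
      rw [tabE_getD hj, length_tab] at hσ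
      rw [tabE_getD hj, getD_tab, if_pos hσ] at h4
      refine ⟨j, hj, σ, hσ, by simpa using h4, ?_⟩
      change oc (findN ((tabE fu d rz a s).getD j []).length fun σ =>
        decide ((((tabE fu d rz a s).getD j []).getD σ res0).1 ≠ 1)) _ _ = _
      rw [h3]
      change splitJ fu d s.2.2.1 Γ g s.1 j σ _ = _
      rw [tabE_getD hj, getD_tab, if_pos hσ]

/-! ### The certificate points -/

lemma ptsJ_getD {fu d : ℕ} {rz : Rows} {a : ZV} {s : MS} {j : ℕ} (hj : j < s.2.2.1.length) :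
    (ptsJ fu d s.2.2.1 (tabE fu d rz a s)).getD j [] =
      tab (tpow fu (kkc fu d) (pc s.2.2.1 j).1) fun σ =>
        ptE fu (kkc fu d) (tauc fu d) (pc s.2.2.1 j).1 σ (flatE fu d rz a s j σ).2.1 := by
  unfold ptsJ
  rw [getD_tab, if_pos hj, tabE_getD hj, length_tab]
  refine tab_congr fun σ hσ => ?_
  rw [getD_tab, if_pos hσ]

/-- **The certificate points are found.** -/
theorem foundS_ptsJ {F : ℕ → ℕ} (hE : StepEHyp F) {fu d X t : ℕ} {rz : Rows} {a : ZV}
    {J : List Piece} {k : ℕ} {WM WI : ZM} {γ : ZV} (hs : StOK d X rz a J k WM WI γ)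
    (hfu : F d * (X + 1) ≤ fu) (hc : FuOK fu d)
    (h : ∀ j < J.length, ∀ σ < tpow fu (kkc fu d) (pc J j).1,
      (flatE fu d rz a (t, 0, J, k, WM, WI, γ) j σ).1 = 1) :
    FoundS fu d rz a J k WM γ (ptsJ fu d J (tabE fu d rz a (t, 0, J, k, WM, WI, γ))) := by
  have key : ∀ (j : Fin J.length) (σ : ℕ), σ < tpow fu (kkc fu d) (pc J j).1 →
      UsableS d rz a J k WM γ j (vec (eJ J j) (ptE fu (kkc fu d) (tauc fu d) (eJ J j) σ
        (flatE fu d rz a (t, 0, J, k, WM, WI, γ) j σ).2.1)) := by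
    intro j σ hσ
    have h1 := h j j.2 σ hσ
    rcases hE fu d X t rz a J k WM WI γ j σ _ hs hfu rfl with h2 | h2 | h2
    · exact h2.2.2
    · exact absurd (h1.symm.trans h2.1) (by norm_num)
    · exact absurd (h1.symm.trans h2.1) (by norm_num)
  have hlen : ∀ j : Fin J.length,
      ((ptsJ fu d J (tabE fu d rz a (t, 0, J, k, WM, WI, γ))).getD j []).length =
        tpow fu (kkc fu d) (pc J j).1 := by
    intro j
    rw [ptsJ_getD (s := (t, 0, J, k, WM, WI, γ)) j.2, length_tab]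
  have hpt : ∀ (j : Fin J.length) (i : ℕ), i < tpow fu (kkc fu d) (pc J j).1 →
      (((ptsJ fu d J (tabE fu d rz a (t, 0, J, k, WM, WI, γ))).getD j []).getD i []) =
        ptE fu (kkc fu d) (tauc fu d) (eJ J j) i
          (flatE fu d rz a (t, 0, J, k, WM, WI, γ) j i).2.1 := by
    intro j i hi
    rw [ptsJ_getD (s := (t, 0, J, k, WM, WI, γ)) j.2, getD_tab, if_pos hi]
    rfl
  refine ⟨fun j i => ?_, fun j i => ?_, fun j r => ?_⟩
  · have hi : (i : ℕ) < tpow fu (kkc fu d) (pc J j).1 := by rw [← hlen j]; exact i.2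
    unfold ptF
    rw [hpt j i hi]
    exact (key j i hi).1
  · have hi : (i : ℕ) < tpow fu (kkc fu d) (pc J j).1 := by rw [← hlen j]; exact i.2
    unfold ptF
    rw [hpt j i hi]
    exact (key j i hi).2
  · have hdim : (pc J j).1 ≤ d := (hs.pc _ (S1.pc_mem j.2)).dim
    have hq : 0 < kkc fu d := by rw [hc.kkc]; exact Nat.factorial_pos _
    have htp : tpow fu (kkc fu d) (pc J j).1 = kkc fu d ^ (pc J j).1 := by
      rw [hc.kkc]
      exact hc.pow _ hdim
    have hpow : kkc fu d ^ (pc J j).1 ≤ fu := by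
      rw [hc.kkc]
      exact hc.fpow _ hdim
    obtain ⟨g, hg, hgd⟩ := exists_digits (kkc fu d) (pc J j).1
      (fun i => if hi : i < eJ J j then (r ⟨i, hi⟩ : ℕ) else 0) fun i => by
        split_ifs with hi
        · exact (r ⟨i, hi⟩).2
        · exact hq
    have hg' : g < tpow fu (kkc fu d) (pc J j).1 := by rw [htp]; exact hg
    refine ⟨⟨g, by rw [hlen j]; exact hg'⟩, fun c =>
      ⟨g1 (flatE fu d rz a (t, 0, J, k, WM, WI, γ) j g).2.1 c, ?_⟩⟩
    have h1 : ptF J (ptsJ fu d J (tabE fu d rz a (t, 0, J, k, WM, WI, γ))) j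
        ⟨g, by rw [hlen j]; exact hg'⟩ c =
        (tauc fu d : ℤ) * res fu (kkc fu d) g c + tauc fu d * kkc fu d *
          g1 (flatE fu d rz a (t, 0, J, k, WM, WI, γ) j g).2.1 c := by
      unfold ptF
      rw [hpt j g hg']
      unfold ptE
      rw [vec_apply]
      exact g1_tab_lt _ c.2
    have h2 : res fu (kkc fu d) g c = (r c : ℕ) := by
      unfold res
      rw [dig_eq hq ((Nat.pow_le_pow_right hq c.2.le).trans hpow), hgd c c.2]
      exact dif_pos c.2
    rw [h1, h2]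

/-- The size of the certificate points. -/
lemma vb_ptsJ {F : ℕ → ℕ} (hE : StepEHyp F) {fu d X t : ℕ} {rz : Rows} {a : ZV}
    {J : List Piece} {k : ℕ} {WM WI : ZM} {γ : ZV} (hs : StOK d X rz a J k WM WI γ)
    (hfu : F d * (X + 1) ≤ fu) (hc : FuOK fu d)
    (h : ∀ j < J.length, ∀ σ < tpow fu (kkc fu d) (pc J j).1,
      (flatE fu d rz a (t, 0, J, k, WM, WI, γ) j σ).1 = 1) :
    ∀ j < J.length,
      ((ptsJ fu d J (tabE fu d rz a (t, 0, J, k, WM, WI, γ))).getD j []).length ≤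
        (d + 1).factorial ^ d ∧
      ∀ p ∈ (ptsJ fu d J (tabE fu d rz a (t, 0, J, k, WM, WI, γ))).getD j [],
        VB (pc J j).1 (tauD d * (d + 1).factorial + F d * (X + 1) + 1) p := by
  intro j hj
  have hdim : (pc J j).1 ≤ d := (hs.pc _ (S1.pc_mem hj)).dim
  rw [ptsJ_getD (s := (t, 0, J, k, WM, WI, γ)) hj, length_tab]
  constructor
  · change tpow fu (kkc fu d) (pc J j).1 ≤ _
    rw [hc.kkc, hc.pow _ hdim]
    exact Nat.pow_le_pow_right (Nat.factorial_pos _) hdim
  · intro p hp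
    obtain ⟨σ, hσ, rfl⟩ := mem_tab.1 hp
    have h1 := h j hj σ hσ
    rcases hE fu d X t rz a J k WM WI γ ⟨j, hj⟩ σ _ hs hfu rfl with h2 | h2 | h2
    · have h3 := S1.abs_ptE_le (fu := fu) (τ := tauc fu d) (q := kkc fu d) (σ := σ)
        (by rw [hc.kkc]; exact Nat.factorial_pos _) h2.2.1.le
      rw [hc.kkc, hc.tauc] at h3 ⊢
      exact h3
    · exact absurd (h1.symm.trans h2.1) (by norm_num)
    · exact absurd (h1.symm.trans h2.1) (by norm_num)

end Pool.Agent.MDF
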