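import Pool.Agent.MDF.Sizes2
import Pool.Agent.MDF.Start

/-!
# The invariant along a main path
-/

set_option autoImplicit false

namespace Pool.Agent.MDF

open Pool.Agent.PF Pool.Agent.MonFPT Matrix

/-- The invariant of the states of a main path. -/
structure MOK (d X : ℕ) (rz : Rows) (a : ZV) (s : MS) : Prop where
  st : s.2.1 ≤ 2
  ok : StOK d X rz a s.2.2.1 s.2.2.2.1 s.2.2.2.2.1 s.2.2.2.2.2.1 s.2.2.2.2.2.2

lemma MOK.mono {d X X' : ℕ} {rz : Rows} {a : ZV} {s : MS} (h : MOK d X rz a s) (hX : X ≤ X') :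
    MOK d X' rz a s := ⟨h.st, h.ok.mono hX⟩

lemma uw_nil (X : ℕ) : UW 0 X [] [] := by
  have h : MB 0 0 X [] := ⟨⟨rfl, fun r hr => absurd hr (by simp)⟩,
    fun i hi => absurd hi (Nat.not_lt_zero i)⟩
  exact ⟨h, h, by funext i; exact i.elim0, by funext i; exact i.elim0⟩

lemma rej_ok {d X : ℕ} {rz : Rows} {a : ZV} (hp : PosRows d rz) (ha : VB d X a) (t : ℕ) :
    MOK d X rz a (rej t) :=
  ⟨le_rfl, hp, ha, Nat.zero_le _, fun P hP => absurd hP (by simp [rej]), Nat.zero_le _, uw_nil X,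
    ⟨rfl, fun i hi => absurd hi (Nat.not_lt_zero i)⟩⟩

/-! ### The numbers in the guesses -/

/-- A bound for the coefficients. -/
def coefD (d : ℕ) : ℕ := tauD d * (d + 1).factorial * (d + flatG d + 2) + 3 * flatG (maxD d) +
  baseD d + 3

lemma gss_lt {fu Γ κ g t i : ℕ} (h : 0 < Γ) : gss fu Γ κ g t i < Γ := dig_lt h

lemma abs_bE_le {fu d e σ Y : ℕ} (hc : FuOK fu d) (he : e ≤ d) (h0 : 0 < e) {o : Res}
    (hU : MB e e Y o.2.2.1) (hv : |o.2.2.2.2| ≤ 2 ^ Y) {c : ℕ} (hcb : c < baseD d) :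
    |bE fu d e σ o + (c : ℤ) - 1| ≤ 2 ^ (Y + coefD d) := by
  set K := (d + 1).factorial with hK
  have hK0 : 0 < K := Nat.factorial_pos _
  have h1 : |sumz e fun i => g2 o.2.2.1 0 i * res fu (kkc fu d) σ i| ≤
      (e : ℤ) * (2 ^ Y * (K : ℤ)) := by
    rw [sumz_eq]
    refine abs_sum_mul_le (fun i : Fin e => g2 o.2.2.1 0 i)
      (fun i : Fin e => (res fu (kkc fu d) σ i : ℤ)) (fun i => hU.le 0 h0 i i.2) (fun i => ?_)
      (by positivity)
    rw [abs_of_nonneg (Int.natCast_nonneg _)]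
    have : res fu (kkc fu d) σ i < kkc fu d := dig_lt (by rw [hc.kkc]; exact hK0)
    rw [hc.kkc] at this
    rw [hc.kkc]
    exact_mod_cast this.le
  have h2 : bE fu d e σ o + (c : ℤ) - 1 =
      tauD d * (sumz e fun i => g2 o.2.2.1 0 i * res fu (kkc fu d) σ i) +
      tauD d * K * (o.2.2.2.2 - (flatG d + 1)) + ((c : ℤ) - 1) := by
    unfold bE
    rw [hc.tauc, hc.gd]
    have : ((kkc fu d : ℕ) : ℤ) = K := by rw [hc.kkc]
    rw [this]
    ring
  have hτ : (0 : ℤ) ≤ (tauD d : ℤ) := Int.natCast_nonneg _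
  have hKz : (0 : ℤ) ≤ (K : ℤ) := Int.natCast_nonneg _
  have hY : (1 : ℤ) ≤ 2 ^ Y := one_le_pow₀ (by norm_num)
  have h3 : |(tauD d : ℤ) * (sumz e fun i => g2 o.2.2.1 0 i * res fu (kkc fu d) σ i)| ≤
      tauD d * (d * (2 ^ Y * K)) := by
    rw [abs_mul, abs_of_nonneg hτ]
    refine mul_le_mul_of_nonneg_left (h1.trans ?_) hτ
    exact mul_le_mul_of_nonneg_right (by exact_mod_cast he) (by positivity)
  have h4 : |(tauD d : ℤ) * K * (o.2.2.2.2 - (flatG d + 1))| ≤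
      tauD d * K * (2 ^ Y + (flatG d + 1)) := by
    rw [abs_mul, abs_of_nonneg (by positivity : (0 : ℤ) ≤ tauD d * K)]
    refine mul_le_mul_of_nonneg_left ((abs_sub _ _).trans (add_le_add hv ?_)) (by positivity)
    rw [abs_of_nonneg (by positivity)]
  have h5 : |((c : ℤ) - 1)| ≤ baseD d := by
    have h6 : (c : ℤ) < baseD d := by exact_mod_cast hcb
    have h7 : (0 : ℤ) ≤ c := Int.natCast_nonneg _
    rw [abs_le]
    constructor <;> linarith
  rw [h2]
  refine (abs_add_le _ _).trans ((add_le_add ((abs_add_le _ _).trans (add_le_add h3 h4))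
    h5).trans ?_)
  have hb : (0 : ℤ) ≤ (baseD d : ℤ) := Int.natCast_nonneg _
  have hg : (0 : ℤ) ≤ (flatG d : ℤ) := Int.natCast_nonneg _
  have h6 : (tauD d : ℤ) * (d * (2 ^ Y * K)) + tauD d * K * (2 ^ Y + (flatG d + 1)) +
      baseD d ≤ (tauD d * K * (d + flatG d + 2) + baseD d) * 2 ^ Y := by
    have e1 : (0 : ℤ) ≤ (tauD d * K * (flatG d + 1)) * (2 ^ Y - 1) :=
      mul_nonneg (by positivity) (by linarith)
    have e2 : (0 : ℤ) ≤ (baseD d : ℤ) * (2 ^ Y - 1) := mul_nonneg hb (by linarith)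
    nlinarith
  refine h6.trans ?_
  have h7 : ((tauD d * K * (d + flatG d + 2) + baseD d : ℕ) : ℤ) ≤ 2 ^ coefD d := by
    have h8 : tauD d * K * (d + flatG d + 2) + baseD d ≤ coefD d := by
      unfold coefD
      rw [hK]
      omega
    exact_mod_cast h8.trans Nat.lt_two_pow_self.le
  push_cast at h7
  calc ((tauD d : ℤ) * K * (d + flatG d + 2) + baseD d) * 2 ^ Y ≤ 2 ^ coefD d * 2 ^ Y :=
        mul_le_mul_of_nonneg_right h7 (by positivity)
    _ = 2 ^ (Y + coefD d) := by rw [pow_add, mul_comm]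

/-! ### Splitting -/

/-- The new pieces are correct. -/
lemma newP_ok {fu d X Y : ℕ} {rz : Rows} {J : List Piece} (hs : ∀ P ∈ J, PieceOK d X rz P)
    {g t j σ : ℕ} (hj : j < J.length) {o : Res} (hc : FuOK fu d) (h0 : 0 < (pc J j).1)
    (hU : UW (pc J j).1 Y o.2.2.1 o.2.2.2.1) (hv : |o.2.2.2.2| ≤ 2 ^ Y) :
    ∀ P ∈ newP fu d J (baseD d) g t j σ o, PieceOK d (slX d X Y (Y + coefD d)) rz P := by
  intro P hP
  have hX : X ≤ slX d X Y (Y + coefD d) := by unfold slX; omega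
  unfold newP at hP
  rw [List.mem_append, List.mem_append] at hP
  rcases hP with (hP | hP) | hP
  · exact (hs P (List.mem_of_mem_take hP)).mono hX
  · exact (hs P (List.mem_of_mem_drop hP)).mono hX
  · obtain ⟨c, hc', rfl⟩ := List.mem_map.1 hP
    have hc2 := (List.mem_filter.1 hc').1
    obtain ⟨i, _, rfl⟩ := mem_tab.1 hc2
    exact slice_ok (hs _ (S1.pc_mem hj)) h0 hU
      (abs_bE_le hc (hs _ (S1.pc_mem hj)).dim h0 hU.mU hv (gss_lt (baseD_pos d)))

/-- A state without equations. -/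
lemma stOK_id {d X : ℕ} {rz : Rows} {a : ZV} {J : List Piece} (hp : PosRows d rz)
    (ha : VB d X a) (hlen : J.length ≤ 2 ^ d) (hJ : ∀ P ∈ J, PieceOK d X rz P) :
    StOK d X rz a J 0 (idM (totN J)) (idM (totN J)) [] :=
  ⟨hp, ha, hlen, hJ, Nat.zero_le _, uw_id _ _, ⟨rfl, fun i hi => absurd hi (Nat.not_lt_zero i)⟩⟩

/-- Splitting keeps the invariant. -/
lemma splitJ_ok {fu d X Y : ℕ} {rz : Rows} {a : ZV} {J : List Piece} (hp : PosRows d rz)
    (ha : VB d X a) (hs : ∀ P ∈ J, PieceOK d X rz P) {g t j σ : ℕ} (hj : j < J.length) {o : Res}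
    (hc : FuOK fu d) (h : o.1 = 2 → 0 < (pc J j).1 ∧ UW (pc J j).1 Y o.2.2.1 o.2.2.2.1 ∧
      |o.2.2.2.2| ≤ 2 ^ Y) :
    MOK d (slX d X Y (Y + coefD d)) rz a (splitJ fu d J (baseD d) g t j σ o) := by
  have hX : X ≤ slX d X Y (Y + coefD d) := by unfold slX; omega
  unfold splitJ
  dsimp only
  split_ifs with h1 h2
  · obtain ⟨h3, h4, h5⟩ := h h1
    exact ⟨Nat.zero_le _, stOK_id hp (ha.mono hX) (by rw [← hc.kap]; exact h2)
      (newP_ok hs hj hc h3 h4 h5)⟩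
  · exact rej_ok hp (ha.mono hX) t
  · exact rej_ok hp (ha.mono hX) t

/-! ### A new equation -/

lemma vb_append {k X : ℕ} {γ : ZV} {w : ℤ} (h : VB k X γ) (hw : |w| ≤ 2 ^ X) :
    VB (k + 1) X (γ ++ [w]) := by
  refine ⟨by rw [List.length_append, h.len]; rfl, fun i hi => ?_⟩
  unfold g1
  rcases Nat.lt_or_ge i k with h1 | h1
  · rw [List.getD_append _ _ _ _ (by rw [h.len]; exact h1)]
    exact h.le i h1
  · have h2 : i = k := by omega
    subst h2
    rw [List.getD_append_right _ _ _ _ (by rw [h.len]), h.len, Nat.sub_self]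
    exact hw

lemma cast_lt_pow {x C : ℕ} (h : x ≤ C) : ((x : ℕ) : ℤ) + 1 ≤ 2 ^ C := by
  have h1 : x < 2 ^ C := lt_of_le_of_lt h Nat.lt_two_pow_self
  exact_mod_cast h1

/-- A new equation keeps the invariant. -/
lemma deep_ok {fu d X Y : ℕ} {rz : Rows} {a : ZV} {J : List Piece} {k : ℕ} {WM WI : ZM}
    {γ : ZV} (hs : StOK d X rz a J k WM WI γ) (hc : FuOK fu d) {o : Res}
    (h0 : 0 < totN J - k) (hU : UW (totN J - k) Y o.2.2.1 o.2.2.2.1) (hv : |o.2.2.2.2| ≤ 2 ^ Y)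
    {c : ℕ} (hcb : c < baseD d) :
    StOK d (maxD d + X + Y + coefD d) rz a J (k + 1) (actU (totN J) k WM o.2.2.1)
      (actW (totN J) k WI o.2.2.2.1)
      (γ ++ [o.2.2.2.2 - (3 * Gc fu (totN J) + 3) + (c : ℤ)]) := by
  have htot : totN J ≤ maxD d := by
    have h1 : totN J ≤ J.length * (d + 1) := S1.off_le_mul (fun P hP => (hs.pc P hP).dim) le_rfl
    exact h1.trans (Nat.mul_le_mul_right _ hs.len)
  have hX : X ≤ maxD d + X + Y + coefD d := by omega
  refine ⟨hs.pos, hs.va.mono hX, hs.len, fun P hP => (hs.pc P hP).mono hX, by omega,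
    S1.uw_mono (act_ok hs.hk hs.uw hU) (by omega), vb_append (hs.vg.mono hX) ?_⟩
  have hG : Gc fu (totN J) = flatG (totN J) := hc.gc _ htot
  have hG2 : flatG (totN J) ≤ flatG (maxD d) := flatG_mono htot
  have h3 : |o.2.2.2.2 - (3 * (Gc fu (totN J) : ℤ) + 3) + (c : ℤ)| ≤
      2 ^ Y + (3 * flatG (maxD d) + baseD d + 3) := by
    rw [hG]
    have h4 : (c : ℤ) < baseD d := by exact_mod_cast hcb
    have h5 : (0 : ℤ) ≤ c := Int.natCast_nonneg _
    have h6 : (flatG (totN J) : ℤ) ≤ flatG (maxD d) := by exact_mod_cast hG2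
    have h7 : (0 : ℤ) ≤ flatG (totN J) := Int.natCast_nonneg _
    rw [abs_le] at hv ⊢
    constructor <;> linarith [hv.1, hv.2]
  refine h3.trans ?_
  have h5 : 3 * flatG (maxD d) + baseD d + 3 ≤ coefD d := by
    unfold coefD
    generalize tauD d * (d + 1).factorial * (d + flatG d + 2) = x
    omega
  have h4 := cast_lt_pow h5
  push_cast at h4
  have hY : (1 : ℤ) ≤ 2 ^ Y := one_le_pow₀ (by norm_num)
  have h7 := Int.natCast_nonneg (3 * flatG (maxD d) + baseD d + 3)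
  push_cast at h7
  calc (2 : ℤ) ^ Y + (3 * flatG (maxD d) + baseD d + 3)
      ≤ 2 ^ Y * (3 * flatG (maxD d) + baseD d + 3 + 1) := by nlinarith
    _ ≤ 2 ^ Y * 2 ^ coefD d := mul_le_mul_of_nonneg_left h4 (by positivity)
    _ = 2 ^ (Y + coefD d) := by rw [pow_add]
    _ ≤ 2 ^ (maxD d + X + Y + coefD d) := pow_le_pow_right₀ (by norm_num) (by omega)

end Pool.Agent.MDF
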