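import Pool.Agent.MDF.Sizes3

/-!
# The invariant along a main path: iteration, sizes, the first state
-/

set_option autoImplicit false

namespace Pool.Agent.MDF

open Pool.Agent.PF Pool.Agent.MonFPT Matrix

/-! ### One step -/

lemma mainStep_inv {Fe Fd : ℕ → ℕ} (hE : StepEHyp Fe) (hD : DeepHyp Fd) {fu d X g : ℕ}
    {rz : Rows} {a : ZV} {s : MS} (hc : FuOK fu d) (hs : MOK d X rz a s)
    (hfe : Fe d * (X + 1) ≤ fu) {X1 : ℕ}
    (hX1 : X1 = X + tauD d * (d + 1).factorial + Fe d * (X + 1) + 1)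
    (hfd : Fd d * (X1 + 1) ≤ fu) :
    MOK d (slX d X (Fe d * (X + 1)) (Fe d * (X + 1) + coefD d) +
      (maxD d + X1 + Fd d * (X1 + 1) + coefD d)) rz a (mainStep fu d rz a (baseD d) g s) := by
  by_cases h0 : s.2.1 = 0
  · obtain ⟨t, st, J, k, WM, WI, γ⟩ := s
    change st = 0 at h0
    subst h0
    have hok : StOK d X rz a J k WM WI γ := hs.ok
    rcases mainStep_cases fu d rz a (baseD d) g (t, 0, J, k, WM, WI, γ) rfl with
      ⟨hall, heq⟩ | ⟨j, hj, σ, hσ, hne, heq⟩
    · rw [heq]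
      have hXX : X ≤ X1 := by omega
      have hvb := vb_ptsJ hE (t := t) hok hfe hc hall
      have hfo := foundS_ptsJ hE (t := t) hok hfe hc hall
      have hdeep := hD fu d X1 t rz a J k WM WI γ _ _ (hok.mono hXX) hfd
        (fun j hj => ⟨(hvb j hj).1, fun p hp => ((hvb j hj).2 p hp).mono (by omega)⟩) hfo rfl
      unfold deepStep
      dsimp only
      rcases hdeep with ⟨h1, _⟩ | ⟨h1, h2, h3, h4, _⟩ | ⟨h1, _⟩
      · rw [if_pos h1]
        refine ⟨by norm_num, ?_⟩
        exact hok.mono (by omega)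
      · rw [if_neg (by rw [h1]; norm_num), if_pos h1]
        refine ⟨Nat.zero_le _, ?_⟩
        exact (deep_ok (hok.mono hXX) hc h2 h3 h4 (gss_lt (baseD_pos d))).mono (by omega)
      · rw [if_neg (by rw [h1]; norm_num), if_neg (by rw [h1]; norm_num)]
        exact rej_ok hok.pos (hok.va.mono (by omega)) t
    · rw [heq]
      refine (splitJ_ok hok.pos hok.va hok.pc hj hc fun ho => ?_).mono (Nat.le_add_right _ _)
      rcases hE fu d X t rz a J k WM WI γ ⟨j, hj⟩ σ _ hok hfe rfl with h2 | h2 | h2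
      · exact absurd h2.1 hne
      · exact ⟨h2.2.1, h2.2.2.1, h2.2.2.2.1⟩
      · exact absurd (ho.symm.trans h2.1) (by norm_num)
  · have h1 : mainStep fu d rz a (baseD d) g s = s := by
      unfold mainStep
      rw [if_neg h0]
    rw [h1]
    exact hs.mono (by omega)

/-- The time. -/
lemma mainStep_time_le (fu d : ℕ) (rz : Rows) (a : ZV) (Γ g : ℕ) (s : MS) :
    (mainStep fu d rz a Γ g s).1 ≤ s.1 + 1 := by
  by_cases h0 : s.2.1 = 0
  · rcases mainStep_cases fu d rz a Γ g s h0 with ⟨_, heq⟩ | ⟨j, _, σ, _, _, heq⟩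
    · rw [heq]
      unfold deepStep
      dsimp only
      split_ifs <;> exact le_rfl
    · rw [heq]
      unfold splitJ
      dsimp only
      split_ifs <;> exact le_rfl
  · have h1 : mainStep fu d rz a Γ g s = s := by
      unfold mainStep
      rw [if_neg h0]
    rw [h1]
    omega

/-- The growth factor. -/
def stF (Fe Fd : ℕ → ℕ) (d : ℕ) : ℕ :=
  1 + 2 * Fe d + coefD d + d * d * (Fe d + 1) + 2 * d + 1 + maxD d +
    (tauD d * (d + 1).factorial + Fe d + 2) +
    Fd d * (tauD d * (d + 1).factorial + Fe d + 2) + coefD d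

theorem eb_coefD : EB coefD := by
  unfold coefD baseD tauD maxD flatG
  fun_prop

theorem eb_stF {Fe Fd : ℕ → ℕ} (h1 : EB Fe) (h2 : EB Fd) : EB (stF Fe Fd) := by
  have h3 := eb_coefD
  unfold stF tauD maxD
  fun_prop

/-- One step, with a linear bound. -/
lemma mainStep_inv' {Fe Fd : ℕ → ℕ} (hE : StepEHyp Fe) (hD : DeepHyp Fd) {fu d X g : ℕ}
    {rz : Rows} {a : ZV} {s : MS} (hc : FuOK fu d) (hs : MOK d X rz a s)
    (hfu : stF Fe Fd d * (X + 1) ≤ fu) :
    MOK d (stF Fe Fd d * (X + 1)) rz a (mainStep fu d rz a (baseD d) g s) := by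
  set K := tauD d * (d + 1).factorial with hK
  set X1 := X + K + Fe d * (X + 1) + 1 with hX1
  have hX11 : X1 + 1 ≤ (K + Fe d + 2) * (X + 1) := by
    have h1 : (K + Fe d + 2) * (X + 1) = K * X + K + Fe d * (X + 1) + 2 * X + 2 := by ring
    rw [h1, hX1]
    have := Nat.zero_le (K * X)
    omega
  have hfd : Fd d * (X1 + 1) ≤ Fd d * (K + Fe d + 2) * (X + 1) := by
    rw [mul_assoc]
    exact Nat.mul_le_mul_left _ hX11
  have hsum : stF Fe Fd d * (X + 1) = (X + 1) + 2 * (Fe d * (X + 1)) + coefD d * (X + 1) +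
      (d * d * (Fe d * (X + 1)) + d * d * (X + 1)) + 2 * (d * (X + 1)) + (X + 1) +
      maxD d * (X + 1) + (K + Fe d + 2) * (X + 1) + Fd d * (K + Fe d + 2) * (X + 1) +
      coefD d * (X + 1) := by
    unfold stF
    rw [← hK]
    ring
  have hm1 : coefD d ≤ coefD d * (X + 1) := Nat.le_mul_of_pos_right _ (by omega)
  have hm2 : maxD d ≤ maxD d * (X + 1) := Nat.le_mul_of_pos_right _ (by omega)
  have hm3 : d ≤ d * (X + 1) := Nat.le_mul_of_pos_right _ (by omega)
  have hm4 : d * (d * (Fe d * (X + 1) + 1)) = d * d * (Fe d * (X + 1)) + d * d := by ring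
  have hm5 : d * d ≤ d * d * (X + 1) := Nat.le_mul_of_pos_right _ (by omega)
  refine (mainStep_inv hE hD hc hs ?_ rfl (X1 := X1) ?_).mono ?_
  · refine le_trans ?_ hfu
    rw [hsum]
    generalize coefD d * (X + 1) = x1 at *
    generalize Fe d * (X + 1) = x2 at *
    omega
  · refine le_trans hfd (le_trans ?_ hfu)
    rw [hsum]
    generalize Fd d * (K + Fe d + 2) * (X + 1) = x1 at *
    omega
  · rw [hsum]
    unfold slX
    rw [hm4]
    generalize coefD d * (X + 1) = x1 at *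
    generalize Fe d * (X + 1) = x2 at *
    generalize Fd d * (K + Fe d + 2) * (X + 1) = x3 at *
    generalize Fd d * (X1 + 1) = x4 at *
    generalize coefD d = x5 at *
    generalize maxD d * (X + 1) = x6 at *
    generalize maxD d = x7 at *
    generalize d * d * x2 = x8 at *
    omega

/-! ### Iteration -/

/-- The invariant after `k` steps. -/
lemma mainIter_inv {Fe Fd : ℕ → ℕ} (hE : StepEHyp Fe) (hD : DeepHyp Fd) {fu d X g T : ℕ}
    {rz : Rows} {a : ZV} {s : MS} (hc : FuOK fu d) (hs : MOK d X rz a s)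
    (hfu : stF Fe Fd d * ((stF Fe Fd d + 1) ^ T * (X + 1)) ≤ fu) :
    ∀ k ≤ T, ∃ X', X' + 1 ≤ (stF Fe Fd d + 1) ^ k * (X + 1) ∧
      MOK d X' rz a ((mainStep fu d rz a (baseD d) g)^[k] s) := by
  intro k
  induction k with
  | zero => intro _; exact ⟨X, by rw [pow_zero, one_mul], hs⟩
  | succ k ih =>
    intro hk
    obtain ⟨X', h1, h2⟩ := ih (by omega)
    have h3 : X' + 1 ≤ (stF Fe Fd d + 1) ^ T * (X + 1) := h1.trans
      (Nat.mul_le_mul_right _ (Nat.pow_le_pow_right (by omega) (by omega)))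
    refine ⟨stF Fe Fd d * (X' + 1), ?_, ?_⟩
    · have h4 : (stF Fe Fd d + 1) ^ (k + 1) * (X + 1) =
          (stF Fe Fd d + 1) * ((stF Fe Fd d + 1) ^ k * (X + 1)) := by rw [pow_succ]; ring
      rw [h4]
      calc stF Fe Fd d * (X' + 1) + 1 ≤ (stF Fe Fd d + 1) * (X' + 1) := by
            rw [Nat.add_mul]; omega
        _ ≤ _ := Nat.mul_le_mul_left _ h1
    · rw [Function.iterate_succ_apply']
      exact mainStep_inv' hE hD hc h2 ((Nat.mul_le_mul_left _ h3).trans hfu)

lemma mainIter_time (fu d : ℕ) (rz : Rows) (a : ZV) (Γ g : ℕ) (s : MS) (k : ℕ) :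
    ((mainStep fu d rz a Γ g)^[k] s).1 ≤ s.1 + k := by
  induction k with
  | zero => exact le_rfl
  | succ k ih =>
    rw [Function.iterate_succ_apply']
    have := mainStep_time_le fu d rz a Γ g ((mainStep fu d rz a Γ g)^[k] s)
    omega

/-! ### The size of a state -/

/-- The factor for the size. -/
def szD (d : ℕ) : ℕ :=
  2 ^ d * (10 * (d * d) + 14 * d + 10) + 20 * (maxD d * maxD d) + 16 * maxD d + 17

lemma sz_piece {d X : ℕ} {rz : Rows} {P : Piece} (h : PieceOK d X rz P) :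
    sz P + 1 ≤ (10 * (d * d) + 14 * d + 10) * (X + 1) := by
  obtain ⟨e, F, f0, r⟩ := P
  have h1 : e ≤ d := h.dim
  have h2 : r ≤ X := h.rad
  have h3 : sz F ≤ d * (e * (4 * X + 10) + 2) + 1 := h.mF.sz_le
  have h4 : sz f0 ≤ d * (4 * X + 10) + 1 := h.v0.sz_le
  have h5 : d * (e * (4 * X + 10) + 2) ≤ d * (d * (10 * (X + 1)) + 2) :=
    Nat.mul_le_mul_left _ (Nat.add_le_add_right (Nat.mul_le_mul h1 (by omega)) _)
  have h6 : d * (4 * X + 10) ≤ d * (10 * (X + 1)) := Nat.mul_le_mul_left _ (by omega)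
  have h7 : d * (d * (10 * (X + 1)) + 2) = 10 * (d * d * X) + 10 * (d * d) + 2 * d := by ring
  have h8 : d * (10 * (X + 1)) = 10 * (d * X) + 10 * d := by ring
  have h9 : (10 * (d * d) + 14 * d + 10) * (X + 1) =
      10 * (d * d * X) + 10 * (d * d) + 14 * (d * X) + 14 * d + 10 * X + 10 := by ring
  simp only [sz_prod, sz_nat]
  omega

lemma tot_le_maxD {d X : ℕ} {rz : Rows} {a : ZV} {J : List Piece} {k : ℕ} {WM WI : ZM} {γ : ZV}
    (hs : StOK d X rz a J k WM WI γ) : totN J ≤ maxD d :=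
  (S1.off_le_mul (fun P hP => (hs.pc P hP).dim) le_rfl).trans (Nat.mul_le_mul_right _ hs.len)

lemma MOK.size {d X T : ℕ} {rz : Rows} {a : ZV} {s : MS} (h : MOK d X rz a s) (hT : s.1 ≤ T) :
    sz s ≤ 2 * T + szD d * (X + 1) := by
  obtain ⟨t, st, J, k, WM, WI, γ⟩ := s
  have hok : StOK d X rz a J k WM WI γ := h.ok
  have hst : st ≤ 2 := h.st
  have ht : t ≤ T := hT
  set M := maxD d with hM
  have hN : totN J ≤ M := tot_le_maxD hok
  have hk : k ≤ M := hok.hk.trans hN
  have h1 : sz J ≤ J.length * ((10 * (d * d) + 14 * d + 10) * (X + 1)) + 1 := by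
    refine (sz_list_le J ((10 * (d * d) + 14 * d + 10) * (X + 1) - 1) fun P hP => ?_).trans ?_
    · have := sz_piece (hok.pc P hP)
      omega
    · refine Nat.add_le_add_right (Nat.mul_le_mul_left _ ?_) _
      have h0 : 1 ≤ (10 * (d * d) + 14 * d + 10) * (X + 1) := Nat.mul_pos (by omega) (by omega)
      omega
  have h2 : J.length * ((10 * (d * d) + 14 * d + 10) * (X + 1)) ≤
      2 ^ d * ((10 * (d * d) + 14 * d + 10) * (X + 1)) := Nat.mul_le_mul_right _ hok.len
  have hW : ∀ A : ZM, MB (totN J) (totN J) X A → sz A ≤ 10 * (M * M * (X + 1)) + 2 * M + 1 := by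
    intro A hA
    refine hA.sz_le.trans ?_
    calc totN J * (totN J * (4 * X + 10) + 2) + 1 ≤ M * (M * (10 * (X + 1)) + 2) + 1 :=
          Nat.add_le_add_right (Nat.mul_le_mul hN (Nat.add_le_add_right
            (Nat.mul_le_mul hN (by omega)) _)) _
      _ = 10 * (M * M * (X + 1)) + 2 * M + 1 := by ring
  have h3 := hW WM hok.uw.mU
  have h4 := hW WI hok.uw.mW
  have h5 : sz γ ≤ 10 * (M * (X + 1)) + 1 := by
    refine hok.vg.sz_le.trans ?_
    calc k * (4 * X + 10) + 1 ≤ M * (10 * (X + 1)) + 1 :=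
          Nat.add_le_add_right (Nat.mul_le_mul hk (by omega)) _
      _ = 10 * (M * (X + 1)) + 1 := by ring
  have h6 : szD d * (X + 1) = 2 ^ d * ((10 * (d * d) + 14 * d + 10) * (X + 1)) +
      20 * (M * M * (X + 1)) + 16 * (M * (X + 1)) + 17 * (X + 1) := by
    unfold szD
    rw [← hM]
    ring
  have h7 : M ≤ M * (X + 1) := Nat.le_mul_of_pos_right _ (by omega)
  rw [h6]
  simp only [sz_prod, sz_nat]
  generalize M * M * (X + 1) = x1 at *
  generalize M * (X + 1) = x2 at *
  generalize 2 ^ d * ((10 * (d * d) + 14 * d + 10) * (X + 1)) = x3 at *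
  omega

/-! ### The first state -/

lemma posRows_rowsZ (d : ℕ) (Ab : Rows) (a : ZV) : PosRows d (rowsZ d Ab a) := fun _ hz =>
  ⟨(mem_rowsZ.1 hz).2.2.1, (mem_rowsZ.1 hz).2.2.2⟩

lemma phiP_id (d r : ℕ) (z : Fin d → ℤ) : (phiP d (d, idM d, tab d fun _ => 0, r)).pt z = z :=
  chS_id_pt d z

/-- **The first state.** -/
theorem init_ok {d : ℕ} (Ab : Rows) {a : ZV} (ha : a.length = d) :
    MOK d (blV a) (rowsZ d Ab a) a (init d a) := by
  have h1 : totN [((d, idM d, tab d fun _ => 0, blV a) : Piece)] = d + 1 := rfl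
  have hVB : VB d (blV a) a := ⟨ha, fun i _ => abs_g1_le a i⟩
  have hP : PieceOK d (blV a) (rowsZ d Ab a) (d, idM d, tab d fun _ => 0, blV a) := by
    refine ⟨le_rfl, (uw_id d _).mU, VB.tab fun i _ => ?_, le_rfl, fun z hz i => ?_⟩
    · rw [abs_zero]; positivity
    · have h2 := (inRows_prow (P := (d, idM d, tab d fun _ => 0, blV a)) z).1 hz
      rw [phiP_id] at h2
      exact SR_box h2 i
  refine ⟨Nat.zero_le _, ?_⟩
  have h2 := stOK_id (J := [((d, idM d, tab d fun _ => 0, blV a) : Piece)])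
    (posRows_rowsZ d Ab a) hVB Nat.one_le_two_pow
    fun P hP' => by rw [List.mem_singleton.1 hP']; exact hP
  rw [h1] at h2
  exact h2

/-- **The states of a main path.** -/
theorem mainPath_inv {Fe Fd : ℕ → ℕ} (hE : StepEHyp Fe) (hD : DeepHyp Fd) (he : EB Fe)
    (hd : EB Fd) : ∃ F : ℕ → ℕ, EB F ∧ Monotone F ∧
    ∀ (fu d : ℕ) (Ab : Rows) (a : ZV) (g : ℕ), a.length = d → F d * (blV a + 1) ≤ fu →
      FuOK fu d ∧
      (∀ k ≤ lenD d, ∃ X, MOK d X (rowsZ d Ab a) a
          ((mainStep fu d (rowsZ d Ab a) a (baseD d) g)^[k] (init d a)) ∧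
        Fe d * (X + 1) ≤ fu ∧
        Fd d * (X + tauD d * (d + 1).factorial + Fe d * (X + 1) + 1 + 1) ≤ fu) ∧
      bIter fu (lenM fu d) (mainStep fu d (rowsZ d Ab a) a (baseG fu d (maxN fu d)) g)
        (init d a) =
        (mainStep fu d (rowsZ d Ab a) a (baseD d) g)^[lenD d] (init d a) := by
  obtain ⟨F, hF1, hF2, hF3, _⟩ := EB.exists_mono (f := fun d => constD d +
    (stF Fe Fd d + szD d + 2 * lenD d) * (stF Fe Fd d + 1) ^ lenD d) (by
      have h1 := eb_constD
      have h2 := eb_stF he hd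
      have h3 : EB szD := by unfold szD maxD; fun_prop
      have h4 : EB lenD := by unfold lenD; fun_prop
      fun_prop)
  refine ⟨F, hF1, hF2, fun fu d Ab a g ha hfu => ?_⟩
  have hle : (constD d + (stF Fe Fd d + szD d + 2 * lenD d) *
      (stF Fe Fd d + 1) ^ lenD d) * (blV a + 1) ≤ fu :=
    (Nat.mul_le_mul_right _ (hF3 d)).trans hfu
  set Q := (stF Fe Fd d + 1) ^ lenD d * (blV a + 1) with hQ
  have hQ1 : 1 ≤ Q := Nat.mul_pos (Nat.pow_pos (by omega)) (by omega)
  have hsum : (constD d + (stF Fe Fd d + szD d + 2 * lenD d) *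
      (stF Fe Fd d + 1) ^ lenD d) * (blV a + 1) = constD d * (blV a + 1) +
      (stF Fe Fd d * Q + szD d * Q + 2 * lenD d * Q) := by rw [hQ]; ring
  rw [hsum] at hle
  have hc : FuOK fu d := FuOK.of_le (by
    have : constD d ≤ constD d * (blV a + 1) := Nat.le_mul_of_pos_right _ (by omega)
    omega)
  have hst : stF Fe Fd d * Q ≤ fu := by omega
  have hinv := mainIter_inv hE hD (g := g) (T := lenD d) hc (init_ok Ab ha) hst
  refine ⟨hc, fun k hk => ?_, ?_⟩
  · obtain ⟨X, h1, h2⟩ := hinv k hk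
    have h3 : X + 1 ≤ Q := h1.trans
      (Nat.mul_le_mul_right _ (Nat.pow_le_pow_right (by omega) hk))
    have h4 : stF Fe Fd d * (X + 1) ≤ fu := (Nat.mul_le_mul_left _ h3).trans hst
    refine ⟨X, h2, le_trans (Nat.mul_le_mul_right _ ?_) h4, le_trans ?_ h4⟩
    · unfold stF
      generalize coefD d = x5
      generalize maxD d = x7
      generalize tauD d * (d + 1).factorial = x8
      generalize Fd d * (x8 + Fe d + 2) = x9
      generalize d * d * (Fe d + 1) = x10
      omega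
    · set K := tauD d * (d + 1).factorial with hK
      have h5 : X + K + Fe d * (X + 1) + 1 + 1 ≤ (K + Fe d + 2) * (X + 1) := by
        have h1 : (K + Fe d + 2) * (X + 1) = K * X + K + Fe d * (X + 1) + 2 * X + 2 := by ring
        rw [h1]
        have := Nat.zero_le (K * X)
        omega
      calc Fd d * (X + K + Fe d * (X + 1) + 1 + 1) ≤ Fd d * ((K + Fe d + 2) * (X + 1)) :=
            Nat.mul_le_mul_left _ h5
        _ = Fd d * (K + Fe d + 2) * (X + 1) := by ring
        _ ≤ stF Fe Fd d * (X + 1) := by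
            refine Nat.mul_le_mul_right _ ?_
            unfold stF
            rw [← hK]
            generalize Fd d * (K + Fe d + 2) = x1
            generalize coefD d = x5
            generalize maxD d = x7
            generalize d * d * (Fe d + 1) = x10
            omega
  · rw [hc.base, hc.len, bIter_eq]
    intro i hi
    obtain ⟨X, h1, h2⟩ := hinv (i + 1) (by omega)
    have h3 : X + 1 ≤ Q := h1.trans
      (Nat.mul_le_mul_right _ (Nat.pow_le_pow_right (by omega) (by omega)))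
    have h4 := h2.size (T := lenD d) ((mainIter_time _ _ _ _ _ _ _ _).trans
      (by change 0 + (i + 1) ≤ lenD d; omega))
    have h5 : szD d * (X + 1) ≤ szD d * Q := Nat.mul_le_mul_left _ h3
    have h6 : 2 * lenD d ≤ 2 * lenD d * Q := Nat.le_mul_of_pos_right _ hQ1
    omega

end Pool.Agent.MDF
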