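import Pool.Agent.MDF.Sizes4

/-!
# Soundness of the main path
-/

set_option autoImplicit false

namespace Pool.Agent.MDF

open Pool.Agent.PF Pool.Agent.MonFPT Matrix

/-! ### The first `d` coordinates of the columns -/

lemma psiJ_base_castAdd (d : ℕ) (J : List Piece) (k : ℕ) (WM : ZM) (j : Fin J.length)
    (l : Fin d) : (psiJ d J k WM j).base (Fin.castAdd k l) = (phiJ d J j).base l := by
  change g1 (colO d J k WM j (pc J j)) (l : ℕ) = g1 (pc J j).2.2.1 l
  unfold colO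
  rw [g1_tab_lt _ (by have := l.2; omega), if_pos l.2]

lemma psiJ_cols_castAdd (d : ℕ) (J : List Piece) (k : ℕ) (WM : ZM) (j : Fin J.length)
    (l : Fin d) (i : Fin (eJ J j)) :
    (psiJ d J k WM j).cols (Fin.castAdd k l) i = (phiJ d J j).cols l i := by
  have h1 := g2_tabM_lt (n := d + k) (m := (pc J j).1)
    (fun l a => if l < d then g2 (pc J j).2.1 l a else g2 WM (l - d) (off J j + a))
    (i := (l : ℕ)) (j := (i : ℕ)) (by have := l.2; omega) i.2
  rw [if_pos l.2] at h1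
  exact h1

lemma psiJ_linZ_castAdd (d : ℕ) (J : List Piece) (k : ℕ) (WM : ZM) (j : Fin J.length)
    (y : (Fin (eJ J j) → ℤ) × ℤ) (l : Fin d) :
    (psiJ d J k WM j).linZ y (Fin.castAdd k l) = (phiJ d J j).linZ y l := by
  change y.2 * (psiJ d J k WM j).base (Fin.castAdd k l) +
    ∑ i, (psiJ d J k WM j).cols (Fin.castAdd k l) i * y.1 i =
    y.2 * (phiJ d J j).base l + ∑ i, (phiJ d J j).cols l i * y.1 i
  rw [psiJ_base_castAdd]
  congr 1
  exact Finset.sum_congr rfl fun i _ => by rw [psiJ_cols_castAdd]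

lemma tgtV_castAdd (d : ℕ) (a : ZV) (k : ℕ) (γ : ZV) (l : Fin d) :
    tgtV d a k γ (Fin.castAdd k l) = vec d a l := by
  change g1 (tgt d a γ k) (l : ℕ) = g1 a l
  unfold tgt
  rw [g1_tab_lt _ (by have := l.2; omega), if_pos l.2]

/-- The total of a solution of the equations. -/
lemma sum_linZ_eq {d : ℕ} {J : List Piece} {k : ℕ} {WM : ZM} {a γ : ZV}
    (y : ∀ j, (Fin (eJ J j) → ℤ) × ℤ)
    (h : Ltot (eJ J) (psiJ d J k WM) (fun j => cast2 (y j)) = toQ (tgtV d a k γ)) :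
    ∑ j, (phiJ d J j).linZ (y j) = vec d a := by
  funext l
  have h1 := congrFun h (Fin.castAdd k l)
  rw [Ltot_apply, Finset.sum_apply, toQ_apply, tgtV_castAdd] at h1
  have h2 : ∀ j, ((psiJ d J k WM j).lin (cast2 (y j))) (Fin.castAdd k l) =
      (((phiJ d J j).linZ (y j) l : ℤ) : ℚ) := by
    intro j
    rw [Chart.lin_cast2, toQ_apply, psiJ_linZ_castAdd]
  rw [Finset.sum_congr rfl fun j _ => h2 j] at h1
  rw [Finset.sum_apply]
  exact_mod_cast h1

/-! ### Soundness -/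

/-- The numerical condition. -/
lemma tau_cond {d e M : ℕ} (he : e ≤ d) (hM : M ≤ (d + 1).factorial ^ d) :
    2 * 2 ^ d * ((e + 1) * (e + 1) * M) ≤ tauD d * (d + 1).factorial := by
  have h1 : (e + 1) * (e + 1) * M ≤ (d + 1) * (d + 1) * (d + 1).factorial ^ d :=
    Nat.mul_le_mul (Nat.mul_le_mul (by omega) (by omega)) hM
  calc 2 * 2 ^ d * ((e + 1) * (e + 1) * M)
      ≤ 2 * 2 ^ d * ((d + 1) * (d + 1) * (d + 1).factorial ^ d) := Nat.mul_le_mul_left _ h1
    _ = tauD d := by unfold tauD; ring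
    _ ≤ tauD d * (d + 1).factorial := Nat.le_mul_of_pos_right _ (Nat.factorial_pos _)

/-- **Soundness of one step.** -/
theorem mainStep_sound {Fe Fd : ℕ → ℕ} (hE : StepEHyp Fe) (hD : DeepHyp Fd) {fu d X g : ℕ}
    {rz : Rows} {a : ZV} {s : MS} (hc : FuOK fu d) (hs : MOK d X rz a s)
    (hfe : Fe d * (X + 1) ≤ fu)
    (hfd : Fd d * (X + tauD d * (d + 1).factorial + Fe d * (X + 1) + 1 + 1) ≤ fu)
    (h0 : s.2.1 = 0) (h1 : (mainStep fu d rz a (baseD d) g s).2.1 = 1) :
    vec d a ∈ AddSubmonoid.closure (SR d rz) := by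
  obtain ⟨t, st, J, k, WM, WI, γ⟩ := s
  change st = 0 at h0
  subst h0
  have hok : StOK d X rz a J k WM WI γ := hs.ok
  rcases mainStep_cases fu d rz a (baseD d) g (t, 0, J, k, WM, WI, γ) rfl with
    ⟨hall, heq⟩ | ⟨j, hj, σ, hσ, hne, heq⟩
  · rw [heq] at h1
    have hvb := vb_ptsJ hE (t := t) hok hfe hc hall
    have hfo := foundS_ptsJ hE (t := t) hok hfe hc hall
    have hdeep := hD fu d _ t rz a J k WM WI γ _ _
      (hok.mono (by omega : X ≤ X + tauD d * (d + 1).factorial + Fe d * (X + 1) + 1)) hfd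
      (fun j hj => ⟨(hvb j hj).1, fun p hp => ((hvb j hj).2 p hp).mono (by omega)⟩) hfo rfl
    unfold deepStep at h1
    dsimp only at h1
    rcases hdeep with ⟨h2, y, hy⟩ | ⟨h2, _⟩ | ⟨h2, _⟩
    · have hyes := FoundI.yes (isConv_SR d rz) hfo (by rw [hc.kkc]; exact Nat.factorial_pos _)
        (2 ^ d) Nat.one_le_two_pow (fun j => by
          rw [hc.kkc]
          exact Nat.factorial_dvd_factorial
            (Nat.succ_le_succ (hok.pc _ (S1.pc_mem j.2)).dim))
        (fun j => by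
          rw [hc.kkc, hc.tauc, Fintype.card_fin]
          exact tau_cond (hok.pc _ (S1.pc_mem j.2)).dim (hvb j j.2).1) y hy
      have h3 := mem_closure_of_hmon y hyes
      rw [sum_linZ_eq y hy.2] at h3
      exact h3
    · rw [if_neg (by rw [h2]; norm_num), if_pos h2] at h1
      exact absurd h1 (by norm_num)
    · rw [if_neg (by rw [h2]; norm_num), if_neg (by rw [h2]; norm_num)] at h1
      exact absurd (show (2 : ℕ) = 1 from h1) (by norm_num)
  · rw [heq] at h1
    unfold splitJ at h1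
    dsimp only at h1
    split_ifs at h1
    · exact absurd (show (2 : ℕ) = 1 from h1) (by norm_num)
    · exact absurd (show (2 : ℕ) = 1 from h1) (by norm_num)

lemma mainStep_fix {fu d : ℕ} {rz : Rows} {a : ZV} {Γ g : ℕ} {s : MS} (hs : s.2.1 ≠ 0) :
    mainStep fu d rz a Γ g s = s := by
  unfold mainStep
  rw [if_neg hs]

/-- **Soundness of a path.** -/
theorem mainIter_sound {Fe Fd : ℕ → ℕ} (hE : StepEHyp Fe) (hD : DeepHyp Fd) {fu d g T : ℕ}
    {rz : Rows} {a : ZV} {s : MS} (hc : FuOK fu d) (h0 : s.2.1 = 0)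
    (hinv : ∀ k ≤ T, ∃ X, MOK d X rz a ((mainStep fu d rz a (baseD d) g)^[k] s) ∧
      Fe d * (X + 1) ≤ fu ∧
      Fd d * (X + tauD d * (d + 1).factorial + Fe d * (X + 1) + 1 + 1) ≤ fu) :
    ∀ k ≤ T, ((mainStep fu d rz a (baseD d) g)^[k] s).2.1 = 1 →
      vec d a ∈ AddSubmonoid.closure (SR d rz) := by
  intro k
  induction k with
  | zero =>
    intro _ h1
    rw [Function.iterate_zero, id, h0] at h1
    exact absurd h1 (by norm_num)
  | succ k ih =>
    intro hk h1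
    rw [Function.iterate_succ_apply'] at h1
    obtain ⟨X, h2, h3, h4⟩ := hinv k (by omega)
    by_cases h5 : ((mainStep fu d rz a (baseD d) g)^[k] s).2.1 = 0
    · exact mainStep_sound hE hD hc h2 h3 h4 h5 h1
    · rw [mainStep_fix h5] at h1
      exact ih (by omega) h1

/-- **Soundness.** -/
theorem mainPath_sound {Fe Fd : ℕ → ℕ} (hE : StepEHyp Fe) (hD : DeepHyp Fd) (he : EB Fe)
    (hd : EB Fd) : ∃ F : ℕ → ℕ, EB F ∧ Monotone F ∧
    ∀ (fu d : ℕ) (Ab : Rows) (a : ZV) (g : ℕ), a.length = d → F d * (blV a + 1) ≤ fu →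
      mainPath fu d Ab a g = true → vec d a ∈ AddSubmonoid.closure (SR d (rowsZ d Ab a)) := by
  obtain ⟨F, hF1, hF2, hF3⟩ := mainPath_inv hE hD he hd
  refine ⟨F, hF1, hF2, fun fu d Ab a g ha hfu h => ?_⟩
  obtain ⟨hc, hinv, heq⟩ := hF3 fu d Ab a g ha hfu
  unfold mainPath at h
  rw [decide_eq_true_eq, heq] at h
  exact mainIter_sound hE hD hc rfl hinv (lenD d) le_rfl h

end Pool.Agent.MDF
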