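import Pool.Agent.MDF.Cone
import Pool.Agent.MDF.DeepDefs

/-!
# Constants, states of the main path
-/

set_option autoImplicit false

namespace Pool.Agent.MDF.S1

open Pool.Agent.PF Pool.Agent.MonFPT Matrix

/-! ### The constants -/

/-- The modulus. -/
def kkD (d : ℕ) : ℕ := (d + 1).factorial

/-- The multiplier. -/
def tauD (d : ℕ) : ℕ := 2 * 2 ^ d * ((d + 1) * (d + 1)) * kkD d ^ d

lemma kkD_pos (d : ℕ) : 0 < kkD d := Nat.factorial_pos _

lemma tauD_pos (d : ℕ) : 0 < tauD d := by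
  have := kkD_pos d
  unfold tauD
  positivity

lemma kkD_dvd {d m : ℕ} (h1 : 0 < m) (h2 : m ≤ d + 1) : m ∣ kkD d :=
  Nat.dvd_factorial h1 h2

lemma tfac_min (fu d : ℕ) : tfac fu d = min (kkD d) fu := by
  have key : ∀ k : ℕ, (fun p : ℕ × ℕ => (p.1 + 1, min (p.2 * (p.1 + 2)) fu))^[k] (0, min 1 fu) =
      (k, min ((k + 1).factorial) fu) := by
    intro k
    induction k with
    | zero => rfl
    | succ k ih =>
      rw [Function.iterate_succ_apply', ih]
      refine Prod.ext rfl ?_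
      change min (min ((k + 1).factorial) fu * (k + 2)) fu = min ((k + 2).factorial) fu
      have h0 : (k + 2).factorial = (k + 1).factorial * (k + 2) := by
        rw [Nat.factorial_succ (k + 1), mul_comm]
      rcases le_total ((k + 1).factorial) fu with h | h
      · rw [min_eq_left h, h0]
      · rw [min_eq_right h, h0]
        have h1 : fu ≤ fu * (k + 2) := Nat.le_mul_of_pos_right _ (by omega)
        have h2 : fu ≤ (k + 1).factorial * (k + 2) :=
          h.trans (Nat.le_mul_of_pos_right _ (by omega))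
        rw [min_eq_right h1, min_eq_right h2]
  unfold tfac
  rw [bIter_eq, key]
  · rfl
  · intro i hi
    rw [key, sz_prod, sz_nat, sz_nat]
    have := min_le_right ((i + 1 + 1).factorial) fu
    omega

lemma kap_eq {fu d : ℕ} (h : 2 ^ d ≤ fu) : kap fu d = 2 ^ d := tpow_eq (by norm_num) h

lemma kkc_eq {fu d : ℕ} (h : kkD d ≤ fu) : kkc fu d = kkD d := by
  unfold kkc
  rw [tfac_min, min_eq_left h]

/-- The bound for the constants. -/
def cstD (d : ℕ) : ℕ := 2 ^ d + kkD d + kkD d ^ d + tauD d + 3 ^ d + flatG d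

lemma le_cstD (d : ℕ) : 2 ^ d ≤ cstD d ∧ kkD d ≤ cstD d ∧ kkD d ^ d ≤ cstD d ∧
    tauD d ≤ cstD d ∧ 3 ^ d ≤ cstD d ∧ flatG d ≤ cstD d := by
  have h3 : 0 < 3 ^ d := by positivity
  have h2 : 0 < 2 ^ d := by positivity
  unfold cstD
  refine ⟨?_, ?_, ?_, ?_, ?_, ?_⟩ <;> omega

lemma tauc_eq {fu d : ℕ} (h : cstD d ≤ fu) : tauc fu d = tauD d := by
  obtain ⟨h1, h2, h3, h4, _, _⟩ := le_cstD d
  unfold tauc
  rw [kap_eq (h1.trans h), kkc_eq (h2.trans h), tpow_eq (kkD_pos d) (h3.trans h)]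
  exact min_eq_left (h4.trans h)

lemma Gd_eq {fu d : ℕ} (h : cstD d ≤ fu) : Gd fu d = flatG d := by
  obtain ⟨_, _, _, _, h5, h6⟩ := le_cstD d
  exact Gc_eq (h5.trans h) (h6.trans h)

theorem eb_kkD : EB kkD := by
  unfold kkD
  fun_prop

theorem eb_tauD : EB tauD := by
  have := eb_kkD
  unfold tauD
  fun_prop

theorem eb_cstD : EB cstD := by
  have h1 := eb_kkD
  have h2 := eb_tauD
  unfold cstD flatG
  fun_prop

/-! ### States -/

/-- A piece of a state. -/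
structure PcOK (d : ℕ) (rz : Rows) (X : ℕ) (P : Piece) : Prop where
  dim : P.1 ≤ d
  rad : P.2.2.2 ≤ X
  mF : MB d P.1 X P.2.1
  vf : VB d X P.2.2.1
  box : ∀ z : Fin P.1 → ℤ, (phiP d P).pt z ∈ SR d rz → ∀ i, |z i| ≤ 2 ^ P.2.2.2

/-- The invariants (sizes and shapes) of a state of a main path. -/
structure StOK (d : ℕ) (rz : Rows) (a : ZV) (X : ℕ) (s : MS) : Prop where
  len : s.2.2.1.length ≤ 2 ^ d
  pcs : ∀ P ∈ s.2.2.1, PcOK d rz X P
  hk : s.2.2.2.1 ≤ totN s.2.2.1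
  uw : UW (totN s.2.2.1) X s.2.2.2.2.1 s.2.2.2.2.2.1
  ga : VB s.2.2.2.1 X s.2.2.2.2.2.2
  ta : VB d X a

lemma pc_mem {J : List Piece} {j : ℕ} (h : j < J.length) : pc J j ∈ J := by
  rw [pc_eq h]
  exact List.getElem_mem h

lemma off_le_mul {J : List Piece} {d : ℕ} (h : ∀ P ∈ J, P.1 ≤ d) {n : ℕ} (hn : n ≤ J.length) :
    off J n ≤ n * (d + 1) := by
  induction n with
  | zero => simp
  | succ n ih =>
    rw [off_succ hn]
    have h1 := h _ (pc_mem (J := J) hn)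
    have h2 := ih (by omega)
    rw [Nat.add_mul, one_mul]
    omega

/-- The bound for the total dimension. -/
def totD (d : ℕ) : ℕ := 2 ^ d * (d + 1)

theorem eb_totD : EB totD := by
  unfold totD
  fun_prop

lemma StOK.tot_le {d : ℕ} {rz : Rows} {a : ZV} {X : ℕ} {s : MS} (h : StOK d rz a X s) :
    totN s.2.2.1 ≤ totD d :=
  (off_le_mul (fun P hP => (h.pcs P hP).dim) le_rfl).trans (Nat.mul_le_mul_right _ h.len)

lemma PcOK.mono {d : ℕ} {rz : Rows} {X X' : ℕ} {P : Piece} (h : PcOK d rz X P) (hX : X ≤ X') :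
    PcOK d rz X' P :=
  ⟨h.dim, h.rad.trans hX, h.mF.mono hX, h.vf.mono hX, h.box⟩

lemma uw_mono {n s s' : ℕ} {U W : ZM} (h : UW n s U W) (hs : s ≤ s') : UW n s' U W :=
  ⟨h.mU.mono hs, h.mW.mono hs, h.UW, h.WU⟩

lemma StOK.mono {d : ℕ} {rz : Rows} {a : ZV} {X X' : ℕ} {s : MS} (h : StOK d rz a X s)
    (hX : X ≤ X') : StOK d rz a X' s :=
  ⟨h.len, fun P hP => (h.pcs P hP).mono hX, h.hk, uw_mono h.uw hX, h.ga.mono hX, h.ta.mono hX⟩

end Pool.Agent.MDF.S1
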