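import Pool.Agent.MDF.StOK

/-!
# Step 1: usable points in the residue classes
-/

set_option autoImplicit false

namespace Pool.Agent.MDF.S1

open Pool.Agent.PF Pool.Agent.MonFPT Matrix

/-! ### The columns -/

lemma colsOf_cps (d : ℕ) (rz : Rows) (J : List Piece) (k : ℕ) (WM : ZM) :
    colsOf (d + k) (cps d rz J k WM) =
      colset (SR d rz) (eJ J) (phiJ d J) (psiJ d J k WM) := by
  ext c
  constructor
  · rintro ⟨p, hp, z, hz, rfl⟩
    obtain ⟨j, hj, rfl⟩ := mem_tab.1 hp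
    exact ⟨⟨j, hj⟩, z, (mem_pset_iff (J := J) ⟨j, hj⟩ z).2 hz, rfl⟩
  · rintro ⟨j, z, hz, rfl⟩
    exact ⟨_, mem_tab.2 ⟨j, j.2, rfl⟩, z, (mem_pset_iff j z).1 hz, rfl⟩

lemma cps_ok {d : ℕ} {rz : Rows} {a : ZV} {X : ℕ} {s : MS} (h : StOK d rz a X s) :
    ∀ p ∈ cps d rz s.2.2.1 s.2.2.2.1 s.2.2.2.2.1, p.OK d := by
  intro p hp
  obtain ⟨j, hj, rfl⟩ := mem_tab.1 hp
  have h1 := h.pcs _ (pc_mem hj)
  exact ⟨h1.dim, fun z hz => h1.box z ((inRows_prow (P := pc s.2.2.1 j) z).1 hz)⟩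

lemma mb_colM {d : ℕ} {rz : Rows} {a : ZV} {X : ℕ} {s : MS} (h : StOK d rz a X s) {j : ℕ}
    (hj : j < s.2.2.1.length) : MB (d + s.2.2.2.1) (pc s.2.2.1 j).1 X
      (colM d s.2.2.1 s.2.2.2.1 s.2.2.2.2.1 j (pc s.2.2.1 j)) := by
  refine MB.tabM fun l hl i hi => ?_
  split_ifs with h1
  · exact (h.pcs _ (pc_mem hj)).mF.le l h1 i hi
  · refine h.uw.mU.le _ ?_ _ (off_lt_totN hj (by omega))
    have := h.hk
    omega

lemma vb_colO {d : ℕ} {rz : Rows} {a : ZV} {X : ℕ} {s : MS} (h : StOK d rz a X s) {j : ℕ}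
    (hj : j < s.2.2.1.length) : VB (d + s.2.2.2.1) X
      (colO d s.2.2.1 s.2.2.2.1 s.2.2.2.2.1 j (pc s.2.2.1 j)) := by
  refine VB.tab fun l hl => ?_
  split_ifs with h1
  · exact (h.pcs _ (pc_mem hj)).vf.le l h1
  · refine h.uw.mU.le _ ?_ _ (off_lt_totN hj (by omega))
    have := h.hk
    omega

/-- The bound for the sum in `coneB`. -/
def cbD (d : ℕ) : ℕ := 2 ^ d * ((d + totD d) * (d + 1) + d + 2)

lemma coneB_le {d : ℕ} {rz : Rows} {a : ZV} {X : ℕ} {s : MS} (h : StOK d rz a X s) (t : ZV) :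
    coneB (cps d rz s.2.2.1 s.2.2.2.1 s.2.2.2.2.1) t ≤ cbD d * (X + 1) + blV t := by
  unfold coneB
  refine Nat.add_le_add_right ?_ _
  have hk : s.2.2.2.1 ≤ totD d := h.hk.trans h.tot_le
  have h1 := List.sum_le_card_nsmul ((cps d rz s.2.2.1 s.2.2.2.1 s.2.2.2.2.1).map fun p =>
    blM p.2.2.2.1 + blV p.2.2.2.2 + p.2.1 + p.1 + 1)
    (((d + totD d) * (d + 1) + d + 2) * (X + 1)) fun x hx => by
      obtain ⟨p, hp, rfl⟩ := List.mem_map.1 hx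
      obtain ⟨j, hj, rfl⟩ := mem_tab.1 hp
      have h2 := h.pcs _ (pc_mem hj)
      have h3 := blM_le (mb_colM h hj)
      have h4 := blV_le (vb_colO h hj)
      have h5 : (d + s.2.2.2.1) * ((pc s.2.2.1 j).1 * (X + 1)) ≤
          (d + totD d) * (d * (X + 1)) :=
        Nat.mul_le_mul (by omega) (Nat.mul_le_mul_right _ h2.dim)
      have h6 : (d + s.2.2.2.1) * (X + 1) ≤ (d + totD d) * (X + 1) :=
        Nat.mul_le_mul_right _ (by omega)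
      have h7 := h2.dim
      have h8 := h2.rad
      have h9 : ((d + totD d) * (d + 1) + d + 2) * (X + 1) = (d + totD d) * (d * (X + 1)) +
        (d + totD d) * (X + 1) + (d * X + d) + 2 * X + 2 := by ring
      dsimp only
      rw [h9]
      have h10 : 0 ≤ d * X := Nat.zero_le _
      omega
  refine h1.trans ?_
  rw [List.length_map, smul_eq_mul]
  unfold cps
  rw [length_tab]
  calc s.2.2.1.length * (((d + totD d) * (d + 1) + d + 2) * (X + 1))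
      ≤ 2 ^ d * (((d + totD d) * (d + 1) + d + 2) * (X + 1)) := Nat.mul_le_mul_right _ h.len
    _ = cbD d * (X + 1) := by unfold cbD; ring

/-! ### The points of the residue classes -/

/-- The residues of the class `σ`. -/
def resF (fu q σ e : ℕ) (hq : 0 < q) (i : Fin e) : Fin q := ⟨res fu q σ i, dig_lt hq⟩

lemma vec_ptE {fu q τ e σ : ℕ} (hq : 0 < q) (x : ZV) :
    vec e (ptE fu q τ e σ x) = stepPt τ q (resF fu q σ e hq) (vec e x) := by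
  unfold ptE
  rw [vec_tab]
  funext i
  rfl

lemma abs_ptE_le {fu q τ e σ Z : ℕ} (hq : 0 < q) {x : ZV} (hx : ∀ i < e, |g1 x i| ≤ 2 ^ Z) :
    VB e (τ * q + Z + 1) (ptE fu q τ e σ x) := by
  refine VB.tab fun i hi => ?_
  have h1 : (res fu q σ i : ℤ) ≤ q := by
    exact_mod_cast (dig_lt (fu := fu) (g := σ) (t := i) hq).le
  have h2 : (0 : ℤ) ≤ (res fu q σ i : ℤ) := Int.natCast_nonneg _
  have h3 : (0 : ℤ) ≤ (τ : ℤ) := Int.natCast_nonneg _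
  have h3' : (0 : ℤ) ≤ (q : ℤ) := Int.natCast_nonneg _
  have h4 : ((τ * q : ℕ) : ℤ) ≤ 2 ^ (τ * q) := by exact_mod_cast Nat.lt_two_pow_self.le
  push_cast at h4
  have h5 : (1 : ℤ) ≤ 2 ^ Z := one_le_pow₀ (by norm_num)
  have h6 : |(τ : ℤ) * res fu q σ i + τ * q * g1 x i| ≤ τ * q + τ * q * 2 ^ Z := by
    refine (abs_add_le _ _).trans (add_le_add ?_ ?_)
    · rw [abs_of_nonneg (by positivity)]
      exact mul_le_mul_of_nonneg_left h1 h3
    · rw [abs_mul, abs_of_nonneg (by positivity : (0 : ℤ) ≤ τ * q)]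
      exact mul_le_mul_of_nonneg_left (hx i hi) (by positivity)
  refine h6.trans ?_
  calc (τ : ℤ) * q + τ * q * 2 ^ Z ≤ 2 * (τ * q * 2 ^ Z) := by
        have : (τ : ℤ) * q ≤ τ * q * 2 ^ Z := le_mul_of_one_le_right (by positivity) h5
        linarith
    _ ≤ 2 * (2 ^ (τ * q) * 2 ^ Z) := by
        have : (τ : ℤ) * q * 2 ^ Z ≤ 2 ^ (τ * q) * 2 ^ Z :=
          mul_le_mul_of_nonneg_right h4 (by positivity)
        linarith
    _ = 2 ^ (τ * q + Z + 1) := by rw [pow_succ, pow_add]; ring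

/-! ### The oracle -/

/-- The target vector. -/
def tgV (d : ℕ) (a γ : ZV) (k : ℕ) : Fin (d + k) → ℤ := vec (d + k) (tgt d a γ k)

/-- The rest of the target. -/
def rstE (d : ℕ) (J : List Piece) (k : ℕ) (WM : ZM) (a γ : ZV) (j : ℕ) (x : ZV) : ZV :=
  tab (d + k) fun l => g1 (tgt d a γ k) l -
    (dot (pc J j).1 (row (colM d J k WM j (pc J j)) l) x + g1 (colO d J k WM j (pc J j)) l)

lemma vec_rstE (d : ℕ) (J : List Piece) (k : ℕ) (WM : ZM) (a γ : ZV) (j : Fin J.length)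
    (x : ZV) : vec (d + k) (rstE d J k WM a γ j x) =
      tgV d a γ k - (psiJ d J k WM j).pt (vec (eJ J j) x) := by
  unfold rstE
  funext l
  rw [vec_apply, g1_tab_lt _ l.2, dot_eq, Pi.sub_apply, Chart.pt_apply,
    add_comm (vec (pc J j).1 _ ⬝ᵥ _)]
  rfl

lemma vb_tgt {d : ℕ} {rz : Rows} {a : ZV} {X : ℕ} {s : MS} (h : StOK d rz a X s) :
    VB (d + s.2.2.2.1) X (tgt d a s.2.2.2.2.2.2 s.2.2.2.1) := by
  refine VB.tab fun l hl => ?_
  split_ifs with h1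
  · exact h.ta.le l h1
  · exact h.ga.le _ (by omega)

lemma vb_rstE {d : ℕ} {rz : Rows} {a : ZV} {X Y : ℕ} {s : MS} (h : StOK d rz a X s)
    {j : ℕ} (hj : j < s.2.2.1.length) {x : ZV} (hx : VB (pc s.2.2.1 j).1 Y x) :
    VB (d + s.2.2.2.1) (X + Y + d + 1)
      (rstE d s.2.2.1 s.2.2.2.1 s.2.2.2.2.1 a s.2.2.2.2.2.2 j x) := by
  refine VB.tab fun l hl => ?_
  have h1 : |g1 (tgt d a s.2.2.2.2.2.2 s.2.2.2.1) l| ≤ 2 ^ X := (vb_tgt h).le l hl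
  have h2 : |g1 (colO d s.2.2.1 s.2.2.2.1 s.2.2.2.2.1 j (pc s.2.2.1 j)) l| ≤ 2 ^ X :=
    (vb_colO h hj).le l hl
  have h3 : |dot (pc s.2.2.1 j).1 (row (colM d s.2.2.1 s.2.2.2.1 s.2.2.2.2.1 j
      (pc s.2.2.1 j)) l) x| ≤ ((pc s.2.2.1 j).1 : ℤ) * (2 ^ X * 2 ^ Y) := by
    rw [dot_sum]
    exact abs_sum_mul_le _ _ (fun i => (mb_colM h hj).le l hl i i.2) (fun i => hx.le i i.2)
      (by positivity)
  have h4 : ((pc s.2.2.1 j).1 : ℤ) ≤ d := by exact_mod_cast (h.pcs _ (pc_mem hj)).dim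
  have h5 : (d : ℤ) + 1 ≤ 2 ^ d := by
    have := Nat.lt_two_pow_self (n := d)
    exact_mod_cast this
  have h6 : (1 : ℤ) ≤ 2 ^ Y := one_le_pow₀ (by norm_num)
  have h7 : (0 : ℤ) < 2 ^ X := by positivity
  have h8 : (2 : ℤ) ^ X ≤ 2 ^ X * 2 ^ Y := by nlinarith
  have h9 : ((pc s.2.2.1 j).1 : ℤ) * (2 ^ X * 2 ^ Y) ≤ d * (2 ^ X * 2 ^ Y) :=
    mul_le_mul_of_nonneg_right h4 (by positivity)
  refine (abs_sub _ _).trans ((add_le_add h1 ((abs_add_le _ _).trans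
    (add_le_add h3 h2))).trans ?_)
  calc (2 : ℤ) ^ X + (((pc s.2.2.1 j).1 : ℤ) * (2 ^ X * 2 ^ Y) + 2 ^ X)
      ≤ 2 * ((d + 1) * (2 ^ X * 2 ^ Y)) := by
        have h10 : (0 : ℤ) ≤ d * (2 ^ X * 2 ^ Y) := by positivity
        nlinarith
    _ ≤ 2 * (2 ^ d * (2 ^ X * 2 ^ Y)) := by
        have := mul_le_mul_of_nonneg_right h5 (by positivity : (0 : ℤ) ≤ 2 ^ X * 2 ^ Y)
        linarith
    _ = 2 ^ (X + Y + d + 1) := by rw [pow_succ, pow_add, pow_add]; ring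

/-- The cone property (the conclusion of `cone_spec`). -/
def ConeHyp (Fc : ℕ → ℕ) : Prop :=
  ∀ (fu D E : ℕ) (ps : List CP) (t : ZV), (∀ p ∈ ps, p.OK E) →
    Fc (D + E) * (coneB ps t + 1) ≤ fu →
    (∀ w, cone fu D ps t = some w → VB D (Fc (D + E) * (coneB ps t + 1)) w ∧
      vec D w ⬝ᵥ vec D t < 0 ∧ ∀ c ∈ colsOf D ps, 0 ≤ vec D w ⬝ᵥ c) ∧
    (cone fu D ps t = none →
      toQ (vec D t) ∈ PointedCone.hull ℚ (toQ '' colsOf D ps))

/-- The bound for the cone problems of Step 1. -/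
lemma cone_fuel {d : ℕ} {rz : Rows} {a : ZV} {X Y : ℕ} {s : MS} {Fc : ℕ → ℕ}
    (hmono : Monotone Fc) (h : StOK d rz a X s)
    {j : ℕ} (hj : j < s.2.2.1.length) {x : ZV} (hx : VB (pc s.2.2.1 j).1 Y x) {fu : ℕ}
    (hfu : Fc (2 * d + totD d) * ((cbD d + (d + totD d) * (d + 2) + 1) * (X + Y + 1)) ≤ fu) :
    Fc (d + s.2.2.2.1 + d) * (coneB (cps d rz s.2.2.1 s.2.2.2.1 s.2.2.2.2.1)
      (rstE d s.2.2.1 s.2.2.2.1 s.2.2.2.2.1 a s.2.2.2.2.2.2 j x) + 1) ≤ fu := by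
  have hk : s.2.2.2.1 ≤ totD d := h.hk.trans h.tot_le
  refine le_trans (Nat.mul_le_mul (hmono (by omega)) ?_) hfu
  have h1 := coneB_le h (rstE d s.2.2.1 s.2.2.2.1 s.2.2.2.2.1 a s.2.2.2.2.2.2 j x)
  have h2 := blV_le (vb_rstE h hj hx)
  have h3 : (d + s.2.2.2.1) * (X + Y + d + 1 + 1) ≤ (d + totD d) * (X + Y + d + 1 + 1) :=
    Nat.mul_le_mul_right _ (by omega)
  have h4 : (d + totD d) * (X + Y + d + 1 + 1) ≤ (d + totD d) * ((d + 2) * (X + Y + 1)) := by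
    refine Nat.mul_le_mul_left _ ?_
    have : (d + 2) * (X + Y + 1) = (X + Y) + (X + Y) * (d + 1) + d + 2 := by ring
    omega
  have h5 : cbD d * (X + 1) ≤ cbD d * (X + Y + 1) := Nat.mul_le_mul_left _ (by omega)
  have h6 : (cbD d + (d + totD d) * (d + 2) + 1) * (X + Y + 1) = cbD d * (X + Y + 1) +
    (d + totD d) * ((d + 2) * (X + Y + 1)) + (X + Y + 1) := by ring
  rw [h6]
  omega

section orc

variable {d : ℕ} {rz : Rows} {a : ZV} {X Y : ℕ} {s : MS} {Fc : ℕ → ℕ} {fu : ℕ}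

/-- The constants are right. -/
structure CstOK (fu d : ℕ) : Prop where
  kk : kkc fu d = kkD d
  tau : tauc fu d = tauD d
  gd : Gd fu d = flatG d

lemma cstOK {fu d : ℕ} (h : cstD d ≤ fu) : CstOK fu d :=
  ⟨kkc_eq ((le_cstD d).2.1.trans h), tauc_eq h, Gd_eq h⟩

/-- The usable points of the piece `j` in the coordinates of the class `σ`. -/
def stepKE (fu d : ℕ) (rz : Rows) (a : ZV) (s : MS) (j : Fin s.2.2.1.length) (σ : ℕ) :
    Set (Fin (eJ s.2.2.1 j) → ℚ) :=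
  stepK (SR d rz) (eJ s.2.2.1) (phiJ d s.2.2.1) (psiJ d s.2.2.1 s.2.2.2.1 s.2.2.2.2.1)
    (tgV d a s.2.2.2.2.2.2 s.2.2.2.1) j (tauD d) (resF fu (kkD d) σ (eJ s.2.2.1 j) (kkD_pos d))

lemma orcE_eq (hc : CstOK fu d) (j : Fin s.2.2.1.length) (σ : ℕ) (x' : ZV) :
    orcE fu d rz a s j σ x' =
      oc (orcRows (pc s.2.2.1 j).1 (prow d rz (pc s.2.2.1 j))
        (ptE fu (kkD d) (tauD d) (pc s.2.2.1 j).1 σ x'))
      ((cone fu (d + s.2.2.2.1) (cps d rz s.2.2.1 s.2.2.2.1 s.2.2.2.2.1)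
        (rstE d s.2.2.1 s.2.2.2.1 s.2.2.2.2.1 a s.2.2.2.2.2.2 j
          (ptE fu (kkD d) (tauD d) (pc s.2.2.1 j).1 σ x'))).map
        (pull (d + s.2.2.2.1) (pc s.2.2.1 j).1
          (colM d s.2.2.1 s.2.2.2.1 s.2.2.2.2.1 j (pc s.2.2.1 j)))) fun h => some h := by
  unfold orcE
  rw [hc.kk, hc.tau]
  rfl

/-- The cone problem of Step 1. -/
lemma cone_step (hF : ConeHyp Fc) (hmono : Monotone Fc) (h : StOK d rz a X s)
    (j : Fin s.2.2.1.length) {x : ZV} (hx : VB (pc s.2.2.1 j).1 Y x)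
    (hfu : Fc (2 * d + totD d) * ((cbD d + (d + totD d) * (d + 2) + 1) * (X + Y + 1)) ≤ fu) :
    (∀ w, cone fu (d + s.2.2.2.1) (cps d rz s.2.2.1 s.2.2.2.1 s.2.2.2.2.1)
        (rstE d s.2.2.1 s.2.2.2.1 s.2.2.2.2.1 a s.2.2.2.2.2.2 j x) = some w →
      vec (d + s.2.2.2.1) w ⬝ᵥ (tgV d a s.2.2.2.2.2.2 s.2.2.2.1 -
        (psiJ d s.2.2.1 s.2.2.2.1 s.2.2.2.2.1 j).pt (vec (eJ s.2.2.1 j) x)) < 0 ∧
      ∀ c ∈ colset (SR d rz) (eJ s.2.2.1) (phiJ d s.2.2.1)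
        (psiJ d s.2.2.1 s.2.2.2.1 s.2.2.2.2.1), 0 ≤ vec (d + s.2.2.2.1) w ⬝ᵥ c) ∧
    (cone fu (d + s.2.2.2.1) (cps d rz s.2.2.1 s.2.2.2.1 s.2.2.2.2.1)
        (rstE d s.2.2.1 s.2.2.2.1 s.2.2.2.2.1 a s.2.2.2.2.2.2 j x) = none →
      IsUsable (SR d rz) (eJ s.2.2.1) (phiJ d s.2.2.1)
        (psiJ d s.2.2.1 s.2.2.2.1 s.2.2.2.2.1) (tgV d a s.2.2.2.2.2.2 s.2.2.2.1) j
        (vec (eJ s.2.2.1 j) x)) := by
  obtain ⟨h1, h2⟩ := hF fu (d + s.2.2.2.1) d (cps d rz s.2.2.1 s.2.2.2.1 s.2.2.2.2.1)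
    (rstE d s.2.2.1 s.2.2.2.1 s.2.2.2.2.1 a s.2.2.2.2.2.2 j x) (cps_ok h)
    (cone_fuel hmono h j.2 hx hfu)
  rw [vec_rstE, colsOf_cps] at h1 h2
  exact ⟨fun w hw => (h1 w hw).2, fun hn => h2 hn⟩

lemma orcE_ok (hF : ConeHyp Fc) (hmono : Monotone Fc) (hc : CstOK fu d) (h : StOK d rz a X s)
    (j : Fin s.2.2.1.length) (σ : ℕ) {Z : ℕ} (hfu : Fc (2 * d + totD d) *
      ((cbD d + (d + totD d) * (d + 2) + 1) * (X + (tauD d * kkD d + Z + 1) + 1)) ≤ fu) :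
    OrcOK Z (stepKE fu d rz a s j σ) (orcE fu d rz a s j σ) := by
  intro x' hx' h' hh
  rw [orcE_eq hc, oc_eq] at hh
  have hx := abs_ptE_le (fu := fu) (τ := tauD d) (σ := σ) (kkD_pos d) hx'.le
  obtain ⟨hc1, _⟩ := cone_step (fu := fu) hF hmono h j hx hfu
  cases hr : orcRows (pc s.2.2.1 j).1 (prow d rz (pc s.2.2.1 j))
      (ptE fu (kkD d) (tauD d) (pc s.2.2.1 j).1 σ x') with
  | some h'' =>
    rw [hr] at hh
    have hh' : h'' = h' := Option.some.inj hh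
    subst hh'
    obtain ⟨p, hp, rfl, h1⟩ := orcRows_some hr
    obtain ⟨q, hq, rfl⟩ := List.mem_map.1 hp
    have h2 : vec (pc s.2.2.1 j).1 (pull d (pc s.2.2.1 j).1 (pc s.2.2.1 j).2.1 q.1) =
        (phiJ d s.2.2.1 j).pull (vec d q.1) := vec_pull _ _ _ _
    have h3 : vec (pc s.2.2.1 j).1 (ptE fu (kkD d) (tauD d) (pc s.2.2.1 j).1 σ x') =
        stepPt (tauD d) (kkD d) (resF fu (kkD d) σ (eJ s.2.2.1 j) (kkD_pos d))
          (vec (eJ s.2.2.1 j) x') := vec_ptE _ _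
    rw [h3] at h1
    change Cut _ (vec (pc s.2.2.1 j).1 (pull d (pc s.2.2.1 j).1 (pc s.2.2.1 j).2.1 q.1)) _
    rw [h2]
    refine step_cut_row (tauD_pos d) (kkD_pos d) _ _ (vec d q.1) q.2 (fun z hz => hz q hq) ?_
    rw [Chart.dot_pt]
    dsimp only at h1
    rw [h2, dot_eq] at h1
    exact sub_lt_iff_lt_add'.1 h1
  | none =>
    rw [hr] at hh
    change Option.map _ _ = some h' at hh
    rw [Option.map_eq_some_iff] at hh
    obtain ⟨w, hw, rfl⟩ := hh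
    obtain ⟨h1, h2⟩ := hc1 w hw
    have h3 : vec (eJ s.2.2.1 j) (ptE fu (kkD d) (tauD d) (pc s.2.2.1 j).1 σ x') =
        stepPt (tauD d) (kkD d) (resF fu (kkD d) σ (eJ s.2.2.1 j) (kkD_pos d))
          (vec (eJ s.2.2.1 j) x') := vec_ptE _ _
    have h1' : vec (d + s.2.2.2.1) w ⬝ᵥ (tgV d a s.2.2.2.2.2.2 s.2.2.2.1 -
        (psiJ d s.2.2.1 s.2.2.2.1 s.2.2.2.2.1 j).pt (stepPt (tauD d) (kkD d)
          (resF fu (kkD d) σ (eJ s.2.2.1 j) (kkD_pos d)) (vec (eJ s.2.2.1 j) x'))) < 0 := by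
      rw [← h3]
      exact h1
    have h4 : vec (eJ s.2.2.1 j) (pull (d + s.2.2.2.1) (pc s.2.2.1 j).1
        (colM d s.2.2.1 s.2.2.2.1 s.2.2.2.2.1 j (pc s.2.2.1 j)) w) =
        (psiJ d s.2.2.1 s.2.2.2.1 s.2.2.2.2.1 j).pull (vec (d + s.2.2.2.1) w) :=
      vec_pull _ _ _ _
    rw [h4]
    exact step_cut_usable (tauD_pos d) (kkD_pos d) _ _ _ h2 h1'

/-- Accepted points are usable. -/
lemma orcE_acc (hF : ConeHyp Fc) (hmono : Monotone Fc) (hc : CstOK fu d) (h : StOK d rz a X s)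
    (j : Fin s.2.2.1.length) (σ : ℕ) {Z : ℕ} (hfu : Fc (2 * d + totD d) *
      ((cbD d + (d + totD d) * (d + 2) + 1) * (X + (tauD d * kkD d + Z + 1) + 1)) ≤ fu)
    {x' : ZV} (hx' : VB (pc s.2.2.1 j).1 Z x') (hacc : orcE fu d rz a s j σ x' = none) :
    vec (eJ s.2.2.1 j) (ptE fu (kkD d) (tauD d) (pc s.2.2.1 j).1 σ x') ∈
        pset (SR d rz) (eJ s.2.2.1) (phiJ d s.2.2.1) j ∧
      IsUsable (SR d rz) (eJ s.2.2.1) (phiJ d s.2.2.1)
        (psiJ d s.2.2.1 s.2.2.2.1 s.2.2.2.2.1) (tgV d a s.2.2.2.2.2.2 s.2.2.2.1) j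
        (vec (eJ s.2.2.1 j) (ptE fu (kkD d) (tauD d) (pc s.2.2.1 j).1 σ x')) := by
  rw [orcE_eq hc, oc_eq] at hacc
  have hx := abs_ptE_le (fu := fu) (τ := tauD d) (σ := σ) (kkD_pos d) hx'.le
  obtain ⟨_, hc2⟩ := cone_step (fu := fu) hF hmono h j hx hfu
  cases hr : orcRows (pc s.2.2.1 j).1 (prow d rz (pc s.2.2.1 j))
      (ptE fu (kkD d) (tauD d) (pc s.2.2.1 j).1 σ x') with
  | some h'' =>
    rw [hr] at hacc
    exact absurd hacc (by simp)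
  | none =>
    rw [hr] at hacc
    change Option.map _ _ = none at hacc
    rw [Option.map_eq_none_iff] at hacc
    exact ⟨(mem_pset_iff j _).2 (orcRows_none hr), hc2 hacc⟩

end orc

/-! ### The basic search of Step 1 -/

/-- The points of the piece `j`. -/
def ptsE (d : ℕ) (rz : Rows) (s : MS) (j : Fin s.2.2.1.length) :
    Set (Fin (eJ s.2.2.1 j) → ℤ) := pset (SR d rz) (eJ s.2.2.1) (phiJ d s.2.2.1) j

/-- The usable points of the piece `j`. -/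
def UseE (d : ℕ) (rz : Rows) (a : ZV) (s : MS) (j : Fin s.2.2.1.length)
    (x : Fin (eJ s.2.2.1 j) → ℤ) : Prop :=
  IsUsable (SR d rz) (eJ s.2.2.1) (phiJ d s.2.2.1) (psiJ d s.2.2.1 s.2.2.2.1 s.2.2.2.2.1)
    (tgV d a s.2.2.2.2.2.2 s.2.2.2.1) j x

/-- The certificate point of a class. -/
def ptC (fu d : ℕ) (J : List Piece) (j σ : ℕ) (o : Res) : ZV :=
  ptE fu (kkc fu d) (tauc fu d) (pc J j).1 σ o.2.1

/-- The first slice (minus nothing). -/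
def bE (fu d e σ : ℕ) (o : Res) : ℤ :=
  tauc fu d * (sumz e fun i => g2 o.2.2.1 0 i * res fu (kkc fu d) σ i) +
    tauc fu d * kkc fu d * (o.2.2.2.2 - (Gd fu d + 1))

/-- A usable point in the class `σ`. -/
structure StepPt (fu d : ℕ) (rz : Rows) (a : ZV) (s : MS) (j : Fin s.2.2.1.length) (σ Y : ℕ)
    (o : Res) : Prop where
  st : o.1 = 1
  vbo : VB (eJ s.2.2.1 j) Y o.2.1
  vb : VB (eJ s.2.2.1 j) Y (ptC fu d s.2.2.1 j σ o)
  mem : vec (eJ s.2.2.1 j) (ptC fu d s.2.2.1 j σ o) ∈ ptsE d rz s j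
  use : UseE d rz a s j (vec (eJ s.2.2.1 j) (ptC fu d s.2.2.1 j σ o))

/-- The usable points are flat. -/
structure StepFl (fu d : ℕ) (rz : Rows) (a : ZV) (s : MS) (j : Fin s.2.2.1.length) (σ Y : ℕ)
    (o : Res) : Prop where
  st : o.1 = 2
  pos : 0 < eJ s.2.2.1 j
  uw : UW (eJ s.2.2.1 j) Y o.2.2.1 o.2.2.2.1
  vle : |o.2.2.2.2| ≤ 2 ^ Y
  flat : ∀ x ∈ ptsE d rz s j, UseE d rz a s j x → ∃ c : ℕ, 1 ≤ c ∧
    c ≤ 2 * tauc fu d * kkc fu d * (Gd fu d + 1) + 1 ∧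
    vec (eJ s.2.2.1 j) (row o.2.2.1 0) ⬝ᵥ x = bE fu d (pc s.2.2.1 j).1 σ o + c - 1

/-- There is no usable point. -/
structure StepEm (d : ℕ) (rz : Rows) (a : ZV) (s : MS) (j : Fin s.2.2.1.length)
    (o : Res) : Prop where
  st : o.1 = 3
  emp : ∀ x ∈ ptsE d rz s j, ¬ UseE d rz a s j x

lemma stepKE_box {fu d : ℕ} {rz : Rows} {a : ZV} {X : ℕ} {s : MS} (h : StOK d rz a X s)
    (j : Fin s.2.2.1.length) (σ : ℕ) :
    InBox ((pc s.2.2.1 j).2.2.2 + 1) (stepKE fu d rz a s j σ) := by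
  intro y hy i
  have hR : ∀ x ∈ pset (SR d rz) (eJ s.2.2.1) (phiJ d s.2.2.1) j, ∀ i,
      |x i| ≤ (2 : ℤ) ^ (pc s.2.2.1 j).2.2.2 := (h.pcs _ (pc_mem j.2)).box
  have h1 := stepK_le (tauD_pos d) (kkD_pos d) _ hR hy i
  refine h1.trans ?_
  push_cast
  rw [pow_succ]
  have : (1 : ℚ) ≤ 2 ^ (pc s.2.2.1 j).2.2.2 := one_le_pow₀ (by norm_num)
  linarith

/-- The bound for Step 1. -/
def step1F (Fl Fc : ℕ → ℕ) (d : ℕ) : ℕ :=
  2 * Fl d + Fc (2 * d + totD d) *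
    ((cbD d + (d + totD d) * (d + 2) + 1) * (tauD d * kkD d + 2 * Fl d + 2)) + cstD d +
    (tauD d * kkD d + 2 * Fl d + 1)

theorem eb_cbD : EB cbD := by
  have := eb_totD
  unfold cbD
  fun_prop

theorem eb_step1F {Fl Fc : ℕ → ℕ} (h1 : EB Fl) (h2 : EB Fc) : EB (step1F Fl Fc) := by
  have h3 := eb_totD
  have h4 := eb_cbD
  have h5 := eb_kkD
  have h6 := eb_tauD
  have h7 := eb_cstD
  have h8 : EB fun d => Fc (2 * d + totD d) := EB.comp h2 (by fun_prop)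
  unfold step1F
  fun_prop

/-- **Step 1.** -/
theorem flatE_spec : ∃ F : ℕ → ℕ, EB F ∧ Monotone F ∧
    ∀ (fu d X : ℕ) (rz : Rows) (a : ZV) (s : MS) (j : Fin s.2.2.1.length) (σ : ℕ),
      StOK d rz a X s → F d * (X + 1) ≤ fu →
      StepPt fu d rz a s j σ (F d * (X + 1)) (flatE fu d rz a s j σ) ∨
      StepFl fu d rz a s j σ (F d * (X + 1)) (flatE fu d rz a s j σ) ∨
      StepEm d rz a s j (flatE fu d rz a s j σ) := by
  obtain ⟨Fl, hl1, hl2, hl3⟩ := flat_spec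
  obtain ⟨Fc, hc1, hc2, hc3⟩ := cone_spec
  have hFc : ConeHyp Fc := hc3
  obtain ⟨F, hF1, hF2, hF3, _⟩ := (eb_step1F hl1 hc1).exists_mono
  refine ⟨F, hF1, hF2, fun fu d X rz a s j σ h hfu => ?_⟩
  have hle : step1F Fl Fc d * (X + 1) ≤ F d * (X + 1) := Nat.mul_le_mul_right _ (hF3 d)
  have hX1 : 1 ≤ X + 1 := by omega
  have hP := h.pcs _ (pc_mem j.2)
  set n := (pc s.2.2.1 j).1 with hn
  set r := (pc s.2.2.1 j).2.2.2 + 1 with hr
  have hsum : step1F Fl Fc d * (X + 1) = 2 * (Fl d * (X + 1)) + Fc (2 * d + totD d) *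
      ((cbD d + (d + totD d) * (d + 2) + 1) *
        ((tauD d * kkD d) * (X + 1) + 2 * (Fl d * (X + 1)) + 2 * (X + 1))) +
      cstD d * (X + 1) + ((tauD d * kkD d) * (X + 1) + 2 * (Fl d * (X + 1)) + (X + 1)) := by
    unfold step1F
    ring
  have hZ : Fl n * (r + 1) ≤ 2 * (Fl d * (X + 1)) := by
    have h1 : r + 1 ≤ 2 * (X + 1) := by have := hP.rad; omega
    calc Fl n * (r + 1) ≤ Fl d * (2 * (X + 1)) := Nat.mul_le_mul (hl2 hP.dim) h1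
      _ = 2 * (Fl d * (X + 1)) := by ring
  have hcst : CstOK fu d := cstOK (by
    have : cstD d ≤ cstD d * (X + 1) := Nat.le_mul_of_pos_right _ hX1
    omega)
  have htk : tauD d * kkD d ≤ tauD d * kkD d * (X + 1) := Nat.le_mul_of_pos_right _ hX1
  have hfuc : Fc (2 * d + totD d) * ((cbD d + (d + totD d) * (d + 2) + 1) *
      (X + (tauD d * kkD d + Fl n * (r + 1) + 1) + 1)) ≤ fu := by
    refine le_trans (Nat.mul_le_mul_left _ (Nat.mul_le_mul_left _ ?_))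
      (le_trans (by rw [hsum]; omega : Fc (2 * d + totD d) *
      ((cbD d + (d + totD d) * (d + 2) + 1) *
        ((tauD d * kkD d) * (X + 1) + 2 * (Fl d * (X + 1)) + 2 * (X + 1))) ≤
        step1F Fl Fc d * (X + 1)) (hle.trans hfu))
    omega
  have hZF : Fl n * (r + 1) ≤ F d * (X + 1) := by omega
  have hres := hl3 fu n (flatG d) r (orcE fu d rz a s j σ) (stepKE fu d rz a s j σ)
    (flatG_mono hP.dim) (by omega) (stepKE_box h j σ) (orcE_ok hFc hc2 hcst h j σ hfuc)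
  have hfl : flatE fu d rz a s j σ = flat fu n (flatG d) r (orcE fu d rz a s j σ) := by
    unfold flatE
    rw [hcst.gd]
  rw [hfl]
  set o := flat fu n (flatG d) r (orcE fu d rz a s j σ) with ho
  rcases hres with ⟨h1, h2, h3⟩ | ⟨h1, h2, h3, h4, h5⟩ | ⟨h1, h2⟩
  · left
    obtain ⟨h4, h5⟩ := orcE_acc hFc hc2 hcst h j σ hfuc h2 h3
    have hpt : ptC fu d s.2.2.1 j σ o = ptE fu (kkD d) (tauD d) (pc s.2.2.1 j).1 σ o.2.1 := by
      unfold ptC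
      rw [hcst.kk, hcst.tau]
    refine ⟨h1, h2.mono hZF, ?_, ?_, ?_⟩
    · rw [hpt]
      refine (abs_ptE_le (kkD_pos d) h2.le).mono ?_
      omega
    · rw [hpt]; exact h4
    · rw [hpt]; exact h5
  · right; left
    refine ⟨h1, h2, uw_mono h3 hZF, h4.trans (pow_le_pow_right₀ (by norm_num) hZF), ?_⟩
    intro x hx hu
    have h6 := step_flat (tauD_pos d) (kkD_pos d) _ (vec (eJ s.2.2.1 j) (row o.2.2.1 0))
      o.2.2.2.2 (flatG d + 1) (fun y hy => by have := h5 y hy; push_cast; exact this) hx hu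
    have h7 : bE fu d (pc s.2.2.1 j).1 σ o = (tauD d : ℤ) *
        (vec (eJ s.2.2.1 j) (row o.2.2.1 0) ⬝ᵥ fun i =>
          (((resF fu (kkD d) σ (eJ s.2.2.1 j) (kkD_pos d) i : Fin (kkD d)) : ℕ) : ℤ)) +
        tauD d * kkD d * (o.2.2.2.2 - ((flatG d + 1 : ℕ) : ℤ)) := by
      unfold bE
      rw [hcst.kk, hcst.tau, hcst.gd, sumz_eq]
      push_cast
      rfl
    rw [Finset.mem_Icc, ← h7] at h6
    refine ⟨(vec (eJ s.2.2.1 j) (row o.2.2.1 0) ⬝ᵥ x - bE fu d (pc s.2.2.1 j).1 σ o + 1).toNat,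
      ?_, ?_, ?_⟩
    · omega
    · rw [hcst.kk, hcst.tau, hcst.gd, Int.toNat_le]
      have h8 := h6.2
      rw [h7]
      push_cast at h8 ⊢
      linarith
    · rw [Int.toNat_of_nonneg (by omega)]
      ring
  · right; right
    exact ⟨h1, fun x hx => stepK_empty (tauD_pos d) (kkD_pos d) _ h2 hx⟩

/-! ### All the classes -/

/-- The certificate points of a state. -/
def ptF (fu d : ℕ) (rz : Rows) (a : ZV) (s : MS) (j : Fin s.2.2.1.length)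
    (i : Fin (tpow fu (kkc fu d) (pc s.2.2.1 j).1)) : Fin (eJ s.2.2.1 j) → ℤ :=
  vec (eJ s.2.2.1 j) (ptC fu d s.2.2.1 j i (flatE fu d rz a s j i))

/-- **All the classes.** If usable points are found in all the classes of all the pieces then they
form a certificate. -/
theorem found_of_all {fu d X : ℕ} {rz : Rows} {a : ZV} {s : MS} {Y : ℕ}
    (hcst : cstD d ≤ fu) (hs : StOK d rz a X s)
    (h : ∀ (j : Fin s.2.2.1.length) (σ : ℕ), σ < tpow fu (kkc fu d) (pc s.2.2.1 j).1 →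
      StepPt fu d rz a s j σ Y (flatE fu d rz a s j σ)) :
    Found (SR d rz) (eJ s.2.2.1) (phiJ d s.2.2.1) (psiJ d s.2.2.1 s.2.2.2.1 s.2.2.2.2.1)
      (tgV d a s.2.2.2.2.2.2 s.2.2.2.1) (tauD d) (kkD d) (ptF fu d rz a s) where
  mem j i := (h j i i.2).mem
  usable j i := (h j i i.2).use
  mod j r := by
    have hP := hs.pcs _ (pc_mem j.2)
    have hc := cstOK hcst
    have hpow : kkD d ^ (pc s.2.2.1 j).1 ≤ fu :=
      (Nat.pow_le_pow_right (kkD_pos d) hP.dim).trans ((le_cstD d).2.2.1.trans hcst)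
    have htp : tpow fu (kkc fu d) (pc s.2.2.1 j).1 = kkD d ^ (pc s.2.2.1 j).1 := by
      rw [hc.kk, tpow_eq (kkD_pos d) hpow]
    obtain ⟨g, hg, hgd⟩ := exists_digits (kkD d) (pc s.2.2.1 j).1
      (fun i => if hi : i < eJ s.2.2.1 j then (r ⟨i, hi⟩ : ℕ) else 0) fun i => by
        split_ifs with hi
        · exact (r ⟨i, hi⟩).2
        · exact kkD_pos d
    refine ⟨⟨g, by rw [htp]; exact hg⟩, fun c => ⟨g1 (flatE fu d rz a s j g).2.1 c, ?_⟩⟩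
    have h1 : ptF fu d rz a s j ⟨g, by rw [htp]; exact hg⟩ c =
        (tauc fu d : ℤ) * res fu (kkc fu d) g c + tauc fu d * kkc fu d *
          g1 (flatE fu d rz a s j g).2.1 c := by
      unfold ptF ptC ptE
      rw [vec_apply]
      exact g1_tab_lt _ c.2
    have h2 : res fu (kkD d) g c = (r c : ℕ) := by
      unfold res
      rw [dig_eq (kkD_pos d) ((Nat.pow_le_pow_right (kkD_pos d) c.2.le).trans hpow), hgd c c.2]
      exact dif_pos c.2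
    rw [h1, hc.kk, hc.tau, h2]

end Pool.Agent.MDF.S1
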