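import Pool.Agent.MDF.MainDefs
import Pool.Agent.MDF.Step1

/-!
# Step 1 in the form used by the main path
-/

set_option autoImplicit false

namespace Pool.Agent.MDF

open Pool.Agent.PF Pool.Agent.MonFPT Matrix

lemma stOK_toS1 {d X t : ℕ} {rz : Rows} {a : ZV} {J : List Piece} {k : ℕ} {WM WI : ZM}
    {γ : ZV} (h : StOK d X rz a J k WM WI γ) : S1.StOK d rz a X (t, 0, J, k, WM, WI, γ) where
  len := h.len
  pcs P hP := ⟨(h.pc P hP).dim, (h.pc P hP).rad, (h.pc P hP).mF, (h.pc P hP).v0,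
    fun z hz => (h.pc P hP).box z ((inRows_prow z).2 hz)⟩
  hk := h.hk
  uw := h.uw
  ga := h.vg
  ta := h.va

/-- **Step 1.** -/
theorem stepE_spec : ∃ F : ℕ → ℕ, EB F ∧ Monotone F ∧ StepEHyp F := by
  obtain ⟨F, hF1, hF2, hF3⟩ := S1.flatE_spec
  refine ⟨F, hF1, hF2, ?_⟩
  intro fu d X t rz a J k WM WI γ j σ o hst hfu ho
  have h := hF3 fu d X rz a (t, 0, J, k, WM, WI, γ) j σ (stOK_toS1 hst) hfu
  rw [← ho] at h
  rcases h with h | h | h
  · exact Or.inl ⟨h.st, h.vbo, h.mem, h.use⟩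
  · refine Or.inr (Or.inl ⟨h.st, h.pos, h.uw, h.vle, fun x hx => ?_⟩)
    obtain ⟨c, h1, h2, h3⟩ := h.flat x hx.1 hx.2
    have h4 : S1.bE fu d (eJ J j) σ o = bE fu d (eJ J j) σ o := rfl
    have h5 : vec (eJ J j) (row o.2.2.1 0) ⬝ᵥ x = bE fu d (eJ J j) σ o + c - 1 := h3
    rw [h5]
    have h6 : (c : ℤ) ≤ ((2 * tauc fu d * kkc fu d * (Gd fu d + 1) + 1 : ℕ) : ℤ) := by
      exact_mod_cast h2
    have h7 : (1 : ℤ) ≤ c := by exact_mod_cast h1
    push_cast at h6 ⊢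
    constructor <;> linarith
  · exact Or.inr (Or.inr ⟨h.st, fun x hx => h.emp x hx.1 hx.2⟩)

end Pool.Agent.MDF
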