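import Pool.Agent.MDF.LLL

/-!
# Tabulated vectors and matrices: entries and sizes
-/

set_option autoImplicit false

namespace Pool.Agent.MDF.LR

open Pool.Agent.PF

/-! ### Entries -/

lemma tab_length {γ : Type} (n : ℕ) (f : ℕ → γ) : (tab n f).length = n := by simp [tab]

lemma tab_getD {γ : Type} (n : ℕ) (f : ℕ → γ) (d : γ) (i : ℕ) :
    (tab n f).getD i d = if i < n then f i else d := by
  unfold tab
  rw [List.getD_eq_getElem?_getD, List.getElem?_map]
  split_ifs with h
  · rw [List.getElem?_range h]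
    rfl
  · rw [List.getElem?_eq_none (by simpa using h)]
    rfl

lemma tab_congr {γ : Type} {n : ℕ} {f f' : ℕ → γ} (h : ∀ i < n, f i = f' i) :
    tab n f = tab n f' := by
  unfold tab
  exact List.map_congr_left fun i hi => h i (List.mem_range.1 hi)

lemma g1_tab (n : ℕ) (f : ℕ → ℤ) (i : ℕ) : g1 (tab n f) i = if i < n then f i else 0 :=
  tab_getD n f 0 i

lemma g1_tab_lt {n : ℕ} (f : ℕ → ℤ) {i : ℕ} (h : i < n) : g1 (tab n f) i = f i := by
  rw [g1_tab, if_pos h]

lemma row_tabM (n m : ℕ) (f : ℕ → ℕ → ℤ) (i : ℕ) :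
    row (tabM n m f) i = if i < n then tab m (f i) else [] :=
  tab_getD n _ [] i

lemma row_tabM_lt {n : ℕ} (m : ℕ) (f : ℕ → ℕ → ℤ) {i : ℕ} (h : i < n) :
    row (tabM n m f) i = tab m (f i) := by
  rw [row_tabM, if_pos h]

lemma g2_tabM {n m : ℕ} (f : ℕ → ℕ → ℤ) {i j : ℕ} (hi : i < n) (hj : j < m) :
    g2 (tabM n m f) i j = f i j := by
  unfold g2
  rw [row_tabM_lt m f hi, g1_tab_lt _ hj]

lemma tabM_congr {n m : ℕ} {f f' : ℕ → ℕ → ℤ} (h : ∀ i < n, ∀ j < m, f i j = f' i j) :
    tabM n m f = tabM n m f' :=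
  tab_congr fun i hi => tab_congr fun j hj => h i hi j hj

lemma sumz_eq (n : ℕ) (f : ℕ → ℤ) : sumz n f = ∑ i ∈ Finset.range n, f i := by
  unfold sumz tab
  induction n with
  | zero => rfl
  | succ n ih => rw [List.sum_range_succ, Finset.sum_range_succ, ih]

lemma dot_eq (n : ℕ) (u v : ZV) : dot n u v = ∑ i ∈ Finset.range n, g1 u i * g1 v i :=
  sumz_eq n _

/-! ### Sizes -/

lemma sz_listBool_le (l : List Bool) : sz l ≤ 4 * l.length + 1 := by
  induction l with
  | nil => simp
  | cons a l ih =>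
    have := sz_bool_le a
    rw [sz_cons, List.length_cons]
    omega

lemma sz_int_le {z : ℤ} {b : ℕ} (h : |z| < 2 ^ b) : sz z ≤ 4 * b + 5 := by
  have h1 : sz z = sz (decide (z < 0), z.natAbs.bits) := rfl
  have h2 : z.natAbs.size ≤ b := by
    rw [Nat.size_le]
    have h3 : (z.natAbs : ℤ) < 2 ^ b := by
      rw [Int.natCast_natAbs]
      exact h
    exact_mod_cast h3
  have h4 := sz_listBool_le z.natAbs.bits
  rw [Nat.size_eq_bits_len] at h4
  have h5 := sz_bool_le (decide (z < 0))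
  rw [h1, sz_prod]
  omega

lemma sz_append {γ : Type} [VEnc γ] (l l' : List γ) : sz (l ++ l') + 1 = sz l + sz l' := by
  induction l with
  | nil => simp; omega
  | cons a l ih =>
    rw [List.cons_append, sz_cons, sz_cons]
    omega

lemma sz_tab_le {γ : Type} [VEnc γ] {n : ℕ} {f : ℕ → γ} {X : ℕ} (h : ∀ i < n, sz (f i) ≤ X) :
    sz (tab n f) ≤ n * (X + 1) + 1 := by
  induction n with
  | zero => simp [tab]
  | succ n ih =>
    have h1 : tab (n + 1) f = tab n f ++ [f n] := by
      unfold tab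
      rw [List.range_succ, List.map_append, List.map_singleton]
    have h2 := sz_append (tab n f) [f n]
    rw [← h1, sz_cons, sz_nil] at h2
    have h3 := ih fun i hi => h i (by omega)
    have h4 := h n (by omega)
    have h5 : (n + 1) * (X + 1) = n * (X + 1) + (X + 1) := by ring
    omega

lemma sz_tabM_le {n m : ℕ} {f : ℕ → ℕ → ℤ} {b : ℕ} (h : ∀ i < n, ∀ j < m, |f i j| < 2 ^ b) :
    sz (tabM n m f) ≤ n * (m * (4 * b + 6) + 2) + 1 := by
  have h1 := sz_tab_le (f := fun i => tab m fun j => f i j) (X := m * (4 * b + 6) + 1)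
    (n := n) (fun i hi => sz_tab_le fun j hj => sz_int_le (h i hi j hj))
  exact h1

end Pool.Agent.MDF.LR
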